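import Pool.Agent.Lib.H52K.K3

/-!
The history `memb` is legal and grows.
-/

namespace Pool.Agent.Lib.H52K

theorem A1a_memb_succ (n h a b t : ℕ) : memb n h a b (t + 1) =
    (memb n h a b t ++ (cand false n h a t).filter fun e => e ∉ memb n h a b t) ++
    (cand true n h b t).filter fun e => e ∉ (memb n h a b t ++
      (cand false n h a t).filter fun e => e ∉ memb n h a b t) := rfl

theorem A1a_mem_cand {s : Bool} {n h k t : ℕ} {e : Ev} : e ∈ cand s n h k t ↔
    e.1 = s ∧ e.2.1 < (En h 0 t).length ∧ e.2.2 < (En n 0 t).length ∧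
      (En n 0 t).getD e.2.2 0 ∈ En k ((En h 0 t).getD e.2.1 0) t := by
  unfold cand
  simp only [List.mem_flatMap, List.mem_range, List.mem_map, List.mem_filter,
    decide_eq_true_eq]
  constructor
  · rintro ⟨j, hj, v, ⟨hv, hm⟩, rfl⟩
    exact ⟨rfl, hj, hv, hm⟩
  · rintro ⟨h1, h2, h3, h4⟩
    refine ⟨e.2.1, h2, e.2.2, ⟨h3, h4⟩, ?_⟩
    rw [← h1]

theorem A1a_cand_nodup (s : Bool) (n h k t : ℕ) : (cand s n h k t).Nodup := by
  unfold cand
  rw [List.nodup_flatMap]
  constructor
  · intro j _
    refine List.Nodup.map ?_ (List.nodup_range.filter _)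
    intro v v' hvv
    simp only [Prod.mk.injEq] at hvv
    exact hvv.2.2
  · refine List.Pairwise.imp_of_mem ?_ (List.nodup_range (n := (En h 0 t).length))
    intro j j' _ _ hne
    simp only [Function.onFun, List.disjoint_left, List.mem_map]
    rintro e ⟨v, _, rfl⟩ ⟨v', _, he⟩
    simp only [Prod.mk.injEq] at he
    exact hne he.2.1.symm

theorem A1a_memb_nodup (n h a b t : ℕ) : (memb n h a b t).Nodup := by
  induction t with
  | zero => simp [memb]
  | succ t ih =>
    rw [A1a_memb_succ]
    refine List.Nodup.append (List.Nodup.append ih ((A1a_cand_nodup _ _ _ _ _).filter _) ?_)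
      ((A1a_cand_nodup _ _ _ _ _).filter _) ?_
    · intro e he he'
      simp only [List.mem_filter, decide_eq_true_eq] at he'
      exact he'.2 he
    · intro e he he'
      simp only [List.mem_filter, decide_eq_true_eq] at he'
      exact he'.2 he

theorem memb_prefix (n h a b : ℕ) {s t : ℕ} (hst : s ≤ t) :
    memb n h a b s <+: memb n h a b t := by
  induction t, hst using Nat.le_induction with
  | base => exact List.prefix_rfl
  | succ t _ ih =>
    refine ih.trans ?_
    rw [A1a_memb_succ, List.append_assoc]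
    exact List.prefix_append _ _

theorem A1a_getD_prefix {l l' : List ℕ} (h : l <+: l') {i : ℕ} (hi : i < l.length) :
    l'.getD i 0 = l.getD i 0 := by
  obtain ⟨m, rfl⟩ := h
  simp only [List.getD_eq_getElem?_getD]
  rw [List.getElem?_append_left hi]

theorem A1a_cand_mono {s : Bool} {n h k t t' : ℕ} (htt : t ≤ t') {e : Ev}
    (he : e ∈ cand s n h k t) : e ∈ cand s n h k t' := by
  rw [A1a_mem_cand] at he ⊢
  obtain ⟨h1, h2, h3, h4⟩ := he
  have p1 := En_prefix h 0 htt
  have p2 := En_prefix n 0 htt
  refine ⟨h1, h2.trans_le p1.length_le, h3.trans_le p2.length_le, ?_⟩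
  rw [A1a_getD_prefix p1 h2, A1a_getD_prefix p2 h3]
  exact (En_prefix k _ htt).subset h4

/-- The level of the side `s`. -/
def A1a_lev (a b : ℕ) (s : Bool) : ℕ := if s then b else a

theorem A1a_mem_memb {n h a b t : ℕ} {e : Ev} : e ∈ memb n h a b t ↔
    ∃ t' < t, e ∈ cand e.1 n h (A1a_lev a b e.1) t' := by
  induction t with
  | zero => simp [memb]
  | succ t ih =>
    rw [A1a_memb_succ]
    constructor
    · intro he
      rcases List.mem_append.1 he with he | he
      · rcases List.mem_append.1 he with he | he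
        · obtain ⟨t', h1, h2⟩ := ih.1 he
          exact ⟨t', by omega, h2⟩
        · have h1 := (List.mem_filter.1 he).1
          have h2 := (A1a_mem_cand.1 h1).1
          refine ⟨t, by omega, ?_⟩
          rw [h2]
          exact h1
      · have h1 := (List.mem_filter.1 he).1
        have h2 := (A1a_mem_cand.1 h1).1
        refine ⟨t, by omega, ?_⟩
        rw [h2]
        exact h1
    · rintro ⟨t', h1, h2⟩
      by_cases hlt : t' < t
      · exact List.mem_append_left _ (List.mem_append_left _ (ih.2 ⟨t', hlt, h2⟩))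
      · have h3 : t' = t := by omega
        subst h3
        by_cases hm : e ∈ memb n h a b t'
        · exact List.mem_append_left _ (List.mem_append_left _ hm)
        · rcases hs : e.1 with _ | _
          · rw [hs] at h2
            refine List.mem_append_left _ (List.mem_append_right _ ?_)
            rw [List.mem_filter]
            exact ⟨h2, by simpa using hm⟩
          · rw [hs] at h2
            by_cases hm2 : e ∈ (memb n h a b t' ++
                (cand false n h a t').filter fun e => e ∉ memb n h a b t')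
            · exact List.mem_append_left _ hm2
            · refine List.mem_append_right _ ?_
              rw [List.mem_filter]
              exact ⟨h2, decide_eq_true hm2⟩

/-- The elements of `memb n h a b t` are candidates at stage `t`. -/
theorem A1a_memb_cand {n h a b t : ℕ} {e : Ev} (he : e ∈ memb n h a b t) :
    e ∈ cand e.1 n h (A1a_lev a b e.1) t := by
  obtain ⟨t', h1, h2⟩ := A1a_mem_memb.1 he
  exact A1a_cand_mono h1.le h2

theorem A1a_Xl_nodup (s : Bool) {M : List Ev} (hM : M.Nodup) (j : ℕ) : (Xl s M j).Nodup := by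
  unfold Xl
  refine List.Nodup.filterMap ?_ hM
  intro e e' v hv hv'
  split_ifs at hv hv' with h1 h2
  · simp only [Option.mem_def, Option.some.injEq] at hv hv'
    refine Prod.ext (h1.1.trans h2.1.symm) (Prod.ext (h1.2.trans h2.2.symm) (hv.trans hv'.symm))
  all_goals simp at hv hv'

theorem A1a_mem_Xl {s : Bool} {M : List Ev} {j v : ℕ} : v ∈ Xl s M j ↔ (s, j, v) ∈ M := by
  unfold Xl
  rw [List.mem_filterMap]
  constructor
  · rintro ⟨e, he, hv⟩
    split_ifs at hv with h1
    simp only [Option.some.injEq] at hv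
    have : e = (s, j, v) := Prod.ext h1.1 (Prod.ext h1.2 hv)
    rwa [← this]
  · intro he
    exact ⟨(s, j, v), he, by simp⟩

theorem A1a_len (n h a b t : ℕ) (s : Bool) (j : ℕ) :
    (Xl s (memb n h a b t) j).length ≤ 2 ^ (A1a_lev a b s) := by
  classical
  have h1 := A1a_Xl_nodup s (A1a_memb_nodup n h a b t) j
  rw [← List.toFinset_card_of_nodup h1]
  set z := (En h 0 t).getD j 0
  have h2 : (Xl s (memb n h a b t) j).toFinset.card ≤ (En (A1a_lev a b s) z t).toFinset.card := by
    refine Finset.card_le_card_of_injOn (fun v => (En n 0 t).getD v 0) ?_ ?_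
    · intro v hv
      have hv' := A1a_mem_Xl.1 (List.mem_toFinset.1 (Finset.mem_coe.1 hv))
      have h3 := A1a_mem_cand.1 (A1a_memb_cand hv')
      exact Finset.mem_coe.2 (List.mem_toFinset.2 h3.2.2.2)
    · intro v hv v' hv' heq
      have h3 := (A1a_mem_cand.1 (A1a_memb_cand
        (A1a_mem_Xl.1 (List.mem_toFinset.1 (Finset.mem_coe.1 hv))))).2.2.1
      have h4 := (A1a_mem_cand.1 (A1a_memb_cand
        (A1a_mem_Xl.1 (List.mem_toFinset.1 (Finset.mem_coe.1 hv'))))).2.2.1
      simp only at h3 h4 heq
      rw [List.getD_eq_getElem _ _ h3, List.getD_eq_getElem _ _ h4] at heq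
      exact ((En_nodup n 0 t).getElem_inj_iff).1 heq
  refine h2.trans ((List.toFinset_card_le _).trans (En_length _ _ _))

theorem memb_legal (n h a b t : ℕ) : Legal n h a b (memb n h a b t) where
  nodup := A1a_memb_nodup n h a b t
  j_lt _ he := (A1a_mem_cand.1 (A1a_memb_cand he)).2.1.trans_le (En_length _ _ _)
  v_lt _ he := (A1a_mem_cand.1 (A1a_memb_cand he)).2.2.1.trans_le (En_length _ _ _)
  x_len j := A1a_len n h a b t false j
  y_len j := A1a_len n h a b t true j

theorem cntX_le {n h a b : ℕ} {M : List Ev} (hM : Legal n h a b M) (x y : ℕ) :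
    cntX M x y ≤ 2 ^ h := by
  classical
  unfold cntX
  set L := M.filter fun e => e.1 = true ∧ e.2.2 = y ∧ (false, e.2.1, x) ∈ M.take (M.idxOf e)
    with hL
  have h1 : L.Nodup := hM.nodup.filter _
  rw [← List.toFinset_card_of_nodup h1, ← Finset.card_range (2 ^ h)]
  refine Finset.card_le_card_of_injOn (fun e => e.2.1) ?_ ?_
  · intro e he
    have he' := List.mem_toFinset.1 (Finset.mem_coe.1 he)
    rw [hL, List.mem_filter] at he'
    exact Finset.mem_coe.2 (Finset.mem_range.2 (hM.j_lt e he'.1))
  · intro e he e' he' heq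
    have h2 := List.mem_toFinset.1 (Finset.mem_coe.1 he)
    have h3 := List.mem_toFinset.1 (Finset.mem_coe.1 he')
    rw [hL, List.mem_filter] at h2 h3
    simp only [decide_eq_true_eq] at h2 h3
    exact Prod.ext (h2.2.1.trans h3.2.1.symm) (Prod.ext heq (h2.2.2.1.trans h3.2.2.1.symm))

theorem A1a_take_idxOf {M N : List Ev} {e : Ev} (he : e ∈ M) :
    (M ++ N).take ((M ++ N).idxOf e) = M.take (M.idxOf e) := by
  rw [List.idxOf_append_of_mem he, List.take_append_of_le_length]
  exact (List.idxOf_lt_length_iff.2 he).le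

theorem cntX_mono {M M' : List Ev} (h : M <+: M') (hM : M'.Nodup) (x y : ℕ) :
    cntX M x y ≤ cntX M' x y := by
  obtain ⟨N, rfl⟩ := h
  unfold cntX
  rw [List.filter_append, List.length_append]
  refine le_trans (le_of_eq ?_) (Nat.le_add_right _ _)
  congr 1
  refine List.filter_congr fun e he => ?_
  rw [A1a_take_idxOf he]

end Pool.Agent.Lib.H52K
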