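import Pool.Agent.Lib.H52K.K3c

/-!
Computability of `memb`.
-/

namespace Pool.Agent.Lib.H52K

theorem A1b_cand (s : Bool) : Primrec fun q : (ℕ × ℕ × ℕ) × ℕ =>
    cand s q.1.1 q.1.2.1 q.1.2.2 q.2 := by
  unfold cand
  have hEh : Primrec fun q : (ℕ × ℕ × ℕ) × ℕ => En q.1.2.1 0 q.2 :=
    K3c_En.comp (Primrec.pair (Primrec.pair (Primrec.fst.comp (Primrec.snd.comp Primrec.fst))
      (Primrec.const 0)) Primrec.snd)
  have hEn : Primrec fun q : (ℕ × ℕ × ℕ) × ℕ => En q.1.1 0 q.2 :=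
    K3c_En.comp (Primrec.pair (Primrec.pair (Primrec.fst.comp Primrec.fst)
      (Primrec.const 0)) Primrec.snd)
  refine Primrec.list_flatMap (Primrec.list_range.comp (Primrec.list_length.comp hEh)) ?_
  refine Primrec.list_map ?_ ?_
  · refine filter_primrec
      (f := fun r : ((ℕ × ℕ × ℕ) × ℕ) × ℕ => List.range (En r.1.1.1 0 r.1.2).length)
      (p := fun r v => (En r.1.1.1 0 r.1.2).getD v 0 ∈
        En r.1.1.2.2 ((En r.1.1.2.1 0 r.1.2).getD r.2 0) r.1.2) ?_ ?_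
    · exact Primrec.list_range.comp (Primrec.list_length.comp (hEn.comp Primrec.fst))
    · have h1 : Primrec fun r : (((ℕ × ℕ × ℕ) × ℕ) × ℕ) × ℕ =>
          (En r.1.1.1.1 0 r.1.1.2).getD r.2 0 :=
        (Primrec.list_getD 0).comp (hEn.comp (Primrec.fst.comp Primrec.fst)) Primrec.snd
      have h2 : Primrec fun r : (((ℕ × ℕ × ℕ) × ℕ) × ℕ) × ℕ =>
          (En r.1.1.1.2.1 0 r.1.1.2).getD r.1.2 0 :=
        (Primrec.list_getD 0).comp (hEh.comp (Primrec.fst.comp Primrec.fst))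
          (Primrec.snd.comp Primrec.fst)
      have h3 : Primrec fun r : (((ℕ × ℕ × ℕ) × ℕ) × ℕ) × ℕ =>
          En r.1.1.1.2.2 ((En r.1.1.1.2.1 0 r.1.1.2).getD r.1.2 0) r.1.1.2 :=
        K3c_En.comp (Primrec.pair (Primrec.pair
          (Primrec.snd.comp (Primrec.snd.comp (Primrec.fst.comp
            (Primrec.fst.comp Primrec.fst)))) h2)
          (Primrec.snd.comp (Primrec.fst.comp Primrec.fst)))
      exact mem_primrec.comp h1 h3
  · exact Primrec.pair (Primrec.const s) (Primrec.pair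
      (Primrec.snd.comp Primrec.fst) Primrec.snd)

/-- One step: append the new elements of a list. -/
theorem A1b_add {α : Type} [Primcodable α] {f g : α → List Ev} (hf : Primrec f)
    (hg : Primrec g) : Primrec fun x => f x ++ (g x).filter fun e => e ∉ f x := by
  refine Primrec.list_append.comp hf ?_
  refine filter_primrec (p := fun x e => e ∉ f x) hg ?_
  have h1 : PrimrecRel fun (x : α) (e : Ev) => e ∈ f x :=
    mem_primrec.comp Primrec.snd (hf.comp Primrec.fst)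
  exact h1.not

/-- The step of `memb`. -/
def A1b_step (n h a b t : ℕ) (l : List Ev) : List Ev :=
  (l ++ (cand false n h a t).filter fun e => e ∉ l) ++
    (cand true n h b t).filter fun e => e ∉
      (l ++ (cand false n h a t).filter fun e => e ∉ l)

theorem A1b_memb_succ (n h a b t : ℕ) :
    memb n h a b (t + 1) = A1b_step n h a b t (memb n h a b t) := rfl

theorem A1b_rec (n h a b t : ℕ) :
    (Nat.rec [] (fun t l => A1b_step n h a b t l) t : List Ev) = memb n h a b t := by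
  induction t with
  | zero => rfl
  | succ t ih =>
    rw [A1b_memb_succ, ← ih]

theorem A1b_step_primrec : Primrec fun r : ((ℕ × ℕ × ℕ × ℕ) × ℕ) × (ℕ × List Ev) =>
    A1b_step r.1.1.1 r.1.1.2.1 r.1.1.2.2.1 r.1.1.2.2.2 r.2.1 r.2.2 := by
  have hn : Primrec fun r : ((ℕ × ℕ × ℕ × ℕ) × ℕ) × (ℕ × List Ev) => r.1.1.1 :=
    Primrec.fst.comp (Primrec.fst.comp Primrec.fst)
  have hh : Primrec fun r : ((ℕ × ℕ × ℕ × ℕ) × ℕ) × (ℕ × List Ev) => r.1.1.2.1 :=
    Primrec.fst.comp (Primrec.snd.comp (Primrec.fst.comp Primrec.fst))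
  have ha : Primrec fun r : ((ℕ × ℕ × ℕ × ℕ) × ℕ) × (ℕ × List Ev) => r.1.1.2.2.1 :=
    Primrec.fst.comp (Primrec.snd.comp (Primrec.snd.comp (Primrec.fst.comp Primrec.fst)))
  have hb : Primrec fun r : ((ℕ × ℕ × ℕ × ℕ) × ℕ) × (ℕ × List Ev) => r.1.1.2.2.2 :=
    Primrec.snd.comp (Primrec.snd.comp (Primrec.snd.comp (Primrec.fst.comp Primrec.fst)))
  have ht : Primrec fun r : ((ℕ × ℕ × ℕ × ℕ) × ℕ) × (ℕ × List Ev) => r.2.1 :=
    Primrec.fst.comp Primrec.snd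
  have hl : Primrec fun r : ((ℕ × ℕ × ℕ × ℕ) × ℕ) × (ℕ × List Ev) => r.2.2 :=
    Primrec.snd.comp Primrec.snd
  have hcA : Primrec fun r : ((ℕ × ℕ × ℕ × ℕ) × ℕ) × (ℕ × List Ev) =>
      cand false r.1.1.1 r.1.1.2.1 r.1.1.2.2.1 r.2.1 := by
    have h0 := (A1b_cand false).comp (Primrec.pair (Primrec.pair hn (Primrec.pair hh ha)) ht)
    exact h0
  have hcB : Primrec fun r : ((ℕ × ℕ × ℕ × ℕ) × ℕ) × (ℕ × List Ev) =>
      cand true r.1.1.1 r.1.1.2.1 r.1.1.2.2.2 r.2.1 := by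
    have h0 := (A1b_cand true).comp (Primrec.pair (Primrec.pair hn (Primrec.pair hh hb)) ht)
    exact h0
  have h1 := A1b_add hl hcA
  have h2 := A1b_add h1 hcB
  unfold A1b_step
  exact h2

theorem A1b_memb : Primrec fun p : (ℕ × ℕ × ℕ × ℕ) × ℕ =>
    memb p.1.1 p.1.2.1 p.1.2.2.1 p.1.2.2.2 p.2 := by
  have h : Primrec fun p : (ℕ × ℕ × ℕ × ℕ) × ℕ => (Nat.rec [] (fun t l =>
      A1b_step p.1.1 p.1.2.1 p.1.2.2.1 p.1.2.2.2 t l) p.2 : List Ev) :=
    Primrec.nat_rec' (h := fun (p : (ℕ × ℕ × ℕ × ℕ) × ℕ) (q : ℕ × List Ev) =>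
      A1b_step p.1.1 p.1.2.1 p.1.2.2.1 p.1.2.2.2 q.1 q.2)
      Primrec.snd (Primrec.const []) A1b_step_primrec
  exact h.of_eq fun p => A1b_rec _ _ _ _ _

theorem memb_computable : Computable fun p : (ℕ × ℕ × ℕ × ℕ) × ℕ =>
    memb p.1.1 p.1.2.1 p.1.2.2.1 p.1.2.2.2 p.2 := A1b_memb.to_comp

end Pool.Agent.Lib.H52K
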