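import Pool.Agent.Lib.H52K.A1a

/-!
For `z = z_j ∈ Dst` let `t_x`, `t_y` be the first stages at which `x ∈ En a z_j`, `y ∈ En b z_j` are seen
(together with the indices `j`, `ix`, `iy`). In `memb n h a b` the event `(false, j, ix)` enters in the
first half of stage `t_x` and `(true, j, iy)` in the second half of stage `t_y`, so `j` is counted in the
first term if `t_x ≤ t_y` and, by symmetry, in the second term if `t_y ≤ t_x`.
-/

namespace Pool.Agent.Lib.H52K

theorem Dst_finite (h a b x y : ℕ) : (Dst h a b x y).Finite :=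
  (KS_finite h 0).subset fun _ hz => hz.1

/-- The list of the events counted in `cntX`. -/
def A1c_L (M : List Ev) (x y : ℕ) : List Ev :=
  M.filter fun e => e.1 = true ∧ e.2.2 = y ∧ (false, e.2.1, x) ∈ M.take (M.idxOf e)

theorem A1c_count {n h a b T t1 t2 j u v : ℕ} (h1 : (false, j, u) ∈ cand false n h a t1)
    (h2 : (true, j, v) ∈ cand true n h b t2) (hle : t1 ≤ t2)
    (hmin : ∀ t' < t2, (true, j, v) ∉ cand true n h b t') (hT : t2 ≤ T) :
    (true, j, v) ∈ A1c_L (memb n h a b (T + 1)) u v := by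
  set M := memb n h a b (T + 1) with hM
  set M1 := memb n h a b t2 ++ (cand false n h a t2).filter fun e => e ∉ memb n h a b t2
    with hM1
  have hpre : M1 <+: M := by
    have h3 : memb n h a b (t2 + 1) <+: M := memb_prefix n h a b (by omega)
    refine List.IsPrefix.trans ?_ h3
    rw [A1a_memb_succ]
    exact List.prefix_append _ _
  have he1 : ((false, j, u) : Ev) ∈ M1 := by
    by_cases hm : ((false, j, u) : Ev) ∈ memb n h a b t2
    · exact List.mem_append_left _ hm
    · refine List.mem_append_right _ (List.mem_filter.2 ⟨A1a_cand_mono hle h1, ?_⟩)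
      exact decide_eq_true hm
  have he2 : ((true, j, v) : Ev) ∉ M1 := by
    intro hmem
    rcases List.mem_append.1 hmem with h3 | h3
    · obtain ⟨t', h4, h5⟩ := A1a_mem_memb.1 h3
      exact hmin t' h4 h5
    · have h4 := (A1a_mem_cand.1 (List.mem_filter.1 h3).1).1
      simp at h4
  have he2M : ((true, j, v) : Ev) ∈ M := A1a_mem_memb.2 ⟨t2, by omega, h2⟩
  unfold A1c_L
  rw [List.mem_filter]
  refine ⟨he2M, decide_eq_true ⟨rfl, rfl, ?_⟩⟩
  obtain ⟨N, hN⟩ := hpre
  have hidx : M1.length ≤ M.idxOf (true, j, v) := by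
    rw [← hN, List.idxOf_append_of_notMem he2]
    omega
  have h6 : M1 <+: M.take (M.idxOf (true, j, v)) := by
    rw [List.prefix_take_iff]
    exact ⟨⟨N, hN⟩, hidx⟩
  exact h6.subset he1

theorem A1c_cand_swap {s s' : Bool} {n h k t j v : ℕ} (he : (s, j, v) ∈ cand s n h k t) :
    (s', j, v) ∈ cand s' n h k t := by
  rw [A1a_mem_cand] at he ⊢
  exact ⟨rfl, he.2⟩

/-- Every `z` in `Dst` is counted in one of the two histories. -/
theorem Dst_le_cntX (n h a b x y ix iy t₀ : ℕ) (hx : (En n 0 t₀)[ix]? = some x)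
    (hy : (En n 0 t₀)[iy]? = some y) : ∃ t, (Dst h a b x y).ncard ≤
      cntX (memb n h a b t) ix iy + cntX (memb n h b a t) iy ix := by
  classical
  -- a stage at which everything is seen
  have hex : ∀ z ∈ Dst h a b x y, ∃ t, z ∈ En h 0 t ∧ x ∈ En a z t ∧ y ∈ En b z t := by
    intro z hz
    obtain ⟨t1, h1⟩ := exists_mem_En hz.1
    obtain ⟨t2, h2⟩ := exists_mem_En hz.2.1
    obtain ⟨t3, h3⟩ := exists_mem_En hz.2.2
    exact ⟨max t1 (max t2 t3), (En_prefix _ _ (le_max_left _ _)).subset h1,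
      (En_prefix _ _ ((le_max_left _ _).trans (le_max_right _ _))).subset h2,
      (En_prefix _ _ ((le_max_right _ _).trans (le_max_right _ _))).subset h3⟩
  set D := (Dst_finite h a b x y).toFinset with hD
  obtain ⟨T, hT0, hT⟩ : ∃ T, t₀ ≤ T ∧ ∀ z ∈ D, z ∈ En h 0 T ∧ x ∈ En a z T ∧ y ∈ En b z T := by
    choose! f hf using hex
    refine ⟨t₀ + ∑ z ∈ D, f z, by omega, fun z hz => ?_⟩
    have h1 : f z ≤ t₀ + ∑ z ∈ D, f z := by
      have := Finset.single_le_sum (f := f) (fun i _ => Nat.zero_le _) hz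
      omega
    have h2 := hf z ((Dst_finite h a b x y).mem_toFinset.1 hz)
    exact ⟨(En_prefix _ _ h1).subset h2.1, (En_prefix _ _ h1).subset h2.2.1,
      (En_prefix _ _ h1).subset h2.2.2⟩
  set J : ℕ → ℕ := fun z => (En h 0 T).idxOf z with hJ
  have hJlt : ∀ z ∈ D, J z < (En h 0 T).length := fun z hz =>
    List.idxOf_lt_length_iff.2 (hT z hz).1
  have hJget : ∀ z ∈ D, (En h 0 T).getD (J z) 0 = z := by
    intro z hz
    rw [List.getD_eq_getElem _ _ (hJlt z hz)]
    exact List.getElem_idxOf (hJlt z hz)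
  have hJinj : ∀ z ∈ D, ∀ z' ∈ D, J z = J z' → z = z' := by
    intro z hz z' hz' he
    rw [← hJget z hz, he, hJget z' hz']
  have hget : ∀ (i w : ℕ), (En n 0 t₀)[i]? = some w →
      i < (En n 0 T).length ∧ (En n 0 T).getD i 0 = w := by
    intro i w hi
    have hp := En_prefix n 0 hT0
    obtain ⟨hi1, hi2⟩ := List.getElem?_eq_some_iff.1 hi
    refine ⟨hi1.trans_le hp.length_le, ?_⟩
    rw [A1a_getD_prefix hp hi1, List.getD_eq_getElem _ _ hi1, hi2]
  have hcx : ∀ z ∈ D, (false, J z, ix) ∈ cand false n h a T := by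
    intro z hz
    obtain ⟨h1, h2⟩ := hget ix x hx
    rw [A1a_mem_cand]
    refine ⟨rfl, hJlt z hz, h1, ?_⟩
    simp only
    rw [h2, hJget z hz]
    exact (hT z hz).2.1
  have hcy : ∀ z ∈ D, (true, J z, iy) ∈ cand true n h b T := by
    intro z hz
    obtain ⟨h1, h2⟩ := hget iy y hy
    rw [A1a_mem_cand]
    refine ⟨rfl, hJlt z hz, h1, ?_⟩
    simp only
    rw [h2, hJget z hz]
    exact (hT z hz).2.2
  -- every z is counted
  have hkey : ∀ z ∈ D, (true, J z, iy) ∈ A1c_L (memb n h a b (T + 1)) ix iy ∨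
      (true, J z, ix) ∈ A1c_L (memb n h b a (T + 1)) iy ix := by
    intro z hz
    have ex1 : ∃ t, (false, J z, ix) ∈ cand false n h a t := ⟨T, hcx z hz⟩
    have ex2 : ∃ t, (true, J z, iy) ∈ cand true n h b t := ⟨T, hcy z hz⟩
    rcases le_total (Nat.find ex1) (Nat.find ex2) with hle | hle
    · left
      refine A1c_count (Nat.find_spec ex1) (Nat.find_spec ex2) hle
        (fun t' ht' => Nat.find_min ex2 ht') (Nat.find_min' ex2 (hcy z hz))
    · right
      refine A1c_count (A1c_cand_swap (Nat.find_spec ex2)) (A1c_cand_swap (Nat.find_spec ex1))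
        hle (fun t' ht' hmem => Nat.find_min ex1 ht' (A1c_cand_swap hmem))
        (Nat.find_min' ex1 (hcx z hz))
  refine ⟨T + 1, ?_⟩
  rw [Set.ncard_eq_toFinset_card _ (Dst_finite h a b x y), ← hD]
  have hcard : ∀ (M : List Ev) (u v : ℕ) (S : Finset ℕ), S ⊆ D →
      (∀ z ∈ S, (true, J z, v) ∈ A1c_L M u v) → S.card ≤ cntX M u v := by
    intro M u v S hS hmem
    have h1 : S.card ≤ (A1c_L M u v).toFinset.card := by
      refine Finset.card_le_card_of_injOn (fun z => ((true, J z, v) : Ev)) ?_ ?_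
      · intro z hz
        exact Finset.mem_coe.2 (List.mem_toFinset.2 (hmem z hz))
      · intro z hz z' hz' he
        simp only [Prod.mk.injEq] at he
        exact hJinj z (hS hz) z' (hS hz') he.2.1
    exact h1.trans (List.toFinset_card_le _)
  rw [← Finset.card_filter_add_card_filter_not
    (s := D) (fun z => (true, J z, iy) ∈ A1c_L (memb n h a b (T + 1)) ix iy)]
  refine Nat.add_le_add ?_ ?_
  · exact hcard _ _ _ _ (Finset.filter_subset _ _) fun z hz => (Finset.mem_filter.1 hz).2
  · refine hcard _ _ _ _ (Finset.filter_subset _ _) fun z hz => ?_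
    obtain ⟨h1, h2⟩ := Finset.mem_filter.1 hz
    exact (hkey z h1).resolve_left h2

end Pool.Agent.Lib.H52K
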