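import Pool.Agent.Lib.H52K.K2

/-!
The enumeration `En k z` of `{x | KS x z ≤ k}`.
-/

namespace Pool.Agent.Lib.H52K

theorem K3_En_succ (k z t : ℕ) :
    En k z (t + 1) = En k z t ++ ((found k z t).dedup.filter fun x => x ∉ En k z t) := rfl

theorem K3_mem_found {k z t x : ℕ} : x ∈ found k z t ↔ ∃ e w, 2 * Nat.size e + Nat.size w + 1 ≤ k ∧
    x ∈ Nat.Partrec.Code.evaln t (Denumerable.ofNat Nat.Partrec.Code e) (Nat.pair w z) := by
  unfold found
  simp only [List.mem_flatMap, List.mem_range, List.mem_filterMap]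
  constructor
  · rintro ⟨e, -, w, -, h⟩
    split_ifs at h with h1
    exact ⟨e, w, h1, h⟩
  · rintro ⟨e, w, h1, h⟩
    have h2 : Nat.size e ≤ k := by omega
    have h3 : Nat.size w ≤ k := by omega
    exact ⟨e, Nat.size_le.1 h2, w, Nat.size_le.1 h3, by rw [if_pos h1]; exact h⟩

theorem En_nodup (k z t : ℕ) : (En k z t).Nodup := by
  induction t with
  | zero => simp [En]
  | succ t ih =>
    rw [K3_En_succ]
    refine List.Nodup.append ih ((List.nodup_dedup _).filter _) ?_
    intro x hx hx'
    simp only [List.mem_filter, decide_eq_true_eq] at hx'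
    exact hx'.2 hx

theorem En_prefix (k z : ℕ) {s t : ℕ} (h : s ≤ t) : En k z s <+: En k z t := by
  induction t, h using Nat.le_induction with
  | base => exact List.prefix_rfl
  | succ t _ ih => exact ih.trans (by rw [K3_En_succ]; exact List.prefix_append _ _)

theorem KS_le_of_mem_En {k z t x : ℕ} (h : x ∈ En k z t) : KS x z ≤ k := by
  induction t with
  | zero => simp [En] at h
  | succ t ih =>
    rw [K3_En_succ, List.mem_append] at h
    rcases h with h | h
    · exact ih h
    · simp only [List.mem_filter, List.mem_dedup] at h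
      obtain ⟨e, w, h1, h2⟩ := K3_mem_found.1 h.1
      have h3 := Nat.Partrec.Code.evaln_sound h2
      have h4 := KS_le_of_code (Denumerable.ofNat Nat.Partrec.Code e) w x z (Part.eq_some_iff.2 h3)
      rw [Denumerable.encode_ofNat] at h4
      exact h4.trans h1

theorem exists_mem_En {k z x : ℕ} (h : KS x z ≤ k) : ∃ t, x ∈ En k z t := by
  obtain ⟨c, w, h1, h2⟩ := KS_spec x z
  have h3 : x ∈ c.eval (Nat.pair w z) := by rw [h1]; exact Part.mem_some _
  obtain ⟨t, ht⟩ := Nat.Partrec.Code.evaln_complete.1 h3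
  have h4 : x ∈ found k z t := K3_mem_found.2 ⟨Encodable.encode c, w, h2.trans h, by
    rw [Denumerable.ofNat_encode]; exact ht⟩
  refine ⟨t + 1, ?_⟩
  rw [K3_En_succ, List.mem_append]
  by_cases hx : x ∈ En k z t
  · exact Or.inl hx
  · right
    simp only [List.mem_filter, List.mem_dedup, decide_eq_true_eq]
    exact ⟨h4, hx⟩

theorem En_length (k z t : ℕ) : (En k z t).length ≤ 2 ^ k := by
  rw [← List.toFinset_card_of_nodup (En_nodup k z t)]
  exact KS_card_le k z _ fun x hx => KS_le_of_mem_En (List.mem_toFinset.1 hx)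

end Pool.Agent.Lib.H52K
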