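import Pool.Agent.Lib.H52K.P0
import Pool.Agent.Lib.H52K.K3

/-!
Computability of `En` (everything is primitive recursive, `Nat.Partrec.Code.primrec_evaln`).
-/

namespace Pool.Agent.Lib.H52K

theorem K3c_dedup : Primrec (fun l : List ℕ => l.dedup) := by
  have h : Primrec fun l : List ℕ =>
      l.foldr (fun x IH => if x ∈ IH then IH else x :: IH) [] := by
    refine Primrec.list_foldr (h := fun _ (p : ℕ × List ℕ) => if p.1 ∈ p.2 then p.2 else p.1 :: p.2)
      Primrec.id (Primrec.const []) ?_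
    refine Primrec.ite ?_ ?_ ?_
    · exact PrimrecRel.comp (R := fun (a : ℕ) (l : List ℕ) => a ∈ l) mem_primrec
        (Primrec.fst.comp Primrec.snd) (Primrec.snd.comp Primrec.snd)
    · exact Primrec.snd.comp Primrec.snd
    · exact Primrec.list_cons.comp (Primrec.fst.comp Primrec.snd) (Primrec.snd.comp Primrec.snd)
  refine h.of_eq fun l => ?_
  induction l with
  | nil => rfl
  | cons a l ih =>
    rw [List.foldr_cons, ih]
    by_cases ha : a ∈ l
    · rw [List.dedup_cons_of_mem ha, if_pos (List.mem_dedup.2 ha)]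
    · rw [List.dedup_cons_of_notMem ha, if_neg (fun h => ha (List.mem_dedup.1 h))]

theorem K3c_found : Primrec fun p : (ℕ × ℕ) × ℕ => found p.1.1 p.1.2 p.2 := by
  unfold found
  have hr : Primrec fun p : (ℕ × ℕ) × ℕ => List.range (2 ^ p.1.1) :=
    Primrec.list_range.comp (pow_primrec.comp (Primrec.const 2) (Primrec.fst.comp Primrec.fst))
  refine Primrec.list_flatMap hr ?_
  refine Primrec.listFilterMap (hr.comp Primrec.fst) ?_
  have he : Primrec fun q : (((ℕ × ℕ) × ℕ) × ℕ) × ℕ => q.1.2 := Primrec.snd.comp Primrec.fst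
  have hw : Primrec fun q : (((ℕ × ℕ) × ℕ) × ℕ) × ℕ => q.2 := Primrec.snd
  have hk : Primrec fun q : (((ℕ × ℕ) × ℕ) × ℕ) × ℕ => q.1.1.1.1 :=
    Primrec.fst.comp (Primrec.fst.comp (Primrec.fst.comp Primrec.fst))
  have hz : Primrec fun q : (((ℕ × ℕ) × ℕ) × ℕ) × ℕ => q.1.1.1.2 :=
    Primrec.snd.comp (Primrec.fst.comp (Primrec.fst.comp Primrec.fst))
  have ht : Primrec fun q : (((ℕ × ℕ) × ℕ) × ℕ) × ℕ => q.1.1.2 :=
    Primrec.snd.comp (Primrec.fst.comp Primrec.fst)
  refine Primrec.ite ?_ ?_ (Primrec.const none)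
  · exact Primrec.nat_le.comp (Primrec.nat_add.comp (Primrec.nat_add.comp
      (Primrec.nat_mul.comp (Primrec.const 2) (size_primrec.comp he)) (size_primrec.comp hw))
      (Primrec.const 1)) hk
  · exact Nat.Partrec.Code.primrec_evaln.comp (Primrec.pair (Primrec.pair ht
      ((Primrec.ofNat Nat.Partrec.Code).comp he)) (Primrec₂.natPair.comp hw hz))

theorem K3c_En : Primrec fun p : (ℕ × ℕ) × ℕ => En p.1.1 p.1.2 p.2 := by
  have h : Primrec fun p : (ℕ × ℕ) × ℕ => (Nat.rec [] (fun t l =>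
      l ++ ((found p.1.1 p.1.2 t).dedup.filter fun x => x ∉ l)) p.2 : List ℕ) := by
    refine Primrec.nat_rec' (h := fun (p : (ℕ × ℕ) × ℕ) (q : ℕ × List ℕ) =>
      q.2 ++ ((found p.1.1 p.1.2 q.1).dedup.filter fun x => x ∉ q.2)) Primrec.snd (Primrec.const []) ?_
    refine Primrec.list_append.comp (Primrec.snd.comp Primrec.snd) ?_
    refine filter_primrec (p := fun (r : ((ℕ × ℕ) × ℕ) × (ℕ × List ℕ)) x => x ∉ r.2.2) ?_ ?_
    · have h1 : Primrec fun r : ((ℕ × ℕ) × ℕ) × (ℕ × List ℕ) => (r.1.1, r.2.1) :=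
        Primrec.pair (Primrec.fst.comp Primrec.fst) (Primrec.fst.comp Primrec.snd)
      exact K3c_dedup.comp (K3c_found.comp h1)
    · have h1 : Primrec fun r : (((ℕ × ℕ) × ℕ) × (ℕ × List ℕ)) × ℕ => r.1.2.2 :=
        Primrec.snd.comp (Primrec.snd.comp Primrec.fst)
      exact PrimrecPred.not (PrimrecRel.comp (R := fun (a : ℕ) (l : List ℕ) => a ∈ l) mem_primrec
        Primrec.snd h1)
  refine h.of_eq fun p => ?_
  obtain ⟨⟨k, z⟩, t⟩ := p
  simp only
  induction t with
  | zero => rfl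
  | succ t ih => rw [K3_En_succ, ← ih]

theorem found_computable : Computable fun p : (ℕ × ℕ) × ℕ => found p.1.1 p.1.2 p.2 :=
  K3c_found.to_comp

theorem En_computable : Computable fun p : (ℕ × ℕ) × ℕ => En p.1.1 p.1.2 p.2 :=
  K3c_En.to_comp

end Pool.Agent.Lib.H52K
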