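import Pool.Agent.Lib.H52K.P0

/-!
The self-delimiting pairing `enc`: `size θ` is the number of final zeros of `enc θ i`; the odd part is
`2 r + 1` with `θ = r % 2 ^ size θ`, `i = r / 2 ^ size θ`.
-/

namespace Pool.Agent.Lib.H52K

theorem K4_pow2 : Primrec fun n : ℕ => 2 ^ n := pow_primrec.comp (Primrec.const 2) Primrec.id

theorem enc_computable : Computable fun p : ℕ × ℕ => enc p.1 p.2 := by
  apply Primrec.to_comp
  have h1 : Primrec fun p : ℕ × ℕ => 2 ^ Nat.size p.1 :=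
    K4_pow2.comp (size_primrec.comp Primrec.fst)
  have h2 : Primrec fun p : ℕ × ℕ => 2 ^ Nat.size p.1 * p.2 :=
    Primrec.nat_mul.comp h1 Primrec.snd
  have h3 : Primrec fun p : ℕ × ℕ => p.1 + 2 ^ Nat.size p.1 * p.2 :=
    Primrec.nat_add.comp Primrec.fst h2
  have h4 : Primrec fun p : ℕ × ℕ => 2 * (p.1 + 2 ^ Nat.size p.1 * p.2) :=
    Primrec.nat_mul.comp (Primrec.const 2) h3
  have h5 : Primrec fun p : ℕ × ℕ => 2 * (p.1 + 2 ^ Nat.size p.1 * p.2) + 1 :=
    Primrec.succ.comp h4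
  exact Primrec.nat_mul.comp h1 h5

/-- The test for the number of final zeros. -/
def K4_test (a w : ℕ) : Bool := decide ((a % 2 ^ w = 0 ∧ ¬ a % 2 ^ (w + 1) = 0) ∨ a = 0)

theorem K4_test_primrec : Primrec₂ K4_test := by
  have h1 : Primrec fun p : ℕ × ℕ => p.1 % 2 ^ p.2 :=
    Primrec.nat_mod.comp Primrec.fst (K4_pow2.comp Primrec.snd)
  have h2 : Primrec fun p : ℕ × ℕ => p.1 % 2 ^ (p.2 + 1) :=
    Primrec.nat_mod.comp Primrec.fst (K4_pow2.comp (Primrec.succ.comp Primrec.snd))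
  have e1 : PrimrecPred fun p : ℕ × ℕ => p.1 % 2 ^ p.2 = 0 :=
    Primrec.eq.comp h1 (Primrec.const 0)
  have e2 : PrimrecPred fun p : ℕ × ℕ => p.1 % 2 ^ (p.2 + 1) = 0 :=
    Primrec.eq.comp h2 (Primrec.const 0)
  have e3 : PrimrecPred fun p : ℕ × ℕ => p.1 = 0 :=
    Primrec.eq.comp Primrec.fst (Primrec.const 0)
  have e4 := (e1.and e2.not).or e3
  exact e4.decide

theorem exists_dec : ∃ dec : ℕ → ℕ × ℕ, Computable dec ∧ ∀ θ i, dec (enc θ i) = (θ, i) := by
  obtain ⟨f, hf, hf'⟩ := search_computable K4_test K4_test_primrec.to_comp (by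
    intro a
    rcases Nat.eq_zero_or_pos a with h0 | h0
    · exact ⟨0, by simp [K4_test, h0]⟩
    · have hex : ∃ w, ¬ a % 2 ^ w = 0 := by
        refine ⟨a, ?_⟩
        rw [Nat.mod_eq_of_lt Nat.lt_two_pow_self]
        omega
      classical
      have hs := Nat.find_spec hex
      have hm := @Nat.find_min _ _ hex
      have hpos : 0 < Nat.find hex := by
        rw [Nat.find_pos]
        simp [Nat.mod_one]
      refine ⟨Nat.find hex - 1, ?_⟩
      have e : Nat.find hex - 1 + 1 = Nat.find hex := by omega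
      have h1 : a % 2 ^ (Nat.find hex - 1) = 0 := by
        have := hm (m := Nat.find hex - 1) (by omega)
        exact not_not.1 this
      unfold K4_test
      rw [decide_eq_true_eq, e]
      exact Or.inl ⟨h1, hs⟩)
  have hcomp : Computable fun e : ℕ =>
      ((((e / 2 ^ f e) - 1) / 2) % 2 ^ f e, (((e / 2 ^ f e) - 1) / 2) / 2 ^ f e) := by
    have g1 : Primrec₂ fun e w : ℕ =>
        ((((e / 2 ^ w) - 1) / 2) % 2 ^ w, (((e / 2 ^ w) - 1) / 2) / 2 ^ w) := by
      have p0 : Primrec fun p : ℕ × ℕ => 2 ^ p.2 := K4_pow2.comp Primrec.snd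
      have p1 : Primrec fun p : ℕ × ℕ => p.1 / 2 ^ p.2 := Primrec.nat_div.comp Primrec.fst p0
      have p2 : Primrec fun p : ℕ × ℕ => p.1 / 2 ^ p.2 - 1 :=
        Primrec.nat_sub.comp p1 (Primrec.const 1)
      have p3 : Primrec fun p : ℕ × ℕ => (p.1 / 2 ^ p.2 - 1) / 2 :=
        Primrec.nat_div.comp p2 (Primrec.const 2)
      exact Primrec.pair (Primrec.nat_mod.comp p3 p0) (Primrec.nat_div.comp p3 p0)
    exact g1.to_comp.comp Computable.id hf
  refine ⟨_, hcomp, ?_⟩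
  intro θ i
  have hs : f (enc θ i) = Nat.size θ := by
    have h := hf' (enc θ i)
    unfold K4_test at h
    rw [decide_eq_true_eq] at h
    have hpos : 0 < enc θ i := by unfold enc; positivity
    rcases h with ⟨h1, h2⟩ | h
    · have d1 : 2 ^ f (enc θ i) ∣ enc θ i := Nat.dvd_of_mod_eq_zero h1
      have d2 : ¬ 2 ^ (f (enc θ i) + 1) ∣ enc θ i := fun h => h2 (Nat.mod_eq_zero_of_dvd h)
      rcases lt_trichotomy (f (enc θ i)) (Nat.size θ) with hlt | heq | hgt
      · exfalso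
        apply d2
        exact (Nat.pow_dvd_pow 2 hlt).trans (Dvd.intro _ rfl)
      · exact heq
      · exfalso
        have d3 : 2 ^ (Nat.size θ + 1) ∣ enc θ i := (Nat.pow_dvd_pow 2 hgt).trans d1
        unfold enc at d3
        rw [pow_succ] at d3
        have d4 := Nat.dvd_of_mul_dvd_mul_left (by positivity) d3
        omega
    · omega
  show ((((enc θ i / 2 ^ f (enc θ i)) - 1) / 2) % 2 ^ f (enc θ i),
    (((enc θ i / 2 ^ f (enc θ i)) - 1) / 2) / 2 ^ f (enc θ i)) = (θ, i)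
  rw [hs]
  have e1 : enc θ i / 2 ^ Nat.size θ = 2 * (θ + 2 ^ Nat.size θ * i) + 1 := by
    unfold enc
    rw [Nat.mul_div_cancel_left _ (by positivity)]
  have e2 : (2 * (θ + 2 ^ Nat.size θ * i) + 1 - 1) / 2 = θ + 2 ^ Nat.size θ * i := by omega
  rw [e1, e2]
  have hlt : θ < 2 ^ Nat.size θ := Nat.lt_size_self θ
  have e3 : (θ + 2 ^ Nat.size θ * i) % 2 ^ Nat.size θ = θ := by
    rw [Nat.add_mul_mod_self_left, Nat.mod_eq_of_lt hlt]
  have e4 : (θ + 2 ^ Nat.size θ * i) / 2 ^ Nat.size θ = i := by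
    rw [Nat.add_mul_div_left _ _ (by positivity), Nat.div_eq_of_lt hlt, Nat.zero_add]
  rw [e3, e4]

theorem enc_size (θ i : ℕ) : Nat.size (enc θ i) ≤ Nat.size i + 2 * Nat.size θ + 1 := by
  rw [Nat.size_le]
  have h1 : θ < 2 ^ Nat.size θ := Nat.lt_size_self θ
  have h2 : i < 2 ^ Nat.size i := Nat.lt_size_self i
  unfold enc
  have h3 : θ + 2 ^ Nat.size θ * i < 2 ^ Nat.size θ * 2 ^ Nat.size i := by
    calc θ + 2 ^ Nat.size θ * i < 2 ^ Nat.size θ + 2 ^ Nat.size θ * i := by omega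
      _ = 2 ^ Nat.size θ * (i + 1) := by ring
      _ ≤ 2 ^ Nat.size θ * 2 ^ Nat.size i := Nat.mul_le_mul_left _ h2
  have h4 : 2 * (θ + 2 ^ Nat.size θ * i) + 1 < 2 * (2 ^ Nat.size θ * 2 ^ Nat.size i) := by omega
  calc 2 ^ Nat.size θ * (2 * (θ + 2 ^ Nat.size θ * i) + 1)
      < 2 ^ Nat.size θ * (2 * (2 ^ Nat.size θ * 2 ^ Nat.size i)) :=
        Nat.mul_lt_mul_of_pos_left h4 (by positivity)
    _ = 2 ^ (Nat.size i + 2 * Nat.size θ + 1) := by ring

end Pool.Agent.Lib.H52K
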