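import Pool.Agent.Lib.H52K.K1
import Pool.Agent.Lib.H52K.K4

/-!
Elements of enumerable sets: call `m` a first step if `R ((θ, z), unpair m)` and no `m' < m` with
`R ((θ, z), unpair m')` has the same first component. The number `x` is described by `enc θ i`, where
`i < 2^k` is the number of first steps before its own first step; decoding: `dec`, then search for the
first step `m` with exactly `i` first steps before it (`Nat.rfind`).
-/

namespace Pool.Agent.Lib.H52K

/-- The first steps. -/
def K5_F (R : (ℕ × ℕ) × (ℕ × ℕ) → Bool) (q : (ℕ × ℕ) × ℕ) : Bool :=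
  R (q.1, q.2.unpair) && decide (((List.range q.2).filter fun m' =>
    R (q.1, m'.unpair) && decide (m'.unpair.1 = q.2.unpair.1)).length = 0)

/-- The number of first steps before `q.2`. -/
def K5_cnt (R : (ℕ × ℕ) × (ℕ × ℕ) → Bool) (q : (ℕ × ℕ) × ℕ) : ℕ :=
  ((List.range q.2).filter fun m' => K5_F R (q.1, m')).length

theorem K5_F_iff (R : (ℕ × ℕ) × (ℕ × ℕ) → Bool) (u : ℕ × ℕ) (m : ℕ) :
    K5_F R (u, m) = true ↔ R (u, m.unpair) = true ∧
      ∀ m' < m, R (u, m'.unpair) = true → m'.unpair.1 ≠ m.unpair.1 := by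
  unfold K5_F
  simp only [Bool.and_eq_true, decide_eq_true_eq, List.length_eq_zero_iff, List.filter_eq_nil_iff,
    List.mem_range, not_and]

theorem K5_F_computable (R : (ℕ × ℕ) × (ℕ × ℕ) → Bool) (hR : Computable R) :
    Computable (K5_F R) := by
  unfold K5_F
  have h1 : Computable fun q : (ℕ × ℕ) × ℕ => R (q.1, q.2.unpair) :=
    hR.comp (Computable.pair Computable.fst (Computable.unpair.comp Computable.snd))
  have h2 : Computable fun r : ((ℕ × ℕ) × ℕ) × ℕ => R (r.1.1, r.2.unpair) :=
    hR.comp (Computable.pair (Computable.fst.comp Computable.fst)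
      (Computable.unpair.comp Computable.snd))
  have h3 : Computable fun r : ((ℕ × ℕ) × ℕ) × ℕ => r.2.unpair.1 :=
    Computable.fst.comp (Computable.unpair.comp Computable.snd)
  have h4 : Computable fun r : ((ℕ × ℕ) × ℕ) × ℕ => r.1.2.unpair.1 :=
    Computable.fst.comp (Computable.unpair.comp (Computable.snd.comp Computable.fst))
  have h5 : Computable fun r : ((ℕ × ℕ) × ℕ) × ℕ => decide (r.2.unpair.1 = r.1.2.unpair.1) :=
    (PrimrecRel.decide (Primrec.eq (α := ℕ))).to_comp.comp h3 h4
  have h6 : Computable₂ fun (q : (ℕ × ℕ) × ℕ) (m' : ℕ) =>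
      R (q.1, m'.unpair) && decide (m'.unpair.1 = q.2.unpair.1) :=
    Primrec.and.to_comp.comp h2 h5
  have h7 : Computable fun q : (ℕ × ℕ) × ℕ => ((List.range q.2).filter fun m' =>
      R (q.1, m'.unpair) && decide (m'.unpair.1 = q.2.unpair.1)).length :=
    Computable.list_length.comp (filter_computable
      (Primrec.list_range.to_comp.comp Computable.snd) h6)
  exact Primrec.and.to_comp.comp h1
    ((PrimrecRel.decide (Primrec.eq (α := ℕ))).to_comp.comp h7 (Computable.const 0))

theorem K5_cnt_computable (R : (ℕ × ℕ) × (ℕ × ℕ) → Bool) (hR : Computable R) :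
    Computable (K5_cnt R) := by
  unfold K5_cnt
  have h6 : Computable₂ fun (q : (ℕ × ℕ) × ℕ) (m' : ℕ) => K5_F R (q.1, m') :=
    (K5_F_computable R hR).comp (Computable.pair (Computable.fst.comp Computable.fst)
      Computable.snd)
  exact Computable.list_length.comp (filter_computable
      (Primrec.list_range.to_comp.comp Computable.snd) h6)

theorem K5_cnt_lt (R : (ℕ × ℕ) × (ℕ × ℕ) → Bool) (u : ℕ × ℕ) {m m₀ : ℕ} (hm : m < m₀)
    (h : K5_F R (u, m) = true) : K5_cnt R (u, m) < K5_cnt R (u, m₀) := by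
  unfold K5_cnt
  simp only
  have h1 : (List.range (m + 1)).filter (fun m' => K5_F R (u, m')) =
      (List.range m).filter (fun m' => K5_F R (u, m')) ++ [m] := by
    rw [List.range_succ, List.filter_append]
    simp [h]
  have h2 : ((List.range (m + 1)).filter (fun m' => K5_F R (u, m'))).length ≤
      ((List.range m₀).filter (fun m' => K5_F R (u, m'))).length := by
    apply List.Sublist.length_le
    exact (List.range_sublist.2 hm).filter _
  rw [h1, List.length_append] at h2
  simpa using h2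

theorem K5_decode (R : (ℕ × ℕ) × (ℕ × ℕ) → Bool) (hR : Computable R) :
    ∃ f : ℕ × ℕ →. ℕ, Partrec f ∧ ∀ θ z m₀, K5_F R ((θ, z), m₀) = true →
      m₀.unpair.1 ∈ f (enc θ (K5_cnt R ((θ, z), m₀)), z) := by
  obtain ⟨dec, hd, hd'⟩ := exists_dec
  let p : ℕ × ℕ → ℕ → Bool := fun a m =>
    K5_F R (((dec a.1).1, a.2), m) && decide (K5_cnt R (((dec a.1).1, a.2), m) = (dec a.1).2)
  have hp : Computable₂ p := by
    have h1 : Computable fun r : (ℕ × ℕ) × ℕ => (((dec r.1.1).1, r.1.2), r.2) :=
      Computable.pair (Computable.pair (Computable.fst.comp (hd.comp (Computable.fst.comp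
        Computable.fst))) (Computable.snd.comp Computable.fst)) Computable.snd
    have h2 : Computable fun r : (ℕ × ℕ) × ℕ => (dec r.1.1).2 :=
      Computable.snd.comp (hd.comp (Computable.fst.comp Computable.fst))
    exact Primrec.and.to_comp.comp ((K5_F_computable R hR).comp h1)
      ((PrimrecRel.decide (Primrec.eq (α := ℕ))).to_comp.comp ((K5_cnt_computable R hR).comp h1) h2)
  have hp' : Partrec₂ fun (a : ℕ × ℕ) (m : ℕ) => Part.some (p a m) := Computable.partrec hp
  refine ⟨fun a => (Nat.rfind fun m => Part.some (p a m)).map fun m => m.unpair.1, ?_, ?_⟩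
  · exact (Partrec.rfind hp').map
      (Computable.fst.comp (Computable.unpair.comp Computable.snd)).to₂
  · intro θ z m₀ hm
    rw [Part.mem_map_iff]
    refine ⟨m₀, ?_, rfl⟩
    rw [Nat.mem_rfind]
    have e : ∀ m, p (enc θ (K5_cnt R ((θ, z), m₀)), z) m = (K5_F R ((θ, z), m) &&
        decide (K5_cnt R ((θ, z), m) = K5_cnt R ((θ, z), m₀))) := by
      intro m
      simp only [p, hd']
    constructor
    · rw [e, Part.mem_some_iff, hm]
      simp
    · intro m hlt
      rw [e, Part.mem_some_iff]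
      by_cases hF : K5_F R ((θ, z), m) = true
      · have := K5_cnt_lt R (θ, z) hlt hF
        rw [hF, Bool.true_and]
        symm
        exact decide_eq_false this.ne
      · simp only [Bool.not_eq_true] at hF
        rw [hF, Bool.false_and]

theorem K5_cnt_bound (R : (ℕ × ℕ) × (ℕ × ℕ) → Bool) (θ z k : ℕ)
    (hS : ∀ S : Finset ℕ, (∀ x ∈ S, ∃ t, R ((θ, z), (x, t)) = true) → S.card ≤ 2 ^ k)
    {m₀ : ℕ} (h : K5_F R ((θ, z), m₀) = true) : K5_cnt R ((θ, z), m₀) < 2 ^ k := by
  let T : Finset ℕ := (Finset.range (m₀ + 1)).filter fun m => K5_F R ((θ, z), m) = true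
  have hT : T.card = K5_cnt R ((θ, z), m₀) + 1 := by
    have h1 : T = ((List.range (m₀ + 1)).filter (fun m' => K5_F R ((θ, z), m'))).toFinset := by
      ext m
      simp [T]
    rw [h1, List.toFinset_card_of_nodup (List.nodup_range.filter _), List.range_succ,
      List.filter_append, List.length_append]
    unfold K5_cnt
    simp [h]
  have hinj : Set.InjOn (fun m : ℕ => m.unpair.1) (T : Set ℕ) := by
    intro m hm m' hm' he
    have h1 := ((K5_F_iff R (θ, z) m).1 (Finset.mem_filter.1 (Finset.mem_coe.1 hm)).2)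
    have h2 := ((K5_F_iff R (θ, z) m').1 (Finset.mem_filter.1 (Finset.mem_coe.1 hm')).2)
    rcases lt_trichotomy m m' with h3 | h3 | h3
    · exact absurd he (h2.2 m h3 h1.1)
    · exact h3
    · exact absurd he.symm (h1.2 m' h3 h2.1)
  have h3 := hS (T.image fun m => m.unpair.1) (by
    intro x hx
    obtain ⟨m, hm, rfl⟩ := Finset.mem_image.1 hx
    exact ⟨m.unpair.2, ((K5_F_iff R (θ, z) m).1 (Finset.mem_filter.1 hm).2).1⟩)
  rw [Finset.card_image_of_injOn hinj, hT] at h3
  omega

/-- The complexity of the elements of a small computably enumerable set. -/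
theorem KS_ce (R : (ℕ × ℕ) × (ℕ × ℕ) → Bool) (hR : Computable R) : ∃ C, ∀ θ z k,
    (∀ S : Finset ℕ, (∀ x ∈ S, ∃ t, R ((θ, z), (x, t)) = true) → S.card ≤ 2 ^ k) →
      ∀ x t, R ((θ, z), (x, t)) = true → KS x z ≤ k + 2 * Nat.size θ + C := by
  obtain ⟨f, hf, hf'⟩ := K5_decode R hR
  obtain ⟨C, hC⟩ := KS_le_partrec f hf
  refine ⟨C + 1, fun θ z k hS x t hx => ?_⟩
  have hex : ∃ m : ℕ, R ((θ, z), m.unpair) = true ∧ m.unpair.1 = x :=
    ⟨Nat.pair x t, by simpa using hx, by simp⟩
  classical
  have h1 := Nat.find_spec hex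
  have hF : K5_F R ((θ, z), Nat.find hex) = true := by
    rw [K5_F_iff]
    refine ⟨h1.1, fun m' hm' hR' he => Nat.find_min hex hm' ⟨hR', he.trans h1.2⟩⟩
  have h2 := hC _ _ _ (hf' θ z _ hF)
  rw [h1.2] at h2
  have h3 := K5_cnt_bound R θ z k hS hF
  have h4 := enc_size θ (K5_cnt R ((θ, z), Nat.find hex))
  have h5 := Nat.size_le.2 h3
  omega

end Pool.Agent.Lib.H52K
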