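import Pool.Agent.Lib.H52K.K0
import Pool.Agent.Lib.H52K.K3c
import Pool.Agent.Lib.H52K.K5
import Pool.Agent.Lib.H52K.A1a
import Pool.Agent.Lib.H52K.A1b

/-!
`KS_ce` with `θ = pair (prm n h a b d) i`, `z = 0`, enumerating the `nam n h a b d i k'` with `k'` smaller than
the number of names at stage `t`. By `w1` (`Win1`) the number `N` of names at any stage satisfies
`N * 2^d ≤ 2^(h+u) * pol ≤ 2^(h + u + c (size ν + 1))`.
-/

namespace Pool.Agent.Lib.H52K

theorem A2b_ext_refl (O : Out1) : O.ext O := ⟨List.prefix_rfl, List.prefix_rfl, List.prefix_rfl⟩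

theorem A2b_ext_trans {O O' O'' : Out1} (h : O.ext O') (h' : O'.ext O'') : O.ext O'' :=
  ⟨h.1.trans h'.1, h.2.1.trans h'.2.1, h.2.2.trans h'.2.2⟩

theorem A2b_ext {G : ℕ × ℕ → Out} (hG : GEnum G) {n h a b d : ℕ} (hn : 1 ≤ n)
    (hd : pol n h a b ≤ 2 ^ d) {s t : ℕ} (hst : s ≤ t) {i : ℕ} (hi : i ≤ a) :
    ((G (prm n h a b d, s)).nth i).ext ((G (prm n h a b d, t)).nth i) := by
  induction t, hst using Nat.le_induction with
  | base => exact A2b_ext_refl _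
  | succ t _ ih => exact A2b_ext_trans ih ((hG.2 n h a b d hn hd).1 t i hi)

theorem A2b_win {G : ℕ × ℕ → Out} (hG : GEnum G) {n h a b d : ℕ} (hn : 1 ≤ n)
    (hd : pol n h a b ≤ 2 ^ d) (t : ℕ) {i : ℕ} (hi : i ≤ a) :
    (G (prm n h a b d, t)).nth i = ([], [], []) ∨
      Win1 n h a b d i (memb n h a b t) ((G (prm n h a b d, t)).nth i) := by
  rcases (hG.2 n h a b d hn hd).2.1 t with h | h
  · left; rw [h]; rfl
  · right; exact h.each i hi

theorem A2b_base {x ν : ℕ} (hx : x ≤ ν) : x ≤ 2 ^ er 1 ν := hx.trans (le_pow_er ν)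

theorem A2b_four {x K ν : ℕ} (hx : x ≤ 2 ^ er K ν) : x ^ 4 ≤ 2 ^ er (4 * K) ν := by
  calc x ^ 4 ≤ (2 ^ er K ν) ^ 4 := Nat.pow_le_pow_left hx 4
    _ = 2 ^ er (4 * K) ν := by rw [← pow_mul, mul_comm, er_mul]

theorem A2b_pol' (k₀ k₁ : ℕ) : ∃ L, ∀ ν n h a b, n ≤ ν → h ≤ ν → a ≤ ν → b ≤ ν →
    k₀ * (n + h + a + b + k₁) ^ 4 ≤ 2 ^ er L ν := by
  obtain ⟨K, hK⟩ : ∃ K, ∀ ν n h a b, n ≤ ν → h ≤ ν → a ≤ ν → b ≤ ν →
      n + h + a + b + k₁ ≤ 2 ^ er K ν :=
    ⟨_, fun ν n h a b hn hh ha hb => add_le_pow (add_le_pow (add_le_pow (add_le_pow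
      (A2b_base hn) (A2b_base hh)) (A2b_base ha)) (A2b_base hb)) (const_le_pow k₁ ν)⟩
  exact ⟨_, fun ν n h a b hn hh ha hb => mul_le_pow (const_le_pow k₀ ν)
    (A2b_four (hK ν n h a b hn hh ha hb))⟩

theorem A2b_pol : ∃ L, ∀ ν n h a b, n ≤ ν → h ≤ ν → a ≤ ν → b ≤ ν → pol n h a b ≤ 2 ^ er L ν := by
  obtain ⟨L, hL⟩ := A2b_pol' (2 ^ 12) 10
  exact ⟨L, hL⟩

theorem A2b_prm : ∃ L, ∀ ν n h a b d i, n ≤ ν → h ≤ ν → a ≤ ν → b ≤ ν → d ≤ ν → i ≤ ν →
    Nat.size (Nat.pair (prm n h a b d) i) ≤ er L ν :=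
  ⟨_, fun ν n h a b d i hn hh ha hb hd hi =>
    size_le_of_le_pow (pair_le_pow (pair_le_pow (A2b_base hn) (pair_le_pow (A2b_base hh)
    (pair_le_pow (A2b_base ha) (pair_le_pow (A2b_base hb) (A2b_base hd))))) (A2b_base hi))⟩

theorem A2b_nth : Computable₂ fun (O : Out) (i : ℕ) => O.nth i := by
  unfold Out.nth
  exact (Primrec.list_getD (α := Out1) ([], [], [])).to_comp

theorem A2b_card {N : ℕ} {S : Finset ℕ} (f : ℕ → ℕ) (h : ∀ x ∈ S, ∃ k < N, x = f k) : S.card ≤ N := by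
  have : S ⊆ (Finset.range N).image f := by
    intro x hx
    obtain ⟨k, hk, rfl⟩ := h x hx
    exact Finset.mem_image_of_mem f (Finset.mem_range.2 hk)
  calc S.card ≤ ((Finset.range N).image f).card := Finset.card_le_card this
    _ ≤ (Finset.range N).card := Finset.card_image_le
    _ = N := Finset.card_range N

theorem A2b_max {S : Finset ℕ} {P : ℕ → ℕ → Prop} (h : ∀ x ∈ S, ∃ t, P x t)
    (hm : ∀ x s t, s ≤ t → P x s → P x t) : ∃ T, ∀ x ∈ S, P x T := by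
  choose! f hf using h
  exact ⟨S.sup f, fun x hx => hm x _ _ (Finset.le_sup hx) (hf x hx)⟩

theorem nam_KS0 (G : ℕ × ℕ → Out) (hG : GEnum G) : ∃ C, ∀ ν n h a b d i k t, n ≤ ν → h ≤ ν →
    a ≤ ν → b ≤ ν → d ≤ ν → 1 ≤ n → pol n h a b ≤ 2 ^ d → i ≤ a →
    k < ((G (prm n h a b d, t)).nth i).1.length →
    KS (nam n h a b d i k) 0 + d ≤ h + uu a b i + er C ν := by
  classical
  obtain ⟨L₁, hL₁⟩ := A2b_pol
  obtain ⟨L₂, hL₂⟩ := A2b_prm
  let R : (ℕ × ℕ) × (ℕ × ℕ) → Bool := fun q =>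
    decide (q.2.1 = Nat.pair q.1.1.unpair.1 (Nat.pair q.1.1.unpair.2 q.2.1.unpair.2.unpair.2) ∧
      q.2.1.unpair.2.unpair.2 < ((G (q.1.1.unpair.1, q.2.2)).nth q.1.1.unpair.2).1.length)
  have hR : Computable R := by
    have c1 : Computable fun q : (ℕ × ℕ) × (ℕ × ℕ) =>
        ((G (q.1.1.unpair.1, q.2.2)).nth q.1.1.unpair.2).1.length := by
      refine Computable.list_length.comp (Computable.fst.comp (A2b_nth.comp (hG.1.comp ?_) ?_))
      · exact Computable.pair (Computable.fst.comp (Computable.unpair.comp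
          (Computable.fst.comp Computable.fst))) (Computable.snd.comp Computable.snd)
      · exact Computable.snd.comp (Computable.unpair.comp (Computable.fst.comp Computable.fst))
    have c2 : PrimrecPred fun r : ((ℕ × ℕ) × (ℕ × ℕ)) × ℕ =>
        r.1.2.1 = Nat.pair r.1.1.1.unpair.1 (Nat.pair r.1.1.1.unpair.2 r.1.2.1.unpair.2.unpair.2) ∧
        r.1.2.1.unpair.2.unpair.2 < r.2 := by
      have x1 : Primrec fun r : ((ℕ × ℕ) × (ℕ × ℕ)) × ℕ => r.1.2.1 :=
        Primrec.fst.comp (Primrec.snd.comp Primrec.fst)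
      have x2 : Primrec fun r : ((ℕ × ℕ) × (ℕ × ℕ)) × ℕ => r.1.1.1 :=
        Primrec.fst.comp (Primrec.fst.comp Primrec.fst)
      have x3 : Primrec fun r : ((ℕ × ℕ) × (ℕ × ℕ)) × ℕ => r.1.2.1.unpair.2.unpair.2 :=
        Primrec.snd.comp (Primrec.unpair.comp (Primrec.snd.comp (Primrec.unpair.comp x1)))
      refine PrimrecPred.and (Primrec.eq.comp x1 (Primrec₂.natPair.comp
        (Primrec.fst.comp (Primrec.unpair.comp x2)) (Primrec₂.natPair.comp
        (Primrec.snd.comp (Primrec.unpair.comp x2)) x3))) (Primrec.nat_lt.comp x3 Primrec.snd)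
    have c3 := c2.decide.to_comp.comp (Computable.pair Computable.id c1)
    exact c3.of_eq fun q => decide_eq_decide.2 Iff.rfl
  obtain ⟨C, hC⟩ := KS_ce R hR
  refine ⟨L₁ + 2 * L₂ + C, fun ν n h a b d i k t hn hh ha hb hd hn1 hpol hi hk => ?_⟩
  have hl1 := hL₁ ν n h a b hn hh ha hb
  have hl2 := hL₂ ν n h a b d i hn hh ha hb hd (hi.trans ha)
  have hRk : ∀ k' t', R ((Nat.pair (prm n h a b d) i, 0), (nam n h a b d i k', t')) = true ↔
      k' < ((G (prm n h a b d, t')).nth i).1.length := by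
    intro k' t'
    simp only [R, nam, decide_eq_true_eq, Nat.unpair_pair, true_and]
  have hlen : ∀ t', ((G (prm n h a b d, t')).nth i).1.length * 2 ^ d ≤
      2 ^ (h + uu a b i + er L₁ ν) := by
    intro t'
    rcases A2b_win hG hn1 hpol t' hi with h1 | h1
    · rw [h1]; simp
    · calc _ ≤ 2 ^ (h + uu a b i) * pol n h a b := h1.w1
        _ ≤ 2 ^ (h + uu a b i) * 2 ^ er L₁ ν := by gcongr
        _ = _ := by rw [← pow_add]
  have hdle : d ≤ h + uu a b i + er L₁ ν := by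
    by_contra hcon
    have h1 := hlen t
    have h2 : 2 ^ (h + uu a b i + er L₁ ν) < 2 ^ d := Nat.pow_lt_pow_right (by norm_num) (by omega)
    have h3 : 1 * 2 ^ d ≤ ((G (prm n h a b d, t)).nth i).1.length * 2 ^ d := by
      gcongr; omega
    omega
  have hlen' : ∀ t', ((G (prm n h a b d, t')).nth i).1.length ≤
      2 ^ (h + uu a b i + er L₁ ν - d) := by
    intro t'
    have h1 := hlen t'
    have h2 : 2 ^ (h + uu a b i + er L₁ ν) = 2 ^ (h + uu a b i + er L₁ ν - d) * 2 ^ d := by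
      rw [← pow_add]; congr 1; omega
    rw [h2] at h1
    exact Nat.le_of_mul_le_mul_right h1 (by positivity)
  have key := hC (Nat.pair (prm n h a b d) i) 0 (h + uu a b i + er L₁ ν - d) ?_
    (nam n h a b d i k) t ((hRk k t).2 hk)
  · have e1 := er_add L₁ (2 * L₂) ν
    have e2 := er_add (L₁ + 2 * L₂) C ν
    have e3 := er_mul L₂ 2 ν
    have e4 := le_er C ν
    omega
  · intro S hS
    obtain ⟨T, hT⟩ := A2b_max (P := fun x t' => R ((Nat.pair (prm n h a b d) i, 0), (x, t')) = true)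
      hS (by
        intro x s t' hst hx
        simp only [R, decide_eq_true_eq, Nat.unpair_pair] at hx ⊢
        exact ⟨hx.1, hx.2.trans_le (A2b_ext hG hn1 hpol hst hi).1.length_le⟩)
    refine (A2b_card (fun k' => nam n h a b d i k') fun x hx => ?_).trans (hlen' T)
    have h1 := hT x hx
    simp only [R, decide_eq_true_eq, Nat.unpair_pair] at h1
    exact ⟨_, h1.2, h1.1⟩

end Pool.Agent.Lib.H52K
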