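import Pool.Agent.Lib.H52K.K0
import Pool.Agent.Lib.H52K.K3c
import Pool.Agent.Lib.H52K.K5
import Pool.Agent.Lib.H52K.A1a
import Pool.Agent.Lib.H52K.A1b
import Pool.Agent.Lib.H52K.A2b

/-!
`KS_ce` with the condition `nam n h a b d i k` and a trivial `θ`: the set of the `x'` with an index in the
`k`-th set of scale `i` has at most `2^i` elements by `w2`, and `i + uu a b i ≤ a`.
-/

namespace Pool.Agent.Lib.H52K

theorem A2c_prefix_get {α : Type*} {l l' : List α} (h : l <+: l') {i : ℕ} {x : α}
    (hx : l[i]? = some x) : l'[i]? = some x := by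
  obtain ⟨r, rfl⟩ := h
  have hi : i < l.length := by
    by_contra hcon
    rw [List.getElem?_eq_none (by omega)] at hx
    exact absurd hx (by simp)
  rw [List.getElem?_append_left hi, hx]

theorem A2c_prefix_getD {α : Type*} {l l' : List (List α)} (h : l <+: l') (i : ℕ) {x : α}
    (hx : x ∈ l.getD i []) : x ∈ l'.getD i [] := by
  rw [List.getD_eq_getElem?_getD] at hx ⊢
  rcases h1 : l[i]? with _ | y
  · rw [h1] at hx; simp at hx
  · rw [A2c_prefix_get h h1]; rw [h1] at hx; exact hx

theorem A2c_card {S : Finset ℕ} (L : List ℕ) (E : List ℕ)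
    (h : ∀ x ∈ S, ∃ i ∈ L, E[i]? = some x) : S.card ≤ L.length := by
  classical
  have : S ⊆ L.toFinset.image fun i => E.getD i 0 := by
    intro x hx
    obtain ⟨i, hi, hx'⟩ := h x hx
    refine Finset.mem_image.2 ⟨i, List.mem_toFinset.2 hi, ?_⟩
    rw [List.getD_eq_getElem?_getD, hx']; rfl
  calc S.card ≤ (L.toFinset.image fun i => E.getD i 0).card := Finset.card_le_card this
    _ ≤ L.toFinset.card := Finset.card_image_le
    _ ≤ L.length := List.toFinset_card_le L

theorem A2c_En : Computable fun q : (ℕ × ℕ) × (ℕ × ℕ) => En q.1.2.unpair.1.unpair.1 0 q.2.2 := by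
  have h1 : Computable fun q : (ℕ × ℕ) × (ℕ × ℕ) => q.1.2.unpair.1.unpair.1 :=
    Computable.fst.comp (Computable.unpair.comp (Computable.fst.comp (Computable.unpair.comp
      (Computable.snd.comp Computable.fst))))
  have h2 : Computable fun q : (ℕ × ℕ) × (ℕ × ℕ) => ((q.1.2.unpair.1.unpair.1, 0), q.2.2) :=
    Computable.pair (Computable.pair h1 (Computable.const 0)) (Computable.snd.comp Computable.snd)
  exact Computable.comp (f := fun p : (ℕ × ℕ) × ℕ => En p.1.1 p.1.2 p.2)
    (g := fun q : (ℕ × ℕ) × (ℕ × ℕ) => ((q.1.2.unpair.1.unpair.1, 0), q.2.2)) En_computable h2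

theorem A2c_G {G : ℕ × ℕ → Out} (hG : Computable G) :
    Computable fun q : (ℕ × ℕ) × (ℕ × ℕ) =>
      (G (q.1.2.unpair.1, q.2.2)).nth q.1.2.unpair.2.unpair.1 := by
  refine A2b_nth.comp (hG.comp (Computable.pair ?_ (Computable.snd.comp Computable.snd))) ?_
  · exact Computable.fst.comp (Computable.unpair.comp (Computable.snd.comp Computable.fst))
  · exact Computable.fst.comp (Computable.unpair.comp (Computable.snd.comp
      (Computable.unpair.comp (Computable.snd.comp Computable.fst))))

theorem nam_KSx (G : ℕ × ℕ → Out) (hG : GEnum G) : ∃ C, ∀ ν n h a b d i k t ix x, n ≤ ν → h ≤ ν →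
    a ≤ ν → b ≤ ν → d ≤ ν → 1 ≤ n → pol n h a b ≤ 2 ^ d → i ≤ a →
    k < ((G (prm n h a b d, t)).nth i).1.length → (En n 0 t)[ix]? = some x →
    ix ∈ ((G (prm n h a b d, t)).nth i).1.getD k [] →
    KS x (nam n h a b d i k) + uu a b i ≤ a + er C ν := by
  classical
  let R : (ℕ × ℕ) × (ℕ × ℕ) → Bool := fun q =>
    decide (∃ ix ∈ ((G (q.1.2.unpair.1, q.2.2)).nth q.1.2.unpair.2.unpair.1).1.getD
      q.1.2.unpair.2.unpair.2 [], (En q.1.2.unpair.1.unpair.1 0 q.2.2)[ix]? = some q.2.1)
  have hR : Computable R := by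
    have c1 : Computable fun q : (ℕ × ℕ) × (ℕ × ℕ) =>
        ((G (q.1.2.unpair.1, q.2.2)).nth q.1.2.unpair.2.unpair.1).1.getD
          q.1.2.unpair.2.unpair.2 [] := by
      refine (Primrec.list_getD (α := List ℕ) []).to_comp.comp (Computable.fst.comp (A2c_G hG.1)) ?_
      exact Computable.snd.comp (Computable.unpair.comp (Computable.snd.comp
        (Computable.unpair.comp (Computable.snd.comp Computable.fst))))
    have c2 : PrimrecPred fun r : (List ℕ × List ℕ) × ℕ => ∃ ix ∈ r.1.1, r.1.2[ix]? = some r.2 := by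
      refine exists_mem_primrec (f := fun r : (List ℕ × List ℕ) × ℕ => r.1.1)
        (p := fun (r : (List ℕ × List ℕ) × ℕ) (ix : ℕ) => r.1.2[ix]? = some r.2)
        (Primrec.fst.comp Primrec.fst) ?_
      exact Primrec.eq.comp (Primrec.list_getElem?.comp
        (Primrec.snd.comp (Primrec.fst.comp Primrec.fst)) Primrec.snd)
        (Primrec.option_some.comp (Primrec.snd.comp Primrec.fst))
    have c3 := c2.decide.to_comp.comp (Computable.pair (Computable.pair c1 A2c_En)
      (Computable.fst.comp Computable.snd))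
    exact c3.of_eq fun q => decide_eq_decide.2 Iff.rfl
  obtain ⟨C, hC⟩ := KS_ce R hR
  refine ⟨C, fun ν n h a b d i k t ix x hn hh ha hb hd hn1 hpol hi hk hix hmem => ?_⟩
  have hRk : ∀ x' t', R ((0, nam n h a b d i k), (x', t')) = true ↔
      ∃ ix ∈ ((G (prm n h a b d, t')).nth i).1.getD k [], (En n 0 t')[ix]? = some x' := by
    intro x' t'
    simp only [R, nam, prm, decide_eq_true_eq, Nat.unpair_pair]
  have key := hC 0 (nam n h a b d i k) i ?_ x t ((hRk x t).2 ⟨ix, hmem, hix⟩)
  · have e4 := le_er C ν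
    have e5 : uu a b i ≤ a - i := min_le_left _ _
    simp only [Nat.size_zero] at key
    omega
  · intro S hS
    obtain ⟨T, hT⟩ := A2b_max (P := fun x t' => R ((0, nam n h a b d i k), (x, t')) = true)
      hS (by
        intro x s t' hst hx
        simp only [hRk] at hx ⊢
        obtain ⟨ix, h1, h2⟩ := hx
        exact ⟨ix, A2c_prefix_getD (A2b_ext hG hn1 hpol hst hi).1 k h1,
          A2c_prefix_get (En_prefix n 0 hst) h2⟩)
    refine (A2c_card (((G (prm n h a b d, T)).nth i).1.getD k []) (En n 0 T)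
      fun x hx => (hRk x T).1 (hT x hx)).trans ?_
    rcases A2b_win hG hn1 hpol T hi with h1 | h1
    · rw [h1]; simp
    · rw [List.getD_eq_getElem?_getD]
      rcases h2 : (((G (prm n h a b d, T)).nth i).1)[k]? with _ | y
      · simp
      · exact h1.w2 y (List.mem_of_getElem? h2)

end Pool.Agent.Lib.H52K
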