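import Pool.Agent.Lib.H52K.K0
import Pool.Agent.Lib.H52K.K3c
import Pool.Agent.Lib.H52K.K5
import Pool.Agent.Lib.H52K.A1a
import Pool.Agent.Lib.H52K.A1b
import Pool.Agent.Lib.H52K.A2c

/-!
As `nam_KSx`, with `w3`: the name has at most `2^(b - u)` elements `y`, and `u ≤ b`.
-/

namespace Pool.Agent.Lib.H52K

theorem nam_KSy (G : ℕ × ℕ → Out) (hG : GEnum G) : ∃ C, ∀ ν n h a b d i k t iy y, n ≤ ν → h ≤ ν →
    a ≤ ν → b ≤ ν → d ≤ ν → 1 ≤ n → pol n h a b ≤ 2 ^ d → i ≤ a →
    (En n 0 t)[iy]? = some y → (k, iy) ∈ ((G (prm n h a b d, t)).nth i).2.1 →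
    KS y (nam n h a b d i k) + uu a b i ≤ b + er C ν := by
  classical
  let R : (ℕ × ℕ) × (ℕ × ℕ) → Bool := fun q =>
    decide (∃ e ∈ ((G (q.1.2.unpair.1, q.2.2)).nth q.1.2.unpair.2.unpair.1).2.1,
      e.1 = q.1.2.unpair.2.unpair.2 ∧ (En q.1.2.unpair.1.unpair.1 0 q.2.2)[e.2]? = some q.2.1)
  have hR : Computable R := by
    have c1 : Computable fun q : (ℕ × ℕ) × (ℕ × ℕ) =>
        ((G (q.1.2.unpair.1, q.2.2)).nth q.1.2.unpair.2.unpair.1).2.1 :=
      Computable.fst.comp (Computable.snd.comp (A2c_G hG.1))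
    have c2 : PrimrecPred fun r : (List (ℕ × ℕ) × List ℕ) × (ℕ × ℕ) =>
        ∃ e ∈ r.1.1, e.1 = r.2.1.unpair.2.unpair.2 ∧ r.1.2[e.2]? = some r.2.2 := by
      refine exists_mem_primrec (f := fun r : (List (ℕ × ℕ) × List ℕ) × (ℕ × ℕ) => r.1.1)
        (p := fun (r : (List (ℕ × ℕ) × List ℕ) × (ℕ × ℕ)) (e : ℕ × ℕ) =>
          e.1 = r.2.1.unpair.2.unpair.2 ∧ r.1.2[e.2]? = some r.2.2)
        (Primrec.fst.comp Primrec.fst) ?_
      refine PrimrecPred.and (Primrec.eq.comp (Primrec.fst.comp Primrec.snd) ?_)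
        (Primrec.eq.comp (Primrec.list_getElem?.comp ?_ (Primrec.snd.comp Primrec.snd))
          (Primrec.option_some.comp ?_))
      · exact Primrec.snd.comp (Primrec.unpair.comp (Primrec.snd.comp (Primrec.unpair.comp
          (Primrec.fst.comp (Primrec.snd.comp Primrec.fst)))))
      · exact Primrec.snd.comp (Primrec.fst.comp Primrec.fst)
      · exact Primrec.snd.comp (Primrec.snd.comp Primrec.fst)
    have c3 := c2.decide.to_comp.comp (Computable.pair (Computable.pair c1 A2c_En)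
      (Computable.pair (Computable.snd.comp Computable.fst) (Computable.fst.comp Computable.snd)))
    exact c3.of_eq fun q => decide_eq_decide.2 Iff.rfl
  obtain ⟨C, hC⟩ := KS_ce R hR
  refine ⟨C, fun ν n h a b d i k t iy y hn hh ha hb hd hn1 hpol hi hiy hmem => ?_⟩
  have hRk : ∀ x' t', R ((0, nam n h a b d i k), (x', t')) = true ↔
      ∃ e ∈ ((G (prm n h a b d, t')).nth i).2.1, e.1 = k ∧ (En n 0 t')[e.2]? = some x' := by
    intro x' t'
    simp only [R, nam, prm, decide_eq_true_eq, Nat.unpair_pair]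
  have key := hC 0 (nam n h a b d i k) (b - uu a b i) ?_ y t ((hRk y t).2 ⟨_, hmem, rfl, hiy⟩)
  · have e4 := le_er C ν
    have e5 : uu a b i ≤ b := min_le_right _ _
    simp only [Nat.size_zero] at key
    omega
  · intro S hS
    obtain ⟨T, hT⟩ := A2b_max (P := fun x t' => R ((0, nam n h a b d i k), (x, t')) = true)
      hS (by
        intro x s t' hst hx
        simp only [hRk] at hx ⊢
        obtain ⟨e, h1, h2, h3⟩ := hx
        exact ⟨e, (A2b_ext hG hn1 hpol hst hi).2.1.subset h1, h2,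
          A2c_prefix_get (En_prefix n 0 hst) h3⟩)
    refine (A2c_card ((((G (prm n h a b d, T)).nth i).2.1.filter fun e => e.1 = k).map Prod.snd)
      (En n 0 T) fun x hx => ?_).trans ?_
    · obtain ⟨e, h1, h2, h3⟩ := (hRk x T).1 (hT x hx)
      exact ⟨e.2, List.mem_map.2 ⟨e, List.mem_filter.2 ⟨h1, by simpa using h2⟩, rfl⟩, h3⟩
    rw [List.length_map]
    rcases A2b_win hG hn1 hpol T hi with h1 | h1
    · rw [h1]; simp
    · exact h1.w3 k

end Pool.Agent.Lib.H52K
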