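import Pool.Agent.Lib.H52K.K0
import Pool.Agent.Lib.H52K.K3c
import Pool.Agent.Lib.H52K.K5
import Pool.Agent.Lib.H52K.A1a
import Pool.Agent.Lib.H52K.A1b
import Pool.Agent.Lib.H52K.A2c

/-!
`KS_ce` with the condition `pair x y` and `θ = pair (prm n h a b d) i`, enumerating the `nam n h a b d i k'`
such that at some stage `(ix, iy, k')` is in the third list (`ix`, `iy` = the indices of `x`, `y` in
`En n 0 t`). By `w4` their number is at most `pol * cntX / 2^d ≤ 2 (a + 1) pol`.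
-/

namespace Pool.Agent.Lib.H52K

theorem A2e_idx {n s t i j x : ℕ} (h : (En n 0 s)[i]? = some x) (h' : (En n 0 t)[j]? = some x) :
    i = j := by
  have h1 := A2c_prefix_get (En_prefix n 0 (le_max_left s t)) h
  have h2 := A2c_prefix_get (En_prefix n 0 (le_max_right s t)) h'
  have hn := En_nodup n 0 (max s t)
  obtain ⟨hi, e1⟩ := List.getElem?_eq_some_iff.1 h1
  obtain ⟨hj, e2⟩ := List.getElem?_eq_some_iff.1 h2
  exact (List.Nodup.getElem_inj_iff hn).1 (e1.trans e2.symm)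

theorem A2e_En : Computable fun q : (ℕ × ℕ) × (ℕ × ℕ) => En q.1.1.unpair.1.unpair.1 0 q.2.2 := by
  have h1 : Computable fun q : (ℕ × ℕ) × (ℕ × ℕ) => q.1.1.unpair.1.unpair.1 :=
    Computable.fst.comp (Computable.unpair.comp (Computable.fst.comp (Computable.unpair.comp
      (Computable.fst.comp Computable.fst))))
  have h2 : Computable fun q : (ℕ × ℕ) × (ℕ × ℕ) => ((q.1.1.unpair.1.unpair.1, 0), q.2.2) :=
    Computable.pair (Computable.pair h1 (Computable.const 0)) (Computable.snd.comp Computable.snd)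
  exact Computable.comp (f := fun p : (ℕ × ℕ) × ℕ => En p.1.1 p.1.2 p.2)
    (g := fun q : (ℕ × ℕ) × (ℕ × ℕ) => ((q.1.1.unpair.1.unpair.1, 0), q.2.2)) En_computable h2

theorem A2e_G {G : ℕ × ℕ → Out} (hG : Computable G) :
    Computable fun q : (ℕ × ℕ) × (ℕ × ℕ) => (G (q.1.1.unpair.1, q.2.2)).nth q.1.1.unpair.2 := by
  have h1 : Computable fun q : (ℕ × ℕ) × (ℕ × ℕ) => q.1.1.unpair.1 :=
    Computable.fst.comp (Computable.unpair.comp (Computable.fst.comp Computable.fst))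
  have h2 : Computable fun q : (ℕ × ℕ) × (ℕ × ℕ) => q.1.1.unpair.2 :=
    Computable.snd.comp (Computable.unpair.comp (Computable.fst.comp Computable.fst))
  exact A2b_nth.comp (hG.comp (Computable.pair h1 (Computable.snd.comp Computable.snd))) h2

theorem nam_KSxy (G : ℕ × ℕ → Out) (hG : GEnum G) : ∃ C, ∀ ν n h a b d i k t ix iy x y, n ≤ ν →
    h ≤ ν → a ≤ ν → b ≤ ν → d ≤ ν → 1 ≤ n → pol n h a b ≤ 2 ^ d → i ≤ a →
    (En n 0 t)[ix]? = some x → (En n 0 t)[iy]? = some y →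
    (ix, iy, k) ∈ ((G (prm n h a b d, t)).nth i).2.2 →
    (∀ t', cntX (memb n h a b t') ix iy < (a + 1) * 2 ^ (d + 1)) →
    KS (nam n h a b d i k) (Nat.pair x y) ≤ er C ν := by
  classical
  obtain ⟨L₁, hL₁⟩ := A2b_pol
  obtain ⟨L₂, hL₂⟩ := A2b_prm
  let R : (ℕ × ℕ) × (ℕ × ℕ) → Bool := fun q =>
    decide (∃ e ∈ ((G (q.1.1.unpair.1, q.2.2)).nth q.1.1.unpair.2).2.2,
      (En q.1.1.unpair.1.unpair.1 0 q.2.2)[e.1]? = some q.1.2.unpair.1 ∧
      (En q.1.1.unpair.1.unpair.1 0 q.2.2)[e.2.1]? = some q.1.2.unpair.2 ∧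
      q.2.1 = Nat.pair q.1.1.unpair.1 (Nat.pair q.1.1.unpair.2 e.2.2))
  have hR : Computable R := by
    have c1 : Computable fun q : (ℕ × ℕ) × (ℕ × ℕ) =>
        ((G (q.1.1.unpair.1, q.2.2)).nth q.1.1.unpair.2).2.2 :=
      Computable.snd.comp (Computable.snd.comp (A2e_G hG.1))
    have c2 : PrimrecPred fun r : (List (ℕ × ℕ × ℕ) × List ℕ) × ((ℕ × ℕ) × ℕ) =>
        ∃ e ∈ r.1.1, r.1.2[e.1]? = some r.2.1.2.unpair.1 ∧ r.1.2[e.2.1]? = some r.2.1.2.unpair.2 ∧
          r.2.2 = Nat.pair r.2.1.1.unpair.1 (Nat.pair r.2.1.1.unpair.2 e.2.2) := by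
      refine exists_mem_primrec
        (f := fun r : (List (ℕ × ℕ × ℕ) × List ℕ) × ((ℕ × ℕ) × ℕ) => r.1.1)
        (p := fun (r : (List (ℕ × ℕ × ℕ) × List ℕ) × ((ℕ × ℕ) × ℕ)) (e : ℕ × ℕ × ℕ) =>
          r.1.2[e.1]? = some r.2.1.2.unpair.1 ∧ r.1.2[e.2.1]? = some r.2.1.2.unpair.2 ∧
          r.2.2 = Nat.pair r.2.1.1.unpair.1 (Nat.pair r.2.1.1.unpair.2 e.2.2))
        (Primrec.fst.comp Primrec.fst) ?_
      have y1 : Primrec fun u : ((List (ℕ × ℕ × ℕ) × List ℕ) × ((ℕ × ℕ) × ℕ)) × (ℕ × ℕ × ℕ) =>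
          u.1.1.2 := Primrec.snd.comp (Primrec.fst.comp Primrec.fst)
      have y2 : Primrec fun u : ((List (ℕ × ℕ × ℕ) × List ℕ) × ((ℕ × ℕ) × ℕ)) × (ℕ × ℕ × ℕ) =>
          u.1.2.1.1 := Primrec.fst.comp (Primrec.fst.comp (Primrec.snd.comp Primrec.fst))
      have y3 : Primrec fun u : ((List (ℕ × ℕ × ℕ) × List ℕ) × ((ℕ × ℕ) × ℕ)) × (ℕ × ℕ × ℕ) =>
          u.1.2.1.2 := Primrec.snd.comp (Primrec.fst.comp (Primrec.snd.comp Primrec.fst))
      have y4 : Primrec fun u : ((List (ℕ × ℕ × ℕ) × List ℕ) × ((ℕ × ℕ) × ℕ)) × (ℕ × ℕ × ℕ) =>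
          u.1.2.2 := Primrec.snd.comp (Primrec.snd.comp Primrec.fst)
      have y5 : Primrec fun u : ((List (ℕ × ℕ × ℕ) × List ℕ) × ((ℕ × ℕ) × ℕ)) × (ℕ × ℕ × ℕ) =>
          u.2.1 := Primrec.fst.comp Primrec.snd
      have y6 : Primrec fun u : ((List (ℕ × ℕ × ℕ) × List ℕ) × ((ℕ × ℕ) × ℕ)) × (ℕ × ℕ × ℕ) =>
          u.2.2.1 := Primrec.fst.comp (Primrec.snd.comp Primrec.snd)
      have y7 : Primrec fun u : ((List (ℕ × ℕ × ℕ) × List ℕ) × ((ℕ × ℕ) × ℕ)) × (ℕ × ℕ × ℕ) =>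
          u.2.2.2 := Primrec.snd.comp (Primrec.snd.comp Primrec.snd)
      have z1 := Primrec.eq.comp (Primrec.list_getElem?.comp y1 y5)
        (Primrec.option_some.comp (Primrec.fst.comp (Primrec.unpair.comp y3)))
      have z2 := Primrec.eq.comp (Primrec.list_getElem?.comp y1 y6)
        (Primrec.option_some.comp (Primrec.snd.comp (Primrec.unpair.comp y3)))
      have z3 := Primrec.eq.comp y4 (Primrec₂.natPair.comp (Primrec.fst.comp (Primrec.unpair.comp y2))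
        (Primrec₂.natPair.comp (Primrec.snd.comp (Primrec.unpair.comp y2)) y7))
      exact z1.and (z2.and z3)
    have c3 := c2.decide.to_comp.comp (Computable.pair (Computable.pair c1 A2e_En)
      (Computable.pair Computable.fst (Computable.fst.comp Computable.snd)))
    exact c3.of_eq fun q => decide_eq_decide.2 Iff.rfl
  obtain ⟨C, hC⟩ := KS_ce R hR
  refine ⟨L₁ + 2 * L₂ + (C + 2) + 1, fun ν n h a b d i k t ix iy x y hn hh ha hb hd hn1 hpol hi
    hix hiy hmem hcnt => ?_⟩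
  have hl1 := hL₁ ν n h a b hn hh ha hb
  have hl2 := hL₂ ν n h a b d i hn hh ha hb hd (hi.trans ha)
  have hRk : ∀ x' t', R ((Nat.pair (prm n h a b d) i, Nat.pair x y), (x', t')) = true ↔
      ∃ k', x' = nam n h a b d i k' ∧ (ix, iy, k') ∈ ((G (prm n h a b d, t')).nth i).2.2 ∧
        (En n 0 t')[ix]? = some x ∧ (En n 0 t')[iy]? = some y := by
    intro x' t'
    simp only [R, nam, decide_eq_true_eq, Nat.unpair_pair]
    constructor
    · rintro ⟨⟨i1, i2, k'⟩, h1, h2, h3, h4⟩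
      simp only [prm, Nat.unpair_pair] at h2 h3
      have e1 : i1 = ix := A2e_idx h2 hix
      have e2 : i2 = iy := A2e_idx h3 hiy
      subst e1 e2
      exact ⟨k', h4, h1, h2, h3⟩
    · rintro ⟨k', h1, h2, h3, h4⟩
      refine ⟨(ix, iy, k'), h2, ?_, ?_, h1⟩
      · simpa only [prm, Nat.unpair_pair] using h3
      · simpa only [prm, Nat.unpair_pair] using h4
  have ha2 : 2 * (a + 1) ≤ 2 ^ (Nat.size ν + 2) := by
    have h1 : ν < 2 ^ Nat.size ν := Nat.lt_size_self ν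
    have h2 : a + 1 ≤ 2 ^ Nat.size ν := by omega
    have h3 : 1 ≤ 2 ^ Nat.size ν := Nat.one_le_two_pow
    calc 2 * (a + 1) ≤ 4 * 2 ^ Nat.size ν := by omega
      _ = 2 ^ (Nat.size ν + 2) := by rw [pow_add]; ring
  have key := hC (Nat.pair (prm n h a b d) i) (Nat.pair x y) (Nat.size ν + 2 + er L₁ ν) ?_
    (nam n h a b d i k) t ((hRk _ t).2 ⟨k, rfl, hmem, hix, hiy⟩)
  · have e1 := er_add L₁ (2 * L₂) ν
    have e2 := er_add (L₁ + 2 * L₂) (C + 2) ν
    have e3 := er_mul L₂ 2 ν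
    have e4 := le_er (C + 2) ν
    have e5 := size_le_er ν
    have e6 := er_add (L₁ + 2 * L₂ + (C + 2)) 1 ν
    omega
  · intro S hS
    obtain ⟨T, hT⟩ := A2b_max
      (P := fun x' t' => R ((Nat.pair (prm n h a b d) i, Nat.pair x y), (x', t')) = true)
      hS (by
        intro x s t' hst hx
        simp only [hRk] at hx ⊢
        obtain ⟨k', h1, h2, h3, h4⟩ := hx
        exact ⟨k', h1, (A2b_ext hG hn1 hpol hst hi).2.2.subset h2,
          A2c_prefix_get (En_prefix n 0 hst) h3, A2c_prefix_get (En_prefix n 0 hst) h4⟩)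
    have hsub : S ⊆ ((((G (prm n h a b d, T)).nth i).2.2.filter
        fun e => e.1 = ix ∧ e.2.1 = iy).toFinset.image fun e => nam n h a b d i e.2.2) := by
      intro x' hx'
      obtain ⟨k', h1, h2, -, -⟩ := (hRk x' T).1 (hT x' hx')
      exact Finset.mem_image.2 ⟨(ix, iy, k'), List.mem_toFinset.2 (List.mem_filter.2
        ⟨h2, by simp⟩), h1.symm⟩
    have hcard : S.card ≤ (((G (prm n h a b d, T)).nth i).2.2.filter
        fun e => e.1 = ix ∧ e.2.1 = iy).length :=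
      (Finset.card_le_card hsub).trans (Finset.card_image_le.trans (List.toFinset_card_le _))
    rcases A2b_win hG hn1 hpol T hi with h1 | h1
    · rw [h1] at hcard
      simp only [List.filter_nil, List.length_nil] at hcard
      exact hcard.trans (Nat.zero_le _)
    · have h2 := h1.w4 ix iy
      have h3 := hcnt T
      have h4 : S.card * 2 ^ d ≤ 2 ^ (Nat.size ν + 2 + er L₁ ν) * 2 ^ d := by
        calc S.card * 2 ^ d ≤ _ := Nat.mul_le_mul_right _ hcard
          _ ≤ pol n h a b * cntX (memb n h a b T) ix iy := h2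
          _ ≤ 2 ^ er L₁ ν * ((a + 1) * 2 ^ (d + 1)) := Nat.mul_le_mul hl1 h3.le
          _ = 2 ^ er L₁ ν * (2 * (a + 1)) * 2 ^ d := by ring
          _ ≤ 2 ^ er L₁ ν * 2 ^ (Nat.size ν + 2) * 2 ^ d := by gcongr
          _ = _ := by ring
      exact Nat.le_of_mul_le_mul_right h4 (by positivity)

end Pool.Agent.Lib.H52K
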