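import Pool.Agent.Lib.H52K.A2a
import Pool.Agent.Lib.H52K.A2b
import Pool.Agent.Lib.H52K.A2c
import Pool.Agent.Lib.H52K.A2d
import Pool.Agent.Lib.H52K.A2e

/-!
Take a large stage (`cover` of `Win`), `v = nam n h a b d i k`, `u = uu a b i`. `d ≤ h ≤ ν` as
`cntX ≤ 2^h`.
-/

namespace Pool.Agent.Lib.H52K

theorem name_exists : ∃ C, ∀ ν n h a b d x y ix iy t, n ≤ ν → h ≤ ν → a ≤ ν → b ≤ ν → 1 ≤ n →
    (En n 0 t)[ix]? = some x → (En n 0 t)[iy]? = some y → pol n h a b ≤ 2 ^ d →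
    (a + 1) * 2 ^ d ≤ cntX (memb n h a b t) ix iy →
    (∀ t', cntX (memb n h a b t') ix iy < (a + 1) * 2 ^ (d + 1)) →
    ∃ v u, KS v 0 + d ≤ h + u + er C ν ∧ KS x v + u ≤ a + er C ν ∧ KS y v + u ≤ b + er C ν ∧
      KS v (Nat.pair x y) ≤ er C ν := by
  obtain ⟨G, hG⟩ := enumG
  obtain ⟨C1, h1⟩ := nam_KS0 G hG
  obtain ⟨C2, h2⟩ := nam_KSx G hG
  obtain ⟨C3, h3⟩ := nam_KSy G hG
  obtain ⟨C4, h4⟩ := nam_KSxy G hG
  refine ⟨C1 + C2 + C3 + C4, fun ν n h a b d x y ix iy t hn hh ha hb h1n hx hy hp hc hlt => ?_⟩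
  have hdh : d ≤ h := by
    have h1 := cntX_le (memb_legal n h a b t) ix iy
    have h2 : 2 ^ d ≤ 2 ^ h := by
      have : 1 * 2 ^ d ≤ (a + 1) * 2 ^ d := Nat.mul_le_mul_right _ (by omega)
      omega
    exact (Nat.pow_le_pow_iff_right (by norm_num)).1 h2
  obtain ⟨-, -, t₀, ht₀⟩ := hG.2 n h a b d h1n hp
  obtain ⟨T, hT⟩ : ∃ T, T = max t t₀ := ⟨_, rfl⟩
  have pre : ∀ {i w}, (En n 0 t)[i]? = some w → (En n 0 T)[i]? = some w := fun {i w} hi => by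
    obtain ⟨r, hr⟩ := En_prefix n 0 (show t ≤ T by omega)
    rw [← hr, List.getElem?_append_left]
    · exact hi
    · exact (List.getElem?_eq_some_iff.1 hi).1
  obtain ⟨i, hi, k, hk, c1, c2, c3⟩ := (ht₀ T (by omega)).cover ix iy
    (hc.trans (cntX_mono (memb_prefix n h a b (by omega)) (memb_legal n h a b T).nodup ix iy))
  have d1 := h1 ν n h a b d i k T hn hh ha hb (by omega) h1n hp hi hk
  have d2 := h2 ν n h a b d i k T ix x hn hh ha hb (by omega) h1n hp hi hk (pre hx) c2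
  have d3 := h3 ν n h a b d i k T iy y hn hh ha hb (by omega) h1n hp hi (pre hy) c3
  have d4 := h4 ν n h a b d i k T ix iy x y hn hh ha hb (by omega) h1n hp hi (pre hx) (pre hy) c1 hlt
  have e1 := er_add C1 C2 ν
  have e2 := er_add (C1 + C2) C3 ν
  have e3 := er_add (C1 + C2 + C3) C4 ν
  exact ⟨nam n h a b d i k, uu a b i, by omega, by omega, by omega, by omega⟩

end Pool.Agent.Lib.H52K
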