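import Pool.Agent.Lib.H52K.C1
import Pool.Agent.Lib.H52K.A1a
import Pool.Agent.Lib.H52K.A1b

/-!
`G (p, t) = F ((p, t), memb n h a b t)` with `n, h, a, b` decoded from `p`; `F` from `game_comp`. All histories
between `memb t` and `memb (t + 1)` are legal (initial segments of legal histories are legal).
-/

namespace Pool.Agent.Lib.H52K

theorem A2a_Xl_prefix {s : Bool} {M M' : List Ev} (h : M <+: M') (j : ℕ) :
    Xl s M j <+: Xl s M' j := by
  obtain ⟨r, rfl⟩ := h
  unfold Xl
  rw [List.filterMap_append]
  exact List.prefix_append _ _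

theorem A2a_legal_prefix {n h a b : ℕ} {M M' : List Ev} (hp : M <+: M') (hL : Legal n h a b M') :
    Legal n h a b M where
  nodup := hL.nodup.sublist hp.sublist
  j_lt := fun e he => hL.j_lt e (hp.subset he)
  v_lt := fun e he => hL.v_lt e (hp.subset he)
  x_len := fun j => ((A2a_Xl_prefix hp j).length_le).trans (hL.x_len j)
  y_len := fun j => ((A2a_Xl_prefix hp j).length_le).trans (hL.y_len j)

theorem A2a_ext_refl (O : Out1) : O.ext O :=
  ⟨List.prefix_refl _, List.prefix_refl _, List.prefix_refl _⟩

theorem A2a_ext_trans {O O' O'' : Out1} (h : O.ext O') (h' : O'.ext O'') : O.ext O'' :=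
  ⟨h.1.trans h'.1, h.2.1.trans h'.2.1, h.2.2.trans h'.2.2⟩

theorem A2a_ext_nil (i : ℕ) (O : Out1) : (Out.nth [] i).ext O := by
  unfold Out.nth Out1.ext
  simp

theorem A2a_ext {n h a b d : ℕ} {O : List Ev → Out} (hO : Winning n h a b d O) (M r : List Ev)
    (hL : Legal n h a b (M ++ r)) : ∀ i ≤ a, ((O M).nth i).ext ((O (M ++ r)).nth i) := by
  induction r using List.reverseRecOn with
  | nil => intro i _; rw [List.append_nil]; exact A2a_ext_refl _
  | append_singleton r e ih =>
    intro i hi
    rw [← List.append_assoc] at hL ⊢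
    exact A2a_ext_trans (ih (A2a_legal_prefix (List.prefix_append _ _) hL) i hi) (hO.2 _ e hL i hi)

theorem enumG : ∃ G : ℕ × ℕ → Out, GEnum G := by
  obtain ⟨F, hF, hprop⟩ := game_comp
  refine ⟨fun q => F (q, memb q.1.unpair.1 q.1.unpair.2.unpair.1 q.1.unpair.2.unpair.2.unpair.1
    q.1.unpair.2.unpair.2.unpair.2.unpair.1 q.2), ?_, ?_⟩
  · refine hF.comp (Computable.pair Computable.id ?_)
    have hu : Computable (fun q : ℕ × ℕ => q.1.unpair) := Computable.unpair.comp Computable.fst
    have hu2 : Computable (fun q : ℕ × ℕ => q.1.unpair.2.unpair) :=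
      Computable.unpair.comp (Computable.snd.comp hu)
    have hu3 : Computable (fun q : ℕ × ℕ => q.1.unpair.2.unpair.2.unpair) :=
      Computable.unpair.comp (Computable.snd.comp hu2)
    have hu4 : Computable (fun q : ℕ × ℕ => q.1.unpair.2.unpair.2.unpair.2.unpair) :=
      Computable.unpair.comp (Computable.snd.comp hu3)
    exact memb_computable.comp (Computable.pair (Computable.pair (Computable.fst.comp hu)
      (Computable.pair (Computable.fst.comp hu2) (Computable.pair (Computable.fst.comp hu3)
        (Computable.fst.comp hu4)))) Computable.snd)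
  · intro n h a b d hn hp
    have hdec : ∀ t, (fun q : ℕ × ℕ => F (q, memb q.1.unpair.1 q.1.unpair.2.unpair.1
        q.1.unpair.2.unpair.2.unpair.1 q.1.unpair.2.unpair.2.unpair.2.unpair.1 q.2))
        (prm n h a b d, t) = F ((prm n h a b d, t), memb n h a b t) := by
      intro t
      simp [prm]
    obtain ⟨O, hO, t₀, h1, h2⟩ := hprop n h a b d hn hp
    refine ⟨fun t i hi => ?_, fun t => ?_, t₀, fun t ht => ?_⟩
    · rw [hdec, hdec]
      rcases lt_or_ge t t₀ with ht | ht
      · rw [h1 t ht]
        exact A2a_ext_nil _ _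
      · rw [h2 t ht _ (memb_legal n h a b t), h2 (t + 1) (by omega) _ (memb_legal n h a b (t + 1))]
        obtain ⟨r, hr⟩ := memb_prefix n h a b (show t ≤ t + 1 by omega)
        have := memb_legal n h a b (t + 1)
        rw [← hr] at this ⊢
        exact A2a_ext hO _ r this i hi
    · rw [hdec]
      rcases lt_or_ge t t₀ with ht | ht
      · left
        exact h1 t ht _
      · right
        rw [h2 t ht _ (memb_legal n h a b t)]
        exact hO.1 _ (memb_legal n h a b t)
    · rw [hdec, h2 t ht _ (memb_legal n h a b t)]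
      exact hO.1 _ (memb_legal n h a b t)

end Pool.Agent.Lib.H52K
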