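import Pool.Agent.Lib.H52K.T
import Pool.Agent.Lib.H52K.K3c
import Pool.Agent.Lib.H52K.K5
import Pool.Agent.Lib.H52K.A1c

/-!
First statement: `KS_ce` with `θ = pair (KS z 0) (pair (KS x z) (KS y z))`, condition `pair x y`. Second
statement: chain rule in both orders.
-/

namespace Pool.Agent.Lib.H52K

/-- `z` is seen at stage `t` as an element of `Dst h a b x y`; `θ = pair h (pair a b)`, the
condition is `pair x y`. -/
def A3aR (p : (ℕ × ℕ) × (ℕ × ℕ)) : Bool :=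
  (decide (p.2.1 ∈ En p.1.1.unpair.1 0 p.2.2) &&
    decide (p.1.2.unpair.1 ∈ En p.1.1.unpair.2.unpair.1 p.2.1 p.2.2)) &&
    decide (p.1.2.unpair.2 ∈ En p.1.1.unpair.2.unpair.2 p.2.1 p.2.2)

lemma A3a_mem {α : Type*} [Primcodable α] {f : α → ℕ} {g : α → List ℕ} (hf : Computable f)
    (hg : Computable g) : Computable fun a => decide (f a ∈ g a) :=
  mem_primrec.decide.to_comp.comp hf hg

lemma A3aR_computable : Computable A3aR := by
  have u1 : Computable fun z : ℕ => z.unpair.1 := Computable.fst.comp Computable.unpair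
  have u2 : Computable fun z : ℕ => z.unpair.2 := Computable.snd.comp Computable.unpair
  have hθ : Computable fun p : (ℕ × ℕ) × (ℕ × ℕ) => p.1.1 := Computable.fst.comp Computable.fst
  have hc : Computable fun p : (ℕ × ℕ) × (ℕ × ℕ) => p.1.2 := Computable.snd.comp Computable.fst
  have hz : Computable fun p : (ℕ × ℕ) × (ℕ × ℕ) => p.2.1 := Computable.fst.comp Computable.snd
  have ht : Computable fun p : (ℕ × ℕ) × (ℕ × ℕ) => p.2.2 := Computable.snd.comp Computable.snd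
  have hE : ∀ {f g h : (ℕ × ℕ) × (ℕ × ℕ) → ℕ}, Computable f → Computable g → Computable h →
      Computable fun a => En (f a) (g a) (h a) :=
    fun hf hg hh => En_computable.comp ((hf.pair hg).pair hh)
  exact Primrec.and.to_comp.comp (Primrec.and.to_comp.comp
    (A3a_mem hz (hE (u1.comp hθ) (Computable.const 0) ht))
    (A3a_mem (u1.comp hc) (hE (u1.comp (u2.comp hθ)) hz ht)))
    (A3a_mem (u2.comp hc) (hE (u2.comp (u2.comp hθ)) hz ht))

lemma A3aR_iff (h a b x y z t : ℕ) :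
    A3aR ((Nat.pair h (Nat.pair a b), Nat.pair x y), (z, t)) = true ↔
      (z ∈ En h 0 t ∧ x ∈ En a z t) ∧ y ∈ En b z t := by
  unfold A3aR
  simp only [Nat.unpair_pair, Bool.and_eq_true, decide_eq_true_eq]

/-- Given `x` and `y`, the string `z` is described by its number in `Dst`. -/
theorem KS_z_given_xy : ∃ C, ∀ ν x y z L, KS z 0 ≤ ν → KS x z ≤ ν → KS y z ≤ ν →
    (Dst (KS z 0) (KS x z) (KS y z) x y).ncard ≤ 2 ^ L → KS z (Nat.pair x y) ≤ L + er C ν := by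
  obtain ⟨C, hC⟩ := KS_ce A3aR A3aR_computable
  refine ⟨2 * (2 * (1 + (2 * (1 + 1) + 4)) + 4 + 1) + C, fun ν x y z L hz hx hy hL => ?_⟩
  have hfin : (Dst (KS z 0) (KS x z) (KS y z) x y).Finite :=
    (KS_finite (KS z 0) 0).subset fun w hw => hw.1
  have h1 : KS z (Nat.pair x y) ≤ L + 2 * Nat.size (Nat.pair (KS z 0)
      (Nat.pair (KS x z) (KS y z))) + C := by
    obtain ⟨t1, ht1⟩ := exists_mem_En (le_refl (KS z 0))
    obtain ⟨t2, ht2⟩ := exists_mem_En (le_refl (KS x z))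
    obtain ⟨t3, ht3⟩ := exists_mem_En (le_refl (KS y z))
    refine hC (Nat.pair (KS z 0) (Nat.pair (KS x z) (KS y z))) (Nat.pair x y) L ?_ z
      (max t1 (max t2 t3)) ?_
    · intro S hS
      refine le_trans ?_ hL
      rw [← Set.ncard_coe_finset S]
      refine Set.ncard_le_ncard (fun w hw => ?_) hfin
      obtain ⟨t, ht⟩ := hS w (by simpa using hw)
      rw [A3aR_iff] at ht
      exact ⟨KS_le_of_mem_En ht.1.1, KS_le_of_mem_En ht.1.2, KS_le_of_mem_En ht.2⟩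
    · rw [A3aR_iff]
      exact ⟨⟨(En_prefix _ _ (le_max_left _ _)).subset ht1,
        (En_prefix _ _ ((le_max_left _ _).trans (le_max_right _ _))).subset ht2⟩,
        (En_prefix _ _ ((le_max_right _ _).trans (le_max_right _ _))).subset ht3⟩
  have h2 : Nat.pair (KS z 0) (Nat.pair (KS x z) (KS y z)) ≤
      2 ^ er (2 * (1 + (2 * (1 + 1) + 4)) + 4) ν :=
    pair_le_pow (hz.trans (le_pow_er ν))
      (pair_le_pow (hx.trans (le_pow_er ν)) (hy.trans (le_pow_er ν)))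
  have h3 := size_le_of_le_pow h2
  have h4 := er_mul (2 * (1 + (2 * (1 + 1) + 4)) + 4 + 1) 2 ν
  have h5 := er_add (2 * (2 * (1 + (2 * (1 + 1) + 4)) + 4 + 1)) C ν
  have h6 := le_er C ν
  omega

theorem KS_xy_z : ∃ C, ∀ ν x y z L, KS x 0 ≤ ν → KS y 0 ≤ ν → KS z 0 ≤ ν →
    (Dst (KS z 0) (KS x z) (KS y z) x y).ncard ≤ 2 ^ L →
    KS (Nat.pair x y) z + KS z 0 ≤ KS (Nat.pair x y) 0 + L + er C ν := by
  obtain ⟨C0, h0⟩ := KS_zero
  obtain ⟨C1, h1⟩ := KS_z_given_xy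
  obtain ⟨C2, h2⟩ := KS_pair_le
  obtain ⟨C3, h3⟩ := KS_drop
  obtain ⟨C4, h4⟩ := KS_pair0
  obtain ⟨C5, h5⟩ := KS_pair_ge
  obtain ⟨C6, h6⟩ := KS_swap
  set K : ℕ := 1 + 1 + 1 + (C3 + C0) + 1 + (C2 + 1) + 1 with hK
  obtain ⟨D1, hD1⟩ := T_er C1 K
  obtain ⟨D2, hD2⟩ := T_er C2 K
  obtain ⟨D5, hD5⟩ := T_er C5 K
  refine ⟨D1 + D2 + D5 + (2 * C4 + C6), fun ν x y z L hx hy hz hL => ?_⟩
  have hμ : ν + ν + (C3 + C0) + er C2 ν ≤ 2 ^ er K ν :=
    add_le_pow (add_le_pow (add_le_pow (le_pow_er ν) (le_pow_er ν))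
      (const_le_pow (C3 + C0) ν)) (er_le_pow C2 ν)
  have e1 := hD1 ν _ hμ
  have e2 := hD2 ν _ hμ
  have e5 := hD5 ν _ hμ
  have a1 := h2 ν x y 0 hx
  have a2 := (h3 y x 0).1
  have a3 := h0 x z
  have a4 := h0 y z
  have b := h5 (ν + ν + (C3 + C0) + er C2 ν) z (Nat.pair x y) 0 (by omega) (by omega)
  have c := (h4 (Nat.pair x y) z).1
  have d := h6 z (Nat.pair x y) 0
  have e := h2 (ν + ν + (C3 + C0) + er C2 ν) (Nat.pair x y) z 0 (by omega)
  have f := (h4 z (Nat.pair x y)).2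
  have g := h1 (ν + ν + (C3 + C0) + er C2 ν) x y z L (by omega) (by omega) (by omega) hL
  have i1 := er_add (D1 + D2 + D5) (2 * C4 + C6) ν
  have i2 := er_add (D1 + D2) D5 ν
  have i3 := er_add D1 D2 ν
  have i4 := le_er (2 * C4 + C6) ν
  omega

end Pool.Agent.Lib.H52K
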