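import Pool.Agent.Lib.H52K.A2
import Pool.Agent.Lib.H52K.A3a

/-!
Let `n = max (KS x 0) (KS y 0)` (at least `1`), `h = KS z 0`, `a = KS x z`, `b = KS y z`, `D = |Dst|`. Let `d₀` be
minimal with `pol n h a b ≤ 2^(d₀)` (`2^(d₀)` is polynomial in `ν`). By `Dst_le_cntX` one of the two counts is
at least `D / 2` for large stages. If `D < 2 (a + b + 1) 2^(d₀) * 2`, `KS z (pair x y)` is small
(`KS_z_given_xy`): take `v = z`, `u = 0`. Otherwise (say the first count is `≥ D/2`) there is `d ≥ d₀` with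
`(a+1) 2^d ≤ max_t cntX < (a+1) 2^(d+1)`; take `v, u` from `name_exists`. By the chain rule
`KS (pair x y) v + KS v 0 ≥ KS (pair x y) 0 - er`, and `KS (pair x y) z + h ≤ KS (pair x y) 0 + log D + er`
(`KS_xy_z`), `log D ≤ d + er`, so `KS (pair x y) v + u ≥ KS (pair x y) z - er`. If the second count is the large one, use
`name_exists` with `x`, `y` and `a`, `b` exchanged.
-/

namespace Pool.Agent.Lib.H52K

theorem A3_pol : ∃ C, ∀ N n h a b, n ≤ N → h ≤ N → a ≤ N → b ≤ N → pol n h a b ≤ 2 ^ er C N := by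
  obtain ⟨c, hc⟩ : ∃ c, ∀ N, N + N + N + N + 10 ≤ 2 ^ er c N :=
    ⟨_, fun N => add_le_pow (add_le_pow (add_le_pow (add_le_pow (le_pow_er N) (le_pow_er N))
      (le_pow_er N)) (le_pow_er N)) (const_le_pow 10 N)⟩
  refine ⟨2 ^ 12 + (c + c + c + c), fun N n h a b hn hh ha hb => ?_⟩
  unfold pol
  refine mul_le_pow (const_le_pow _ N) ?_
  have h1 : n + h + a + b + 10 ≤ 2 ^ er c N := le_trans (by omega) (hc N)
  calc (n + h + a + b + 10) ^ 4 = (n + h + a + b + 10) * (n + h + a + b + 10) *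
        (n + h + a + b + 10) * (n + h + a + b + 10) := by ring
    _ ≤ 2 ^ er (c + c + c + c) N := mul_le_pow (mul_le_pow (mul_le_pow h1 h1) h1) h1

theorem A3_core : ∃ C, ∀ N n h a b x y ix iy t d₀, n ≤ N → h ≤ N → a ≤ N → b ≤ N → 1 ≤ n →
    (En n 0 t)[ix]? = some x → (En n 0 t)[iy]? = some y → pol n h a b ≤ 2 ^ d₀ →
    (a + 1) * 2 ^ d₀ ≤ cntX (memb n h a b t) ix iy →
    ∃ v u d, KS v 0 + d ≤ h + u + er C N ∧ KS x v + u ≤ a + er C N ∧ KS y v + u ≤ b + er C N ∧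
      KS v (Nat.pair x y) ≤ er C N ∧ cntX (memb n h a b t) ix iy < (a + 1) * 2 ^ (d + 1) := by
  classical
  obtain ⟨C, hC⟩ := name_exists
  refine ⟨C, fun N n h a b x y ix iy t d₀ hn hh ha hb h1n hx hy hp hc => ?_⟩
  have hle : ∀ d t', (a + 1) * 2 ^ d ≤ cntX (memb n h a b t') ix iy → d ≤ h := fun d t' hd => by
    have h1 := cntX_le (memb_legal n h a b t') ix iy
    have h2 : 2 ^ d ≤ 2 ^ h := by
      have : 1 * 2 ^ d ≤ (a + 1) * 2 ^ d := Nat.mul_le_mul_right _ (by omega)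
      omega
    exact (Nat.pow_le_pow_iff_right (by norm_num)).1 h2
  set P : ℕ → Prop := fun d => ∃ t', (a + 1) * 2 ^ d ≤ cntX (memb n h a b t') ix iy with hP
  obtain ⟨d, hd⟩ : ∃ d, d = Nat.findGreatest P h := ⟨_, rfl⟩
  have hd0 : d₀ ≤ h := hle d₀ t hc
  have hPd : P d := hd ▸ Nat.findGreatest_spec (P := P) hd0 ⟨t, hc⟩
  have hd₀ : d₀ ≤ d := hd ▸ Nat.le_findGreatest (P := P) hd0 ⟨t, hc⟩
  have hlt : ∀ t', cntX (memb n h a b t') ix iy < (a + 1) * 2 ^ (d + 1) := fun t' => by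
    by_contra hcon
    have h1 : P (d + 1) := ⟨t', by omega⟩
    have h2 : d + 1 ≤ h := hle (d + 1) t' (by omega)
    have h3 : d + 1 ≤ Nat.findGreatest P h := Nat.le_findGreatest h2 h1
    omega
  obtain ⟨t', ht'⟩ := hPd
  have pre : ∀ {i w}, (En n 0 t)[i]? = some w → (En n 0 (max t t'))[i]? = some w := fun {i w} hi => by
    obtain ⟨r, hr⟩ := En_prefix n 0 (le_max_left t t')
    rw [← hr, List.getElem?_append_left]
    · exact hi
    · exact (List.getElem?_eq_some_iff.1 hi).1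
  obtain ⟨v, u, b1, b2, b3, b4⟩ := hC N n h a b d x y ix iy (max t t') hn hh ha hb h1n (pre hx)
    (pre hy) (hp.trans (Nat.pow_le_pow_right (by norm_num) hd₀))
    (ht'.trans (cntX_mono (memb_prefix n h a b (le_max_right t t'))
      (memb_legal n h a b (max t t')).nodup ix iy)) hlt
  exact ⟨v, u, d, b1, b2, b3, b4, hlt t⟩

theorem stepA : ∃ C, ∀ ν x y z, KS x 0 ≤ ν → KS y 0 ≤ ν → KS z 0 ≤ ν → ∃ v u,
    KS v 0 ≤ 2 ^ er C ν ∧ KS v (Nat.pair x y) ≤ er C ν ∧ KS x v + u ≤ KS x z + er C ν ∧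
    KS y v + u ≤ KS y z + er C ν ∧ KS (Nat.pair x y) z ≤ KS (Nat.pair x y) v + u + er C ν := by
  obtain ⟨C0, h0⟩ := KS_zero
  obtain ⟨Cp, hpol⟩ := A3_pol
  obtain ⟨Cc, hcore⟩ := A3_core
  obtain ⟨Cz, hz1⟩ := KS_z_given_xy
  obtain ⟨Cy, hz2⟩ := KS_xy_z
  obtain ⟨Cw, hw⟩ := KS_cswap
  obtain ⟨Ct, ht⟩ := KS_trans
  -- constants relative to `N`
  obtain ⟨Ct', hCt⟩ := T_er Ct (1 + 1 + 1 + (2 * Cc + 1) + 1)
  obtain ⟨Cf, hCf⟩ : ∃ Cf, Cf = Cp + Cc + Cz + Cy + Cw + Ct' + 6 + (2 * Cc + 1) + 10 :=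
    ⟨_, rfl⟩
  obtain ⟨C, hC⟩ := T_er Cf (1 + C0 + 1)
  refine ⟨C + Cf * (1 + C0 + 1 + 2), fun ν x y z hx hy hz => ?_⟩
  obtain ⟨N, hN⟩ : ∃ N, N = ν + C0 := ⟨_, rfl⟩
  have hNb : N ≤ 2 ^ er (1 + C0 + 1) ν := hN ▸ add_le_pow (le_pow_er ν) (const_le_pow C0 ν)
  -- it is enough to have errors `er Cf N`
  suffices H : ∃ v u, KS v 0 ≤ 2 ^ er Cf N ∧ KS v (Nat.pair x y) ≤ er Cf N ∧
      KS x v + u ≤ KS x z + er Cf N ∧ KS y v + u ≤ KS y z + er Cf N ∧
      KS (Nat.pair x y) z ≤ KS (Nat.pair x y) v + u + er Cf N by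
    obtain ⟨v, u, b1, b2, b3, b4, b5⟩ := H
    have e1 := hC ν N hNb
    have e2 := er_mono_left ν (Nat.le_add_right C (Cf * (1 + C0 + 1 + 2)))
    refine ⟨v, u, b1.trans (Nat.pow_le_pow_right (by norm_num) ?_), by omega, by omega, by omega,
      by omega⟩
    exact (er_mono_right Cf hNb).trans ((er_pow _ _ _).trans (er_mono_left ν (by omega)))
  have hxz := h0 x z
  have hyz := h0 y z
  obtain ⟨n, hn⟩ : ∃ n, n = max (KS x 0) (KS y 0) := ⟨_, rfl⟩
  have hn1 : 1 ≤ n := by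
    obtain ⟨c, w, -, h2⟩ := KS_spec x 0
    omega
  have hnN : n ≤ N := by omega
  obtain ⟨tx, htx⟩ := exists_mem_En (k := n) (z := 0) (x := x) (by omega)
  obtain ⟨ty, hty⟩ := exists_mem_En (k := n) (z := 0) (x := y) (by omega)
  obtain ⟨t₀, ht0⟩ : ∃ t₀, t₀ = max tx ty := ⟨_, rfl⟩
  obtain ⟨ix, hix⟩ := List.getElem?_of_mem ((En_prefix n 0 (show tx ≤ t₀ by omega)).subset htx)
  obtain ⟨iy, hiy⟩ := List.getElem?_of_mem ((En_prefix n 0 (show ty ≤ t₀ by omega)).subset hty)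
  obtain ⟨t₁, ht1⟩ := Dst_le_cntX n (KS z 0) (KS x z) (KS y z) x y ix iy t₀ hix hiy
  obtain ⟨t, htt⟩ : ∃ t, t = max t₀ t₁ := ⟨_, rfl⟩
  have pre : ∀ {i w}, (En n 0 t₀)[i]? = some w → (En n 0 t)[i]? = some w := fun {i w} hi => by
    obtain ⟨r, hr⟩ := En_prefix n 0 (show t₀ ≤ t by omega)
    rw [← hr, List.getElem?_append_left]
    · exact hi
    · exact (List.getElem?_eq_some_iff.1 hi).1
  obtain ⟨p, hp⟩ : ∃ p, p = cntX (memb n (KS z 0) (KS x z) (KS y z) t) ix iy := ⟨_, rfl⟩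
  obtain ⟨q, hq⟩ : ∃ q, q = cntX (memb n (KS z 0) (KS y z) (KS x z) t) iy ix := ⟨_, rfl⟩
  have hD : (Dst (KS z 0) (KS x z) (KS y z) x y).ncard ≤ p + q := by
    rw [hp, hq]
    exact ht1.trans (Nat.add_le_add
      (cntX_mono (memb_prefix _ _ _ _ (by omega)) (memb_legal _ _ _ _ _).nodup _ _)
      (cntX_mono (memb_prefix _ _ _ _ (by omega)) (memb_legal _ _ _ _ _).nodup _ _))
  obtain ⟨d₀, hd0⟩ : ∃ d₀, d₀ = Nat.clog 2 (pol n (KS z 0) (KS x z) (KS y z)) := ⟨_, rfl⟩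
  have hpd : pol n (KS z 0) (KS x z) (KS y z) ≤ 2 ^ d₀ := hd0 ▸ Nat.le_pow_clog (by norm_num) _
  have hpd' : pol n (KS z 0) (KS y z) (KS x z) ≤ 2 ^ d₀ := by
    have : pol n (KS z 0) (KS y z) (KS x z) = pol n (KS z 0) (KS x z) (KS y z) := by
      unfold pol; congr 2; omega
    rw [this]; exact hpd
  have hd0' : d₀ ≤ er Cp N := by
    rw [hd0]
    exact Nat.clog_le_of_le_pow (hpol N _ _ _ _ hnN (by omega) (by omega) (by omega))
  -- error arithmetic
  have e0 : er Cf N = er Cp N + er Cc N + er Cz N + er Cy N + er Cw N + er Ct' N +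
      er 6 N + er (2 * Cc + 1) N + er 10 N := by
    rw [hCf, er_add, er_add, er_add, er_add, er_add, er_add, er_add, er_add]
  have e1 := er_add (2 * Cc) 1 N
  have e2 := er_mul Cc 2 N
  have e3 := le_er 10 N
  have e4 := le_er Cw N
  -- sizes
  have hsz : ∀ m, m ≤ N + N + 1 → m ≤ 2 ^ er 5 N := fun m hm =>
    hm.trans (add_le_pow (C := 1 + 1 + 1) (C' := 1) (add_le_pow (le_pow_er N) (le_pow_er N))
      (const_le_pow 1 N))
  have e5 : er 5 N + er 1 N = er 6 N := er_add 5 1 N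
  -- the main case
  have main : ∀ v u d s, KS v 0 + d ≤ KS z 0 + u + er Cc N → KS x v + u ≤ KS x z + er Cc N →
      KS y v + u ≤ KS y z + er Cc N → KS v (Nat.pair x y) ≤ er Cc N + Cw →
      s ≤ N + N + 1 → p + q < s * 2 ^ (d + 2) →
      ∃ v u, KS v 0 ≤ 2 ^ er Cf N ∧ KS v (Nat.pair x y) ≤ er Cf N ∧
      KS x v + u ≤ KS x z + er Cf N ∧ KS y v + u ≤ KS y z + er Cf N ∧
      KS (Nat.pair x y) z ≤ KS (Nat.pair x y) v + u + er Cf N := by
    intro v u d s b1 b2 b3 b4 hs hlt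
    have hDL : (Dst (KS z 0) (KS x z) (KS y z) x y).ncard ≤
        2 ^ (er 5 N + (d + 2)) := by
      rw [pow_add]
      exact hD.trans (hlt.le.trans (Nat.mul_le_mul_right _ (hsz s hs)))
    have h3 := hz2 N x y z _ (by omega) (by omega) (by omega) hDL
    have hv0 : KS v 0 ≤ N + N + er (2 * Cc) N := by omega
    have hv1 : N + N + er (2 * Cc) N ≤ 2 ^ er (1 + 1 + 1 + (2 * Cc + 1) + 1) N :=
      add_le_pow (add_le_pow (le_pow_er N) (le_pow_er N)) (er_le_pow (2 * Cc) N)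
    have h4 := ht _ (Nat.pair x y) v 0 (hv0.trans hv1)
    have h5 := hCt N _ (le_refl (2 ^ er (1 + 1 + 1 + (2 * Cc + 1) + 1) N))
    refine ⟨v, u, hv0.trans (hv1.trans (pow_er_mono N (by omega))), by omega, by omega, by omega, ?_⟩
    omega
  rcases le_total q p with hqp | hqp
  · rcases le_or_gt ((KS x z + 1) * 2 ^ d₀) p with hcase | hcase
    · obtain ⟨v, u, d, b1, b2, b3, b4, b5⟩ := hcore N n (KS z 0) (KS x z) (KS y z) x y ix iy t d₀
        hnN (by omega) (by omega) (by omega) hn1 (pre hix) (pre hiy) hpd (hp ▸ hcase)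
      rw [← hp] at b5
      refine main v u d (KS x z + 1) b1 b2 b3 (by omega) (by omega) ?_
      have : (KS x z + 1) * 2 ^ (d + 2) = 2 * ((KS x z + 1) * 2 ^ (d + 1)) := by ring
      omega
    · -- few common conditions
      have hDL : (Dst (KS z 0) (KS x z) (KS y z) x y).ncard ≤
          2 ^ (er 5 N + (d₀ + 1)) := by
        rw [pow_add]
        refine hD.trans (le_trans ?_ (Nat.mul_le_mul_right _ (hsz (KS x z + 1) (by omega))))
        rw [pow_succ]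
        nlinarith
      have h3 := hz1 N x y z _ (by omega) (by omega) (by omega) hDL
      refine ⟨z, 0, ?_, by omega, by omega, by omega, by omega⟩
      have h4 : KS z 0 ≤ N := by omega
      exact h4.trans ((le_pow_er N).trans (pow_er_mono N (by omega)))
  · rcases le_or_gt ((KS y z + 1) * 2 ^ d₀) q with hcase | hcase
    · obtain ⟨v, u, d, b1, b2, b3, b4, b5⟩ := hcore N n (KS z 0) (KS y z) (KS x z) y x iy ix t d₀
        hnN (by omega) (by omega) (by omega) hn1 (pre hiy) (pre hix) hpd' (hq ▸ hcase)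
      rw [← hq] at b5
      have h6 := hw v x y
      refine main v u d (KS y z + 1) b1 b3 b2 (by omega) (by omega) ?_
      have : (KS y z + 1) * 2 ^ (d + 2) = 2 * ((KS y z + 1) * 2 ^ (d + 1)) := by ring
      omega
    · have hDL : (Dst (KS z 0) (KS x z) (KS y z) x y).ncard ≤
          2 ^ (er 5 N + (d₀ + 1)) := by
        rw [pow_add]
        refine hD.trans (le_trans ?_ (Nat.mul_le_mul_right _ (hsz (KS y z + 1) (by omega))))
        rw [pow_succ]
        nlinarith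
      have h3 := hz1 N x y z _ (by omega) (by omega) (by omega) hDL
      refine ⟨z, 0, ?_, by omega, by omega, by omega, by omega⟩
      have h4 : KS z 0 ≤ N := by omega
      exact h4.trans ((le_pow_er N).trans (pow_er_mono N (by omega)))

end Pool.Agent.Lib.H52K
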