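import Pool.Agent.Lib.H52K.C1a2

/-!
Primitive recursiveness of `Win` (in `cover` only `x`, `y` occurring in `M` matter, since
`1 ≤ (a + 1) * 2 ^ d ≤ cntX M x y`) and `Closed`.
-/

namespace Pool.Agent.Lib.H52K

theorem C1a3_cntX_pos {M : List Ev} {x y : ℕ} (h : 1 ≤ cntX M x y) :
    (∃ e ∈ M, e.2.2 = x) ∧ ∃ e ∈ M, e.2.2 = y := by
  unfold cntX at h
  obtain ⟨e, he⟩ := List.exists_mem_of_length_pos h
  rw [List.mem_filter] at he
  obtain ⟨he1, he2⟩ := he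
  have he3 := of_decide_eq_true he2
  exact ⟨⟨_, List.mem_of_mem_take he3.2.2, rfl⟩, ⟨e, he1, he3.2.1⟩⟩

/-- The pair `(x, y)` is covered by the name `k`. -/
def C1a3_cov (O : Out1) (x y k : ℕ) : Prop :=
  (x, y, k) ∈ O.2.2 ∧ x ∈ O.1.getD k [] ∧ (k, y) ∈ O.2.1

theorem C1a3_cov_primrec : PrimrecPred fun q : Out1 × ℕ × ℕ × ℕ =>
    C1a3_cov q.1 q.2.1 q.2.2.1 q.2.2.2 := by
  have o1 : Primrec fun q : Out1 × ℕ × ℕ × ℕ => q.1.1 := (Primrec.fst.comp Primrec.fst)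
  have o2 : Primrec fun q : Out1 × ℕ × ℕ × ℕ => q.1.2.1 := (Primrec.fst.comp (Primrec.snd.comp Primrec.fst))
  have o3 : Primrec fun q : Out1 × ℕ × ℕ × ℕ => q.1.2.2 := (Primrec.snd.comp (Primrec.snd.comp Primrec.fst))
  have x1 : Primrec fun q : Out1 × ℕ × ℕ × ℕ => q.2.1 := (Primrec.fst.comp Primrec.snd)
  have y1 : Primrec fun q : Out1 × ℕ × ℕ × ℕ => q.2.2.1 := (Primrec.fst.comp (Primrec.snd.comp Primrec.snd))
  have k1 : Primrec fun q : Out1 × ℕ × ℕ × ℕ => q.2.2.2 := (Primrec.snd.comp (Primrec.snd.comp Primrec.snd))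
  have h1 := mem_primrec.comp (x1.pair (y1.pair k1)) o3
  have h2 := (Primrec.list_getD ([] : List ℕ)).comp o1 k1
  have h3 := mem_primrec.comp x1 h2
  have h4 := mem_primrec.comp (k1.pair y1) o2
  have h5 := h1.and (h3.and h4)
  exact h5.of_eq fun q => Iff.rfl

theorem C1a3_cov1_primrec : PrimrecPred fun q : Out1 × ℕ × ℕ =>
    ∃ k ∈ List.range q.1.1.length, C1a3_cov q.1 q.2.1 q.2.2 k := by
  have f : Primrec fun q : Out1 × ℕ × ℕ => List.range q.1.1.length :=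
    Primrec.list_range.comp (Primrec.list_length.comp (Primrec.fst.comp Primrec.fst))
  have h : PrimrecRel fun (q : Out1 × ℕ × ℕ) (k : ℕ) => C1a3_cov q.1 q.2.1 q.2.2 k := by
    have g1 : Primrec fun r : (Out1 × ℕ × ℕ) × ℕ => r.1.1 := (Primrec.fst.comp Primrec.fst)
    have g2 : Primrec fun r : (Out1 × ℕ × ℕ) × ℕ => r.1.2.1 := (Primrec.fst.comp (Primrec.snd.comp Primrec.fst))
    have g3 : Primrec fun r : (Out1 × ℕ × ℕ) × ℕ => r.1.2.2 := (Primrec.snd.comp (Primrec.snd.comp Primrec.fst))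
    have h := C1a3_cov_primrec.comp (g1.pair (g2.pair (g3.pair Primrec.snd)))
    exact h
  exact exists_mem_primrec f h

theorem C1a3_cov2_primrec : PrimrecPred fun q : (Out × ℕ) × ℕ × ℕ =>
    ∃ i ∈ List.range (q.1.2 + 1), ∃ k ∈ List.range (q.1.1.nth i).1.length,
      C1a3_cov (q.1.1.nth i) q.2.1 q.2.2 k := by
  have f : Primrec fun q : (Out × ℕ) × ℕ × ℕ => List.range (q.1.2 + 1) :=
    Primrec.list_range.comp (Primrec.succ.comp (Primrec.snd.comp Primrec.fst))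
  have h : PrimrecRel fun (q : (Out × ℕ) × ℕ × ℕ) (i : ℕ) =>
      ∃ k ∈ List.range (q.1.1.nth i).1.length, C1a3_cov (q.1.1.nth i) q.2.1 q.2.2 k := by
    have g1 : Primrec fun r : ((Out × ℕ) × ℕ × ℕ) × ℕ => r.1.1.1 := (Primrec.fst.comp (Primrec.fst.comp Primrec.fst))
    have g2 : Primrec fun r : ((Out × ℕ) × ℕ × ℕ) × ℕ => r.1.2 := (Primrec.snd.comp Primrec.fst)
    have g3 := nth_primrec.comp (g1.pair Primrec.snd)
    have h := C1a3_cov1_primrec.comp (g3.pair g2)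
    exact h
  exact exists_mem_primrec f h

/-- The parameters. -/
abbrev C1a3_T : Type := ((ℕ × ℕ × ℕ × ℕ × ℕ) × List Ev) × Out

theorem C1a3_n : Primrec fun p : C1a3_T => p.1.1.1 := (Primrec.fst.comp (Primrec.fst.comp Primrec.fst))
theorem C1a3_h : Primrec fun p : C1a3_T => p.1.1.2.1 := (Primrec.fst.comp (Primrec.snd.comp (Primrec.fst.comp Primrec.fst)))
theorem C1a3_a : Primrec fun p : C1a3_T => p.1.1.2.2.1 := (Primrec.fst.comp (Primrec.snd.comp (Primrec.snd.comp (Primrec.fst.comp Primrec.fst))))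
theorem C1a3_b : Primrec fun p : C1a3_T => p.1.1.2.2.2.1 := (Primrec.fst.comp (Primrec.snd.comp (Primrec.snd.comp (Primrec.snd.comp (Primrec.fst.comp Primrec.fst)))))
theorem C1a3_d : Primrec fun p : C1a3_T => p.1.1.2.2.2.2 := (Primrec.snd.comp (Primrec.snd.comp (Primrec.snd.comp (Primrec.snd.comp (Primrec.fst.comp Primrec.fst)))))
theorem C1a3_M : Primrec fun p : C1a3_T => p.1.2 := (Primrec.snd.comp Primrec.fst)
theorem C1a3_O : Primrec fun p : C1a3_T => p.2 := Primrec.snd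

theorem C1a3_win_iff (n h a b d : ℕ) (M : List Ev) (O : Out) : Win n h a b d M O ↔
    O.length = a + 1 ∧ (∀ i < a + 1, Win1 n h a b d i M (O.nth i)) ∧
    (∀ e ∈ M, ∀ e' ∈ M, (a + 1) * 2 ^ d ≤ cntX M e.2.2 e'.2.2 →
      ∃ i ∈ List.range (a + 1), ∃ k ∈ List.range (O.nth i).1.length,
        C1a3_cov (O.nth i) e.2.2 e'.2.2 k) := by
  constructor
  · intro H
    refine ⟨H.len, fun i hi => H.each i (by omega), fun e _ e' _ hc => ?_⟩
    obtain ⟨i, hi, k, hk, h1⟩ := H.cover _ _ hc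
    exact ⟨i, List.mem_range.mpr (by omega), k, List.mem_range.mpr hk, h1⟩
  · rintro ⟨h1, h2, h3⟩
    refine ⟨h1, fun i hi => h2 i (by omega), fun x y hc => ?_⟩
    have hpos : 1 ≤ cntX M x y := by
      refine le_trans ?_ hc
      exact Nat.mul_pos (Nat.succ_pos _) (Nat.two_pow_pos _)
    obtain ⟨⟨e, he, rfl⟩, ⟨e', he', rfl⟩⟩ := C1a3_cntX_pos hpos
    obtain ⟨i, hi, k, hk, h4⟩ := h3 e he e' he' hc
    rw [List.mem_range] at hi hk
    exact ⟨i, by omega, k, hk, h4⟩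

theorem C1a3_each : PrimrecPred fun p : C1a3_T => ∀ i < p.1.1.2.2.1 + 1,
    Win1 p.1.1.1 p.1.1.2.1 p.1.1.2.2.1 p.1.1.2.2.2.1 p.1.1.2.2.2.2 i p.1.2 (p.2.nth i) := by
  have f : Primrec fun p : C1a3_T => p.1.1.2.2.1 + 1 := Primrec.succ.comp C1a3_a
  have h : PrimrecRel fun (p : C1a3_T) (i : ℕ) =>
      Win1 p.1.1.1 p.1.1.2.1 p.1.1.2.2.1 p.1.1.2.2.2.1 p.1.1.2.2.2.2 i p.1.2 (p.2.nth i) := by
    have f1 := Primrec.fst (α := C1a3_T) (β := ℕ)
    have f2 := Primrec.snd (α := C1a3_T) (β := ℕ)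
    have g1 := nth_primrec.comp ((C1a3_O.comp f1).pair f2)
    have g2 := (C1a3_n.comp f1).pair ((C1a3_h.comp f1).pair ((C1a3_a.comp f1).pair
      ((C1a3_b.comp f1).pair ((C1a3_d.comp f1).pair f2))))
    have h := win1_primrec.comp ((g2.pair (C1a3_M.comp f1)).pair g1)
    exact h
  exact forall_lt_primrec f h

theorem C1a3_cover : PrimrecPred fun p : C1a3_T => ∀ e ∈ p.1.2, ∀ e' ∈ p.1.2,
    (p.1.1.2.2.1 + 1) * 2 ^ p.1.1.2.2.2.2 ≤ cntX p.1.2 e.2.2 e'.2.2 →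
      ∃ i ∈ List.range (p.1.1.2.2.1 + 1), ∃ k ∈ List.range (p.2.nth i).1.length,
        C1a3_cov (p.2.nth i) e.2.2 e'.2.2 k := by
  have h1 : PrimrecRel fun (q : C1a3_T × Ev) (e' : Ev) =>
      (q.1.1.1.2.2.1 + 1) * 2 ^ q.1.1.1.2.2.2.2 ≤ cntX q.1.1.2 q.2.2.2 e'.2.2 →
      ∃ i ∈ List.range (q.1.1.1.2.2.1 + 1), ∃ k ∈ List.range (q.1.2.nth i).1.length,
        C1a3_cov (q.1.2.nth i) q.2.2.2 e'.2.2 k := by
    have f1 : Primrec fun r : (C1a3_T × Ev) × Ev => r.1.1 := (Primrec.fst.comp Primrec.fst)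
    have f2 : Primrec fun r : (C1a3_T × Ev) × Ev => r.1.2.2.2 := (Primrec.snd.comp (Primrec.snd.comp (Primrec.snd.comp Primrec.fst)))
    have f3 : Primrec fun r : (C1a3_T × Ev) × Ev => r.2.2.2 := (Primrec.snd.comp (Primrec.snd.comp Primrec.snd))
    have g1 := cntX_primrec.comp ((C1a3_M.comp f1).pair (f2.pair f3))
    have g2 := Primrec.nat_mul.comp (Primrec.succ.comp (C1a3_a.comp f1))
      (C1a1_pow2.comp (C1a3_d.comp f1))
    have g3 := Primrec.nat_le.comp g2 g1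
    have g4 := C1a3_cov2_primrec.comp
      (((C1a3_O.comp f1).pair (C1a3_a.comp f1)).pair (f2.pair f3))
    have g5 := C1a1_imp g3 g4
    exact g5
  have h2 : PrimrecRel fun (p : C1a3_T) (e : Ev) => ∀ e' ∈ p.1.2,
      (p.1.1.2.2.1 + 1) * 2 ^ p.1.1.2.2.2.2 ≤ cntX p.1.2 e.2.2 e'.2.2 →
      ∃ i ∈ List.range (p.1.1.2.2.1 + 1), ∃ k ∈ List.range (p.2.nth i).1.length,
        C1a3_cov (p.2.nth i) e.2.2 e'.2.2 k := by
    have h3 := forall_mem_primrec (C1a3_M.comp (Primrec.fst (α := C1a3_T) (β := Ev))) h1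
    exact h3
  exact forall_mem_primrec C1a3_M h2

theorem win_primrec : PrimrecPred fun p : ((ℕ × ℕ × ℕ × ℕ × ℕ) × List Ev) × Out =>
    Win p.1.1.1 p.1.1.2.1 p.1.1.2.2.1 p.1.1.2.2.2.1 p.1.1.2.2.2.2 p.1.2 p.2 := by
  have h1 := Primrec.eq.comp (Primrec.list_length.comp C1a3_O) (Primrec.succ.comp C1a3_a)
  have h := h1.and (C1a3_each.and C1a3_cover)
  exact h.of_eq fun p => (C1a3_win_iff _ _ _ _ _ _ _).symm

/-! ### `Closed` -/

theorem C1a3_beq_eq {α : Type*} (i1 i2 : BEq α) (h1 : @LawfulBEq α i1) (h2 : @LawfulBEq α i2) :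
    i1 = i2 := by
  obtain ⟨f⟩ := i1
  obtain ⟨g⟩ := i2
  have h : f = g := by
    funext a b
    by_cases h : a = b
    · subst h
      exact (@beq_self_eq_true α ⟨f⟩ h1.toReflBEq a).trans
        (@beq_self_eq_true α ⟨g⟩ h2.toReflBEq a).symm
    · exact ((@beq_eq_false_iff_ne α ⟨f⟩ h1 a b).mpr h).trans
        ((@beq_eq_false_iff_ne α ⟨g⟩ h2 a b).mpr h).symm
  rw [h]

theorem C1a3_lookup_eq {α β : Type*} (i1 i2 : BEq α) (h1 : @LawfulBEq α i1) (h2 : @LawfulBEq α i2)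
    (a : α) (l : List (α × β)) : @List.lookup α β i1 a l = @List.lookup α β i2 a l := by
  rw [C1a3_beq_eq i1 i2 h1 h2]

theorem C1a3_tab : Primrec fun p : List (List Ev × Out) × List Ev => tab p.1 p.2 := by
  have h1 := (Primrec.listLookup (α := List Ev) (β := Out)).comp
    (Primrec.snd (α := List (List Ev × Out)) (β := List Ev)) Primrec.fst
  have h2 := Primrec.option_getD.comp h1 (Primrec.const ([] : Out))
  refine h2.of_eq fun p => ?_
  unfold tab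
  congr 1
  exact C1a3_lookup_eq _ _ inferInstance inferInstance _ _

/-- The parameters. -/
abbrev C1a3_U : Type := (ℕ × ℕ × ℕ × ℕ × ℕ) × List (List Ev × Out)

theorem C1a3_Un : Primrec fun p : C1a3_U => p.1.1 := (Primrec.fst.comp Primrec.fst)
theorem C1a3_Uh : Primrec fun p : C1a3_U => p.1.2.1 := (Primrec.fst.comp (Primrec.snd.comp Primrec.fst))
theorem C1a3_Ua : Primrec fun p : C1a3_U => p.1.2.2.1 := (Primrec.fst.comp (Primrec.snd.comp (Primrec.snd.comp Primrec.fst)))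
theorem C1a3_Ub : Primrec fun p : C1a3_U => p.1.2.2.2.1 := (Primrec.fst.comp (Primrec.snd.comp (Primrec.snd.comp (Primrec.snd.comp Primrec.fst))))
theorem C1a3_Ud : Primrec fun p : C1a3_U => p.1.2.2.2.2 := (Primrec.snd.comp (Primrec.snd.comp (Primrec.snd.comp (Primrec.snd.comp Primrec.fst))))
theorem C1a3_Up : Primrec fun p : C1a3_U => p.1 := Primrec.fst
theorem C1a3_Utb : Primrec fun p : C1a3_U => p.2 := Primrec.snd

theorem C1a3_keys : Primrec fun p : C1a3_U => p.2.map Prod.fst := by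
  have h := Primrec.list_map C1a3_Utb
    (Primrec.fst.comp (Primrec.snd (α := C1a3_U) (β := List Ev × Out))).to₂
  exact h

theorem C1a3_legal {α : Type*} [Primcodable α] {f : α → C1a3_U} {g : α → List Ev}
    (hf : Primrec f) (hg : Primrec g) : PrimrecPred fun x =>
      Legal (f x).1.1 (f x).1.2.1 (f x).1.2.2.1 (f x).1.2.2.2.1 (g x) := by
  have h1 := (C1a3_Un.comp hf).pair ((C1a3_Uh.comp hf).pair ((C1a3_Ua.comp hf).pair
    (C1a3_Ub.comp hf)))
  have h := legal_primrec.comp (h1.pair hg)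
  exact h

theorem C1a3_nil : PrimrecPred fun p : C1a3_U => [] ∈ p.2.map Prod.fst := by
  have h := mem_primrec.comp (Primrec.const ([] : List Ev)) C1a3_keys
  exact h

theorem C1a3_win : PrimrecPred fun p : C1a3_U => ∀ e ∈ p.2,
    Legal p.1.1 p.1.2.1 p.1.2.2.1 p.1.2.2.2.1 e.1 →
      Win p.1.1 p.1.2.1 p.1.2.2.1 p.1.2.2.2.1 p.1.2.2.2.2 e.1 (tab p.2 e.1) := by
  have h : PrimrecRel fun (p : C1a3_U) (e : List Ev × Out) =>
      Legal p.1.1 p.1.2.1 p.1.2.2.1 p.1.2.2.2.1 e.1 →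
      Win p.1.1 p.1.2.1 p.1.2.2.1 p.1.2.2.2.1 p.1.2.2.2.2 e.1 (tab p.2 e.1) := by
    have f1 := Primrec.fst (α := C1a3_U) (β := List Ev × Out)
    have f2 : Primrec fun q : C1a3_U × (List Ev × Out) => q.2.1 := (Primrec.fst.comp Primrec.snd)
    have g1 := C1a3_legal f1 f2
    have g2 := C1a3_tab.comp ((C1a3_Utb.comp f1).pair f2)
    have g3 := win_primrec.comp (((C1a3_Up.comp f1).pair f2).pair g2)
    have g4 := C1a1_imp g1 g3
    exact g4
  exact forall_mem_primrec C1a3_Utb h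

/-- One step: the history `M` and the event `e`. -/
def C1a3_S (p : C1a3_U) (M : List Ev) (e : Ev) : Prop :=
  Legal p.1.1 p.1.2.1 p.1.2.2.1 p.1.2.2.2.1 (M ++ [e]) →
    M ++ [e] ∈ p.2.map Prod.fst ∧
      ∀ i < p.1.2.2.1 + 1, ((tab p.2 M).nth i).ext ((tab p.2 (M ++ [e])).nth i)

theorem C1a3_S_primrec : PrimrecPred fun q : C1a3_U × List Ev × Ev => C1a3_S q.1 q.2.1 q.2.2 := by
  have f1 : Primrec fun q : C1a3_U × List Ev × Ev => q.1 := Primrec.fst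
  have f2 : Primrec fun q : C1a3_U × List Ev × Ev => q.2.1 := (Primrec.fst.comp Primrec.snd)
  have f3 : Primrec fun q : C1a3_U × List Ev × Ev => q.2.2 := (Primrec.snd.comp Primrec.snd)
  have f4 := Primrec.list_concat.comp f2 f3
  have g1 := C1a3_legal f1 f4
  have g2 := mem_primrec.comp f4 (C1a3_keys.comp f1)
  have g3 := C1a3_tab.comp ((C1a3_Utb.comp f1).pair f2)
  have g4 := C1a3_tab.comp ((C1a3_Utb.comp f1).pair f4)
  have g5 := Primrec.succ.comp (C1a3_Ua.comp f1)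
  have g6 : PrimrecRel fun (q : C1a3_U × List Ev × Ev) (i : ℕ) =>
      ((tab q.1.2 q.2.1).nth i).ext ((tab q.1.2 (q.2.1 ++ [q.2.2])).nth i) := by
    have k1 := Primrec.fst (α := C1a3_U × List Ev × Ev) (β := ℕ)
    have k2 := Primrec.snd (α := C1a3_U × List Ev × Ev) (β := ℕ)
    have k3 := nth_primrec.comp ((g3.comp k1).pair k2)
    have k4 := nth_primrec.comp ((g4.comp k1).pair k2)
    have k5 := ext_primrec.comp (k3.pair k4)
    exact k5
  have g7 := forall_lt_primrec g5 g6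
  have g8 := C1a1_imp g1 (g2.and g7)
  exact g8.of_eq fun q => Iff.rfl

theorem C1a3_step1 : PrimrecPred fun q : C1a3_U × List Ev × Bool × ℕ =>
    ∀ v < 2 ^ q.1.1.1, C1a3_S q.1 q.2.1 (q.2.2.1, q.2.2.2, v) := by
  have f1 : Primrec fun q : C1a3_U × List Ev × Bool × ℕ => q.1 := Primrec.fst
  have g1 := C1a1_pow2.comp (C1a3_Un.comp f1)
  have g2 : PrimrecRel fun (q : C1a3_U × List Ev × Bool × ℕ) (v : ℕ) =>
      C1a3_S q.1 q.2.1 (q.2.2.1, q.2.2.2, v) := by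
    have k1 : Primrec fun r : (C1a3_U × List Ev × Bool × ℕ) × ℕ => r.1.1 := (Primrec.fst.comp Primrec.fst)
    have k2 : Primrec fun r : (C1a3_U × List Ev × Bool × ℕ) × ℕ => r.1.2.1 := (Primrec.fst.comp (Primrec.snd.comp Primrec.fst))
    have k3 : Primrec fun r : (C1a3_U × List Ev × Bool × ℕ) × ℕ => r.1.2.2.1 := (Primrec.fst.comp (Primrec.snd.comp (Primrec.snd.comp Primrec.fst)))
    have k4 : Primrec fun r : (C1a3_U × List Ev × Bool × ℕ) × ℕ => r.1.2.2.2 := (Primrec.snd.comp (Primrec.snd.comp (Primrec.snd.comp Primrec.fst)))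
    have k5 := C1a3_S_primrec.comp (k1.pair (k2.pair (k3.pair (k4.pair Primrec.snd))))
    exact k5
  have g3 := forall_lt_primrec g1 g2
  exact g3

theorem C1a3_step2 : PrimrecPred fun q : C1a3_U × List Ev × Bool =>
    ∀ j < 2 ^ q.1.1.2.1, ∀ v < 2 ^ q.1.1.1, C1a3_S q.1 q.2.1 (q.2.2, j, v) := by
  have f1 : Primrec fun q : C1a3_U × List Ev × Bool => q.1 := Primrec.fst
  have g1 := C1a1_pow2.comp (C1a3_Uh.comp f1)
  have g2 : PrimrecRel fun (q : C1a3_U × List Ev × Bool) (j : ℕ) =>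
      ∀ v < 2 ^ q.1.1.1, C1a3_S q.1 q.2.1 (q.2.2, j, v) := by
    have k1 : Primrec fun r : (C1a3_U × List Ev × Bool) × ℕ => r.1.1 := (Primrec.fst.comp Primrec.fst)
    have k2 : Primrec fun r : (C1a3_U × List Ev × Bool) × ℕ => r.1.2.1 := (Primrec.fst.comp (Primrec.snd.comp Primrec.fst))
    have k3 : Primrec fun r : (C1a3_U × List Ev × Bool) × ℕ => r.1.2.2 := (Primrec.snd.comp (Primrec.snd.comp Primrec.fst))
    have k5 := C1a3_step1.comp (k1.pair (k2.pair (k3.pair Primrec.snd)))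
    exact k5
  have g3 := forall_lt_primrec g1 g2
  exact g3

theorem C1a3_step3 : PrimrecPred fun p : C1a3_U => ∀ e ∈ p.2,
    (∀ j < 2 ^ p.1.2.1, ∀ v < 2 ^ p.1.1, C1a3_S p e.1 (false, j, v)) ∧
    (∀ j < 2 ^ p.1.2.1, ∀ v < 2 ^ p.1.1, C1a3_S p e.1 (true, j, v)) := by
  have h : PrimrecRel fun (p : C1a3_U) (e : List Ev × Out) =>
      (∀ j < 2 ^ p.1.2.1, ∀ v < 2 ^ p.1.1, C1a3_S p e.1 (false, j, v)) ∧
      (∀ j < 2 ^ p.1.2.1, ∀ v < 2 ^ p.1.1, C1a3_S p e.1 (true, j, v)) := by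
    have f1 := Primrec.fst (α := C1a3_U) (β := List Ev × Out)
    have f2 : Primrec fun q : C1a3_U × (List Ev × Out) => q.2.1 := (Primrec.fst.comp Primrec.snd)
    have g1 := C1a3_step2.comp (f1.pair (f2.pair (Primrec.const false)))
    have g2 := C1a3_step2.comp (f1.pair (f2.pair (Primrec.const true)))
    have g3 := g1.and g2
    exact g3
  exact forall_mem_primrec C1a3_Utb h

theorem C1a3_closed_iff (n h a b d : ℕ) (Tb : List (List Ev × Out)) : Closed n h a b d Tb ↔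
    [] ∈ Tb.map Prod.fst ∧
    (∀ e ∈ Tb, Legal n h a b e.1 → Win n h a b d e.1 (tab Tb e.1)) ∧
    (∀ e ∈ Tb,
      (∀ j < 2 ^ h, ∀ v < 2 ^ n, C1a3_S ((n, h, a, b, d), Tb) e.1 (false, j, v)) ∧
      (∀ j < 2 ^ h, ∀ v < 2 ^ n, C1a3_S ((n, h, a, b, d), Tb) e.1 (true, j, v))) := by
  constructor
  · intro H
    refine ⟨H.nil, H.win, fun e he => ⟨fun j hj v hv hl => ?_, fun j hj v hv hl => ?_⟩⟩
    · obtain ⟨h1, h2⟩ := H.step e he false j hj v hv hl
      exact ⟨h1, fun i hi => h2 i (Nat.lt_succ_iff.mp hi)⟩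
    · obtain ⟨h1, h2⟩ := H.step e he true j hj v hv hl
      exact ⟨h1, fun i hi => h2 i (Nat.lt_succ_iff.mp hi)⟩
  · rintro ⟨h1, h2, h3⟩
    refine ⟨h1, h2, fun e he s j hj v hv hl => ?_⟩
    cases s with
    | false =>
      obtain ⟨h4, h5⟩ := (h3 e he).1 j hj v hv hl
      exact ⟨h4, fun i hi => h5 i (Nat.lt_succ_iff.mpr hi)⟩
    | true =>
      obtain ⟨h4, h5⟩ := (h3 e he).2 j hj v hv hl
      exact ⟨h4, fun i hi => h5 i (Nat.lt_succ_iff.mpr hi)⟩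

theorem closed_primrec : PrimrecPred fun p : (ℕ × ℕ × ℕ × ℕ × ℕ) × List (List Ev × Out) =>
    Closed p.1.1 p.1.2.1 p.1.2.2.1 p.1.2.2.2.1 p.1.2.2.2.2 p.2 := by
  have h := C1a3_nil.and (C1a3_win.and C1a3_step3)
  exact h.of_eq fun p => (C1a3_closed_iff _ _ _ _ _ _).symm

end Pool.Agent.Lib.H52K
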