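import Pool.Agent.Lib.H52K.G7
import Pool.Agent.Lib.H52K.C1a3

/-!
`F ((p, t), M)`: search for the first `c < t` such that `c` codes (via `Encodable`) a table `Tb` with
`Closed n h a b d Tb`; if there is one, the value is `tab Tb M`, otherwise `[]`. A closed table exists: take a
winning strategy `O` (`game`) and the table of all `(M, O M)`, `M` legal (finitely many: `M` has no
repetitions and its entries are from a finite set). By induction on `M`, a closed table contains all
legal histories, and `tab Tb` is a winning strategy.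
-/

namespace Pool.Agent.Lib.H52K

theorem C1_legal_nil (n h a b : ℕ) : Legal n h a b [] :=
  ⟨List.nodup_nil, by simp, by simp, by simp [Xl], by simp [Xl]⟩

theorem C1_Xl_le (s : Bool) (M : List Ev) (e : Ev) (j : ℕ) :
    (Xl s M j).length ≤ (Xl s (M ++ [e]) j).length := by
  unfold Xl
  rw [List.filterMap_append, List.length_append]
  omega

theorem C1_legal_init {n h a b : ℕ} {M : List Ev} {e : Ev} (hM : Legal n h a b (M ++ [e])) :
    Legal n h a b M :=
  ⟨hM.nodup.of_append_left, fun x hx => hM.j_lt x (List.mem_append_left _ hx),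
    fun x hx => hM.v_lt x (List.mem_append_left _ hx),
    fun j => (C1_Xl_le _ _ _ _).trans (hM.x_len j), fun j => (C1_Xl_le _ _ _ _).trans (hM.y_len j)⟩

theorem C1_legal_finite (n h a b : ℕ) : {M | Legal n h a b M}.Finite := by
  have h1 : ({l : List (Bool × Fin (2 ^ h) × Fin (2 ^ n)) | l.length ≤
      Fintype.card (Bool × Fin (2 ^ h) × Fin (2 ^ n))}).Finite :=
    List.finite_length_le _ _
  refine (h1.image (List.map fun e => ((e.1, e.2.1.1, e.2.2.1) : Ev))).subset ?_
  intro M hM
  have hM' : Legal n h a b M := hM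
  let M' : List (Bool × Fin (2 ^ h) × Fin (2 ^ n)) :=
    M.attach.map fun e => (e.1.1, ⟨e.1.2.1, hM'.j_lt e.1 e.2⟩, ⟨e.1.2.2, hM'.v_lt e.1 e.2⟩)
  have hmap : M'.map (fun e => ((e.1, e.2.1.1, e.2.2.1) : Ev)) = M := by
    simp only [M', List.map_map]
    conv_rhs => rw [← List.attach_map_subtype_val M]
    rfl
  refine ⟨M', ?_, hmap⟩
  have hnd : M'.Nodup := by
    apply List.Nodup.of_map (fun e => ((e.1, e.2.1.1, e.2.2.1) : Ev))
    rw [hmap]; exact hM'.nodup
  exact hnd.length_le_card

theorem C1_lookup (L : List (List Ev)) (O : List Ev → Out) (M : List Ev) (hM : M ∈ L) :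
    tab (L.map fun M => (M, O M)) M = O M := by
  unfold tab
  induction L with
  | nil => simp at hM
  | cons a L ih =>
    rw [List.map_cons, List.lookup_cons]
    by_cases h : M = a
    · subst h; simp
    · have h' : (M == a) = false := by simpa using h
      simp only [h']
      exact ih (by simpa [h] using hM)

theorem C1_exists_closed {n h a b d : ℕ} (hn : 1 ≤ n) (hd : pol n h a b ≤ 2 ^ d) :
    ∃ Tb, Closed n h a b d Tb := by
  obtain ⟨O, hO1, hO2⟩ := game n h a b d hn hd
  have hmem : ∀ M, M ∈ (C1_legal_finite n h a b).toFinset.toList ↔ Legal n h a b M := by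
    intro M; simp
  set L := (C1_legal_finite n h a b).toFinset.toList with hL
  have htab : ∀ M, Legal n h a b M → tab (L.map fun M => (M, O M)) M = O M := fun M hM =>
    C1_lookup L O M ((hmem M).2 hM)
  refine ⟨L.map fun M => (M, O M), ⟨?_, ?_, ?_⟩⟩
  · simp only [List.map_map, List.mem_map, Function.comp]
    exact ⟨[], (hmem _).2 (C1_legal_nil n h a b), rfl⟩
  · intro p _ hl
    rw [htab _ hl]
    exact hO1 _ hl
  · intro p _ s j _ v _ hl
    refine ⟨?_, ?_⟩
    · simp only [List.map_map, List.mem_map, Function.comp]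
      exact ⟨_, (hmem _).2 hl, rfl⟩
    · rw [htab _ hl, htab _ (C1_legal_init hl)]
      exact hO2 _ _ hl

theorem C1_mem {n h a b d : ℕ} {Tb : List (List Ev × Out)} (hT : Closed n h a b d Tb) (M : List Ev)
    (hM : Legal n h a b M) : M ∈ Tb.map Prod.fst := by
  induction M using List.reverseRecOn with
  | nil => exact hT.nil
  | append_singleton M e ih =>
    have h1 := ih (C1_legal_init hM)
    rw [List.mem_map] at h1
    obtain ⟨p, hp, rfl⟩ := h1
    exact (hT.step p hp e.1 e.2.1 (hM.j_lt e (by simp)) e.2.2 (hM.v_lt e (by simp)) hM).1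

theorem C1_winning {n h a b d : ℕ} {Tb : List (List Ev × Out)} (hT : Closed n h a b d Tb) :
    Winning n h a b d (tab Tb) := by
  refine ⟨fun M hM => ?_, fun M e hM => ?_⟩
  · obtain ⟨p, hp, rfl⟩ := List.mem_map.1 (C1_mem hT M hM)
    exact hT.win p hp hM
  · obtain ⟨p, hp, rfl⟩ := List.mem_map.1 (C1_mem hT M (C1_legal_init hM))
    exact (hT.step p hp e.1 e.2.1 (hM.j_lt e (by simp)) e.2.2 (hM.v_lt e (by simp)) hM).2

theorem C1_tab_primrec : Primrec₂ (tab : List (List Ev × Out) → List Ev → Out) := by
  have h1 : Primrec₂ (fun (Tb : List (List Ev × Out)) (M : List Ev) =>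
      (@List.lookup _ _ instBEqOfDecidableEq M Tb).getD []) :=
    Primrec.option_getD.comp (Primrec.listLookup.comp Primrec.snd Primrec.fst) (Primrec.const [])
  refine h1.of_eq fun Tb M => ?_
  unfold tab
  congr 2
  exact lawful_beq_subsingleton _ _

open Classical in
theorem C1_check_primrec : ∃ ck : ℕ → ℕ → Bool, Primrec₂ ck ∧ ∀ n h a b d c,
    (ck (prm n h a b d) c = true ↔
      ∃ Tb : List (List Ev × Out), Encodable.decode c = some Tb ∧ Closed n h a b d Tb) := by
  obtain ⟨_, hcl⟩ := closed_primrec
  have hfst : Primrec fun z : ℕ => z.unpair.1 := Primrec.fst.comp Primrec.unpair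
  have hsnd : Primrec fun z : ℕ => z.unpair.2 := Primrec.snd.comp Primrec.unpair
  let par : ℕ → ℕ × ℕ × ℕ × ℕ × ℕ := fun p => (p.unpair.1, p.unpair.2.unpair.1,
    p.unpair.2.unpair.2.unpair.1, p.unpair.2.unpair.2.unpair.2.unpair.1,
    p.unpair.2.unpair.2.unpair.2.unpair.2)
  have hpar : Primrec par :=
    hfst.pair ((hfst.comp hsnd).pair ((hfst.comp (hsnd.comp hsnd)).pair
      ((hfst.comp (hsnd.comp (hsnd.comp hsnd))).pair (hsnd.comp (hsnd.comp (hsnd.comp hsnd))))))
  refine ⟨fun p c => ((Encodable.decode c : Option (List (List Ev × Out))).map fun Tb =>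
    decide (Closed (par p).1 (par p).2.1 (par p).2.2.1 (par p).2.2.2.1 (par p).2.2.2.2 Tb)).getD
      false, ?_, ?_⟩
  · refine Primrec.option_getD.comp (Primrec.option_map (Primrec.decode.comp Primrec.snd) ?_)
      (Primrec.const false)
    have h2 : Primrec fun q : (ℕ × ℕ) × List (List Ev × Out) => (par q.1.1, q.2) :=
      (hpar.comp (Primrec.fst.comp Primrec.fst)).pair Primrec.snd
    exact (hcl.comp h2).of_eq fun q => by simp only; congr
  · intro n h a b d c
    simp only [par, prm, Nat.unpair_pair]
    cases hdec : (Encodable.decode c : Option (List (List Ev × Out))) with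
    | none => simp
    | some Tb => simp

/-- A computable winning strategy: `F ((prm, t), M)` is `[]` until stage `t₀`. -/
theorem game_comp : ∃ F : (ℕ × ℕ) × List Ev → Out, Computable F ∧ ∀ n h a b d, 1 ≤ n →
    pol n h a b ≤ 2 ^ d → ∃ O, Winning n h a b d O ∧ ∃ t₀,
      (∀ t < t₀, ∀ M, F ((prm n h a b d, t), M) = []) ∧
      ∀ t ≥ t₀, ∀ M, Legal n h a b M → F ((prm n h a b d, t), M) = O M := by
  classical
  obtain ⟨ck, hck, hck'⟩ := C1_check_primrec
  let S : ℕ × ℕ → ℕ := fun q => (List.range q.2).findIdx (ck q.1)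
  have hS : Primrec S := Primrec.list_findIdx (Primrec.list_range.comp Primrec.snd)
    (hck.comp (Primrec.fst.comp Primrec.fst) Primrec.snd)
  let dc : ℕ → List (List Ev × Out) := fun c => (Encodable.decode c).getD []
  have hdc : Primrec dc := Primrec.option_getD.comp Primrec.decode (Primrec.const [])
  refine ⟨fun q => if S q.1 < q.1.2 then tab (dc (S q.1)) q.2 else [], ?_, ?_⟩
  · refine (Primrec.ite (Primrec.nat_lt.comp (hS.comp Primrec.fst)
      (Primrec.snd.comp Primrec.fst)) ?_ (Primrec.const [])).to_comp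
    exact C1_tab_primrec.comp (hdc.comp (hS.comp Primrec.fst)) Primrec.snd
  · intro n h a b d hn hd
    obtain ⟨Tb, hTb⟩ := C1_exists_closed hn hd
    have hex : ∃ c, ck (prm n h a b d) c = true :=
      ⟨Encodable.encode Tb, (hck' n h a b d _).2 ⟨Tb, Encodable.encodek Tb, hTb⟩⟩
    let c₀ := Nat.find hex
    have hc₀ : ck (prm n h a b d) c₀ = true := Nat.find_spec hex
    have hmin : ∀ c < c₀, ck (prm n h a b d) c = false := fun c hc => by
      have := Nat.find_min hex hc; simpa using this
    obtain ⟨Tb₀, hdec, hcl⟩ := (hck' n h a b d _).1 hc₀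
    refine ⟨tab Tb₀, C1_winning hcl, c₀ + 1, fun t ht M => ?_, fun t ht M _ => ?_⟩
    · have h1 : S (prm n h a b d, t) = t := by
        simp only [S]
        have : (List.range t).findIdx (ck (prm n h a b d)) = (List.range t).length := by
          rw [List.findIdx_eq_length]
          intro c hc
          rw [List.mem_range] at hc
          exact hmin c (by omega)
        rw [this, List.length_range]
      simp only [h1, lt_irrefl, if_false]
    · have h1 : S (prm n h a b d, t) = c₀ := by
        simp only [S]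
        rw [List.findIdx_eq (by rw [List.length_range]; omega)]
        refine ⟨by simpa using hc₀, fun j hj => ?_⟩
        have := hmin j hj
        simpa using this
      have h2 : c₀ < t := by omega
      simp only [h1, h2, if_true, dc, hdec, Option.getD_some]

end Pool.Agent.Lib.H52K
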