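import Pool.Agent.Lib.H52K.P0

/-!
Primitive recursiveness of `Legal` and `cntX`. (In `x_len` only the `j` occurring in `M` matter.)
-/

namespace Pool.Agent.Lib.H52K

theorem C1a1_imp {α : Type*} [Primcodable α] {p q : α → Prop} (hp : PrimrecPred p)
    (hq : PrimrecPred q) : PrimrecPred fun a => p a → q a :=
  (hp.not.or hq).of_eq fun _ => imp_iff_not_or.symm

theorem C1a1_pow2 : Primrec fun a : ℕ => 2 ^ a :=
  (pow_primrec.comp (Primrec.const 2) Primrec.id)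

theorem C1a1_idxOf : Primrec₂ fun (e : Ev) (M : List Ev) => M.idxOf e := by
  have h1 : Primrec₂ fun (a : Ev × List Ev) (b : Ev) => b == a.1 := by
    have h2 : Primrec₂ fun (a : Ev × List Ev) (b : Ev) => decide (b = a.1) :=
      (Primrec.eq.comp Primrec.snd (Primrec.fst.comp Primrec.fst)).decide
    refine h2.of_eq ?_
    rintro ⟨⟨a1, a2, a3⟩, _⟩ ⟨b1, b2, b3⟩
    simp only [Prod.mk.injEq]
    by_cases h : b1 = a1 ∧ b2 = a2 ∧ b3 = a3
    · obtain ⟨rfl, rfl, rfl⟩ := h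
      simp
    · rw [decide_eq_false h]
      symm
      rw [beq_eq_false_iff_ne]
      simpa using h
  exact (Primrec.list_findIdx Primrec.snd h1).to₂

theorem Xl_primrec : Primrec fun p : Bool × List Ev × ℕ => Xl p.1 p.2.1 p.2.2 := by
  unfold Xl
  refine Primrec.listFilterMap (Primrec.fst.comp Primrec.snd) ?_
  show Primrec fun q : (Bool × List Ev × ℕ) × Ev =>
    if q.2.1 = q.1.1 ∧ q.2.2.1 = q.1.2.2 then some q.2.2.2 else none
  have e1 : Primrec fun q : (Bool × List Ev × ℕ) × Ev => q.2.1 := (Primrec.fst.comp Primrec.snd)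
  have e2 : Primrec fun q : (Bool × List Ev × ℕ) × Ev => q.1.1 := (Primrec.fst.comp Primrec.fst)
  have e3 : Primrec fun q : (Bool × List Ev × ℕ) × Ev => q.2.2.1 := (Primrec.fst.comp (Primrec.snd.comp Primrec.snd))
  have e4 : Primrec fun q : (Bool × List Ev × ℕ) × Ev => q.1.2.2 := (Primrec.snd.comp (Primrec.snd.comp Primrec.fst))
  have e5 : Primrec fun q : (Bool × List Ev × ℕ) × Ev => q.2.2.2 := (Primrec.snd.comp (Primrec.snd.comp Primrec.snd))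
  exact Primrec.ite ((Primrec.eq.comp e1 e2).and (Primrec.eq.comp e3 e4))
    (Primrec.option_some.comp e5) (Primrec.const none)

theorem cntX_primrec : Primrec fun p : List Ev × ℕ × ℕ => cntX p.1 p.2.1 p.2.2 := by
  unfold cntX
  refine Primrec.list_length.comp ?_
  refine filter_primrec (p := fun (q : List Ev × ℕ × ℕ) (e : Ev) =>
    e.1 = true ∧ e.2.2 = q.2.2 ∧ (false, e.2.1, q.2.1) ∈ q.1.take (q.1.idxOf e)) Primrec.fst ?_
  show PrimrecPred fun r : (List Ev × ℕ × ℕ) × Ev =>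
    r.2.1 = true ∧ r.2.2.2 = r.1.2.2 ∧ (false, r.2.2.1, r.1.2.1) ∈ r.1.1.take (r.1.1.idxOf r.2)
  have e1 : Primrec fun r : (List Ev × ℕ × ℕ) × Ev => r.2.1 := (Primrec.fst.comp Primrec.snd)
  have e2 : Primrec fun r : (List Ev × ℕ × ℕ) × Ev => r.2.2.2 := (Primrec.snd.comp (Primrec.snd.comp Primrec.snd))
  have e3 : Primrec fun r : (List Ev × ℕ × ℕ) × Ev => r.1.2.2 := (Primrec.snd.comp (Primrec.snd.comp Primrec.fst))
  have e4 : Primrec fun r : (List Ev × ℕ × ℕ) × Ev => r.2.2.1 := (Primrec.fst.comp (Primrec.snd.comp Primrec.snd))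
  have e5 : Primrec fun r : (List Ev × ℕ × ℕ) × Ev => r.1.2.1 := (Primrec.fst.comp (Primrec.snd.comp Primrec.fst))
  have e6 : Primrec fun r : (List Ev × ℕ × ℕ) × Ev => r.1.1 := (Primrec.fst.comp Primrec.fst)
  have e7 : Primrec fun r : (List Ev × ℕ × ℕ) × Ev => r.1.1.idxOf r.2 :=
    C1a1_idxOf.comp Primrec.snd e6
  have e8 : Primrec fun r : (List Ev × ℕ × ℕ) × Ev => r.1.1.take (r.1.1.idxOf r.2) :=
    Primrec.list_take.comp e7 e6
  have e9 : Primrec fun r : (List Ev × ℕ × ℕ) × Ev => ((false, r.2.2.1, r.1.2.1) : Ev) :=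
    (Primrec.const false).pair (e4.pair e5)
  exact (Primrec.eq.comp e1 (Primrec.const true)).and
    ((Primrec.eq.comp e2 e3).and (mem_primrec.comp e9 e8))

theorem C1a1_Xl_nil {s : Bool} {M : List Ev} {j : ℕ} (h : ∀ e ∈ M, e.2.1 ≠ j) :
    Xl s M j = [] := by
  unfold Xl
  rw [List.filterMap_eq_nil_iff]
  intro e he
  rw [if_neg]
  exact fun hh => h e he hh.2

theorem C1a1_len_iff (s : Bool) (M : List Ev) (a : ℕ) :
    (∀ j, (Xl s M j).length ≤ 2 ^ a) ↔ ∀ e ∈ M, (Xl s M e.2.1).length ≤ 2 ^ a := by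
  constructor
  · intro h e _
    exact h _
  · intro h j
    by_cases hj : ∃ e ∈ M, e.2.1 = j
    · obtain ⟨e, he, rfl⟩ := hj
      exact h e he
    · push Not at hj
      rw [C1a1_Xl_nil hj]
      exact Nat.zero_le _

theorem C1a1_legal_iff (n h a b : ℕ) (M : List Ev) : Legal n h a b M ↔
    M.Nodup ∧ (∀ e ∈ M, e.2.1 < 2 ^ h) ∧ (∀ e ∈ M, e.2.2 < 2 ^ n) ∧
      (∀ e ∈ M, (Xl false M e.2.1).length ≤ 2 ^ a) ∧
      (∀ e ∈ M, (Xl true M e.2.1).length ≤ 2 ^ b) := by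
  rw [← C1a1_len_iff, ← C1a1_len_iff]
  constructor
  · intro H
    exact ⟨H.nodup, H.j_lt, H.v_lt, H.x_len, H.y_len⟩
  · rintro ⟨h1, h2, h3, h4, h5⟩
    exact ⟨h1, h2, h3, h4, h5⟩

theorem legal_primrec : PrimrecPred fun p : (ℕ × ℕ × ℕ × ℕ) × List Ev =>
    Legal p.1.1 p.1.2.1 p.1.2.2.1 p.1.2.2.2 p.2 := by
  have d1 : PrimrecPred fun p : (ℕ × ℕ × ℕ × ℕ) × List Ev => p.2.Nodup :=
    nodup_primrec.comp Primrec.snd
  have d2 : PrimrecPred fun p : (ℕ × ℕ × ℕ × ℕ) × List Ev => ∀ e ∈ p.2, e.2.1 < 2 ^ p.1.2.1 := by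
    refine forall_mem_primrec (p := fun (p : (ℕ × ℕ × ℕ × ℕ) × List Ev) (e : Ev) =>
      e.2.1 < 2 ^ p.1.2.1) Primrec.snd ?_
    have e1 : Primrec fun q : ((ℕ × ℕ × ℕ × ℕ) × List Ev) × Ev => q.2.2.1 := (Primrec.fst.comp (Primrec.snd.comp Primrec.snd))
    have e2 : Primrec fun q : ((ℕ × ℕ × ℕ × ℕ) × List Ev) × Ev => q.1.1.2.1 := (Primrec.fst.comp (Primrec.snd.comp (Primrec.fst.comp Primrec.fst)))
    exact Primrec.nat_lt.comp e1 (C1a1_pow2.comp e2)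
  have d3 : PrimrecPred fun p : (ℕ × ℕ × ℕ × ℕ) × List Ev => ∀ e ∈ p.2, e.2.2 < 2 ^ p.1.1 := by
    refine forall_mem_primrec (p := fun (p : (ℕ × ℕ × ℕ × ℕ) × List Ev) (e : Ev) =>
      e.2.2 < 2 ^ p.1.1) Primrec.snd ?_
    have e1 : Primrec fun q : ((ℕ × ℕ × ℕ × ℕ) × List Ev) × Ev => q.2.2.2 := (Primrec.snd.comp (Primrec.snd.comp Primrec.snd))
    have e2 : Primrec fun q : ((ℕ × ℕ × ℕ × ℕ) × List Ev) × Ev => q.1.1.1 := (Primrec.fst.comp (Primrec.fst.comp Primrec.fst))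
    exact Primrec.nat_lt.comp e1 (C1a1_pow2.comp e2)
  have d4 : PrimrecPred fun p : (ℕ × ℕ × ℕ × ℕ) × List Ev =>
      ∀ e ∈ p.2, (Xl false p.2 e.2.1).length ≤ 2 ^ p.1.2.2.1 := by
    refine forall_mem_primrec (p := fun (p : (ℕ × ℕ × ℕ × ℕ) × List Ev) (e : Ev) =>
      (Xl false p.2 e.2.1).length ≤ 2 ^ p.1.2.2.1) Primrec.snd ?_
    have e1 : Primrec fun q : ((ℕ × ℕ × ℕ × ℕ) × List Ev) × Ev => q.2.2.1 := (Primrec.fst.comp (Primrec.snd.comp Primrec.snd))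
    have e2 : Primrec fun q : ((ℕ × ℕ × ℕ × ℕ) × List Ev) × Ev => q.1.1.2.2.1 := (Primrec.fst.comp (Primrec.snd.comp (Primrec.snd.comp (Primrec.fst.comp Primrec.fst))))
    have e3 : Primrec fun q : ((ℕ × ℕ × ℕ × ℕ) × List Ev) × Ev => q.1.2 := (Primrec.snd.comp Primrec.fst)
    have e4 := Xl_primrec.comp ((Primrec.const false).pair (e3.pair e1))
    have e5 := Primrec.nat_le.comp (Primrec.list_length.comp e4) (C1a1_pow2.comp e2)
    exact e5
  have d5 : PrimrecPred fun p : (ℕ × ℕ × ℕ × ℕ) × List Ev =>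
      ∀ e ∈ p.2, (Xl true p.2 e.2.1).length ≤ 2 ^ p.1.2.2.2 := by
    refine forall_mem_primrec (p := fun (p : (ℕ × ℕ × ℕ × ℕ) × List Ev) (e : Ev) =>
      (Xl true p.2 e.2.1).length ≤ 2 ^ p.1.2.2.2) Primrec.snd ?_
    have e1 : Primrec fun q : ((ℕ × ℕ × ℕ × ℕ) × List Ev) × Ev => q.2.2.1 := (Primrec.fst.comp (Primrec.snd.comp Primrec.snd))
    have e2 : Primrec fun q : ((ℕ × ℕ × ℕ × ℕ) × List Ev) × Ev => q.1.1.2.2.2 := (Primrec.snd.comp (Primrec.snd.comp (Primrec.snd.comp (Primrec.fst.comp Primrec.fst))))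
    have e3 : Primrec fun q : ((ℕ × ℕ × ℕ × ℕ) × List Ev) × Ev => q.1.2 := (Primrec.snd.comp Primrec.fst)
    have e4 := Xl_primrec.comp ((Primrec.const true).pair (e3.pair e1))
    have e5 := Primrec.nat_le.comp (Primrec.list_length.comp e4) (C1a1_pow2.comp e2)
    exact e5
  exact (d1.and (d2.and (d3.and (d4.and d5)))).of_eq fun p => (C1a1_legal_iff _ _ _ _ _).symm

end Pool.Agent.Lib.H52K
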