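import Pool.Agent.Lib.H52K.C1a1

/-!
Primitive recursiveness of `Win1`: all quantifiers can be restricted to the values occurring in the
lists (in `w3` the `k` occurring in `O.2.1`, in `w4` the `(x, y)` occurring in `O.2.2`).
-/

namespace Pool.Agent.Lib.H52K

theorem ext_primrec : PrimrecPred fun p : Out1 × Out1 => p.1.ext p.2 := by
  have e1 : Primrec fun p : Out1 × Out1 => p.1.1 := (Primrec.fst.comp Primrec.fst)
  have e2 : Primrec fun p : Out1 × Out1 => p.2.1 := (Primrec.fst.comp Primrec.snd)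
  have e3 : Primrec fun p : Out1 × Out1 => p.1.2.1 := (Primrec.fst.comp (Primrec.snd.comp Primrec.fst))
  have e4 : Primrec fun p : Out1 × Out1 => p.2.2.1 := (Primrec.fst.comp (Primrec.snd.comp Primrec.snd))
  have e5 : Primrec fun p : Out1 × Out1 => p.1.2.2 := (Primrec.snd.comp (Primrec.snd.comp Primrec.fst))
  have e6 : Primrec fun p : Out1 × Out1 => p.2.2.2 := (Primrec.snd.comp (Primrec.snd.comp Primrec.snd))
  have h1 := prefix_primrec.comp e1 e2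
  have h2 := prefix_primrec.comp e3 e4
  have h3 := prefix_primrec.comp e5 e6
  have h4 := h1.and (h2.and h3)
  exact h4.of_eq fun p => Iff.rfl

theorem nth_primrec : Primrec fun p : Out × ℕ => p.1.nth p.2 := by
  have h := (Primrec.list_getD (([], [], []) : Out1)).comp
    (Primrec.fst (α := Out) (β := ℕ)) (Primrec.snd (α := Out) (β := ℕ))
  exact h

theorem C1a2_uu : Primrec fun p : ℕ × ℕ × ℕ => uu p.1 p.2.1 p.2.2 := by
  have e1 : Primrec fun p : ℕ × ℕ × ℕ => p.1 := Primrec.fst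
  have e2 : Primrec fun p : ℕ × ℕ × ℕ => p.2.1 := (Primrec.fst.comp Primrec.snd)
  have e3 : Primrec fun p : ℕ × ℕ × ℕ => p.2.2 := (Primrec.snd.comp Primrec.snd)
  have h := Primrec.nat_min.comp (Primrec.nat_sub.comp e1 e3) e2
  exact h

theorem C1a2_pol : Primrec fun p : ℕ × ℕ × ℕ × ℕ => pol p.1 p.2.1 p.2.2.1 p.2.2.2 := by
  have e1 : Primrec fun p : ℕ × ℕ × ℕ × ℕ => p.1 := Primrec.fst
  have e2 : Primrec fun p : ℕ × ℕ × ℕ × ℕ => p.2.1 := (Primrec.fst.comp Primrec.snd)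
  have e3 : Primrec fun p : ℕ × ℕ × ℕ × ℕ => p.2.2.1 := (Primrec.fst.comp (Primrec.snd.comp Primrec.snd))
  have e4 : Primrec fun p : ℕ × ℕ × ℕ × ℕ => p.2.2.2 := (Primrec.snd.comp (Primrec.snd.comp Primrec.snd))
  have h1 := Primrec.nat_add.comp (Primrec.nat_add.comp (Primrec.nat_add.comp
    (Primrec.nat_add.comp e1 e2) e3) e4) (Primrec.const 10)
  have h2 := pow_primrec.comp h1 (Primrec.const 4)
  have h3 := Primrec.nat_mul.comp (Primrec.const (2 ^ 12)) h2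
  exact h3

theorem C1a2_filter_nil_of_not {α : Type*} (L : List α) (p : α → Prop) [DecidablePred p]
    (h : ¬ ∃ e ∈ L, p e) : (L.filter fun e => p e).length = 0 := by
  rw [List.length_eq_zero_iff, List.filter_eq_nil_iff]
  intro e he hp
  exact h ⟨e, he, by simpa using hp⟩

theorem C1a2_win1_iff (n h a b d i : ℕ) (M : List Ev) (O : Out1) : Win1 n h a b d i M O ↔
    O.1.length * 2 ^ d ≤ 2 ^ (h + uu a b i) * pol n h a b ∧
    (∀ X ∈ O.1, X.length ≤ 2 ^ i) ∧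
    (∀ e ∈ O.2.1, (O.2.1.filter fun e' => e'.1 = e.1).length ≤ 2 ^ (b - uu a b i)) ∧
    (∀ e ∈ O.2.2, (O.2.2.filter fun e' => e'.1 = e.1 ∧ e'.2.1 = e.2.1).length * 2 ^ d ≤
      pol n h a b * cntX M e.1 e.2.1) := by
  constructor
  · intro H
    exact ⟨H.w1, H.w2, fun e _ => H.w3 _, fun e _ => H.w4 _ _⟩
  · rintro ⟨h1, h2, h3, h4⟩
    refine ⟨h1, h2, ?_, ?_⟩
    · intro k
      by_cases hk : ∃ e ∈ O.2.1, e.1 = k
      · obtain ⟨e, he, rfl⟩ := hk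
        exact h3 e he
      · rw [C1a2_filter_nil_of_not _ _ hk]
        exact Nat.zero_le _
    · intro x y
      by_cases hk : ∃ e ∈ O.2.2, e.1 = x ∧ e.2.1 = y
      · obtain ⟨e, he, rfl, rfl⟩ := hk
        exact h4 e he
      · rw [C1a2_filter_nil_of_not _ _ hk, Nat.zero_mul]
        exact Nat.zero_le _

/-- The parameters. -/
abbrev C1a2_T : Type := ((ℕ × ℕ × ℕ × ℕ × ℕ × ℕ) × List Ev) × Out1

theorem C1a2_n : Primrec fun p : C1a2_T => p.1.1.1 := (Primrec.fst.comp (Primrec.fst.comp Primrec.fst))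
theorem C1a2_h : Primrec fun p : C1a2_T => p.1.1.2.1 := (Primrec.fst.comp (Primrec.snd.comp (Primrec.fst.comp Primrec.fst)))
theorem C1a2_a : Primrec fun p : C1a2_T => p.1.1.2.2.1 := (Primrec.fst.comp (Primrec.snd.comp (Primrec.snd.comp (Primrec.fst.comp Primrec.fst))))
theorem C1a2_b : Primrec fun p : C1a2_T => p.1.1.2.2.2.1 := (Primrec.fst.comp (Primrec.snd.comp (Primrec.snd.comp (Primrec.snd.comp (Primrec.fst.comp Primrec.fst)))))
theorem C1a2_d : Primrec fun p : C1a2_T => p.1.1.2.2.2.2.1 := (Primrec.fst.comp (Primrec.snd.comp (Primrec.snd.comp (Primrec.snd.comp (Primrec.snd.comp (Primrec.fst.comp Primrec.fst))))))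
theorem C1a2_i : Primrec fun p : C1a2_T => p.1.1.2.2.2.2.2 := (Primrec.snd.comp (Primrec.snd.comp (Primrec.snd.comp (Primrec.snd.comp (Primrec.snd.comp (Primrec.fst.comp Primrec.fst))))))
theorem C1a2_M : Primrec fun p : C1a2_T => p.1.2 := (Primrec.snd.comp Primrec.fst)
theorem C1a2_O1 : Primrec fun p : C1a2_T => p.2.1 := (Primrec.fst.comp Primrec.snd)
theorem C1a2_O2 : Primrec fun p : C1a2_T => p.2.2.1 := (Primrec.fst.comp (Primrec.snd.comp Primrec.snd))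
theorem C1a2_O3 : Primrec fun p : C1a2_T => p.2.2.2 := (Primrec.snd.comp (Primrec.snd.comp Primrec.snd))

theorem C1a2_polT : Primrec fun p : C1a2_T =>
    pol p.1.1.1 p.1.1.2.1 p.1.1.2.2.1 p.1.1.2.2.2.1 := by
  have h := C1a2_pol.comp (C1a2_n.pair (C1a2_h.pair (C1a2_a.pair C1a2_b)))
  exact h

theorem C1a2_uuT : Primrec fun p : C1a2_T =>
    uu p.1.1.2.2.1 p.1.1.2.2.2.1 p.1.1.2.2.2.2.2 := by
  have h := C1a2_uu.comp (C1a2_a.pair (C1a2_b.pair C1a2_i))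
  exact h

theorem C1a2_d1 : PrimrecPred fun p : C1a2_T => p.2.1.length * 2 ^ p.1.1.2.2.2.2.1 ≤
    2 ^ (p.1.1.2.1 + uu p.1.1.2.2.1 p.1.1.2.2.2.1 p.1.1.2.2.2.2.2) *
      pol p.1.1.1 p.1.1.2.1 p.1.1.2.2.1 p.1.1.2.2.2.1 := by
  have h1 := Primrec.nat_mul.comp (Primrec.list_length.comp C1a2_O1) (C1a1_pow2.comp C1a2_d)
  have h2 := Primrec.nat_mul.comp
    (C1a1_pow2.comp (Primrec.nat_add.comp C1a2_h C1a2_uuT)) C1a2_polT
  have h3 := Primrec.nat_le.comp h1 h2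
  exact h3

theorem C1a2_d2 : PrimrecPred fun p : C1a2_T => ∀ X ∈ p.2.1, X.length ≤ 2 ^ p.1.1.2.2.2.2.2 := by
  have h1 : PrimrecRel fun (p : C1a2_T) (X : List ℕ) => X.length ≤ 2 ^ p.1.1.2.2.2.2.2 := by
    have h2 := Primrec.list_length.comp (Primrec.snd (α := C1a2_T) (β := List ℕ))
    have h3 := C1a1_pow2.comp (C1a2_i.comp (Primrec.fst (α := C1a2_T) (β := List ℕ)))
    have h4 := Primrec.nat_le.comp h2 h3
    exact h4
  exact forall_mem_primrec C1a2_O1 h1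

theorem C1a2_d3 : PrimrecPred fun p : C1a2_T => ∀ e ∈ p.2.2.1,
    (p.2.2.1.filter fun e' => e'.1 = e.1).length ≤
      2 ^ (p.1.1.2.2.2.1 - uu p.1.1.2.2.1 p.1.1.2.2.2.1 p.1.1.2.2.2.2.2) := by
  have h1 : PrimrecRel fun (p : C1a2_T) (e : ℕ × ℕ) =>
      (p.2.2.1.filter fun e' => e'.1 = e.1).length ≤
        2 ^ (p.1.1.2.2.2.1 - uu p.1.1.2.2.1 p.1.1.2.2.2.1 p.1.1.2.2.2.2.2) := by
    have f1 := Primrec.fst (α := C1a2_T) (β := ℕ × ℕ)
    have g1 : Primrec fun q : C1a2_T × (ℕ × ℕ) => q.2.1 := (Primrec.fst.comp Primrec.snd)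
    have h2 : Primrec fun q : C1a2_T × (ℕ × ℕ) =>
        q.1.2.2.1.filter fun e' : ℕ × ℕ => e'.1 = q.2.1 := by
      refine filter_primrec (p := fun (q : C1a2_T × (ℕ × ℕ)) (e' : ℕ × ℕ) => e'.1 = q.2.1)
        (C1a2_O2.comp f1) ?_
      have h3 : Primrec fun r : (C1a2_T × (ℕ × ℕ)) × (ℕ × ℕ) => r.2.1 := (Primrec.fst.comp Primrec.snd)
      have h4 : Primrec fun r : (C1a2_T × (ℕ × ℕ)) × (ℕ × ℕ) => r.1.2.1 := (Primrec.fst.comp (Primrec.snd.comp Primrec.fst))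
      have h5 := Primrec.eq.comp h3 h4
      exact h5
    have h3 := C1a1_pow2.comp (Primrec.nat_sub.comp (C1a2_b.comp f1) (C1a2_uuT.comp f1))
    have h4 := Primrec.nat_le.comp (Primrec.list_length.comp h2) h3
    exact h4
  exact forall_mem_primrec C1a2_O2 h1

theorem C1a2_d4 : PrimrecPred fun p : C1a2_T => ∀ e ∈ p.2.2.2,
    (p.2.2.2.filter fun e' => e'.1 = e.1 ∧ e'.2.1 = e.2.1).length * 2 ^ p.1.1.2.2.2.2.1 ≤
      pol p.1.1.1 p.1.1.2.1 p.1.1.2.2.1 p.1.1.2.2.2.1 * cntX p.1.2 e.1 e.2.1 := by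
  have h1 : PrimrecRel fun (p : C1a2_T) (e : ℕ × ℕ × ℕ) =>
      (p.2.2.2.filter fun e' => e'.1 = e.1 ∧ e'.2.1 = e.2.1).length * 2 ^ p.1.1.2.2.2.2.1 ≤
        pol p.1.1.1 p.1.1.2.1 p.1.1.2.2.1 p.1.1.2.2.2.1 * cntX p.1.2 e.1 e.2.1 := by
    have f1 := Primrec.fst (α := C1a2_T) (β := ℕ × ℕ × ℕ)
    have g1 : Primrec fun q : C1a2_T × (ℕ × ℕ × ℕ) => q.2.1 := (Primrec.fst.comp Primrec.snd)
    have g2 : Primrec fun q : C1a2_T × (ℕ × ℕ × ℕ) => q.2.2.1 := (Primrec.fst.comp (Primrec.snd.comp Primrec.snd))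
    have h2 : Primrec fun q : C1a2_T × (ℕ × ℕ × ℕ) =>
        q.1.2.2.2.filter fun e' : ℕ × ℕ × ℕ => e'.1 = q.2.1 ∧ e'.2.1 = q.2.2.1 := by
      refine filter_primrec (p := fun (q : C1a2_T × (ℕ × ℕ × ℕ)) (e' : ℕ × ℕ × ℕ) =>
        e'.1 = q.2.1 ∧ e'.2.1 = q.2.2.1) (C1a2_O3.comp f1) ?_
      have h3 : Primrec fun r : (C1a2_T × (ℕ × ℕ × ℕ)) × (ℕ × ℕ × ℕ) => r.2.1 := (Primrec.fst.comp Primrec.snd)
      have h4 : Primrec fun r : (C1a2_T × (ℕ × ℕ × ℕ)) × (ℕ × ℕ × ℕ) => r.1.2.1 := (Primrec.fst.comp (Primrec.snd.comp Primrec.fst))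
      have h5 : Primrec fun r : (C1a2_T × (ℕ × ℕ × ℕ)) × (ℕ × ℕ × ℕ) => r.2.2.1 := (Primrec.fst.comp (Primrec.snd.comp Primrec.snd))
      have h6 : Primrec fun r : (C1a2_T × (ℕ × ℕ × ℕ)) × (ℕ × ℕ × ℕ) => r.1.2.2.1 := (Primrec.fst.comp (Primrec.snd.comp (Primrec.snd.comp Primrec.fst)))
      have h7 := (Primrec.eq.comp h3 h4).and (Primrec.eq.comp h5 h6)
      exact h7
    have h3 := Primrec.nat_mul.comp (Primrec.list_length.comp h2)
      (C1a1_pow2.comp (C1a2_d.comp f1))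
    have h4 := cntX_primrec.comp ((C1a2_M.comp f1).pair (g1.pair g2))
    have h5 := Primrec.nat_mul.comp (C1a2_polT.comp f1) h4
    have h6 := Primrec.nat_le.comp h3 h5
    exact h6
  exact forall_mem_primrec C1a2_O3 h1

theorem win1_primrec : PrimrecPred fun p : ((ℕ × ℕ × ℕ × ℕ × ℕ × ℕ) × List Ev) × Out1 =>
    Win1 p.1.1.1 p.1.1.2.1 p.1.1.2.2.1 p.1.1.2.2.2.1 p.1.1.2.2.2.2.1 p.1.1.2.2.2.2.2 p.1.2 p.2 := by
  have h := C1a2_d1.and (C1a2_d2.and (C1a2_d3.and C1a2_d4))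
  exact h.of_eq fun p => (C1a2_win1_iff _ _ _ _ _ _ _ _).symm

end Pool.Agent.Lib.H52K
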