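import Mathlib

/-!
# Project H52K (MP_a7dd6b_lc): definitions

Algorithmic Ahlswede-Koerner lemma for all strings `z` (error `O(log (n + K(z)))`), see `README.md`.
Errors are written `C * Nat.size ν + C` (`Nat.size ν` is the number of binary digits of `ν`).
-/

namespace Pool.Agent.Lib.H52K

/-! ## Kolmogorov complexity -/

/-- The plain conditional complexity `KS(x | z)`: the least value of
`2 * (length of a program c) + (length of w) + 1` over all `c, w` with `c (w, z) = x`.
(This is the definition of the frozen statement `S15183`.) -/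
noncomputable def KS (x z : ℕ) : ℕ :=
  sInf {k : ℕ | ∃ (c : Nat.Partrec.Code) (w : ℕ), c.eval (Nat.pair w z) = Part.some x ∧
    2 * Nat.size (Encodable.encode c) + Nat.size w + 1 ≤ k}

/-- The error term: `er C ν = C * (size ν + 1)` is `O(log ν)`. -/
def er (C ν : ℕ) : ℕ := C * (Nat.size ν + 1)

/-- The elements `x` with a description `(c, w)` of size at most `k` relative to `z` that is found
within `t` steps (`e` is the code of `c`). -/
def found (k z t : ℕ) : List ℕ :=
  (List.range (2 ^ k)).flatMap fun e => (List.range (2 ^ k)).filterMap fun w =>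
    if 2 * Nat.size e + Nat.size w + 1 ≤ k then
      Nat.Partrec.Code.evaln t (Denumerable.ofNat Nat.Partrec.Code e) (Nat.pair w z) else none

/-- Enumeration of `{x | KS x z ≤ k}` without repetitions: a growing sequence of lists. -/
def En (k z : ℕ) : ℕ → List ℕ
  | 0 => []
  | t + 1 => En k z t ++ ((found k z t).dedup.filter fun x => x ∉ En k z t)

/-- Self-delimiting pair: `size (enc θ i) ≤ size i + 2 * size θ + 1`. -/
def enc (θ i : ℕ) : ℕ := 2 ^ Nat.size θ * (2 * (θ + 2 ^ Nat.size θ * i) + 1)

/-! ## The hash graph -/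

/-- `Γ x g` (`x < 2^n`, `g < 4 (n + Q + 2)`) is the `g`-th neighbour of the left vertex `x`; the right
vertices are the numbers `< 2^k`. For every set `M` of at most `2^k / 32` right vertices at most
`2^k / Q` left vertices have more than one quarter of their neighbours in `M`. -/
def GoodGraph (n k Q : ℕ) (Γ : ℕ → ℕ → ℕ) : Prop :=
  (∀ x g, Γ x g < 2 ^ k) ∧ ∀ M : Finset ℕ, M ⊆ Finset.range (2 ^ k) → 32 * M.card ≤ 2 ^ k →
    Q * ((Finset.range (2 ^ n)).filter fun x => 4 * (n + Q + 2) <
      4 * ((Finset.range (4 * (n + Q + 2))).filter fun g => Γ x g ∈ M).card).card ≤ 2 ^ k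

/-- The number of neighbours of a left vertex. -/
def GG (n e : ℕ) : ℕ := 4 * (n + 2 ^ e + 2)

/-- `f` codes the graphs: the `g`-th neighbour of the left vertex `i`. -/
def nb (f : ℕ × ℕ → ℕ) (n k e i g : ℕ) : ℕ := f (Nat.pair n (Nat.pair k (2 ^ e)), Nat.pair i g)

/-- The load of the right vertex `w` at stage `t`: the number of pairs `(i, g)` such that `w` is the
`g`-th neighbour of `i` and the `i`-th element `x` of `{KS x 0 ≤ n}` satisfies `KS x ξ ≤ m`. -/
def load (f : ℕ × ℕ → ℕ) (n k e m ξ t w : ℕ) : ℕ :=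
  ((List.range (En n 0 t).length).map fun i => if (En n 0 t).getD i 0 ∈ En m ξ t then
    ((List.range (GG n e)).filter fun g => nb f n k e i g = w).length else 0).sum

/-- `w` is overloaded at stage `t`. -/
def ovl (f : ℕ × ℕ → ℕ) (n k e m ξ t w : ℕ) : Bool :=
  decide (32 * GG n e * 2 ^ m < 2 ^ k * load f n k e m ξ t w)

/-- More than one quarter of the neighbours of `i` are overloaded at stage `t`. -/
def danger (f : ℕ × ℕ → ℕ) (n k e m ξ t i : ℕ) : Bool :=
  decide (GG n e < 4 * ((List.range (GG n e)).filter fun g => ovl f n k e m ξ t (nb f n k e i g)).length)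

/-! ## The game -/

/-- An event `(s, j, v)`: `v` joins `X_j` (if `s = false`) or `Y_j` (if `s = true`). -/
abbrev Ev := Bool × ℕ × ℕ

/-- The list `X_j` (`s = false`) or `Y_j` (`s = true`) after the events `M`. -/
def Xl (s : Bool) (M : List Ev) (j : ℕ) : List ℕ :=
  M.filterMap fun e => if e.1 = s ∧ e.2.1 = j then some e.2.2 else none

/-- The legal histories. -/
structure Legal (n h a b : ℕ) (M : List Ev) : Prop where
  nodup : M.Nodup
  j_lt : ∀ e ∈ M, e.2.1 < 2 ^ h
  v_lt : ∀ e ∈ M, e.2.2 < 2 ^ n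
  x_len : ∀ j, (Xl false M j).length ≤ 2 ^ a
  y_len : ∀ j, (Xl true M j).length ≤ 2 ^ b

/-- The number of `j` such that `x` joined `X_j` before `y` joined `Y_j`. -/
def cntX (M : List Ev) (x y : ℕ) : ℕ :=
  (M.filter fun e => e.1 = true ∧ e.2.2 = y ∧ (false, e.2.1, x) ∈ M.take (M.idxOf e)).length

/-- Output of the strategy for one scale: the list of names (name number `k` is the `k`-th list, its
set `X'_k`); the list of pairs `(k, y)`, `y ∈ Y'_k`; the list of triples `(x, y, k)`: name `k` is
assigned to the pair `(x, y)`. -/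
abbrev Out1 := List (List ℕ) × List (ℕ × ℕ) × List (ℕ × ℕ × ℕ)

/-- Output for all scales `0, …, a`. -/
abbrev Out := List Out1

/-- `O'` extends `O`. -/
def Out1.ext (O O' : Out1) : Prop := O.1 <+: O'.1 ∧ O.2.1 <+: O'.2.1 ∧ O.2.2 <+: O'.2.2

/-- The output for scale `i`. -/
def Out.nth (O : Out) (i : ℕ) : Out1 := O.getD i ([], [], [])

/-- The level of scale `i`. -/
def uu (a b i : ℕ) : ℕ := min (a - i) b

/-- The polynomial loss. -/
def pol (n h a b : ℕ) : ℕ := 2 ^ 12 * (n + h + a + b + 10) ^ 4

/-- Winning condition for scale `i`: at most `(2^h / 2^d) * 2^u * pol` names, each with at most `2^i`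
elements `x` and at most `2^(b-u)` elements `y`; the number of names assigned to a pair is at most
`pol * cntX / 2^d`. -/
structure Win1 (n h a b d i : ℕ) (M : List Ev) (O : Out1) : Prop where
  w1 : O.1.length * 2 ^ d ≤ 2 ^ (h + uu a b i) * pol n h a b
  w2 : ∀ X ∈ O.1, X.length ≤ 2 ^ i
  w3 : ∀ k, (O.2.1.filter fun e => e.1 = k).length ≤ 2 ^ (b - uu a b i)
  w4 : ∀ x y, (O.2.2.filter fun e => e.1 = x ∧ e.2.1 = y).length * 2 ^ d ≤
    pol n h a b * cntX M x y

/-- Winning condition: moreover every pair `(x, y)` with `(a+1) 2^d ≤ cntX` has an assigned name which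
contains it. -/
structure Win (n h a b d : ℕ) (M : List Ev) (O : Out) : Prop where
  len : O.length = a + 1
  each : ∀ i ≤ a, Win1 n h a b d i M (O.nth i)
  cover : ∀ x y, (a + 1) * 2 ^ d ≤ cntX M x y → ∃ i ≤ a, ∃ k < (O.nth i).1.length,
    (x, y, k) ∈ (O.nth i).2.2 ∧ x ∈ (O.nth i).1.getD k [] ∧ (k, y) ∈ (O.nth i).2.1

/-- The strategy given by the table `Tb`. -/
def tab (Tb : List (List Ev × Out)) (M : List Ev) : Out := (Tb.lookup M).getD []

/-- The table `Tb` defines a winning strategy and contains all legal histories. -/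
structure Closed (n h a b d : ℕ) (Tb : List (List Ev × Out)) : Prop where
  nil : [] ∈ Tb.map Prod.fst
  win : ∀ p ∈ Tb, Legal n h a b p.1 → Win n h a b d p.1 (tab Tb p.1)
  step : ∀ p ∈ Tb, ∀ s : Bool, ∀ j < 2 ^ h, ∀ v < 2 ^ n, Legal n h a b (p.1 ++ [(s, j, v)]) →
    p.1 ++ [(s, j, v)] ∈ Tb.map Prod.fst ∧
      ∀ i ≤ a, ((tab Tb p.1).nth i).ext ((tab Tb (p.1 ++ [(s, j, v)])).nth i)

/-- A winning strategy: for every legal history it wins, and its output only grows. -/
def Winning (n h a b d : ℕ) (O : List Ev → Out) : Prop :=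
  (∀ M, Legal n h a b M → Win n h a b d M (O M)) ∧
    ∀ M e, Legal n h a b (M ++ [e]) → ∀ i ≤ a, ((O M).nth i).ext ((O (M ++ [e])).nth i)

/-! ## The game for one scale -/

/-- Events of the game for one scale: a new block `β` with the key `k`; the item `y` joins the block
with the key `k`. -/
inductive REv
  | blk (k : ℕ) (β : List ℕ) : REv
  | item (k y : ℕ) : REv
  deriving DecidableEq

/-- The blocks `(key, content)` in a history. -/
def blks (H : List REv) : List (ℕ × List ℕ) :=
  H.filterMap fun e => match e with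
    | .blk k β => some (k, β)
    | .item _ _ => none

/-- The items `(key, y)` in a history. -/
def itms (H : List REv) : List (ℕ × ℕ) :=
  H.filterMap fun e => match e with
    | .blk _ _ => none
    | .item k y => some (k, y)

/-- The keys of the blocks. -/
def keys (H : List REv) : List ℕ := (blks H).map Prod.fst

/-- The block with the key `k` (`[]` if there is none). -/
def blkOf (H : List REv) (k : ℕ) : List ℕ := ((blks H).lookup k).getD []

/-- The keys of the blocks that `y` joined, in chronological order. -/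
def ylist (H : List REv) (y : ℕ) : List ℕ := ((itms H).filter fun p => p.2 = y).map Prod.fst

/-- The number of keys in the list `g` whose block contains `x`. -/
def hv (H : List REv) (g : List ℕ) (x : ℕ) : ℕ := (g.filter fun k => x ∈ blkOf H k).length

/-- The number of blocks containing `x` that `y` joined. -/
def rcnt (H : List REv) (x y : ℕ) : ℕ := hv H (ylist H y) x

/-- The dyadic group number `s` of level `l`. -/
def grp (L : List ℕ) (l s : ℕ) : List ℕ := (L.drop (s * 2 ^ l)).take (2 ^ l)

/-- Legal histories: at most `T` blocks with different keys, each a subset of `range (2^n)` with at most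
`S` elements; at most `W` items, all different, at most `2^E` for each `y`; items join existing
blocks. -/
structure RLegal (n S T W E : ℕ) (H : List REv) : Prop where
  keys_nodup : (keys H).Nodup
  nblk : (blks H).length ≤ T
  blk_ok : ∀ p ∈ blks H, p.2.Nodup ∧ p.2.length ≤ S ∧ ∀ x ∈ p.2, x < 2 ^ n
  itms_nodup : (itms H).Nodup
  itms_len : (itms H).length ≤ W
  itms_y : ∀ y, (ylist H y).length ≤ 2 ^ E
  order : ∀ H₁ H₂ k y, H = H₁ ++ REv.item k y :: H₂ → k ∈ keys H₁

/-- The number of samples in the block. -/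
def hits {m : ℕ} (Ξ : Fin m → ℕ) (β : List ℕ) : ℕ := (Finset.univ.filter fun i => Ξ i ∈ β).card

/-- The property of the set `Mk` of keys of marked blocks: for all `j ≤ E + 1`, every sample of
`m = 2 κ 2^j` elements that hits (at least `κ` times) at least `4 q m n` blocks hits a marked block. -/
def Marked (n q κ E : ℕ) (H : List REv) (Mk : Finset ℕ) : Prop :=
  (∀ k ∈ Mk, k ∈ keys H) ∧ ∀ j ≤ E + 1, ∀ Ξ : Fin (2 * κ * 2 ^ j) → ℕ, (∀ i, Ξ i < 2 ^ n) →
    4 * q * (2 * κ * 2 ^ j) * n ≤ ((keys H).filter fun k => κ ≤ hits Ξ (blkOf H k)).length →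
      ∃ k ∈ Mk, κ ≤ hits Ξ (blkOf H k)

/-- The invariant of the list `A` of assignments `(β, y, V)` (`y` is given to the marked block `β`
for the elements `x ∈ V`). -/
structure RInv (n τ E : ℕ) (H : List REv) (Mk : Finset ℕ) (A : List (List ℕ × ℕ × List ℕ)) :
    Prop where
  mem : ∀ e ∈ A, ∃ k ∈ Mk, e.1 = blkOf H k
  sub : ∀ e ∈ A, e.2.2.Nodup ∧ ∀ x ∈ e.2.2, x ∈ e.1
  len : ∀ y, τ * (A.filter fun e => e.2.1 = y).length ≤
    (64 * n + 1) * ∑ l ∈ Finset.range (E + 1), 2 ^ l * ((ylist H y).length / 2 ^ l)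
  cnt : ∀ x y, τ * (A.filter fun e => e.2.1 = y ∧ x ∈ e.2.2).length ≤
    ∑ l ∈ Finset.range (E + 1), hv H ((ylist H y).take (2 ^ l * ((ylist H y).length / 2 ^ l))) x
  cov : ∀ x y, ∀ l ≤ E, ∀ s, (s + 1) * 2 ^ l ≤ (ylist H y).length →
    τ ≤ hv H (grp (ylist H y) l s) x → ∃ e ∈ A, e.2.1 = y ∧ x ∈ e.2.2

/-- Winning condition for one scale. -/
structure RWin (n q τ E S T W cap : ℕ) (H : List REv) (O : Out1) : Prop where
  c1 : ∃ D A, q * D ≤ 4 * T ∧ τ * A ≤ (E + 1) * (64 * n + 1) * W ∧
    cap * O.1.length ≤ cap * min D A + A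
  c2 : ∀ X ∈ O.1, X.length ≤ S
  c3 : ∀ k, (O.2.1.filter fun e => e.1 = k).length ≤ cap
  c4 : ∀ x y, τ * (O.2.2.filter fun e => e.1 = x ∧ e.2.1 = y).length ≤ (E + 1) * rcnt H x y
  c5 : ∀ x y, (E + 1) * τ ≤ rcnt H x y → ∃ k < O.1.length,
    (x, y, k) ∈ O.2.2 ∧ x ∈ O.1.getD k [] ∧ (k, y) ∈ O.2.1

/-- The new events of the game for scale `i` when the event `e` happens after the history `M`: if
the length `m` of `X_j` becomes divisible by `2^i`, its last `2^i` elements form a new block with the
key `(j, m / 2^i - 1)`; if `y` joins `Y_j` and the binary digit `i` of `m = |X_j|` is `1`, then `y`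
joins the block with the key `(j, m / 2^i - 1)`. -/
def rstep (i : ℕ) (M : List Ev) (e : Ev) : List REv :=
  if e.1 = false then
    if 2 ^ i ∣ (Xl false (M ++ [e]) e.2.1).length then
      [REv.blk (Nat.pair e.2.1 ((Xl false (M ++ [e]) e.2.1).length / 2 ^ i - 1))
        ((Xl false (M ++ [e]) e.2.1).drop ((Xl false (M ++ [e]) e.2.1).length - 2 ^ i))]
    else []
  else
    if (Xl false M e.2.1).length / 2 ^ i % 2 = 1 then
      [REv.item (Nat.pair e.2.1 ((Xl false M e.2.1).length / 2 ^ i - 1)) e.2.2]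
    else []

/-- The history of the game for scale `i`. -/
def runHist (i : ℕ) (M : List Ev) : List REv :=
  (List.range M.length).flatMap fun t => rstep i (M.take t) (M.getD t (false, 0, 0))

/-! ## The history coming from Kolmogorov complexity -/

/-- All events `(s, j, v)` seen at stage `t`: the `v`-th element `x` of `{KS x 0 ≤ n}` satisfies
`KS x z ≤ k` for the `j`-th element `z` of `{KS z 0 ≤ h}`. -/
def cand (s : Bool) (n h k t : ℕ) : List Ev :=
  (List.range (En h 0 t).length).flatMap fun j =>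
    ((List.range (En n 0 t).length).filter fun v =>
      (En n 0 t).getD v 0 ∈ En k ((En h 0 t).getD j 0) t).map fun v => (s, j, v)

/-- The history: `X_j = {x : KS x z_j ≤ a}`, `Y_j = {y : KS y z_j ≤ b}`; in each stage the events for
the `X_j` come first. -/
def memb (n h a b : ℕ) : ℕ → List Ev
  | 0 => []
  | t + 1 =>
    let M1 := memb n h a b t ++ (cand false n h a t).filter fun e => e ∉ memb n h a b t
    M1 ++ (cand true n h b t).filter fun e => e ∉ M1

/-- The set of all `z` with `KS z 0 ≤ h`, `KS x z ≤ a`, `KS y z ≤ b`. -/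
def Dst (h a b x y : ℕ) : Set ℕ := {z | KS z 0 ≤ h ∧ KS x z ≤ a ∧ KS y z ≤ b}

/-- Code of the parameters. -/
def prm (n h a b d : ℕ) : ℕ := Nat.pair n (Nat.pair h (Nat.pair a (Nat.pair b d)))

/-- The name number `k` of scale `i`. -/
def nam (n h a b d i k : ℕ) : ℕ := Nat.pair (prm n h a b d) (Nat.pair i k)

/-- `G` enumerates the output of winning strategies against `memb`. -/
def GEnum (G : ℕ × ℕ → Out) : Prop :=
  Computable G ∧ ∀ n h a b d, 1 ≤ n → pol n h a b ≤ 2 ^ d →
    (∀ t, ∀ i ≤ a, ((G (prm n h a b d, t)).nth i).ext ((G (prm n h a b d, t + 1)).nth i)) ∧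
    (∀ t, G (prm n h a b d, t) = [] ∨ Win n h a b d (memb n h a b t) (G (prm n h a b d, t))) ∧
    ∃ t₀, ∀ t ≥ t₀, Win n h a b d (memb n h a b t) (G (prm n h a b d, t))

end Pool.Agent.Lib.H52K
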