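import Pool.Agent.Lib.H52K.Defs

/-!
Probabilistic method (counting functions `Fin (2^n) → Fin G → Fin (2^k)`, `G = 4 (n + Q + 2) = 4 g₀`):
if a function is bad, there are a set `M` with `32 |M| ≤ 2^k` and a set `B` of exactly `N = ⌊2^k/Q⌋ + 1` left
vertices with more than `g₀` neighbours in `M` each. For fixed `M`, `B` the fraction of such functions is at
most `(2^G * 32^(-g₀))^N = 2^(-g₀ N)`; there are at most `2^(2^k) ≤ 2^(Q N - 1)`-many `M` and `2^(n N)` sets
`B`, and `Q N + n N < g₀ N`. (For `Q = 0` everything is trivial.)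
-/

namespace Pool.Agent.Lib.H52K

theorem HG1_card {ι α : Type*} [Fintype ι] [DecidableEq ι] [Fintype α] [DecidableEq α]
    (S : Finset ι) (M : Finset α) [DecidablePred fun φ : ι → α => ∀ g ∈ S, φ g ∈ M] :
    (Finset.univ.filter fun φ : ι → α => ∀ g ∈ S, φ g ∈ M).card
      = M.card ^ S.card * (Fintype.card α) ^ (Fintype.card ι - S.card) := by
  have h1 : (Finset.univ.filter fun φ : ι → α => ∀ g ∈ S, φ g ∈ M)
      = Fintype.piFinset (fun g => if g ∈ S then M else Finset.univ) := by
    ext φ
    simp only [Finset.mem_filter, Finset.mem_univ, true_and, Fintype.mem_piFinset]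
    constructor
    · intro h g
      by_cases hg : g ∈ S
      · simp [hg, h g hg]
      · simp [hg]
    · intro h g hg
      have := h g
      simpa [hg] using this
  rw [h1, Fintype.card_piFinset]
  have h2 : ∀ g, (if g ∈ S then M else Finset.univ).card
      = if g ∈ S then M.card else Fintype.card α := by
    intro g
    split_ifs <;> simp
  rw [Finset.prod_congr rfl (fun g _ => h2 g), Finset.prod_ite, Finset.prod_const,
    Finset.prod_const]
  have h3 : (Finset.univ.filter fun x => x ∈ S) = S := by ext; simp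
  have h4 : (Finset.univ.filter fun x => ¬ x ∈ S) = Sᶜ := by ext; simp
  rw [h3, h4, Finset.card_compl]

theorem HG1_W (g0 : ℕ) {α : Type*} [Fintype α] [DecidableEq α] (M : Finset α)
    (hM : 32 * M.card ≤ Fintype.card α) :
    (Finset.univ.filter fun φ : Fin (4 * g0) → α =>
      g0 ≤ (Finset.univ.filter fun g => φ g ∈ M).card).card * 2 ^ g0
      ≤ Fintype.card α ^ (4 * g0) := by
  have hsub : (Finset.univ.filter fun φ : Fin (4 * g0) → α =>
      g0 ≤ (Finset.univ.filter fun g => φ g ∈ M).card) ⊆
      (Finset.powersetCard g0 (Finset.univ : Finset (Fin (4 * g0)))).biUnion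
        (fun S => Finset.univ.filter fun φ : Fin (4 * g0) → α => ∀ g ∈ S, φ g ∈ M) := by
    intro φ hφ
    simp only [Finset.mem_filter, Finset.mem_univ, true_and] at hφ
    obtain ⟨S, hS, hSc⟩ := Finset.exists_subset_card_eq hφ
    simp only [Finset.mem_biUnion, Finset.mem_powersetCard, Finset.mem_filter, Finset.mem_univ,
      true_and]
    refine ⟨S, ⟨Finset.subset_univ _, hSc⟩, fun g hg => ?_⟩
    have := hS hg
    simpa using this
  have h1 : (Finset.univ.filter fun φ : Fin (4 * g0) → α =>
      g0 ≤ (Finset.univ.filter fun g => φ g ∈ M).card).card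
      ≤ 2 ^ (4 * g0) * (M.card ^ g0 * (Fintype.card α) ^ (4 * g0 - g0)) := by
    refine (Finset.card_le_card hsub).trans ?_
    refine Finset.card_biUnion_le.trans ?_
    have : ∀ S ∈ Finset.powersetCard g0 (Finset.univ : Finset (Fin (4 * g0))),
        (Finset.univ.filter fun φ : Fin (4 * g0) → α => ∀ g ∈ S, φ g ∈ M).card
          = M.card ^ g0 * (Fintype.card α) ^ (4 * g0 - g0) := by
      intro S hS
      rw [Finset.mem_powersetCard] at hS
      rw [HG1_card, hS.2, Fintype.card_fin]
    rw [Finset.sum_congr rfl this, Finset.sum_const, smul_eq_mul]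
    refine Nat.mul_le_mul_right _ ?_
    calc (Finset.powersetCard g0 (Finset.univ : Finset (Fin (4 * g0)))).card
        ≤ (Finset.univ : Finset (Fin (4 * g0))).powerset.card :=
          Finset.card_le_card fun t ht => Finset.mem_powerset.2 (Finset.mem_powersetCard.1 ht).1
      _ = 2 ^ (4 * g0) := by rw [Finset.card_powerset, Finset.card_univ, Fintype.card_fin]
  calc _ ≤ 2 ^ (4 * g0) * (M.card ^ g0 * (Fintype.card α) ^ (4 * g0 - g0)) * 2 ^ g0 :=
        Nat.mul_le_mul_right _ h1
    _ = (32 * M.card) ^ g0 * (Fintype.card α) ^ (4 * g0 - g0) := by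
        rw [mul_pow]
        have : (32 : ℕ) ^ g0 = 2 ^ (4 * g0) * 2 ^ g0 := by
          rw [← pow_add, show (32 : ℕ) = 2 ^ 5 by norm_num, ← pow_mul]
          congr 1
          ring
        rw [this]
        ring
    _ ≤ (Fintype.card α) ^ g0 * (Fintype.card α) ^ (4 * g0 - g0) :=
        Nat.mul_le_mul_right _ (Nat.pow_le_pow_left hM _)
    _ = Fintype.card α ^ (4 * g0) := by
        rw [← pow_add]
        congr 1
        omega

theorem HG1_B {ι β : Type*} [Fintype ι] [DecidableEq ι] [Fintype β] [DecidableEq β]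
    (B : Finset ι) (W : Finset β) [DecidablePred fun F : ι → β => ∀ x ∈ B, F x ∈ W]
    (g0 : ℕ) (hW : W.card * 2 ^ g0 ≤ Fintype.card β) :
    (Finset.univ.filter fun F : ι → β => ∀ x ∈ B, F x ∈ W).card * 2 ^ (g0 * B.card)
      ≤ Fintype.card β ^ Fintype.card ι := by
  rw [HG1_card]
  calc W.card ^ B.card * Fintype.card β ^ (Fintype.card ι - B.card) * 2 ^ (g0 * B.card)
      = (W.card * 2 ^ g0) ^ B.card * Fintype.card β ^ (Fintype.card ι - B.card) := by
        rw [mul_pow, ← pow_mul]; ring
    _ ≤ Fintype.card β ^ B.card * Fintype.card β ^ (Fintype.card ι - B.card) :=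
        Nat.mul_le_mul_right _ (Nat.pow_le_pow_left hW _)
    _ = Fintype.card β ^ Fintype.card ι := by
        rw [← pow_add]
        congr 1
        have := Finset.card_le_univ B
        omega

/-- The main counting argument. -/
theorem HG1_main (n k Q : ℕ) (hQ : 0 < Q) :
    ∃ F : Fin (2 ^ n) → Fin (4 * (n + Q + 2)) → Fin (2 ^ k), ∀ M : Finset (Fin (2 ^ k)),
      32 * M.card ≤ 2 ^ k →
      Q * (Finset.univ.filter fun x : Fin (2 ^ n) => n + Q + 2 ≤
        (Finset.univ.filter fun g => F x g ∈ M).card).card ≤ 2 ^ k := by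
  classical
  by_contra hcon
  push Not at hcon
  set g0 := n + Q + 2 with hg0
  set N := 2 ^ k / Q + 1 with hN
  have hQN : 2 ^ k < Q * N := by
    rw [hN]
    exact Nat.lt_mul_div_succ _ hQ
  set W : Finset (Fin (2 ^ k)) → Finset (Fin (4 * g0) → Fin (2 ^ k)) := fun M =>
    Finset.univ.filter fun φ => g0 ≤ (Finset.univ.filter fun g => φ g ∈ M).card with hWdef
  have hcov : (Finset.univ : Finset (Fin (2 ^ n) → Fin (4 * g0) → Fin (2 ^ k))) ⊆
      ((Finset.univ.filter fun M : Finset (Fin (2 ^ k)) => 32 * M.card ≤ 2 ^ k) ×ˢ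
        (Finset.powersetCard N (Finset.univ : Finset (Fin (2 ^ n))))).biUnion
        (fun p => Finset.univ.filter fun F => ∀ x ∈ p.2, F x ∈ W p.1) := by
    intro F _
    obtain ⟨M, hM, hb⟩ := hcon F
    have hb' : N ≤ (Finset.univ.filter fun x : Fin (2 ^ n) => g0 ≤
        (Finset.univ.filter fun g => F x g ∈ M).card).card := by
      rw [hN, Nat.add_one_le_iff, Nat.div_lt_iff_lt_mul hQ, mul_comm]
      exact hb
    obtain ⟨B, hB, hBc⟩ := Finset.exists_subset_card_eq hb'
    simp only [Finset.mem_biUnion, Finset.mem_product, Finset.mem_filter, Finset.mem_univ,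
      true_and, Finset.mem_powersetCard, Prod.exists]
    refine ⟨M, B, ⟨hM, Finset.subset_univ _, hBc⟩, fun x hx => ?_⟩
    have := hB hx
    simpa [hWdef] using this
  have hcard := Finset.card_le_card hcov
  have h2 := hcard.trans Finset.card_biUnion_le
  have hW : ∀ M : Finset (Fin (2 ^ k)), 32 * M.card ≤ 2 ^ k →
      (W M).card * 2 ^ g0 ≤ Fintype.card (Fin (4 * g0) → Fin (2 ^ k)) := by
    intro M hM
    have := HG1_W g0 M (by rw [Fintype.card_fin]; exact hM)
    rw [Fintype.card_fun, Fintype.card_fin, Fintype.card_fin]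
    rw [Fintype.card_fin] at this
    exact this
  set T := Fintype.card (Fin (4 * g0) → Fin (2 ^ k)) ^ Fintype.card (Fin (2 ^ n)) with hT
  have h3 : (Finset.univ : Finset (Fin (2 ^ n) → Fin (4 * g0) → Fin (2 ^ k))).card = T := by
    rw [Finset.card_univ, hT, Fintype.card_fun]
  have hTpos : 0 < T := by
    rw [hT, Fintype.card_fun, Fintype.card_fin, Fintype.card_fin, Fintype.card_fin]
    positivity
  have h4 : T * 2 ^ (g0 * N) ≤ 2 ^ (2 ^ k) * (2 ^ n) ^ N * T := by
    calc T * 2 ^ (g0 * N) ≤ (∑ p ∈ ((Finset.univ.filter fun M : Finset (Fin (2 ^ k)) =>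
              32 * M.card ≤ 2 ^ k) ×ˢ
            (Finset.powersetCard N (Finset.univ : Finset (Fin (2 ^ n))))),
            (Finset.univ.filter fun F : Fin (2 ^ n) → Fin (4 * g0) → Fin (2 ^ k) =>
              ∀ x ∈ p.2, F x ∈ W p.1).card) * 2 ^ (g0 * N) := by
            rw [← h3]
            exact Nat.mul_le_mul_right _ h2
      _ = ∑ p ∈ ((Finset.univ.filter fun M : Finset (Fin (2 ^ k)) =>
              32 * M.card ≤ 2 ^ k) ×ˢ
            (Finset.powersetCard N (Finset.univ : Finset (Fin (2 ^ n))))),
            (Finset.univ.filter fun F : Fin (2 ^ n) → Fin (4 * g0) → Fin (2 ^ k) =>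
              ∀ x ∈ p.2, F x ∈ W p.1).card * 2 ^ (g0 * N) := by
            rw [Finset.sum_mul]
      _ ≤ ∑ p ∈ ((Finset.univ.filter fun M : Finset (Fin (2 ^ k)) =>
              32 * M.card ≤ 2 ^ k) ×ˢ
            (Finset.powersetCard N (Finset.univ : Finset (Fin (2 ^ n))))), T := by
            refine Finset.sum_le_sum fun p hp => ?_
            simp only [Finset.mem_product, Finset.mem_filter, Finset.mem_univ,
              true_and, Finset.mem_powersetCard] at hp
            have := HG1_B p.2 (W p.1) g0 (hW p.1 hp.1)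
            rw [hp.2.2, ← hT] at this
            exact this
      _ ≤ 2 ^ (2 ^ k) * (2 ^ n) ^ N * T := by
            rw [Finset.sum_const, smul_eq_mul, Finset.card_product]
            refine Nat.mul_le_mul_right _ (Nat.mul_le_mul ?_ ?_)
            · calc _ ≤ (Finset.univ : Finset (Finset (Fin (2 ^ k)))).card :=
                    Finset.card_le_card (Finset.filter_subset _ _)
                _ = 2 ^ (2 ^ k) := by
                    rw [Finset.card_univ, Fintype.card_finset, Fintype.card_fin]
            · rw [Finset.card_powersetCard, Finset.card_univ, Fintype.card_fin]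
              exact Nat.choose_le_pow _ _
  have h5 : 2 ^ (g0 * N) ≤ 2 ^ (2 ^ k + n * N) := by
    rw [pow_add, pow_mul 2 n N]
    rw [mul_comm T] at h4
    exact Nat.le_of_mul_le_mul_right h4 hTpos
  have h6 : g0 * N ≤ 2 ^ k + n * N := (Nat.pow_le_pow_iff_right (by norm_num)).1 h5
  rw [hg0] at h6
  nlinarith

theorem goodGraph_exists (n k Q : ℕ) : ∃ Γ : ℕ → ℕ → ℕ, GoodGraph n k Q Γ := by
  classical
  rcases Nat.eq_zero_or_pos Q with hQ | hQ
  · subst hQ
    refine ⟨fun _ _ => 0, fun _ _ => by positivity, fun M _ _ => by simp⟩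
  obtain ⟨F, hF⟩ := HG1_main n k Q hQ
  refine ⟨fun x g => if hx : x < 2 ^ n then if hg : g < 4 * (n + Q + 2) then
    (F ⟨x, hx⟩ ⟨g, hg⟩ : ℕ) else 0 else 0, ?_, ?_⟩
  · intro x g
    dsimp only
    split_ifs
    · exact Fin.is_lt _
    · positivity
    · positivity
  · intro M hM h32
    set M' : Finset (Fin (2 ^ k)) := Finset.univ.filter fun w => (w : ℕ) ∈ M with hM'
    have hc : M'.card = M.card := by
      refine Finset.card_bij (fun w _ => (w : ℕ)) ?_ ?_ ?_
      · intro w hw
        simpa [hM'] using hw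
      · intro a _ b _ hab
        exact Fin.ext hab
      · intro b hb
        have := Finset.mem_range.1 (hM hb)
        exact ⟨⟨b, this⟩, by simp [hM', hb], rfl⟩
    have := hF M' (by rw [hc]; exact h32)
    refine le_trans (Nat.mul_le_mul_left _ ?_) this
    refine Finset.card_le_card_of_injOn (fun x => if hx : x < 2 ^ n then (⟨x, hx⟩ : Fin (2 ^ n))
      else ⟨0, by positivity⟩) ?_ ?_
    · intro x hx
      simp only [Finset.coe_filter, Finset.mem_range, Set.mem_ofPred_eq] at hx
      obtain ⟨hx1, hx2⟩ := hx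
      simp only [hx1, dite_true, Finset.coe_filter, Finset.mem_univ, true_and,
        Set.mem_ofPred_eq]
      simp only [hx1, dite_true] at hx2
      have h7 : n + Q + 2 < ((Finset.range (4 * (n + Q + 2))).filter fun g =>
        (if hg : g < 4 * (n + Q + 2) then (F ⟨x, hx1⟩ ⟨g, hg⟩ : ℕ) else 0) ∈ M).card := by omega
      refine h7.le.trans ?_
      refine Finset.card_le_card_of_injOn (fun g => if hg : g < 4 * (n + Q + 2) then
        (⟨g, hg⟩ : Fin (4 * (n + Q + 2))) else ⟨0, by positivity⟩) ?_ ?_
      · intro g hg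
        simp only [Finset.coe_filter, Finset.mem_range, Set.mem_ofPred_eq] at hg
        obtain ⟨hg1, hg2⟩ := hg
        simp only [hg1, dite_true] at hg2
        simp only [hg1, dite_true, Finset.coe_filter, Finset.mem_univ, true_and,
          Set.mem_ofPred_eq, hM', Finset.mem_filter]
        exact hg2
      · intro g hg g' hg' h
        simp only [Finset.coe_filter, Finset.mem_range, Set.mem_ofPred_eq] at hg hg'
        simp only [hg.1, hg'.1, dite_true, Fin.mk.injEq] at h
        exact h
    · intro x hx x' hx' h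
      simp only [Finset.coe_filter, Finset.mem_range, Set.mem_ofPred_eq] at hx hx'
      simp only [hx.1, hx'.1, dite_true, Fin.mk.injEq] at h
      exact h

end Pool.Agent.Lib.H52K
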