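import Pool.Agent.Lib.H52K.P0
import Pool.Agent.Lib.H52K.HG1

/-!
Search for the first good graph. Code a graph by a number `T` (for instance a list of lists via
`Encodable`, or digits in base `2^k`; outside the finite table the value is `0`), sets `M` by numbers
`< 2^(2^k)` (binary digits) or by sublists of `List.range (2^k)`; the property to be checked has only
bounded quantifiers and counts. Use `search_computable`.
-/

namespace Pool.Agent.Lib.H52K

/-- The value coded by `c` at the place `xg`. -/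
def HG2_tv (p c xg : ℕ) : ℕ :=
  (Denumerable.ofNat (List ℕ) c).getD xg 0 % 2 ^ p.unpair.2.unpair.1

/-- The number of neighbours of `x` in the set coded by `m`. -/
def HG2_c1 (p c m x : ℕ) : ℕ :=
  ((List.range (4 * (p.unpair.1 + p.unpair.2.unpair.2 + 2))).filter fun g =>
    m / 2 ^ (HG2_tv p c (Nat.pair x g)) % 2 = 1).length

/-- The number of bad `x`. -/
def HG2_c2 (p c m : ℕ) : ℕ :=
  ((List.range (2 ^ p.unpair.1)).filter fun x =>
    4 * (p.unpair.1 + p.unpair.2.unpair.2 + 2) < 4 * HG2_c1 p c m x).length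

/-- The size of the set coded by `m`. -/
def HG2_c3 (p m : ℕ) : ℕ :=
  ((List.range (2 ^ p.unpair.2.unpair.1)).filter fun w => m / 2 ^ w % 2 = 1).length

/-- The check. -/
def HG2_chk (p c : ℕ) : Prop :=
  ∀ m < 2 ^ 2 ^ p.unpair.2.unpair.1, 32 * HG2_c3 p m ≤ 2 ^ p.unpair.2.unpair.1 →
    p.unpair.2.unpair.2 * HG2_c2 p c m ≤ 2 ^ p.unpair.2.unpair.1

theorem HG2_card (N : ℕ) (p : ℕ → Prop) [DecidablePred p] :
    ((Finset.range N).filter p).card = ((List.range N).filter fun x => decide (p x)).length := rfl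

theorem HG2_tv_primrec : Primrec fun a : ℕ × ℕ × ℕ => HG2_tv a.1 a.2.1 a.2.2 := by
  have h1 : Primrec fun a : ℕ × ℕ × ℕ => (Denumerable.ofNat (List ℕ) a.2.1).getD a.2.2 0 :=
    (Primrec.list_getD 0).comp ((Primrec.ofNat (List ℕ)).comp (Primrec.fst.comp Primrec.snd))
      (Primrec.snd.comp Primrec.snd)
  have h2 : Primrec fun a : ℕ × ℕ × ℕ => 2 ^ a.1.unpair.2.unpair.1 :=
    pow_primrec.comp (Primrec.const 2) (Primrec.fst.comp (Primrec.unpair.comp
      (Primrec.snd.comp (Primrec.unpair.comp Primrec.fst))))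
  exact Primrec.nat_mod.comp h1 h2

attribute [local irreducible] HG2_tv

theorem HG2_N : Primrec fun p : ℕ => p.unpair.1 := Primrec.fst.comp Primrec.unpair

theorem HG2_K : Primrec fun p : ℕ => p.unpair.2.unpair.1 :=
  Primrec.fst.comp (Primrec.unpair.comp (Primrec.snd.comp Primrec.unpair))

theorem HG2_Q : Primrec fun p : ℕ => p.unpair.2.unpair.2 :=
  Primrec.snd.comp (Primrec.unpair.comp (Primrec.snd.comp Primrec.unpair))

theorem HG2_G : Primrec fun p : ℕ => 4 * (p.unpair.1 + p.unpair.2.unpair.2 + 2) :=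
  Primrec.nat_mul.comp (Primrec.const 4) (Primrec.nat_add.comp
    (Primrec.nat_add.comp HG2_N HG2_Q) (Primrec.const 2))

theorem HG2_bit : PrimrecRel fun m w : ℕ => m / 2 ^ w % 2 = 1 :=
  Primrec.eq.comp (Primrec.nat_mod.comp (Primrec.nat_div.comp Primrec.fst
    (pow_primrec.comp (Primrec.const 2) Primrec.snd)) (Primrec.const 2)) (Primrec.const 1)

theorem HG2_c1_primrec :
    Primrec fun a : (ℕ × ℕ × ℕ) × ℕ => HG2_c1 a.1.1 a.1.2.1 a.1.2.2 a.2 := by
  have h1 : PrimrecRel fun (a : (ℕ × ℕ × ℕ) × ℕ) (g : ℕ) =>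
      a.1.2.2 / 2 ^ (HG2_tv a.1.1 a.1.2.1 (Nat.pair a.2 g)) % 2 = 1 :=
    HG2_bit.comp (Primrec.snd.comp (Primrec.snd.comp (Primrec.fst.comp Primrec.fst)))
      (HG2_tv_primrec.comp (Primrec.pair (Primrec.fst.comp (Primrec.fst.comp Primrec.fst))
        (Primrec.pair (Primrec.fst.comp (Primrec.snd.comp (Primrec.fst.comp Primrec.fst)))
          (Primrec₂.natPair.comp (Primrec.snd.comp Primrec.fst) Primrec.snd))))
  have h2 : Primrec fun a : (ℕ × ℕ × ℕ) × ℕ =>
      List.range (4 * (a.1.1.unpair.1 + a.1.1.unpair.2.unpair.2 + 2)) :=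
    Primrec.list_range.comp (HG2_G.comp (Primrec.fst.comp Primrec.fst))
  exact Primrec.list_length.comp (filter_primrec h2 h1)

attribute [local irreducible] HG2_c1

theorem HG2_c2_primrec :
    Primrec fun a : ℕ × ℕ × ℕ => HG2_c2 a.1 a.2.1 a.2.2 := by
  have h1 : PrimrecRel fun (a : ℕ × ℕ × ℕ) (x : ℕ) =>
      4 * (a.1.unpair.1 + a.1.unpair.2.unpair.2 + 2) < 4 * HG2_c1 a.1 a.2.1 a.2.2 x :=
    Primrec.nat_lt.comp (HG2_G.comp (Primrec.fst.comp Primrec.fst))
      (Primrec.nat_mul.comp (Primrec.const 4) HG2_c1_primrec)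
  have h2 : Primrec fun a : ℕ × ℕ × ℕ => List.range (2 ^ a.1.unpair.1) :=
    Primrec.list_range.comp (pow_primrec.comp (Primrec.const 2) (HG2_N.comp Primrec.fst))
  exact Primrec.list_length.comp (filter_primrec h2 h1)

attribute [local irreducible] HG2_c2

theorem HG2_c3_primrec : Primrec fun a : ℕ × ℕ => HG2_c3 a.1 a.2 := by
  have h1 : PrimrecRel fun (a : ℕ × ℕ) (w : ℕ) => a.2 / 2 ^ w % 2 = 1 :=
    HG2_bit.comp (Primrec.snd.comp Primrec.fst) Primrec.snd
  have h2 : Primrec fun a : ℕ × ℕ => List.range (2 ^ a.1.unpair.2.unpair.1) :=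
    Primrec.list_range.comp (pow_primrec.comp (Primrec.const 2) (HG2_K.comp Primrec.fst))
  exact Primrec.list_length.comp (filter_primrec h2 h1)

attribute [local irreducible] HG2_c3

theorem HG2_chk_primrec : PrimrecPred fun a : ℕ × ℕ => HG2_chk a.1 a.2 := by
  have h1 : PrimrecRel fun (a : ℕ × ℕ) (m : ℕ) =>
      (¬ 32 * HG2_c3 a.1 m ≤ 2 ^ a.1.unpair.2.unpair.1) ∨
      a.1.unpair.2.unpair.2 * HG2_c2 a.1 a.2 m ≤ 2 ^ a.1.unpair.2.unpair.1 := by
    have hK : Primrec fun b : (ℕ × ℕ) × ℕ => 2 ^ b.1.1.unpair.2.unpair.1 :=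
      pow_primrec.comp (Primrec.const 2) (HG2_K.comp (Primrec.fst.comp Primrec.fst))
    have k1 : Primrec fun b : (ℕ × ℕ) × ℕ => ((b.1.1, b.2) : ℕ × ℕ) :=
      Primrec.pair (Primrec.fst.comp Primrec.fst) Primrec.snd
    have k2 : Primrec fun b : (ℕ × ℕ) × ℕ => HG2_c3 b.1.1 b.2 :=
      HG2_c3_primrec.comp k1
    have k3 : Primrec fun b : (ℕ × ℕ) × ℕ => 32 * HG2_c3 b.1.1 b.2 :=
      Primrec.nat_mul.comp (Primrec.const 32) k2
    have h3 : PrimrecPred fun b : (ℕ × ℕ) × ℕ =>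
        32 * HG2_c3 b.1.1 b.2 ≤ 2 ^ b.1.1.unpair.2.unpair.1 :=
      Primrec.nat_le.comp k3 hK
    have k4 : Primrec fun b : (ℕ × ℕ) × ℕ => ((b.1.1, b.1.2, b.2) : ℕ × ℕ × ℕ) :=
      Primrec.pair (Primrec.fst.comp Primrec.fst)
          (Primrec.pair (Primrec.snd.comp Primrec.fst) Primrec.snd)
    have k5 : Primrec fun b : (ℕ × ℕ) × ℕ => HG2_c2 b.1.1 b.1.2 b.2 :=
      HG2_c2_primrec.comp k4
    have k6 : Primrec fun b : (ℕ × ℕ) × ℕ => b.1.1.unpair.2.unpair.2 :=
      HG2_Q.comp (Primrec.fst.comp Primrec.fst)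
    have k7 : Primrec fun b : (ℕ × ℕ) × ℕ =>
        b.1.1.unpair.2.unpair.2 * HG2_c2 b.1.1 b.1.2 b.2 :=
      Primrec.nat_mul.comp k6 k5
    have h4 : PrimrecPred fun b : (ℕ × ℕ) × ℕ =>
        b.1.1.unpair.2.unpair.2 * HG2_c2 b.1.1 b.1.2 b.2 ≤ 2 ^ b.1.1.unpair.2.unpair.1 :=
      Primrec.nat_le.comp k7 hK
    exact h3.not.or h4
  have h2 : Primrec fun a : ℕ × ℕ => 2 ^ 2 ^ a.1.unpair.2.unpair.1 :=
    pow_primrec.comp (Primrec.const 2)
      (pow_primrec.comp (Primrec.const 2) (HG2_K.comp Primrec.fst))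
  refine (forall_lt_primrec h2 h1).of_eq fun a => ?_
  unfold HG2_chk
  refine forall_congr' fun m => forall_congr' fun _ => ?_
  tauto

theorem HG2_good (n k Q c : ℕ) (h : HG2_chk (Nat.pair n (Nat.pair k Q)) c) :
    GoodGraph n k Q fun x g => HG2_tv (Nat.pair n (Nat.pair k Q)) c (Nat.pair x g) := by
  classical
  set p := Nat.pair n (Nat.pair k Q) with hp
  have hn : p.unpair.1 = n := by simp [hp]
  have hk : p.unpair.2.unpair.1 = k := by simp [hp]
  have hQ : p.unpair.2.unpair.2 = Q := by simp [hp]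
  have hlt : ∀ xg, HG2_tv p c xg < 2 ^ k := by
    intro xg
    unfold HG2_tv
    rw [hk]
    exact Nat.mod_lt _ (by positivity)
  refine ⟨fun x g => hlt _, fun M hM h32 => ?_⟩
  set m := Nat.ofBits (fun i : Fin (2 ^ k) => decide ((i : ℕ) ∈ M)) with hm
  have hm1 : m < 2 ^ 2 ^ k := Nat.ofBits_lt_two_pow _
  have hm2 : ∀ w < 2 ^ k, (m / 2 ^ w % 2 = 1 ↔ w ∈ M) := by
    intro w hw
    have h1 := Nat.testBit_ofBits_lt (fun i : Fin (2 ^ k) => decide ((i : ℕ) ∈ M)) w hw
    rw [← hm, Nat.testBit_eq_decide_div_mod_eq] at h1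
    simpa using h1
  have hc3 : HG2_c3 p m = M.card := by
    unfold HG2_c3
    rw [hk, ← HG2_card (2 ^ k) (fun w => m / 2 ^ w % 2 = 1)]
    refine congrArg Finset.card (Finset.ext fun w => ?_)
    simp only [Finset.mem_filter, Finset.mem_range]
    constructor
    · rintro ⟨h1, h2⟩
      exact (hm2 w h1).1 h2
    · intro h1
      have h2 := Finset.mem_range.1 (hM h1)
      exact ⟨h2, (hm2 w h2).2 h1⟩
  have hc1 : ∀ x, HG2_c1 p c m x = ((Finset.range (4 * (n + Q + 2))).filter fun g =>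
      HG2_tv p c (Nat.pair x g) ∈ M).card := by
    intro x
    unfold HG2_c1
    rw [hn, hQ, ← HG2_card (4 * (n + Q + 2))
      (fun g => m / 2 ^ (HG2_tv p c (Nat.pair x g)) % 2 = 1)]
    exact congrArg Finset.card (Finset.filter_congr fun g _ => hm2 _ (hlt _))
  have hc2 : HG2_c2 p c m = ((Finset.range (2 ^ n)).filter fun x => 4 * (n + Q + 2) <
      4 * ((Finset.range (4 * (n + Q + 2))).filter fun g =>
        HG2_tv p c (Nat.pair x g) ∈ M).card).card := by
    unfold HG2_c2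
    rw [hn, hQ, ← HG2_card (2 ^ n) (fun x => 4 * (n + Q + 2) < 4 * HG2_c1 p c m x)]
    refine congrArg Finset.card (Finset.filter_congr fun x _ => ?_)
    rw [hc1 x]
  have := h m (by rw [hk]; exact hm1) (by rw [hc3, hk]; exact h32)
  rw [hQ, hk, hc2] at this
  exact this

theorem HG2_exists (p : ℕ) : ∃ c, HG2_chk p c := by
  set n := p.unpair.1 with hn
  set k := p.unpair.2.unpair.1 with hk
  set Q := p.unpair.2.unpair.2 with hQ
  obtain ⟨Γ, h1, h2⟩ := goodGraph_exists n k Q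
  set L := Nat.pair (2 ^ n) (4 * (n + Q + 2)) with hL
  set T : List ℕ := (List.range L).map fun i => Γ i.unpair.1 i.unpair.2 with hT
  refine ⟨Encodable.encode T, fun m hm h32 => ?_⟩
  have htv : ∀ x < 2 ^ n, ∀ g < 4 * (n + Q + 2),
      HG2_tv p (Encodable.encode T) (Nat.pair x g) = Γ x g := by
    intro x hx g hg
    have h3 : Nat.pair x g < L := (Nat.pair_lt_pair_left g hx).trans (Nat.pair_lt_pair_right _ hg)
    unfold HG2_tv
    rw [Denumerable.ofNat_encode, hT, List.getD_eq_getElem?_getD, List.getElem?_map,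
      List.getElem?_range h3]
    simp only [Option.map_some, Option.getD_some, Nat.unpair_pair]
    exact Nat.mod_eq_of_lt (h1 x g)
  set M : Finset ℕ := (Finset.range (2 ^ k)).filter fun w => m / 2 ^ w % 2 = 1 with hM
  have hMsub : M ⊆ Finset.range (2 ^ k) := Finset.filter_subset _ _
  have h4 := h2 M hMsub (by unfold HG2_c3 at h32; exact h32)
  refine le_trans (Nat.mul_le_mul_left _ ?_) h4
  unfold HG2_c2
  rw [← hn, ← hQ, ← HG2_card (2 ^ n)
    (fun x => 4 * (n + Q + 2) < 4 * HG2_c1 p (Encodable.encode T) m x)]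
  refine Finset.card_le_card fun x hx => ?_
  simp only [Finset.mem_filter, Finset.mem_range] at hx ⊢
  refine ⟨hx.1, lt_of_lt_of_le hx.2 (Nat.mul_le_mul_left _ ?_)⟩
  unfold HG2_c1
  rw [← hn, ← hQ, ← HG2_card (4 * (n + Q + 2))
      (fun g => m / 2 ^ (HG2_tv p (Encodable.encode T) (Nat.pair x g)) % 2 = 1)]
  refine Finset.card_le_card fun g hg => ?_
  simp only [Finset.mem_filter, Finset.mem_range] at hg ⊢
  refine ⟨hg.1, ?_⟩
  rw [htv x hx.1 g hg.1] at hg
  rw [hM, Finset.mem_filter, Finset.mem_range]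
  exact ⟨h1 x g, hg.2⟩

theorem goodGraph_comp : ∃ f : ℕ × ℕ → ℕ, Computable f ∧ ∀ n k Q,
    GoodGraph n k Q fun x g => f (Nat.pair n (Nat.pair k Q), Nat.pair x g) := by
  classical
  obtain ⟨f, hf, hf'⟩ := search_computable (fun p c => decide (HG2_chk p c))
    (by
      have := HG2_chk_primrec
      have h := this.decide.to_comp
      exact h) (fun p => by
      obtain ⟨c, hc⟩ := HG2_exists p
      exact ⟨c, by simpa using hc⟩)
  refine ⟨fun a => HG2_tv a.1 (f a.1) a.2, ?_, fun n k Q => ?_⟩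
  · exact HG2_tv_primrec.to_comp.comp (Computable.pair Computable.fst
      (Computable.pair (hf.comp Computable.fst) Computable.snd))
  · refine HG2_good n k Q (f (Nat.pair n (Nat.pair k Q))) ?_
    have := hf' (Nat.pair n (Nat.pair k Q))
    simpa using this

end Pool.Agent.Lib.H52K
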