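import Pool.Agent.Lib.H52K.K3c
import Pool.Agent.Lib.H52K.K5
import Pool.Agent.Lib.H52K.HG2

/-!
The loads `load f n k e m ξ t w` increase with `t`; the sum of the loads over `w < 2^k` is at most
`GG n e * 2^m` (there are at most `2^m` elements `x` with `KS x ξ ≤ m`), so at most `2^k / 32` vertices `w`
are overloaded, so by `GoodGraph` at most `2^k / 2^e` indices `i` are dangerous, at each stage `t`. Apply
`KS_ce` with `θ = pair n (pair k (pair e m))`, condition `ξ` and the enumeration of the `x` whose index is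
dangerous at stage `t`.
-/

namespace Pool.Agent.Lib.H52K

/-! ### Monotonicity in the stage -/

/-- A sum over an initial segment is at most the whole sum. -/
lemma HG3a_sum_mono (a b : ℕ) (h : a ≤ b) (u v : ℕ → ℕ) (huv : ∀ i < a, u i ≤ v i) :
    ((List.range a).map u).sum ≤ ((List.range b).map v).sum := by
  obtain ⟨c, rfl⟩ := Nat.exists_eq_add_of_le h
  rw [List.range_add, List.map_append, List.sum_append]
  refine le_trans ?_ (Nat.le_add_right _ _)
  refine List.sum_le_sum fun i hi => huv i (List.mem_range.1 hi)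

lemma HG3a_getD_eq {n s t i : ℕ} (h : s ≤ t) (hi : i < (En n 0 s).length) :
    (En n 0 s).getD i 0 = (En n 0 t).getD i 0 := by
  obtain ⟨l, hl⟩ := En_prefix n 0 h
  rw [← hl, List.getD_append _ _ _ _ hi]

lemma HG3a_load_mono (f : ℕ × ℕ → ℕ) (n k e m ξ : ℕ) {s t : ℕ} (h : s ≤ t) (w : ℕ) :
    load f n k e m ξ s w ≤ load f n k e m ξ t w := by
  unfold load
  refine HG3a_sum_mono _ _ (En_prefix n 0 h).length_le _ _ fun i hi => ?_
  rw [← HG3a_getD_eq h hi]
  split_ifs with h1 h2
  · exact le_rfl
  · exact absurd ((En_prefix m ξ h).subset h1) h2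
  · exact Nat.zero_le _
  · exact le_rfl

lemma HG3a_ovl_mono (f : ℕ × ℕ → ℕ) (n k e m ξ : ℕ) {s t : ℕ} (h : s ≤ t) (w : ℕ)
    (hw : ovl f n k e m ξ s w = true) : ovl f n k e m ξ t w = true := by
  unfold ovl at hw ⊢
  rw [decide_eq_true_eq] at hw ⊢
  exact hw.trans_le (Nat.mul_le_mul_left _ (HG3a_load_mono f n k e m ξ h w))

lemma HG3a_danger_mono (f : ℕ × ℕ → ℕ) (n k e m ξ : ℕ) {s t : ℕ} (h : s ≤ t) (i : ℕ)
    (hi : danger f n k e m ξ s i = true) : danger f n k e m ξ t i = true := by
  unfold danger at hi ⊢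
  rw [decide_eq_true_eq] at hi ⊢
  refine hi.trans_le (Nat.mul_le_mul_left _ ?_)
  rw [← List.countP_eq_length_filter, ← List.countP_eq_length_filter]
  exact List.countP_mono_left fun g _ hg => HG3a_ovl_mono f n k e m ξ h _ hg

/-! ### Counting -/

/-- The filter of a `List.range` as a `Finset`. -/
lemma HG3a_len_eq_card (N : ℕ) (p : ℕ → Bool) :
    ((List.range N).filter p).length = ((Finset.range N).filter fun g => p g = true).card := by
  rw [Finset.card_def, Finset.filter_val, Finset.range_val]
  simp [Multiset.range]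

lemma HG3a_map_sum (N : ℕ) (u : ℕ → ℕ) :
    ((List.range N).map u).sum = ∑ i ∈ Finset.range N, u i := by
  induction N with
  | zero => simp
  | succ N ih =>
    rw [List.range_succ, List.map_append, List.sum_append, ih, Finset.sum_range_succ]
    simp

lemma HG3a_load_eq (f : ℕ × ℕ → ℕ) (n k e m ξ t w : ℕ) : load f n k e m ξ t w =
    ∑ i ∈ Finset.range (En n 0 t).length, if (En n 0 t).getD i 0 ∈ En m ξ t then
      ((Finset.range (GG n e)).filter fun g => nb f n k e i g = w).card else 0 := by
  unfold load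
  rw [HG3a_map_sum]
  refine Finset.sum_congr rfl fun i _ => ?_
  split_ifs
  · rw [HG3a_len_eq_card]
    simp
  · rfl

/-- The number of indices of elements of `{KS x ξ ≤ m}` at stage `t`. -/
lemma HG3a_card_idx (n m ξ t : ℕ) : ((Finset.range (En n 0 t).length).filter fun i =>
    (En n 0 t).getD i 0 ∈ En m ξ t).card ≤ 2 ^ m := by
  have h1 : ((Finset.range (En n 0 t).length).filter fun i =>
      (En n 0 t).getD i 0 ∈ En m ξ t).card ≤ (En m ξ t).toFinset.card := by
    refine Finset.card_le_card_of_injOn (fun i => (En n 0 t).getD i 0) ?_ ?_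
    · intro i hi
      simp only [Finset.coe_filter, Finset.mem_range, Set.mem_setOf_eq] at hi
      simpa using hi.2
    · intro i hi j hj hij
      simp only [Finset.coe_filter, Finset.mem_range, Set.mem_setOf_eq] at hi hj
      simp only at hij
      rw [List.getD_eq_getElem _ _ hi.1, List.getD_eq_getElem _ _ hj.1] at hij
      exact (List.Nodup.getElem_inj_iff (En_nodup n 0 t)).1 hij
  exact h1.trans ((List.toFinset_card_le _).trans (En_length m ξ t))

lemma HG3a_load_sum (f : ℕ × ℕ → ℕ) (n k e m ξ t N : ℕ) :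
    ∑ w ∈ Finset.range N, load f n k e m ξ t w ≤ GG n e * 2 ^ m := by
  simp only [HG3a_load_eq]
  rw [Finset.sum_comm]
  have h1 : ∀ i ∈ Finset.range (En n 0 t).length,
      (∑ w ∈ Finset.range N, if (En n 0 t).getD i 0 ∈ En m ξ t then
        ((Finset.range (GG n e)).filter fun g => nb f n k e i g = w).card else 0) ≤
      if (En n 0 t).getD i 0 ∈ En m ξ t then GG n e else 0 := by
    intro i _
    split_ifs
    · simp only [Finset.card_filter]
      rw [Finset.sum_comm]
      refine (Finset.sum_le_sum (g := fun _ => 1) fun g _ => ?_).trans (by simp)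
      rw [Finset.sum_ite_eq]
      split_ifs <;> simp
    · simp
  refine (Finset.sum_le_sum h1).trans ?_
  rw [← Finset.sum_filter, Finset.sum_const, smul_eq_mul, mul_comm]
  exact Nat.mul_le_mul_left _ (HG3a_card_idx n m ξ t)

lemma HG3a_GG_pos (n e : ℕ) : 0 < GG n e := by
  unfold GG
  positivity

/-- At most `2 ^ k / 32` vertices are overloaded. -/
lemma HG3a_card_ovl (f : ℕ × ℕ → ℕ) (n k e m ξ t : ℕ) :
    32 * ((Finset.range (2 ^ k)).filter fun w => ovl f n k e m ξ t w = true).card ≤ 2 ^ k := by
  set M := (Finset.range (2 ^ k)).filter fun w => ovl f n k e m ξ t w = true with hM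
  have h1 : 32 * GG n e * 2 ^ m * M.card ≤ 2 ^ k * ∑ w ∈ M, load f n k e m ξ t w := by
    rw [Finset.mul_sum, mul_comm, ← smul_eq_mul, ← Finset.sum_const]
    refine Finset.sum_le_sum fun w hw => ?_
    have h2 := (Finset.mem_filter.1 hw).2
    unfold ovl at h2
    rw [decide_eq_true_eq] at h2
    exact h2.le
  have h2 : ∑ w ∈ M, load f n k e m ξ t w ≤ GG n e * 2 ^ m :=
    (Finset.sum_le_sum_of_subset (Finset.filter_subset _ _)).trans
      (HG3a_load_sum f n k e m ξ t (2 ^ k))
  have h3 : (GG n e * 2 ^ m) * (32 * M.card) ≤ (GG n e * 2 ^ m) * 2 ^ k := by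
    calc (GG n e * 2 ^ m) * (32 * M.card) = 32 * GG n e * 2 ^ m * M.card := by ring
      _ ≤ 2 ^ k * ∑ w ∈ M, load f n k e m ξ t w := h1
      _ ≤ 2 ^ k * (GG n e * 2 ^ m) := Nat.mul_le_mul_left _ h2
      _ = (GG n e * 2 ^ m) * 2 ^ k := by ring
  exact Nat.le_of_mul_le_mul_left h3 (Nat.mul_pos (HG3a_GG_pos n e) (by positivity))

/-- At most `2 ^ k / 2 ^ e` indices are dangerous. -/
lemma HG3a_card_danger (f : ℕ × ℕ → ℕ)
    (hgood : ∀ n k Q, GoodGraph n k Q fun x g => f (Nat.pair n (Nat.pair k Q), Nat.pair x g))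
    (n k e m ξ t : ℕ) : ((Finset.range (2 ^ n)).filter fun i =>
      danger f n k e m ξ t i = true).card ≤ 2 ^ (k - e) := by
  obtain ⟨hlt, hM⟩ := hgood n k (2 ^ e)
  have h1 := hM ((Finset.range (2 ^ k)).filter fun w => ovl f n k e m ξ t w = true)
    (Finset.filter_subset _ _) (HG3a_card_ovl f n k e m ξ t)
  have h2 : ((Finset.range (2 ^ n)).filter fun i => danger f n k e m ξ t i = true) ⊆
      (Finset.range (2 ^ n)).filter fun x => 4 * (n + 2 ^ e + 2) <
        4 * ((Finset.range (4 * (n + 2 ^ e + 2))).filter fun g =>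
          f (Nat.pair n (Nat.pair k (2 ^ e)), Nat.pair x g) ∈
            (Finset.range (2 ^ k)).filter fun w => ovl f n k e m ξ t w = true).card := by
    intro i hi
    rw [Finset.mem_filter] at hi ⊢
    refine ⟨hi.1, ?_⟩
    have h3 := hi.2
    unfold danger at h3
    rw [decide_eq_true_eq, HG3a_len_eq_card] at h3
    refine h3.trans_le (Nat.mul_le_mul_left _ (Finset.card_le_card ?_))
    intro g hg
    rw [Finset.mem_filter] at hg ⊢
    refine ⟨hg.1, ?_⟩
    rw [Finset.mem_filter]
    exact ⟨Finset.mem_range.2 (hlt i g), hg.2⟩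
  have h4 : 2 ^ e * ((Finset.range (2 ^ n)).filter fun i =>
      danger f n k e m ξ t i = true).card ≤ 2 ^ k :=
    (Nat.mul_le_mul_left _ (Finset.card_le_card h2)).trans h1
  rcases le_or_gt e k with hek | hek
  · have h5 : 2 ^ k = 2 ^ e * 2 ^ (k - e) := by rw [← pow_add]; congr 1; omega
    rw [h5] at h4
    exact Nat.le_of_mul_le_mul_left h4 (by positivity)
  · have h5 : (2 : ℕ) ^ k < 2 ^ e := Nat.pow_lt_pow_right (by norm_num) hek
    have h6 : ((Finset.range (2 ^ n)).filter fun i =>
      danger f n k e m ξ t i = true).card = 0 := by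
      by_contra h7
      have h8 : 1 ≤ ((Finset.range (2 ^ n)).filter fun i =>
        danger f n k e m ξ t i = true).card := Nat.one_le_iff_ne_zero.2 h7
      have h9 := Nat.mul_le_mul_left (2 ^ e) h8
      omega
    rw [h6]
    exact Nat.zero_le _

/-! ### Computability -/

section comp

variable {α : Type*} [Primcodable α]

lemma HG3a_add {f g : α → ℕ} (hf : Computable f) (hg : Computable g) :
    Computable fun a => f a + g a := Primrec.nat_add.to_comp.comp hf hg

lemma HG3a_mul {f g : α → ℕ} (hf : Computable f) (hg : Computable g) :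
    Computable fun a => f a * g a := Primrec.nat_mul.to_comp.comp hf hg

lemma HG3a_pow {f g : α → ℕ} (hf : Computable f) (hg : Computable g) :
    Computable fun a => f a ^ g a := pow_primrec.to_comp.comp hf hg

lemma HG3a_pair {f g : α → ℕ} (hf : Computable f) (hg : Computable g) :
    Computable fun a => Nat.pair (f a) (g a) := Primrec₂.natPair.to_comp.comp hf hg

lemma HG3a_lt {f g : α → ℕ} (hf : Computable f) (hg : Computable g) :
    Computable fun a => decide (f a < g a) := Primrec.nat_lt.decide.to_comp.comp hf hg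

lemma HG3a_eq {f g : α → ℕ} (hf : Computable f) (hg : Computable g) :
    Computable fun a => decide (f a = g a) := Primrec.eq.decide.to_comp.comp hf hg

lemma HG3a_mem {f : α → ℕ} {g : α → List ℕ} (hf : Computable f) (hg : Computable g) :
    Computable fun a => decide (f a ∈ g a) := mem_primrec.decide.to_comp.comp hf hg

lemma HG3a_En {f g h : α → ℕ} (hf : Computable f) (hg : Computable g) (hh : Computable h) :
    Computable fun a => En (f a) (g a) (h a) := En_computable.comp ((hf.pair hg).pair hh)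

lemma HG3a_range {f : α → ℕ} (hf : Computable f) : Computable fun a => List.range (f a) :=
  Primrec.list_range.to_comp.comp hf

lemma HG3a_length {β : Type*} [Primcodable β] {f : α → List β} (hf : Computable f) :
    Computable fun a => (f a).length := Primrec.list_length.to_comp.comp hf

lemma HG3a_getD {f : α → List ℕ} {g : α → ℕ} (hf : Computable f) (hg : Computable g) :
    Computable fun a => (f a).getD (g a) 0 := (Primrec.list_getD 0).to_comp.comp hf hg

lemma HG3a_GG {n e : α → ℕ} (hn : Computable n) (he : Computable e) :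
    Computable fun a => GG (n a) (e a) := by
  unfold GG
  exact HG3a_mul (Computable.const 4)
    (HG3a_add (HG3a_add hn (HG3a_pow (Computable.const 2) he)) (Computable.const 2))

lemma HG3a_nb {f : ℕ × ℕ → ℕ} (hf : Computable f) {n k e i g : α → ℕ} (hn : Computable n)
    (hk : Computable k) (he : Computable e) (hi : Computable i) (hg : Computable g) :
    Computable fun a => nb f (n a) (k a) (e a) (i a) (g a) := by
  unfold nb
  exact hf.comp ((HG3a_pair hn (HG3a_pair hk (HG3a_pow (Computable.const 2) he))).pair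
    (HG3a_pair hi hg))

lemma HG3a_load {f : ℕ × ℕ → ℕ} (hf : Computable f) {n k e m ξ t w : α → ℕ}
    (hn : Computable n) (hk : Computable k) (he : Computable e) (hm : Computable m)
    (hξ : Computable ξ) (ht : Computable t) (hw : Computable w) :
    Computable fun a => load f (n a) (k a) (e a) (m a) (ξ a) (t a) (w a) := by
  unfold load
  have h0 : Computable fun a => En (n a) 0 (t a) := HG3a_En hn (Computable.const 0) ht
  refine sum_primrec.to_comp.comp (map_computable (HG3a_range (HG3a_length h0)) ?_)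
  change Computable fun p : α × ℕ => if (En (n p.1) 0 (t p.1)).getD p.2 0 ∈
    En (m p.1) (ξ p.1) (t p.1) then ((List.range (GG (n p.1) (e p.1))).filter fun g =>
      nb f (n p.1) (k p.1) (e p.1) p.2 g = w p.1).length else 0
  have h1 : Computable fun p : α × ℕ => ((List.range (GG (n p.1) (e p.1))).filter fun g =>
      nb f (n p.1) (k p.1) (e p.1) p.2 g = w p.1).length := by
    refine HG3a_length (filter_computable (HG3a_range (HG3a_GG (hn.comp Computable.fst)
      (he.comp Computable.fst))) ?_)
    change Computable fun q : (α × ℕ) × ℕ =>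
      decide (nb f (n q.1.1) (k q.1.1) (e q.1.1) q.1.2 q.2 = w q.1.1)
    have hα : Computable fun q : (α × ℕ) × ℕ => q.1.1 := Computable.fst.comp Computable.fst
    exact HG3a_eq (HG3a_nb hf (hn.comp hα) (hk.comp hα) (he.comp hα)
      (Computable.snd.comp Computable.fst) Computable.snd) (hw.comp hα)
  refine (Computable.cond (HG3a_mem (HG3a_getD (h0.comp Computable.fst) Computable.snd)
    (HG3a_En (hm.comp Computable.fst) (hξ.comp Computable.fst) (ht.comp Computable.fst))) h1
    (Computable.const 0)).of_eq fun p => ?_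
  exact Bool.cond_decide _ _ _

lemma HG3a_ovl {f : ℕ × ℕ → ℕ} (hf : Computable f) {n k e m ξ t w : α → ℕ}
    (hn : Computable n) (hk : Computable k) (he : Computable e) (hm : Computable m)
    (hξ : Computable ξ) (ht : Computable t) (hw : Computable w) :
    Computable fun a => ovl f (n a) (k a) (e a) (m a) (ξ a) (t a) (w a) := by
  unfold ovl
  exact HG3a_lt (HG3a_mul (HG3a_mul (Computable.const 32) (HG3a_GG hn he))
    (HG3a_pow (Computable.const 2) hm)) (HG3a_mul (HG3a_pow (Computable.const 2) hk)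
      (HG3a_load hf hn hk he hm hξ ht hw))

lemma HG3a_danger {f : ℕ × ℕ → ℕ} (hf : Computable f) {n k e m ξ t i : α → ℕ}
    (hn : Computable n) (hk : Computable k) (he : Computable e) (hm : Computable m)
    (hξ : Computable ξ) (ht : Computable t) (hi : Computable i) :
    Computable fun a => danger f (n a) (k a) (e a) (m a) (ξ a) (t a) (i a) := by
  unfold danger
  refine HG3a_lt (HG3a_GG hn he) (HG3a_mul (Computable.const 4) (HG3a_length
    (filter_computable (HG3a_range (HG3a_GG hn he)) ?_)))
  change Computable fun q : α × ℕ => ovl f (n q.1) (k q.1) (e q.1) (m q.1) (ξ q.1) (t q.1)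
    (nb f (n q.1) (k q.1) (e q.1) (i q.1) q.2)
  have hα : Computable fun q : α × ℕ => q.1 := Computable.fst
  exact HG3a_ovl hf (hn.comp hα) (hk.comp hα) (he.comp hα) (hm.comp hα) (hξ.comp hα)
    (ht.comp hα) (HG3a_nb hf (hn.comp hα) (hk.comp hα) (he.comp hα) (hi.comp hα)
      Computable.snd)

end comp

/-- `x` is seen at stage `t` with a dangerous index; `θ = pair n (pair k (pair e m))`. -/
def HG3aR (f : ℕ × ℕ → ℕ) (p : (ℕ × ℕ) × (ℕ × ℕ)) : Bool :=
  decide (0 < ((List.range (En p.1.1.unpair.1 0 p.2.2).length).filter fun i =>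
    decide ((En p.1.1.unpair.1 0 p.2.2).getD i 0 = p.2.1) &&
      danger f p.1.1.unpair.1 p.1.1.unpair.2.unpair.1 p.1.1.unpair.2.unpair.2.unpair.1
        p.1.1.unpair.2.unpair.2.unpair.2 p.1.2 p.2.2 i).length)

lemma HG3aR_computable {f : ℕ × ℕ → ℕ} (hf : Computable f) : Computable (HG3aR f) := by
  have u1 : Computable fun z : ℕ => z.unpair.1 := Computable.fst.comp Computable.unpair
  have u2 : Computable fun z : ℕ => z.unpair.2 := Computable.snd.comp Computable.unpair
  have hθ : Computable fun p : (ℕ × ℕ) × (ℕ × ℕ) => p.1.1 := Computable.fst.comp Computable.fst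
  have hξ : Computable fun p : (ℕ × ℕ) × (ℕ × ℕ) => p.1.2 := Computable.snd.comp Computable.fst
  have hx : Computable fun p : (ℕ × ℕ) × (ℕ × ℕ) => p.2.1 := Computable.fst.comp Computable.snd
  have ht : Computable fun p : (ℕ × ℕ) × (ℕ × ℕ) => p.2.2 := Computable.snd.comp Computable.snd
  have hn : Computable fun p : (ℕ × ℕ) × (ℕ × ℕ) => p.1.1.unpair.1 := u1.comp hθ
  have hr := u2.comp hθ
  have hk : Computable fun p : (ℕ × ℕ) × (ℕ × ℕ) => p.1.1.unpair.2.unpair.1 := u1.comp hr
  have hr' := u2.comp hr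
  have he : Computable fun p : (ℕ × ℕ) × (ℕ × ℕ) => p.1.1.unpair.2.unpair.2.unpair.1 :=
    u1.comp hr'
  have hm : Computable fun p : (ℕ × ℕ) × (ℕ × ℕ) => p.1.1.unpair.2.unpair.2.unpair.2 :=
    u2.comp hr'
  have h0 : Computable fun p : (ℕ × ℕ) × (ℕ × ℕ) => En p.1.1.unpair.1 0 p.2.2 :=
    HG3a_En hn (Computable.const 0) ht
  refine HG3a_lt (Computable.const 0) (HG3a_length (filter_computable
    (HG3a_range (HG3a_length h0)) ?_))
  have hα : Computable fun q : ((ℕ × ℕ) × (ℕ × ℕ)) × ℕ => q.1 := Computable.fst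
  exact Primrec.and.to_comp.comp
    (HG3a_eq (HG3a_getD (h0.comp hα) Computable.snd) (hx.comp hα))
    (HG3a_danger hf (hn.comp hα) (hk.comp hα) (he.comp hα) (hm.comp hα) (hξ.comp hα)
      (ht.comp hα) Computable.snd)

lemma HG3aR_iff (f : ℕ × ℕ → ℕ) (n k e m ξ x t : ℕ) :
    HG3aR f ((Nat.pair n (Nat.pair k (Nat.pair e m)), ξ), (x, t)) = true ↔
      ∃ i < (En n 0 t).length, (En n 0 t).getD i 0 = x ∧ danger f n k e m ξ t i = true := by
  unfold HG3aR
  rw [decide_eq_true_eq]
  simp only [Nat.unpair_pair, List.length_pos_iff_exists_mem, List.mem_filter, List.mem_range,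
    Bool.and_eq_true, decide_eq_true_eq]

/-- If `i` becomes dangerous, then the `i`-th element `x` has small complexity given `ξ`. -/
theorem danger_KS (f : ℕ × ℕ → ℕ) (hf : Computable f)
    (hgood : ∀ n k Q, GoodGraph n k Q fun x g => f (Nat.pair n (Nat.pair k Q), Nat.pair x g)) :
    ∃ C, ∀ n k e m ξ t i x, (En n 0 t)[i]? = some x → danger f n k e m ξ t i = true →
      KS x ξ ≤ (k - e) + 2 * Nat.size (Nat.pair n (Nat.pair k (Nat.pair e m))) + C := by
  obtain ⟨C, hC⟩ := KS_ce (HG3aR f) (HG3aR_computable hf)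
  refine ⟨C, fun n k e m ξ t i x hx hi => ?_⟩
  refine hC (Nat.pair n (Nat.pair k (Nat.pair e m))) ξ (k - e) ?_ x t ?_
  · intro S hS
    choose! τ hτ using hS
    set T := S.sup τ with hT
    refine le_trans ?_ (HG3a_card_danger f hgood n k e m ξ T)
    have h1 : ∀ y ∈ S, ∃ j < (En n 0 T).length, (En n 0 T).getD j 0 = y ∧
        danger f n k e m ξ T j = true := by
      intro y hy
      obtain ⟨j, hj, hjy, hd⟩ := (HG3aR_iff f n k e m ξ y (τ y)).1 (hτ y hy)
      have hle : τ y ≤ T := Finset.le_sup hy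
      refine ⟨j, hj.trans_le (En_prefix n 0 hle).length_le, ?_,
        HG3a_danger_mono f n k e m ξ hle j hd⟩
      rw [← HG3a_getD_eq hle hj, hjy]
    choose! idx hidx using h1
    refine Finset.card_le_card_of_injOn idx ?_ ?_
    · intro y hy
      have h2 := hidx y hy
      simp only [Finset.coe_filter, Finset.mem_range, Set.mem_setOf_eq]
      exact ⟨h2.1.trans_le (En_length n 0 T), h2.2.2⟩
    · intro y hy z hz hyz
      have h2 := (hidx y hy).2.1
      have h3 := (hidx z hz).2.1
      rw [← h2, ← h3, hyz]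
  · rw [HG3aR_iff]
    obtain ⟨h1, h2⟩ := List.getElem?_eq_some_iff.1 hx
    exact ⟨i, h1, by rw [List.getD_eq_getElem _ _ h1, h2], hi⟩

end Pool.Agent.Lib.H52K
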