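import Pool.Agent.Lib.H52K.K3c
import Pool.Agent.Lib.H52K.K5
import Pool.Agent.Lib.H52K.HG2

/-!
Apply `KS_ce` with `θ = pair n (pair k (pair e m))`, condition `pair w ξ`, to the set of all `x'` which at
some stage `t` occur as `En n 0 t`, index `i`, are in `En m ξ t` and have `w` among their neighbours, while
`ovl f n k e m ξ t w = false`: there are at most `32 * GG n e * 2^m / 2^k ≤ 2^(m + size (GG n e) + 5 - k)` of them
(and if `k > m + size (GG n e) + 5` there are none, a contradiction).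
-/

namespace Pool.Agent.Lib.H52K

/-- parameters of the enumeration in `fiber_KS` -/
abbrev HG3bA : Type := (ℕ × ℕ) × (ℕ × ℕ)

/-- `n` -/
def HG3bn (p : HG3bA) : ℕ := p.1.1.unpair.1
/-- `k` -/
def HG3bk (p : HG3bA) : ℕ := p.1.1.unpair.2.unpair.1
/-- `e` -/
def HG3be (p : HG3bA) : ℕ := p.1.1.unpair.2.unpair.2.unpair.1
/-- `m` -/
def HG3bm (p : HG3bA) : ℕ := p.1.1.unpair.2.unpair.2.unpair.2
/-- `w` -/
def HG3bw (p : HG3bA) : ℕ := p.1.2.unpair.1
/-- `ξ` -/
def HG3bξ (p : HG3bA) : ℕ := p.1.2.unpair.2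

/-- the number of `g` such that `w` is the `g`-th neighbour of `i` -/
def HG3bc (f : ℕ × ℕ → ℕ) (p : HG3bA) (i : ℕ) : ℕ :=
  ((List.range (GG (HG3bn p) (HG3be p))).filter fun g =>
    decide (nb f (HG3bn p) (HG3bk p) (HG3be p) i g = HG3bw p)).length

/-- the relation: the first component of the second argument is an element `x` with neighbour `w` -/
def HG3bR (f : ℕ × ℕ → ℕ) (p : HG3bA) : Bool :=
  decide (0 < ((List.range (En (HG3bn p) 0 p.2.2).length).filter fun i =>
    decide ((En (HG3bn p) 0 p.2.2)[i]? = some p.2.1) && decide (0 < HG3bc f p i)).length) &&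
    decide (p.2.1 ∈ En (HG3bm p) (HG3bξ p) p.2.2)

theorem HG3b_n : Primrec HG3bn :=
  Primrec.fst.comp (Primrec.unpair.comp (Primrec.fst.comp Primrec.fst))

theorem HG3b_2 : Primrec fun p : HG3bA => p.1.1.unpair.2 :=
  Primrec.snd.comp (Primrec.unpair.comp (Primrec.fst.comp Primrec.fst))

theorem HG3b_k : Primrec HG3bk := Primrec.fst.comp (Primrec.unpair.comp HG3b_2)

theorem HG3b_3 : Primrec fun p : HG3bA => p.1.1.unpair.2.unpair.2 :=
  Primrec.snd.comp (Primrec.unpair.comp HG3b_2)

theorem HG3b_e : Primrec HG3be := Primrec.fst.comp (Primrec.unpair.comp HG3b_3)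

theorem HG3b_m : Primrec HG3bm := Primrec.snd.comp (Primrec.unpair.comp HG3b_3)

theorem HG3b_w : Primrec HG3bw :=
  Primrec.fst.comp (Primrec.unpair.comp (Primrec.snd.comp Primrec.fst))

theorem HG3b_ξ : Primrec HG3bξ :=
  Primrec.snd.comp (Primrec.unpair.comp (Primrec.snd.comp Primrec.fst))

theorem HG3b_GG : Primrec fun p : HG3bA => GG (HG3bn p) (HG3be p) := by
  unfold GG
  exact Primrec.nat_mul.comp (Primrec.const 4) (Primrec.nat_add.comp
    (Primrec.nat_add.comp HG3b_n (pow_primrec.comp (Primrec.const 2) HG3b_e)) (Primrec.const 2))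

theorem HG3b_nb (f : ℕ × ℕ → ℕ) (hf : Computable f) : Computable₂ fun (q : HG3bA × ℕ) (g : ℕ) =>
    decide (nb f (HG3bn q.1) (HG3bk q.1) (HG3be q.1) q.2 g = HG3bw q.1) := by
  have h1 : Computable fun q : (HG3bA × ℕ) × ℕ =>
      nb f (HG3bn q.1.1) (HG3bk q.1.1) (HG3be q.1.1) q.1.2 q.2 := by
    unfold nb
    refine hf.comp (Computable.pair (Primrec.to_comp ?_) (Primrec.to_comp ?_))
    · have h0 : Primrec fun q : (HG3bA × ℕ) × ℕ => q.1.1 := Primrec.fst.comp Primrec.fst
      exact Primrec₂.natPair.comp (HG3b_n.comp h0) (Primrec₂.natPair.comp (HG3b_k.comp h0)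
        (pow_primrec.comp (Primrec.const 2) (HG3b_e.comp h0)))
    · exact Primrec₂.natPair.comp (Primrec.snd.comp Primrec.fst) Primrec.snd
  have h2 : Computable fun q : (HG3bA × ℕ) × ℕ => HG3bw q.1.1 :=
    (HG3b_w.comp (Primrec.fst.comp Primrec.fst)).to_comp
  have h3 : Computable₂ fun a b : ℕ => decide (a = b) := (Primrec.eq (α := ℕ)).decide.to_comp
  exact (h3.comp h1 h2).to₂

theorem HG3b_c (f : ℕ × ℕ → ℕ) (hf : Computable f) :
    Computable fun q : HG3bA × ℕ => HG3bc f q.1 q.2 := by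
  unfold HG3bc
  refine Computable.list_length.comp ?_
  exact filter_computable (f := fun q : HG3bA × ℕ => List.range (GG (HG3bn q.1) (HG3be q.1)))
    ((Primrec.list_range.comp (HG3b_GG.comp Primrec.fst)).to_comp) (HG3b_nb f hf)

theorem HG3b_pos : Computable fun a : ℕ => decide (0 < a) :=
  ((Primrec.nat_lt.comp (Primrec.const 0) Primrec.id).decide).to_comp

theorem HG3b_E : Computable fun p : HG3bA => En (HG3bn p) 0 p.2.2 := by
  have h0 : Primrec fun p : HG3bA => ((HG3bn p, 0), p.2.2) :=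
    (HG3b_n.pair (Primrec.const 0)).pair (Primrec.snd.comp Primrec.snd)
  have h1 := h0.to_comp
  have h2 := En_computable.comp h1
  exact h2

theorem HG3b_E2 : Computable fun p : HG3bA => En (HG3bm p) (HG3bξ p) p.2.2 := by
  have h0 : Primrec fun p : HG3bA => ((HG3bm p, HG3bξ p), p.2.2) :=
    (HG3b_m.pair HG3b_ξ).pair (Primrec.snd.comp Primrec.snd)
  have h1 := h0.to_comp
  have h2 := En_computable.comp h1
  exact h2

/-- first test -/
def HG3bt (p : HG3bA) (i : ℕ) : Bool := decide ((En (HG3bn p) 0 p.2.2)[i]? = some p.2.1)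

theorem HG3b_t : Computable₂ HG3bt := by
  have e1 : Computable fun q : HG3bA × ℕ => (En (HG3bn q.1) 0 q.1.2.2)[q.2]? :=
    (Primrec.list_getElem?.to_comp).comp (HG3b_E.comp Computable.fst) Computable.snd
  have e2 : Computable fun q : HG3bA × ℕ => (some q.1.2.1 : Option ℕ) :=
    (Primrec.option_some.comp (Primrec.fst.comp (Primrec.snd.comp Primrec.fst))).to_comp
  have e3 : Computable₂ fun a b : Option ℕ => decide (a = b) :=
    (Primrec.eq (α := Option ℕ)).decide.to_comp
  exact (e3.comp e1 e2).to₂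

/-- second test -/
def HG3bs (f : ℕ × ℕ → ℕ) (p : HG3bA) (i : ℕ) : Bool := decide (0 < HG3bc f p i)

theorem HG3b_s (f : ℕ × ℕ → ℕ) (hf : Computable f) : Computable₂ (HG3bs f) := by
  have e5 : Computable fun q : HG3bA × ℕ => decide (0 < HG3bc f q.1 q.2) :=
    HG3b_pos.comp (HG3b_c f hf)
  exact e5.to₂

/-- third test -/
def HG3bu (p : HG3bA) : Bool := decide (p.2.1 ∈ En (HG3bm p) (HG3bξ p) p.2.2)

theorem HG3b_u : Computable HG3bu := by
  have e1 : Computable₂ fun (a : ℕ) (l : List ℕ) => decide (a ∈ l) :=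
    (mem_primrec (α := ℕ)).decide.to_comp
  exact e1.comp (Primrec.fst.comp Primrec.snd).to_comp HG3b_E2

/-- the list of the indices -/
def HG3bl (f : ℕ × ℕ → ℕ) (p : HG3bA) : List ℕ :=
  (List.range (En (HG3bn p) 0 p.2.2).length).filter fun i => HG3bt p i && HG3bs f p i

theorem HG3b_and : Computable₂ and := Primrec.and.to_comp

theorem HG3b_l (f : ℕ × ℕ → ℕ) (hf : Computable f) : Computable (HG3bl f) := by
  have h0 : Computable fun q : HG3bA × ℕ => HG3bt q.1 q.2 && HG3bs f q.1 q.2 :=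
    HG3b_and.comp HG3b_t (HG3b_s f hf)
  have h1 : Computable₂ fun (p : HG3bA) (i : ℕ) => HG3bt p i && HG3bs f p i := h0.to₂
  have h2 : Computable fun p : HG3bA => List.range (En (HG3bn p) 0 p.2.2).length :=
    Primrec.list_range.to_comp.comp (Computable.list_length.comp HG3b_E)
  exact filter_computable h2 h1

theorem HG3b_R (f : ℕ × ℕ → ℕ) (hf : Computable f) : Computable (HG3bR f) := by
  have h1 : Computable fun p : HG3bA => decide (0 < (HG3bl f p).length) :=
    HG3b_pos.comp (Computable.list_length.comp (HG3b_l f hf))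
  have h2 : Computable fun p : HG3bA => decide (0 < (HG3bl f p).length) && HG3bu p :=
    HG3b_and.comp h1 HG3b_u
  exact h2.of_eq fun p => rfl

theorem HG3b_R_iff (f : ℕ × ℕ → ℕ) (n k e m w ξ x t : ℕ) :
    HG3bR f ((Nat.pair n (Nat.pair k (Nat.pair e m)), Nat.pair w ξ), (x, t)) = true ↔
      (∃ i, (En n 0 t)[i]? = some x ∧
        0 < ((List.range (GG n e)).filter fun g => nb f n k e i g = w).length) ∧
      x ∈ En m ξ t := by
  unfold HG3bR
  rw [Bool.and_eq_true, decide_eq_true_iff, decide_eq_true_iff, List.length_pos_iff_exists_mem]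
  simp only [HG3bn, HG3bm, HG3bξ, Nat.unpair_pair, List.mem_filter, List.mem_range,
    Bool.and_eq_true, decide_eq_true_iff, HG3bc, HG3bk, HG3be, HG3bw]
  constructor
  · rintro ⟨⟨i, -, h1, h2⟩, h3⟩
    exact ⟨⟨i, h1, h2⟩, h3⟩
  · rintro ⟨⟨i, h1, h2⟩, h3⟩
    refine ⟨⟨i, ?_, h1, h2⟩, h3⟩
    exact (List.getElem?_eq_some_iff.1 h1).1

theorem HG3b_getElem {k z s t i x : ℕ} (h : s ≤ t) (hx : (En k z s)[i]? = some x) :
    (En k z t)[i]? = some x := by
  obtain ⟨l, hl⟩ := En_prefix k z h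
  rw [← hl]
  have h1 := (List.getElem?_eq_some_iff.1 hx).1
  rw [List.getElem?_append_left h1]
  exact hx

theorem HG3b_count (f : ℕ × ℕ → ℕ) (n k e m ξ w : ℕ)
    (hov : ∀ t', ovl f n k e m ξ t' w = false) (S : Finset ℕ)
    (hS : ∀ x ∈ S, ∃ t, HG3bR f ((Nat.pair n (Nat.pair k (Nat.pair e m)), Nat.pair w ξ), (x, t))
      = true) :
    2 ^ k * S.card ≤ 32 * GG n e * 2 ^ m := by
  classical
  have h1 : ∀ x ∈ S, ∃ t, (∃ i, (En n 0 t)[i]? = some x ∧
        0 < ((List.range (GG n e)).filter fun g => nb f n k e i g = w).length) ∧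
      x ∈ En m ξ t := fun x hx => by
    obtain ⟨t, ht⟩ := hS x hx
    exact ⟨t, (HG3b_R_iff f n k e m w ξ x t).1 ht⟩
  choose! tt htt using h1
  set T := S.sup tt with hT
  have h2 : ∀ x ∈ S, ∃ i, (En n 0 T)[i]? = some x ∧
      0 < ((List.range (GG n e)).filter fun g => nb f n k e i g = w).length := by
    intro x hx
    obtain ⟨⟨i, hi1, hi2⟩, -⟩ := htt x hx
    exact ⟨i, HG3b_getElem (Finset.le_sup hx) hi1, hi2⟩
  have h3 : ∀ x ∈ S, x ∈ En m ξ T := fun x hx =>
    (En_prefix m ξ (Finset.le_sup hx)).subset (htt x hx).2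
  choose! ii hii using h2
  have h4 : S.card ≤ load f n k e m ξ T w := by
    have hinj : Set.InjOn ii (S : Set ℕ) := by
      intro x hx y hy hxy
      have h5 := (hii x hx).1
      have h6 := (hii y hy).1
      rw [hxy, h6] at h5
      exact (Option.some.inj h5).symm
    have h5 : S.card = (S.image ii).card := (Finset.card_image_of_injOn hinj).symm
    have h6 : S.image ii ⊆ Finset.range (En n 0 T).length := by
      intro i hi
      obtain ⟨x, hx, rfl⟩ := Finset.mem_image.1 hi
      exact Finset.mem_range.2 (List.getElem?_eq_some_iff.1 (hii x hx).1).1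
    unfold load
    set F : ℕ → ℕ := fun i => if (En n 0 T).getD i 0 ∈ En m ξ T then
      ((List.range (GG n e)).filter fun g => nb f n k e i g = w).length else 0 with hF
    have h7 : ((List.range (En n 0 T).length).map F).sum =
        ∑ i ∈ Finset.range (En n 0 T).length, F i := by
      rw [Finset.sum_range, ← List.sum_ofFn, List.ofFn_eq_map]
      congr 1
      rw [← List.map_coe_finRange_eq_range, List.map_map]
      rfl
    rw [h7, h5]
    calc (S.image ii).card = ∑ i ∈ S.image ii, 1 := by simp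
      _ ≤ ∑ i ∈ S.image ii, F i := by
          refine Finset.sum_le_sum fun i hi => ?_
          obtain ⟨x, hx, rfl⟩ := Finset.mem_image.1 hi
          have h8 := (hii x hx).1
          have h9 : (En n 0 T).getD (ii x) 0 = x := by
            rw [List.getD_eq_getElem?_getD, h8]
            rfl
          rw [hF]
          simp only [h9]
          rw [if_pos (h3 x hx)]
          exact (hii x hx).2
      _ ≤ _ := Finset.sum_le_sum_of_subset h6
  have h5 := hov T
  unfold ovl at h5
  rw [decide_eq_false_iff_not, not_lt] at h5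
  exact (Nat.mul_le_mul_left _ h4).trans h5

/-- If `w` is a neighbour of the `i`-th element `x` and is never overloaded, then `w` helps to
describe `x`. -/
theorem fiber_KS (f : ℕ × ℕ → ℕ) (hf : Computable f) :
    ∃ C, ∀ n k e m ξ w x i g t, (En n 0 t)[i]? = some x → x ∈ En m ξ t → g < GG n e →
      nb f n k e i g = w → (∀ t', ovl f n k e m ξ t' w = false) →
      KS x (Nat.pair w ξ) + k ≤ m + Nat.size (GG n e) + 5 +
        2 * Nat.size (Nat.pair n (Nat.pair k (Nat.pair e m))) + C := by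
  obtain ⟨C, hC⟩ := KS_ce (HG3bR f) (HG3b_R f hf)
  refine ⟨C, ?_⟩
  intro n k e m ξ w x i g t hx hxm hg hw hov
  have hR : HG3bR f ((Nat.pair n (Nat.pair k (Nat.pair e m)), Nat.pair w ξ), (x, t)) = true := by
    rw [HG3b_R_iff]
    refine ⟨⟨i, hx, ?_⟩, hxm⟩
    rw [List.length_pos_iff_exists_mem]
    exact ⟨g, List.mem_filter.2 ⟨List.mem_range.2 hg, by simpa using hw⟩⟩
  have hb : ∀ S : Finset ℕ, (∀ x ∈ S, ∃ t,
      HG3bR f ((Nat.pair n (Nat.pair k (Nat.pair e m)), Nat.pair w ξ), (x, t)) = true) →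
      2 ^ k * S.card ≤ 2 ^ (m + Nat.size (GG n e) + 5) := by
    intro S hS
    refine (HG3b_count f n k e m ξ w hov S hS).trans ?_
    have h1 : GG n e ≤ 2 ^ Nat.size (GG n e) := (Nat.lt_size_self _).le
    calc 32 * GG n e * 2 ^ m ≤ 32 * 2 ^ Nat.size (GG n e) * 2 ^ m := by gcongr
      _ = 2 ^ (m + Nat.size (GG n e) + 5) := by
          rw [pow_add, pow_add]
          ring
  have hk : k ≤ m + Nat.size (GG n e) + 5 := by
    have h1 := hb {x} (fun y hy => by rw [Finset.mem_singleton.1 hy]; exact ⟨t, hR⟩)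
    rw [Finset.card_singleton, mul_one] at h1
    exact (Nat.pow_le_pow_iff_right (by norm_num)).1 h1
  have h2 := hC (Nat.pair n (Nat.pair k (Nat.pair e m))) (Nat.pair w ξ)
    (m + Nat.size (GG n e) + 5 - k) (fun S hS => by
      have h3 := hb S hS
      have h4 : (2 : ℕ) ^ (m + Nat.size (GG n e) + 5) =
          2 ^ k * 2 ^ (m + Nat.size (GG n e) + 5 - k) := by
        rw [← pow_add]
        congr 1
        omega
      rw [h4] at h3
      exact Nat.le_of_mul_le_mul_left h3 (by positivity)) x t hR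
  omega

end Pool.Agent.Lib.H52K
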