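import Pool.Agent.Lib.H52K.T
import Pool.Agent.Lib.H52K.HG3a
import Pool.Agent.Lib.H52K.HG3b

/-!
Let `n = KS x 0`, `i` the index of `x` in `En n 0`, `m_j = KS x ξ_j` (`≤ ν + C`), `e = c (size ν + 1)` for a
large constant `c` such that `danger_KS` contradicts `k ≤ KS x ξ_j` (note `size e ≤ size c + size ν + 1`). So
`i` is never dangerous for any `ξ_j`; the overloaded sets increase with the stage, so for each `j` at most
one quarter of the `g < GG n e` lead to an `w` that is overloaded for `ξ_j` at some stage. Hence some `g` leads to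
a `w` that is never overloaded for all three `ξ_j`: apply `fiber_KS`. `KS w x` is small: `w` is computed
from `x` and `(n, k, e, g)`.
-/

namespace Pool.Agent.Lib.H52K

theorem HG3_sum_range (N : ℕ) (g : ℕ → ℕ) :
    ((List.range N).map g).sum = ∑ i ∈ Finset.range N, g i := by
  induction N with
  | zero => simp
  | succ N ih => rw [List.range_succ, List.map_append, List.sum_append, ih,
      Finset.sum_range_succ]; simp

theorem HG3_getD {l l' : List ℕ} (h : l <+: l') {i : ℕ} (hi : i < l.length) :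
    l'.getD i 0 = l.getD i 0 := by
  obtain ⟨r, rfl⟩ := h
  rw [List.getD_append _ _ _ _ hi]

theorem HG3_load_mono (f : ℕ × ℕ → ℕ) (n k e m ξ w : ℕ) {t t' : ℕ} (h : t ≤ t') :
    load f n k e m ξ t w ≤ load f n k e m ξ t' w := by
  unfold load
  rw [HG3_sum_range, HG3_sum_range]
  have hp := En_prefix n 0 h
  have hp' := En_prefix m ξ h
  calc _ ≤ ∑ i ∈ Finset.range (En n 0 t).length, (if (En n 0 t').getD i 0 ∈ En m ξ t' then
        ((List.range (GG n e)).filter fun g => nb f n k e i g = w).length else 0) := by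
        refine Finset.sum_le_sum fun i hi => ?_
        rw [Finset.mem_range] at hi
        rw [HG3_getD hp hi]
        by_cases hx : (En n 0 t).getD i 0 ∈ En m ξ t
        · rw [if_pos hx, if_pos (hp'.subset hx)]
        · rw [if_neg hx]; exact Nat.zero_le _
    _ ≤ _ := Finset.sum_le_sum_of_subset (Finset.range_subset_range.2 hp.length_le)

theorem HG3_ovl_mono (f : ℕ × ℕ → ℕ) (n k e m ξ w : ℕ) {t t' : ℕ} (h : t ≤ t')
    (ho : ovl f n k e m ξ t w = true) : ovl f n k e m ξ t' w = true := by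
  unfold ovl at *
  rw [decide_eq_true_eq] at *
  exact ho.trans_le (Nat.mul_le_mul_left _ (HG3_load_mono f n k e m ξ w h))

/-- If `i` is never dangerous from stage `t₀` on, then at most a quarter of the neighbours are ever
overloaded. -/
theorem HG3_quarter (f : ℕ × ℕ → ℕ) (n k e m ξ i t₀ : ℕ)
    (h : ∀ t, t₀ ≤ t → danger f n k e m ξ t i = false) :
    ∃ B : Finset ℕ, 4 * B.card ≤ GG n e ∧ ∀ g < GG n e, g ∉ B → ∀ t,
      ovl f n k e m ξ t (nb f n k e i g) = false := by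
  classical
  let B : Finset ℕ := (Finset.range (GG n e)).filter fun g =>
    ∃ t, ovl f n k e m ξ t (nb f n k e i g) = true
  have h1 : ∀ g ∈ B, ∃ t, ovl f n k e m ξ t (nb f n k e i g) = true := fun g hg =>
    (Finset.mem_filter.1 hg).2
  choose! T hT using h1
  let t := max t₀ (B.sup T)
  have h2 : ∀ g ∈ B, ovl f n k e m ξ t (nb f n k e i g) = true := fun g hg =>
    HG3_ovl_mono f n k e m ξ _ ((Finset.le_sup hg).trans (le_max_right _ _)) (hT g hg)
  have h3 := h t (le_max_left _ _)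
  unfold danger at h3
  rw [decide_eq_false_iff_not, not_lt] at h3
  refine ⟨B, ?_, ?_⟩
  · refine le_trans ?_ h3
    refine Nat.mul_le_mul_left 4 ?_
    rw [← List.toFinset_card_of_nodup (List.nodup_range.filter _)]
    refine Finset.card_le_card fun g hg => ?_
    rw [List.mem_toFinset, List.mem_filter, List.mem_range]
    exact ⟨Finset.mem_range.1 (Finset.mem_filter.1 hg).1, h2 g hg⟩
  · intro g hg hgB t'
    by_contra hc
    rw [Bool.not_eq_false] at hc
    exact hgB (Finset.mem_filter.2 ⟨Finset.mem_range.2 hg, t', hc⟩)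

/-- A neighbour that is never overloaded for all three conditions. -/
theorem HG3_three (f : ℕ × ℕ → ℕ) (n k e i t₀ : ℕ) (m ξ : Fin 3 → ℕ)
    (h : ∀ j t, t₀ ≤ t → danger f n k e (m j) (ξ j) t i = false) :
    ∃ g < GG n e, ∀ j t, ovl f n k e (m j) (ξ j) t (nb f n k e i g) = false := by
  choose B hB hB' using fun j => HG3_quarter f n k e (m j) (ξ j) i t₀ (h j)
  have h1 : (B 0 ∪ B 1 ∪ B 2).card < (Finset.range (GG n e)).card := by
    rw [Finset.card_range]
    have h2 := Finset.card_union_le (B 0 ∪ B 1) (B 2)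
    have h3 := Finset.card_union_le (B 0) (B 1)
    have h4 : 0 < GG n e := by unfold GG; positivity
    have := hB 0
    have := hB 1
    have := hB 2
    omega
  obtain ⟨g, hg, hg'⟩ := Finset.exists_mem_notMem_of_card_lt_card h1
  simp only [Finset.mem_union, not_or] at hg'
  refine ⟨g, Finset.mem_range.1 hg, fun j => hB' j g (Finset.mem_range.1 hg) ?_⟩
  fin_cases j
  · exact hg'.1.1
  · exact hg'.1.2
  · exact hg'.2

theorem HG3_idx {n x t : ℕ} (h : x ∈ En n 0 t) {t' : ℕ} (ht : t ≤ t') :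
    (En n 0 t')[(En n 0 t).idxOf x]? = some x ∧ (En n 0 t').idxOf x = (En n 0 t).idxOf x := by
  have hp := En_prefix n 0 ht
  obtain ⟨r, hr⟩ := hp
  have h1 : (En n 0 t').idxOf x = (En n 0 t).idxOf x := by
    rw [← hr, List.idxOf_append_of_mem h]
  refine ⟨?_, h1⟩
  have h2 : (En n 0 t).idxOf x < (En n 0 t).length := List.idxOf_lt_length_of_mem h
  rw [← hr, List.getElem?_append_left h2, List.getElem?_eq_getElem h2, List.getElem_idxOf h2]

/-- The hash value `w` is simple given `x`. -/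
theorem HG3_simple (f : ℕ × ℕ → ℕ) (hf : Computable f) : ∃ C, ∀ n k e g x t, x ∈ En n 0 t →
    KS (nb f n k e ((En n 0 t).idxOf x) g) x ≤
      2 * Nat.size (Nat.pair n (Nat.pair k (Nat.pair e g))) + C := by
  let R : (ℕ × ℕ) × (ℕ × ℕ) → Bool := fun p =>
    decide (p.1.2 ∈ En p.1.1.unpair.1 0 p.2.2) &&
      decide (p.2.1 = nb f p.1.1.unpair.1 p.1.1.unpair.2.unpair.1
        p.1.1.unpair.2.unpair.2.unpair.1 ((En p.1.1.unpair.1 0 p.2.2).idxOf p.1.2)
        p.1.1.unpair.2.unpair.2.unpair.2)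
  have hθ : Computable fun p : (ℕ × ℕ) × (ℕ × ℕ) => p.1.1 := Computable.fst.comp Computable.fst
  have hz : Computable fun p : (ℕ × ℕ) × (ℕ × ℕ) => p.1.2 := Computable.snd.comp Computable.fst
  have hx : Computable fun p : (ℕ × ℕ) × (ℕ × ℕ) => p.2.1 := Computable.fst.comp Computable.snd
  have ht : Computable fun p : (ℕ × ℕ) × (ℕ × ℕ) => p.2.2 := Computable.snd.comp Computable.snd
  have hn : Computable fun p : (ℕ × ℕ) × (ℕ × ℕ) => p.1.1.unpair.1 := T_fst.comp hθ
  have h2 : Computable fun p : (ℕ × ℕ) × (ℕ × ℕ) => p.1.1.unpair.2 := T_snd.comp hθ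
  have hk : Computable fun p : (ℕ × ℕ) × (ℕ × ℕ) => p.1.1.unpair.2.unpair.1 := T_fst.comp h2
  have h3 : Computable fun p : (ℕ × ℕ) × (ℕ × ℕ) => p.1.1.unpair.2.unpair.2 := T_snd.comp h2
  have he : Computable fun p : (ℕ × ℕ) × (ℕ × ℕ) => p.1.1.unpair.2.unpair.2.unpair.1 :=
    T_fst.comp h3
  have hg : Computable fun p : (ℕ × ℕ) × (ℕ × ℕ) => p.1.1.unpair.2.unpair.2.unpair.2 :=
    T_snd.comp h3
  have hE0 : Computable fun p : (ℕ × ℕ) × (ℕ × ℕ) => (((p.1.1.unpair.1, 0), p.2.2) : (ℕ × ℕ) × ℕ) :=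
    Computable.pair (Computable.pair hn (Computable.const 0)) ht
  have hE : Computable fun p : (ℕ × ℕ) × (ℕ × ℕ) => En p.1.1.unpair.1 0 p.2.2 := by
    have := En_computable.comp hE0
    exact this
  have hi : Computable fun p : (ℕ × ℕ) × (ℕ × ℕ) =>
      (En p.1.1.unpair.1 0 p.2.2).idxOf p.1.2 := by
    have := Computable₂.comp (Primrec₂.to_comp (Primrec.list_idxOf (α := ℕ))) hz hE
    exact this
  have hp2 : Computable fun p : (ℕ × ℕ) × (ℕ × ℕ) => 2 ^ p.1.1.unpair.2.unpair.2.unpair.1 :=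
    Computable₂.comp (Primrec₂.to_comp pow_primrec) (Computable.const 2) he
  have ha : Computable fun p : (ℕ × ℕ) × (ℕ × ℕ) => Nat.pair p.1.1.unpair.1
      (Nat.pair p.1.1.unpair.2.unpair.1 (2 ^ p.1.1.unpair.2.unpair.2.unpair.1)) :=
    T_pair hn (T_pair hk hp2)
  have hb : Computable fun p : (ℕ × ℕ) × (ℕ × ℕ) => Nat.pair
      ((En p.1.1.unpair.1 0 p.2.2).idxOf p.1.2) p.1.1.unpair.2.unpair.2.unpair.2 := T_pair hi hg
  have hnb : Computable fun p : (ℕ × ℕ) × (ℕ × ℕ) => nb f p.1.1.unpair.1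
      p.1.1.unpair.2.unpair.1 p.1.1.unpair.2.unpair.2.unpair.1
      ((En p.1.1.unpair.1 0 p.2.2).idxOf p.1.2) p.1.1.unpair.2.unpair.2.unpair.2 := by
    have := hf.comp (Computable.pair ha hb)
    exact this
  have hR : Computable R := by
    have m0 : Primrec₂ fun (a : ℕ) (l : List ℕ) => decide (a ∈ l) :=
      PrimrecRel.decide (R := fun (a : ℕ) (l : List ℕ) => a ∈ l) mem_primrec
    have m1 : Computable₂ fun (a : ℕ) (l : List ℕ) => decide (a ∈ l) := Primrec₂.to_comp m0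
    have m2 := Computable₂.comp m1 hz hE
    have m3 : Computable₂ fun (a b : ℕ) => decide (a = b) :=
      Primrec₂.to_comp (PrimrecRel.decide (Primrec.eq (α := ℕ)))
    have m4 := Computable₂.comp m3 hx hnb
    have m5 := Computable₂.comp (Primrec₂.to_comp Primrec.and) m2 m4
    exact m5
  obtain ⟨C, hC⟩ := KS_ce R hR
  refine ⟨C, fun n k e g x t hxt => ?_⟩
  have key : ∀ x' t', R ((Nat.pair n (Nat.pair k (Nat.pair e g)), x), (x', t')) = true ↔
      x ∈ En n 0 t' ∧ x' = nb f n k e ((En n 0 t').idxOf x) g := by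
    intro x' t'
    simp only [R, Bool.and_eq_true, decide_eq_true_eq, Nat.unpair_pair]
  have h := hC (Nat.pair n (Nat.pair k (Nat.pair e g))) x 0 ?_
    (nb f n k e ((En n 0 t).idxOf x) g) t ((key _ _).2 ⟨hxt, rfl⟩)
  · omega
  · intro S hS
    rw [pow_zero, Finset.card_le_one]
    have h4 : ∀ a ∈ S, a = nb f n k e ((En n 0 t).idxOf x) g := by
      intro a ha
      obtain ⟨t', ht'⟩ := hS a ha
      rw [key] at ht'
      rw [ht'.2]
      rcases le_total t t' with h5 | h5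
      · rw [(HG3_idx hxt h5).2]
      · rw [(HG3_idx ht'.1 h5).2]
    intro a ha b hb
    rw [h4 a ha, h4 b hb]

/-- The constant `c`. -/
theorem HG3_const (D : ℕ) : ∃ c, 16 * Nat.size c + D < c := by
  refine ⟨2 ^ (D + 8), ?_⟩
  rw [Nat.size_pow]
  have h1 : D < 2 ^ D := Nat.lt_two_pow_self
  rw [pow_add]
  norm_num
  omega

theorem HG3_e_le (c ν : ℕ) : er c ν ≤ 2 ^ er (Nat.size c + 1) ν := by
  have h1 : c ≤ 2 ^ Nat.size c := (Nat.lt_size_self c).le
  have h2 : Nat.size ν + 1 ≤ 2 ^ Nat.size ν := Nat.lt_two_pow_self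
  calc er c ν = c * (Nat.size ν + 1) := rfl
    _ ≤ 2 ^ Nat.size c * 2 ^ Nat.size ν := Nat.mul_le_mul h1 h2
    _ = 2 ^ (Nat.size c + Nat.size ν) := (pow_add _ _ _).symm
    _ ≤ 2 ^ er (Nat.size c + 1) ν := by
        refine Nat.pow_le_pow_right (by norm_num) ?_
        rw [← er_add]
        exact Nat.add_le_add (le_er _ _) (size_le_er ν)

/-- Simultaneous conditional hashing (in the spirit of Muchnik): a string `w` of length `k`, simple given
`x`, which is `k` bits of information about `x` relative to three conditions. -/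
theorem KS_hash : ∃ C, ∀ ν x (ξ : Fin 3 → ℕ) k, KS x 0 ≤ ν → (∀ i, k ≤ KS x (ξ i)) →
    ∃ w, w < 2 ^ k ∧ KS w x ≤ er C ν ∧
      ∀ i, KS x (Nat.pair w (ξ i)) + k ≤ KS x (ξ i) + er C ν := by
  obtain ⟨f, hf, hgood⟩ := goodGraph_comp
  obtain ⟨Cd, hCd⟩ := danger_KS f hf hgood
  obtain ⟨Cf, hCf⟩ := fiber_KS f hf
  obtain ⟨Cs, hCs⟩ := HG3_simple f hf
  obtain ⟨C0, hC0⟩ := KS_zero
  obtain ⟨C1, hC1⟩ := KS_drop
  obtain ⟨C2, hC2⟩ := KS_num
  -- the constant for `pair n (pair k (pair e m))`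
  obtain ⟨c, hc⟩ := HG3_const (2 * (2 * (1 + (2 * ((C0 + 2) + (2 * ((1 + (C0 + 2))) + 4)) + 4)) + 4 + 1)
    + Cd)
  -- abbreviations for the exponents
  set P1 := 2 * ((Nat.size c + 1) + (C0 + 2)) + 4 with hP1
  set P2 := 2 * ((C0 + 2) + P1) + 4 with hP2
  set P3 := 2 * (1 + P2) + 4 with hP3
  have hP3c : 2 * (P3 + 1) + Cd < c := by omega
  -- the degree
  set G1 := 3 + ((1 + c + 1) + 2 + 1) with hG1
  set Q1 := 2 * ((Nat.size c + 1) + G1) + 4 with hQ1
  set Q2 := 2 * ((C0 + 2) + Q1) + 4 with hQ2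
  set Q3 := 2 * (1 + Q2) + 4 with hQ3
  refine ⟨(G1 + 1) + 5 + 2 * (P3 + 1) + Cf + (2 * (Q3 + 1) + Cs) + C1 + C2 + c,
    fun ν x ξ k hx hk => ?_⟩
  have hCle : ∀ A, A ≤ (G1 + 1) + 5 + 2 * (P3 + 1) + Cf + (2 * (Q3 + 1) + Cs) + C1 + C2 + c →
      er A ν ≤ er ((G1 + 1) + 5 + 2 * (P3 + 1) + Cf + (2 * (Q3 + 1) + Cs) + C1 + C2 + c) ν :=
    fun A hA => er_mono_left ν hA
  have hm : ∀ j, KS x (ξ j) ≤ ν + C0 := fun j => (hC0 x (ξ j)).trans (by omega)
  have hνC : ν + C0 ≤ 2 ^ er (C0 + 2) ν := by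
    have := add_le_pow (le_pow_er ν) (const_le_pow C0 ν)
    rwa [show 1 + C0 + 1 = C0 + 2 by ring] at this
  set e := er c ν with he
  have he2 : e ≤ 2 ^ er (Nat.size c + 1) ν := HG3_e_le c ν
  set n := KS x 0 with hn
  have hn2 : n ≤ 2 ^ er 1 ν := hx.trans (le_pow_er ν)
  by_cases hke : k < e
  · refine ⟨0, by positivity, ?_, fun i => ?_⟩
    · have h1 := hC2 0 x
      rw [Nat.size_zero, zero_add] at h1
      exact h1.trans ((le_er C2 ν).trans (hCle _ (by omega)))
    · have h1 := (hC1 x 0 (ξ i)).1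
      have h2 := er_add C1 c ν
      have h3 := hCle (C1 + c) (by omega)
      have h4 := le_er C1 ν
      omega
  · push Not at hke
    have hk2 : k ≤ 2 ^ er (C0 + 2) ν := ((hk 0).trans (hm 0)).trans hνC
    have hsize : ∀ j, Nat.size (Nat.pair n (Nat.pair k (Nat.pair e (KS x (ξ j))))) ≤
        er (P3 + 1) ν := fun j =>
      size_le_of_le_pow (pair_le_pow hn2 (pair_le_pow hk2 (pair_le_pow he2 ((hm j).trans hνC))))
    obtain ⟨t₀, ht₀⟩ := exists_mem_En (le_refl (KS x 0))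
    rw [← hn] at ht₀
    set i := (En n 0 t₀).idxOf x with hi
    have hidx : ∀ t, t₀ ≤ t → (En n 0 t)[i]? = some x := fun t ht => (HG3_idx ht₀ ht).1
    have hdan : ∀ j t, t₀ ≤ t → danger f n k e (KS x (ξ j)) (ξ j) t i = false := by
      intro j t ht
      by_contra hcon
      rw [Bool.not_eq_false] at hcon
      have h1 := hCd n k e (KS x (ξ j)) (ξ j) t i x (hidx t ht) hcon
      have h2 := hsize j
      have h3 := hk j
      have h4 : er (2 * (P3 + 1) + Cd) ν < e := by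
        rw [he]; unfold er
        exact Nat.mul_lt_mul_of_pos_right hP3c (Nat.succ_pos _)
      have h5 := er_add (2 * (P3 + 1)) Cd ν
      have h6 := er_mul (P3 + 1) 2 ν
      have h7 := le_er Cd ν
      omega
    obtain ⟨g, hg, hov⟩ := HG3_three f n k e i t₀ (fun j => KS x (ξ j)) ξ hdan
    have hGG : GG n e ≤ 2 ^ er G1 ν := by
      unfold GG
      have h1 : 2 ^ e ≤ 2 ^ er c ν := le_rfl
      have h2 := mul_le_pow (show 4 ≤ 2 ^ er 3 ν from
        (by norm_num : 4 ≤ 2 ^ 3).trans (Nat.pow_le_pow_right (by norm_num) (le_er 3 ν)))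
        (add_le_pow (add_le_pow hn2 h1) (const_le_pow 2 ν))
      exact h2
    refine ⟨nb f n k e i g, (hgood n k (2 ^ e)).1 i g, ?_, fun j => ?_⟩
    · have h1 := hCs n k e g x t₀ ht₀
      have h2 : Nat.size (Nat.pair n (Nat.pair k (Nat.pair e g))) ≤ er (Q3 + 1) ν :=
        size_le_of_le_pow (pair_le_pow hn2 (pair_le_pow hk2 (pair_le_pow he2
          (hg.le.trans hGG))))
      have h3 := hCle (2 * (Q3 + 1) + Cs) (by omega)
      have h4 := er_add (2 * (Q3 + 1)) Cs ν
      have h5 := er_mul (Q3 + 1) 2 ν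
      have h6 := le_er Cs ν
      rw [← hi] at h1
      omega
    · obtain ⟨t₁, ht₁⟩ := exists_mem_En (le_refl (KS x (ξ j)))
      have h1 := hCf n k e (KS x (ξ j)) (ξ j) (nb f n k e i g) x i g (max t₀ t₁)
        (hidx _ (le_max_left _ _)) ((En_prefix _ _ (le_max_right t₀ t₁)).subset ht₁) hg rfl
        (hov j)
      have h2 := hsize j
      have h3 := size_le_of_le_pow hGG
      have h4 := hCle ((G1 + 1) + 5 + 2 * (P3 + 1) + Cf) (by omega)
      have h5 := er_add (G1 + 1) 5 ν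
      have h6 := er_add (G1 + 1 + 5) (2 * (P3 + 1)) ν
      have h7 := er_add (G1 + 1 + 5 + 2 * (P3 + 1)) Cf ν
      have h8 := er_mul (P3 + 1) 2 ν
      have h9 := le_er Cf ν
      have h10 := le_er 5 ν
      omega

end Pool.Agent.Lib.H52K
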