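import Pool.Agent.Lib.H52K.T
import Pool.Agent.Lib.H52K.HG3

/-!
`KS_hash` with `ξ 0 = v`, `ξ 1 = pair (Y 0) v`, `ξ 2 = pair (Y 1) v`. `KS w v ≤ size w + C ≤ k + C`, and
`KS w (pair (Y i) v) ≥ k - er` (otherwise `KS X (pair (Y i) v)` would be smaller). By the chain rule
`KS (Y i) (pair w v) + KS w v ≥ KS (pair w (Y i)) v - er ≥ KS (Y i) v + KS w (pair (Y i) v) - er`.
-/

namespace Pool.Agent.Lib.H52K

/-- One hashing step: `w` is a hash value of `X` of length `k`; `k` is at most `KS X v` and at most the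
complexities of `X` given `(Y i, v)`. -/
theorem hash_step : ∃ C, ∀ ν X v (Y : Fin 2 → ℕ) k, KS X 0 ≤ ν → KS v 0 ≤ ν →
    (∀ i, KS (Y i) 0 ≤ ν) → k ≤ KS X v → (∀ i, k ≤ KS X (Nat.pair (Y i) v)) →
    ∃ w, KS w X ≤ er C ν ∧ KS w 0 ≤ 2 ^ er C ν ∧ KS X (Nat.pair w v) + k ≤ KS X v + er C ν ∧
      (∀ U, KS U v ≤ KS U (Nat.pair w v) + k + er C ν) ∧
      (∀ i, KS (Y i) v ≤ KS (Y i) (Nat.pair w v) + er C ν) ∧
      (∀ U, KS U (Nat.pair w v) ≤ KS U v + C) := by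
  obtain ⟨Ch, hh⟩ := KS_hash
  obtain ⟨Cn, hn⟩ := KS_num
  obtain ⟨C0, h0⟩ := KS_zero
  obtain ⟨Cd, hd⟩ := KS_drop
  obtain ⟨Cu, hu⟩ := KS_upper
  obtain ⟨Cl, hl⟩ := KS_pair_le
  obtain ⟨Cg, hg⟩ := KS_pair_ge
  obtain ⟨Cs, hs⟩ := KS_swap
  obtain ⟨Cu', hu'⟩ := T_er Cu (1 + C0 + 1 + Cn + 1)
  obtain ⟨Cl', hl'⟩ := T_er Cl (1 + C0 + 1 + Cn + 1)
  obtain ⟨Cg', hg'⟩ := T_er Cg (1 + C0 + 1 + Cn + 1)
  refine ⟨Ch + Cu' + Cl' + Cg' + (Cs + Cn + Cd) + (1 + C0 + 1 + Cn + 1),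
    fun ν X v Y k hX hv hY hk hkY => ?_⟩
  have hν : ν + C0 + Cn ≤ 2 ^ er (1 + C0 + 1 + Cn + 1) ν :=
    add_le_pow (add_le_pow (le_pow_er ν) (const_le_pow C0 ν)) (const_le_pow Cn ν)
  have eu := hu' ν _ hν
  have el := hl' ν _ hν
  have eg := hg' ν _ hν
  have e1 := er_add Ch Cu' ν
  have e2 := er_add (Ch + Cu') Cl' ν
  have e3 := er_add (Ch + Cu' + Cl') Cg' ν
  have e4 := er_add (Ch + Cu' + Cl' + Cg') (Cs + Cn + Cd) ν
  have e5 := er_add (Ch + Cu' + Cl' + Cg' + (Cs + Cn + Cd)) (1 + C0 + 1 + Cn + 1) ν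
  have e6 := le_er (Cs + Cn + Cd) ν
  obtain ⟨w, hw, hwX, hwk⟩ := hh ν X ![v, Nat.pair (Y 0) v, Nat.pair (Y 1) v] k hX (by
    intro i
    fin_cases i
    · exact hk
    · exact hkY 0
    · exact hkY 1)
  have hw0 := hwk 0
  have hwY : ∀ i, KS X (Nat.pair w (Nat.pair (Y i) v)) + k ≤ KS X (Nat.pair (Y i) v) + er Ch ν := by
    intro i
    fin_cases i
    · exact hwk 1
    · exact hwk 2
  simp only [Matrix.cons_val_zero] at hw0
  have hsz : Nat.size w ≤ k := Nat.size_le.2 hw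
  have hwv : ∀ z, KS w z ≤ k + Cn := fun z => (hn w z).trans (by omega)
  have hXv := h0 X v
  have hwν : KS w 0 ≤ ν + C0 + Cn := (hwv 0).trans (by omega)
  refine ⟨w, by omega, ?_, by omega, fun U => ?_, fun i => ?_, fun U => ?_⟩
  · refine hwν.trans (hν.trans (pow_er_mono ν ?_))
    omega
  · have h1 := hu (ν + C0 + Cn) U w v hwν
    have h2 := hwv v
    omega
  · have a := hl (ν + C0 + Cn) w (Y i) v hwν
    have b := hs (Y i) w v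
    have c := hg (ν + C0 + Cn) (Y i) w v ((hY i).trans (by omega)) hwν
    have d := hu (ν + C0 + Cn) X w (Nat.pair (Y i) v) hwν
    have e := hwY i
    have f := hwv v
    omega
  · have := (hd U w v).1
    omega

end Pool.Agent.Lib.H52K
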