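import Pool.Agent.Lib.H52K.K9
import Pool.Agent.Lib.H52K.A3

/-!
Take `v, u` from `stepA`, the path `p` of `v` (`KS_path`), `s = KS v 0`, and the new `v₁ = p (s - u)` (natural
subtraction). `KS v₁ (pair x y)` is small as `v₁` is simple given `v`. `KS x v₁ ≤ KS x v + (s - (s-u)) + er ≤
KS x v + u + er`. If `u ≤ s`: `KS (pair x y) v + s ≤ KS (pair x y) 0 + er` (chain rule, `v` is simple given
`pair x y`) and `KS (pair x y) 0 ≤ KS (pair x y) v₁ + (s - u) + er`. If `u > s`: `v₁ = p 0 = 0`.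
-/

namespace Pool.Agent.Lib.H52K

/-- Moving along the path of `v`. -/
theorem F1_path : ∃ C, ∀ ν v, KS v 0 ≤ ν → ∃ p : ℕ → ℕ, p 0 = 0 ∧
    (∀ r ≤ KS v 0, KS (p r) 0 ≤ r + er C ν ∧ KS (p r) 0 ≤ 2 ^ er C ν ∧ KS (p r) v ≤ er C ν ∧
      (∀ U, KS U (p r) ≤ KS U v + (KS v 0 - r) + er C ν) ∧
      (∀ U, KS U v ≤ KS U (p r) + er C ν)) ∧
    (∀ r < KS v 0, ∀ U, KS U (p r) ≤ KS U (p (r + 1)) + 1 + er C ν) := by
  obtain ⟨Cp, hp⟩ := KS_path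
  obtain ⟨Ct, ht⟩ := KS_trans
  obtain ⟨Ct', ht'⟩ := T_er Ct (1 + (Cp + 1) + 1)
  refine ⟨3 * Cp + 3 * Ct' + (1 + (Cp + 1) + 1), fun ν v hv => ?_⟩
  obtain ⟨p, p0, p1, p2, p3, p4⟩ := hp ν v hv
  have e1 := er_mul Cp 3 ν
  have e2 := er_mul Ct' 3 ν
  have e3 := er_add (3 * Cp) (3 * Ct') ν
  have e4 := er_add (3 * Cp + 3 * Ct') (1 + (Cp + 1) + 1) ν
  have hb : ν + er Cp ν ≤ 2 ^ er (1 + (Cp + 1) + 1) ν := add_le_pow (le_pow_er ν) (er_le_pow Cp ν)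
  have hτ := ht' ν _ hb
  have q1 : ∀ r ≤ KS v 0, KS (p r) 0 ≤ ν + er Cp ν := fun r hr => by
    have := p1 r hr; omega
  refine ⟨p, p0, fun r hr => ?_, fun r hr U => ?_⟩
  · obtain ⟨a1, a2⟩ := p2 r (KS v 0) hr le_rfl
    have b1 := ht (ν + er Cp ν) (p r) (p (KS v 0)) v (q1 _ le_rfl)
    have hrv : KS (p r) v ≤ 2 * er Cp ν + er Ct' ν := by omega
    refine ⟨by have := p1 r hr; omega, ?_, by omega, fun U => ?_, fun U => ?_⟩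
    · refine (q1 r hr).trans (hb.trans (pow_er_mono ν ?_))
      omega
    · have b2 := ht (ν + er Cp ν) U (p (KS v 0)) (p r) (q1 _ le_rfl)
      have b3 := ht (ν + er Cp ν) U v (p (KS v 0)) (by omega)
      omega
    · have b4 := ht (ν + er Cp ν) U (p r) v (q1 r hr)
      omega
  · obtain ⟨a1, a2⟩ := p2 r (r + 1) (by omega) (by omega)
    have b2 := ht (ν + er Cp ν) U (p (r + 1)) (p r) (q1 _ (by omega))
    omega

theorem step1 : ∃ C, ∀ ν x y z, KS x 0 ≤ ν → KS y 0 ≤ ν → KS z 0 ≤ ν → ∃ v,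
    KS v 0 ≤ 2 ^ er C ν ∧ KS v (Nat.pair x y) ≤ er C ν ∧ KS x v ≤ KS x z + er C ν ∧
    KS y v ≤ KS y z + er C ν ∧ KS (Nat.pair x y) z ≤ KS (Nat.pair x y) v + er C ν := by
  obtain ⟨CA, hA⟩ := stepA
  obtain ⟨Cp, hp⟩ := F1_path
  obtain ⟨C0, h0⟩ := KS_zero
  obtain ⟨Ct, ht⟩ := KS_trans
  obtain ⟨Ci, hi⟩ := KS_info
  obtain ⟨Cb, hb⟩ := KS_pair_bound
  obtain ⟨Cp', hp'⟩ := T_er Cp CA
  obtain ⟨Ct', ht'⟩ := T_er Ct (CA + (Cp' + 1) + 1)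
  obtain ⟨Ci', hi'⟩ := T_er Ci (CA + Cb + 1)
  refine ⟨(2 * CA + 2 * Cp' + 2 * Ct' + Ci' + C0) + (CA + (Cp' + 1) + 1), fun ν x y z hx hy hz => ?_⟩
  obtain ⟨v, u, a1, a2, a3, a4, a5⟩ := hA ν x y z hx hy hz
  obtain ⟨p, p0, p1, p2⟩ := hp _ v a1
  have hlam := hp' ν _ le_rfl
  have e1 := er_mul CA 2 ν
  have e2 := er_mul Cp' 2 ν
  have e3 := er_mul Ct' 2 ν
  have e4 := er_add (2 * CA) (2 * Cp') ν
  have e5 := er_add (2 * CA + 2 * Cp') (2 * Ct') ν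
  have e6 := er_add (2 * CA + 2 * Cp' + 2 * Ct') Ci' ν
  have e7 := er_add (2 * CA + 2 * Cp' + 2 * Ct' + Ci') C0 ν
  have e8 := le_er C0 ν
  have e9 := er_mono_left ν (Nat.le_add_right (2 * CA + 2 * Cp' + 2 * Ct' + Ci' + C0)
    (CA + (Cp' + 1) + 1))
  have hbd : 2 ^ er CA ν + er Cp' ν ≤ 2 ^ er (CA + (Cp' + 1) + 1) ν :=
    add_le_pow le_rfl (er_le_pow Cp' ν)
  have hτ := ht' ν _ hbd
  have hbi : 2 ^ er CA ν + 2 ^ er Cb ν ≤ 2 ^ er (CA + Cb + 1) ν := add_le_pow le_rfl le_rfl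
  have hι := hi' ν _ hbi
  obtain ⟨q1, q1', q2, q3, q4⟩ := p1 (KS v 0 - u) (by omega)
  have c1 : KS (p (KS v 0 - u)) 0 ≤ 2 ^ er CA ν + er Cp' ν := by omega
  have c2 := ht (2 ^ er CA ν + er Cp' ν) (p (KS v 0 - u)) v (Nat.pair x y) (by omega)
  have c3 := q3 x
  have c4 := q3 y
  refine ⟨p (KS v 0 - u), ?_, by omega, by omega, by omega, ?_⟩
  · refine c1.trans (hbd.trans (pow_er_mono ν ?_))
    omega
  · rcases le_or_gt u (KS v 0) with hu | hu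
    · have d1 := hi (2 ^ er CA ν + 2 ^ er Cb ν) v (Nat.pair x y)
        (a1.trans (Nat.le_add_right _ _)) ((hb ν x y hx hy).trans (Nat.le_add_left _ _))
      have d2 := ht (2 ^ er CA ν + er Cp' ν) (Nat.pair x y) (p (KS v 0 - u)) 0 c1
      omega
    · have d3 : KS v 0 - u = 0 := by omega
      rw [d3, p0]
      have := h0 (Nat.pair x y) z
      omega

end Pool.Agent.Lib.H52K
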