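import Pool.Agent.Lib.H52K.K9
import Pool.Agent.Lib.H52K.F1

/-!
Take `v` from `step1` and its path `p`; `r` = the largest `r ≤ s = KS v 0` with `KS x z ≤ KS x (p r) + C₀` and
`KS y z ≤ KS y (p r) + C₀` (it exists: `r = 0`). If `r = s`, both complexities given `p s` are at most
`KS x z + er`, `KS y z + er`. Otherwise one of the inequalities fails at `r + 1`, say for `y`; then
`KS y (p r) ≤ KS y (p (r+1)) + 1 + er ≤ KS y z + er`. The fifth inequality: `KS (pair x y) (p r) ≥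
KS x (p r) + KS y (pair x (p r)) - er`, `KS y (pair x (p r)) ≥ KS y (pair x v) - er ≥ KS (pair x y) v -
KS x v - er ≥ KS (pair x y) z - KS x z - er`.
-/

namespace Pool.Agent.Lib.H52K

theorem F2b_aux : ∃ C, ∀ ν x y v w, KS x 0 ≤ ν → KS y 0 ≤ ν → KS w 0 ≤ ν →
    KS x w + KS (Nat.pair x y) v ≤ KS (Nat.pair x y) w + KS x v + KS w v + er C ν := by
  obtain ⟨Cg, hg⟩ := KS_pair_ge
  obtain ⟨Cl, hl⟩ := KS_pair_le
  obtain ⟨Cu, hu⟩ := KS_upper
  obtain ⟨Cd, hd⟩ := KS_drop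
  obtain ⟨Cc, hc⟩ := KS_cond (fun z => Nat.pair z.unpair.2.unpair.1 z.unpair.1)
    (T_pair (T_fst.comp T_snd) T_fst)
  refine ⟨Cg + Cl + Cu + (Cd + Cc), fun ν x y v w hx hy hw => ?_⟩
  have h1 := hg ν x y w hx hy
  have h2 := hl ν x y v hx
  have h3 := hu ν y w (Nat.pair x v) hw
  have h4 := hc y (Nat.pair w (Nat.pair x v))
  have h5 := (hd w x v).1
  simp only [Nat.unpair_pair] at h4
  have e1 := er_add Cg Cl ν
  have e2 := er_add (Cg + Cl) Cu ν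
  have e3 := er_add (Cg + Cl + Cu) (Cd + Cc) ν
  have e4 := le_er (Cd + Cc) ν
  omega

/-- Moving along the path from `v` to `0` until both complexities are large enough. -/
theorem step2_path : ∃ C, ∀ ν x y z, KS x 0 ≤ ν → KS y 0 ≤ ν → KS z 0 ≤ ν → ∃ v,
    KS v 0 ≤ 2 ^ er C ν ∧ KS v (Nat.pair x y) ≤ er C ν ∧
    KS x z ≤ KS x v + er C ν ∧ KS y z ≤ KS y v + er C ν ∧
    KS x v + KS (Nat.pair x y) z ≤ KS (Nat.pair x y) v + KS x z + er C ν ∧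
    KS y v + KS (Nat.pair x y) z ≤ KS (Nat.pair x y) v + KS y z + er C ν ∧
    KS (Nat.pair x y) z ≤ KS (Nat.pair x y) v + er C ν ∧
    (KS x v ≤ KS x z + er C ν ∨ KS y v ≤ KS y z + er C ν) := by
  classical
  obtain ⟨C1, h1⟩ := step1
  obtain ⟨Cp, hp⟩ := F1_path
  obtain ⟨C0, h0⟩ := KS_zero
  obtain ⟨Ct, ht⟩ := KS_trans
  obtain ⟨Cx, hX⟩ := F2b_aux
  obtain ⟨Cs, hs⟩ := KS_swap
  obtain ⟨Cp', hp'⟩ := T_er Cp C1
  obtain ⟨Ct', ht'⟩ := T_er Ct (C1 + (Cp' + 1) + 1)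
  obtain ⟨Cx', hX'⟩ := T_er Cx (1 + (C1 + (Cp' + 1) + 1) + 1)
  refine ⟨(2 * C1 + 2 * Cp' + Ct' + Cx' + (C0 + 2 * Cs + 1)) + (C1 + (Cp' + 1) + 1),
    fun ν x y z hx hy hz => ?_⟩
  obtain ⟨v, a1, a2, a3, a4, a5⟩ := h1 ν x y z hx hy hz
  obtain ⟨p, p0, p1, p2⟩ := hp _ v a1
  have hlam := hp' ν _ le_rfl
  have e1 := er_mul C1 2 ν
  have e2 := er_mul Cp' 2 ν
  have e3 := er_add (2 * C1) (2 * Cp') ν
  have e4 := er_add (2 * C1 + 2 * Cp') Ct' ν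
  have e5 := er_add (2 * C1 + 2 * Cp' + Ct') Cx' ν
  have e6 := er_add (2 * C1 + 2 * Cp' + Ct' + Cx') (C0 + 2 * Cs + 1) ν
  have e7 := le_er (C0 + 2 * Cs + 1) ν
  have e8 := er_mono_left ν (Nat.le_add_right (2 * C1 + 2 * Cp' + Ct' + Cx' + (C0 + 2 * Cs + 1))
    (C1 + (Cp' + 1) + 1))
  have hbd : 2 ^ er C1 ν + er Cp' ν ≤ 2 ^ er (C1 + (Cp' + 1) + 1) ν :=
    add_le_pow le_rfl (er_le_pow Cp' ν)
  have hτ := ht' ν _ hbd
  have hbx : ν + (2 ^ er C1 ν + er Cp' ν) ≤ 2 ^ er (1 + (C1 + (Cp' + 1) + 1) + 1) ν :=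
    add_le_pow (le_pow_er ν) hbd
  have hξ := hX' ν _ hbx
  set P : ℕ → Prop := fun r => KS x z ≤ KS x (p r) + C0 ∧ KS y z ≤ KS y (p r) + C0 with hP
  have hP0 : P 0 := ⟨by rw [p0]; exact h0 x z, by rw [p0]; exact h0 y z⟩
  obtain ⟨r, hr⟩ : ∃ r, r = Nat.findGreatest P (KS v 0) := ⟨_, rfl⟩
  have hrs : r ≤ KS v 0 := hr ▸ Nat.findGreatest_le _
  have hPr : P r := hr ▸ Nat.findGreatest_spec (Nat.zero_le _) hP0
  have hnP : r < KS v 0 → ¬ P (r + 1) := fun h =>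
    Nat.findGreatest_is_greatest (P := P) (n := KS v 0) (by omega) (by omega)
  obtain ⟨q1, q1', q2, q3, q4⟩ := p1 r hrs
  have c1 : KS (p r) 0 ≤ 2 ^ er C1 ν + er Cp' ν := by omega
  have c2 := ht (2 ^ er C1 ν + er Cp' ν) (p r) v (Nat.pair x y) (a1.trans (Nat.le_add_right _ _))
  have c3 := hX (ν + (2 ^ er C1 ν + er Cp' ν)) x y v (p r) (hx.trans (Nat.le_add_right _ _))
    (hy.trans (Nat.le_add_right _ _)) (c1.trans (Nat.le_add_left _ _))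
  have c4 := hX (ν + (2 ^ er C1 ν + er Cp' ν)) y x v (p r) (hy.trans (Nat.le_add_right _ _))
    (hx.trans (Nat.le_add_right _ _)) (c1.trans (Nat.le_add_left _ _))
  have c5 := hs x y v
  have c6 := hs y x (p r)
  have c7 := q4 (Nat.pair x y)
  obtain ⟨g1, g2⟩ := hPr
  refine ⟨p r, ?_, by omega, by omega, by omega, by omega, by omega, by omega, ?_⟩
  · refine c1.trans (hbd.trans (pow_er_mono ν ?_))
    omega
  · rcases hrs.lt_or_eq with hlt | heq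
    · have g3 := hnP hlt
      have g4 := p2 r hlt x
      have g5 := p2 r hlt y
      simp only [hP, not_and_or, not_le] at g3
      rcases g3 with g3 | g3
      · left; omega
      · right; omega
    · left
      have g6 := q3 x
      omega

end Pool.Agent.Lib.H52K
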