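import Pool.Agent.Lib.H52K.F2a
import Pool.Agent.Lib.H52K.F2b

/-!
`step2_path` and `step2_hash` (possibly with `x` and `y` exchanged).
-/

namespace Pool.Agent.Lib.H52K

theorem step2 : ∃ C, ∀ ν x y z, KS x 0 ≤ ν → KS y 0 ≤ ν → KS z 0 ≤ ν → ∃ v,
    KS v 0 ≤ 2 ^ er C ν ∧ KS v (Nat.pair x y) ≤ er C ν ∧
    KS x v ≤ KS x z + er C ν ∧ KS x z ≤ KS x v + er C ν ∧
    KS y v ≤ KS y z + er C ν ∧ KS y z ≤ KS y v + er C ν ∧
    KS (Nat.pair x y) z ≤ KS (Nat.pair x y) v + er C ν := by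
  obtain ⟨C1, h1⟩ := step2_path
  obtain ⟨C2, h2⟩ := step2_hash
  obtain ⟨Ca, ha⟩ := KS_fst
  obtain ⟨Cb, hb⟩ := KS_snd
  obtain ⟨Cs, hs⟩ := KS_swap
  obtain ⟨Cw, hw⟩ := KS_cswap
  obtain ⟨C2', hC2⟩ := T_er C2 (1 + C1 + 1)
  obtain ⟨K, hK⟩ : ∃ K, K = Ca + Cb + Cs + Cw := ⟨_, rfl⟩
  refine ⟨8 * C1 + 9 * K + C2' + C2 * (1 + C1 + 1 + 2), fun ν x y z hx hy hz => ?_⟩
  obtain ⟨v, a1, a2, a3, a4, a5, a6, a7, a8⟩ := h1 ν x y z hx hy hz
  have hbd : ν + 2 ^ er C1 ν ≤ 2 ^ er (1 + C1 + 1) ν := add_le_pow (le_pow_er ν) le_rfl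
  have hE := hC2 ν _ hbd
  have e1 := er_mul C1 8 ν
  have e2 := er_add (8 * C1) (9 * K) ν
  have e3 := er_add (8 * C1 + 9 * K) C2' ν
  have e4 := le_er (9 * K) ν
  have e5 := er_mono_left ν (Nat.le_add_right (8 * C1 + 9 * K + C2') (C2 * (1 + C1 + 1 + 2)))
  have hx' : KS x 0 ≤ ν + 2 ^ er C1 ν := hx.trans (Nat.le_add_right _ _)
  have hy' : KS y 0 ≤ ν + 2 ^ er C1 ν := hy.trans (Nat.le_add_right _ _)
  have hv' : KS v 0 ≤ ν + 2 ^ er C1 ν := a1.trans (Nat.le_add_left _ _)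
  have hpow : ∀ v', KS v' 0 ≤ 2 ^ er C2 (ν + 2 ^ er C1 ν) →
      KS v' 0 ≤ 2 ^ er (8 * C1 + 9 * K + C2' + C2 * (1 + C1 + 1 + 2)) ν := fun v' h => by
    refine h.trans (Nat.pow_le_pow_right (by norm_num) ?_)
    refine (er_mono_right C2 hbd).trans ((er_pow _ _ _).trans (er_mono_left ν ?_))
    omega
  have k1 := hb x y z
  have k2 := ha x y z
  rcases a8 with a8 | a8
  · obtain ⟨v', b1, b2, b3, b4, b5, b6, b7⟩ := h2 (ν + 2 ^ er C1 ν) (er C1 ν + K) y x v (KS y z)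
      (KS x z) (KS (Nat.pair x y) z) hy' hx' hv' (by have := hw v y x; omega) (by omega) (by omega)
      (by omega) (by have := hs x y v; omega) (by have := hs x y v; omega) (by omega)
    refine ⟨v', hpow v' b1, ?_, by omega, by omega, by omega, by omega, ?_⟩
    · have := hw v' x y; omega
    · have := hs y x v'; omega
  · obtain ⟨v', b1, b2, b3, b4, b5, b6, b7⟩ := h2 (ν + 2 ^ er C1 ν) (er C1 ν + K) x y v (KS x z)
      (KS y z) (KS (Nat.pair x y) z) hx' hy' hv' (by omega) (by omega) (by omega)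
      (by omega) (by omega) (by omega) (by omega)
    exact ⟨v', hpow v' b1, by omega, by omega, by omega, by omega, by omega, by omega⟩

end Pool.Agent.Lib.H52K
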