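import Pool.Agent.Lib.H52K.F0

/-!
`A = KS x v`, `k₀ = A - a` (natural subtraction), `k = min k₀ (KS x (pair y v))`; by the chain rule
`KS x (pair y v) ≥ KS (pair x y) v - KS y v - er ≥ A + c - a - b - 2 ε - er ≥ k₀ - 3 ε - er`. Apply `hash_step`
with `X = x`, `Y = y` (twice), `v' = pair w v`.
-/

namespace Pool.Agent.Lib.H52K

theorem step2_hash : ∃ C, ∀ ν ε x y v a b c, KS x 0 ≤ ν → KS y 0 ≤ ν → KS v 0 ≤ ν →
    KS v (Nat.pair x y) ≤ ε → a ≤ KS x v + ε → KS y v ≤ b + ε → b ≤ KS y v + ε →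
    KS x v + c ≤ KS (Nat.pair x y) v + a + ε → c ≤ KS (Nat.pair x y) v + ε → b ≤ c + ε →
    ∃ v', KS v' 0 ≤ 2 ^ er C ν ∧ KS v' (Nat.pair x y) ≤ 8 * ε + er C ν ∧
      KS x v' ≤ a + 8 * ε + er C ν ∧ a ≤ KS x v' + 8 * ε + er C ν ∧
      KS y v' ≤ b + 8 * ε + er C ν ∧ b ≤ KS y v' + 8 * ε + er C ν ∧
      c ≤ KS (Nat.pair x y) v' + 8 * ε + er C ν := by
  obtain ⟨C1, h1⟩ := hash_step
  obtain ⟨Cl, hl⟩ := KS_pair_le
  obtain ⟨Cs, hs⟩ := KS_swap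
  obtain ⟨C0, h0⟩ := KS_zero
  obtain ⟨Cd, hd⟩ := KS_drop
  obtain ⟨Ca, ha⟩ := KS_cond (fun z => z.unpair.1) T_fst
  obtain ⟨Cl', hl'⟩ := T_er Cl C1
  refine ⟨(C1 + Cl + Cl' + (Cs + C0 + Cd + Ca)) + (C1 + (1 + Cd + 1) + 1 + (Cl' + 1) + 1),
    fun ν ε x y v a b c hx hy hv hvxy haA hyb hby hA hc hbc => ?_⟩
  have e1 := er_add C1 Cl ν
  have e2 := er_add (C1 + Cl) Cl' ν
  have e3 := er_add (C1 + Cl + Cl') (Cs + C0 + Cd + Ca) ν
  have e4 := er_mono_left ν (Nat.le_add_right (C1 + Cl + Cl' + (Cs + C0 + Cd + Ca))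
    (C1 + (1 + Cd + 1) + 1 + (Cl' + 1) + 1))
  have e5 := le_er (Cs + C0 + Cd + Ca) ν
  have e6 := le_er C1 ν
  have hR := hl ν y x v hy
  have hR2 := hs x y v
  obtain ⟨k, hk⟩ : ∃ k, k = min (KS x v - a) (KS x (Nat.pair y v)) := ⟨_, rfl⟩
  obtain ⟨w, hwx, hw0, hwv, hwU, hwY, hwd⟩ := h1 ν x v (fun _ => y) k hx hv (fun _ => hy)
    (by omega) (fun _ => by omega)
  have hwy := hwY 0
  have hwx' := hwU x
  have hwxy := hwU (Nat.pair x y)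
  have hdx := hwd x
  have hdy := hwd y
  have el := hl' ν _ le_rfl
  refine ⟨Nat.pair w v, ?_, ?_, by omega, by omega, by omega, by omega, by omega⟩
  · have h2 := hl (2 ^ er C1 ν) w v 0 hw0
    have h3 := (hd v w 0).1
    have h4 : KS (Nat.pair w v) 0 ≤ (2 ^ er C1 ν + (ν + Cd)) + er Cl' ν := by omega
    refine h4.trans ((add_le_pow (C := C1 + (1 + Cd + 1) + 1) (add_le_pow le_rfl
      (add_le_pow (le_pow_er ν) (const_le_pow Cd ν))) (er_le_pow Cl' ν)).trans (pow_er_mono ν ?_))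
    omega
  · have h2 := hl (2 ^ er C1 ν) w v (Nat.pair x y) hw0
    have h3 := (hd v w (Nat.pair x y)).1
    have h4 := ha w (Nat.pair x y)
    simp only [Nat.unpair_pair] at h4
    omega

end Pool.Agent.Lib.H52K
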