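import Pool.Agent.Lib.H52K.F2

/-!
`v` from `step2`; `k₀ = KS (pair x y) v - KS (pair x y) z`, `k = min` of `k₀`, `KS (pair x y) (pair x v)`,
`KS (pair x y) (pair y v)`; by the chain rule `KS (pair x y) (pair x v) ≥ KS y (pair x v) - C ≥
KS (pair x y) v - KS x v - er ≥ k₀ + KS (pair x y) z - KS x z - er ≥ k₀ - er`. Apply `hash_step` with
`X = pair x y`, `Y = x, y`.
-/

namespace Pool.Agent.Lib.H52K

theorem step3 : ∃ C, ∀ ν x y z, KS x 0 ≤ ν → KS y 0 ≤ ν → KS z 0 ≤ ν → ∃ v,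
    KS v (Nat.pair x y) ≤ er C ν ∧
    KS x v ≤ KS x z + er C ν ∧ KS x z ≤ KS x v + er C ν ∧
    KS y v ≤ KS y z + er C ν ∧ KS y z ≤ KS y v + er C ν ∧
    KS (Nat.pair x y) v ≤ KS (Nat.pair x y) z + er C ν ∧
    KS (Nat.pair x y) z ≤ KS (Nat.pair x y) v + er C ν := by
  obtain ⟨C1, h1⟩ := step2
  obtain ⟨C2, h2⟩ := hash_step
  obtain ⟨Ca, ha⟩ := KS_fst
  obtain ⟨Cb, hb⟩ := KS_snd
  obtain ⟨Cs, hs⟩ := KS_swap
  obtain ⟨Cd, hd⟩ := KS_drop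
  obtain ⟨Cl, hl⟩ := KS_pair_le
  obtain ⟨Cq, hq⟩ := KS_pair_bound
  obtain ⟨C2', hC2⟩ := T_er C2 (1 + C1 + 1 + Cq + 1)
  obtain ⟨Cl', hCl⟩ := T_er Cl (C2 * (1 + C1 + 1 + Cq + 1 + 2))
  refine ⟨3 * C1 + 3 * C2' + Cl' + 3 * Cl + (Ca + Cb + Cs + Cd + C2), fun ν x y z hx hy hz => ?_⟩
  obtain ⟨v, a1, a2, a3, a4, a5, a6, a7⟩ := h1 ν x y z hx hy hz
  obtain ⟨N, hN⟩ : ∃ N, N = ν + 2 ^ er C1 ν + 2 ^ er Cq ν := ⟨_, rfl⟩
  have hbd : N ≤ 2 ^ er (1 + C1 + 1 + Cq + 1) ν :=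
    hN ▸ add_le_pow (add_le_pow (le_pow_er ν) le_rfl) le_rfl
  have hE := hC2 ν _ hbd
  have e1 := er_mul C1 3 ν
  have e2 := er_mul C2' 3 ν
  have e3 := er_mul Cl 3 ν
  have e4 := er_add (3 * C1) (3 * C2') ν
  have e5 := er_add (3 * C1 + 3 * C2') Cl' ν
  have e6 := er_add (3 * C1 + 3 * C2' + Cl') (3 * Cl) ν
  have e7 := er_add (3 * C1 + 3 * C2' + Cl' + 3 * Cl) (Ca + Cb + Cs + Cd + C2) ν
  have e8 := le_er (Ca + Cb + Cs + Cd + C2) ν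
  have hνN : ν ≤ N := hN ▸ (Nat.le_add_right _ _).trans (Nat.le_add_right _ _)
  have hx' : KS x 0 ≤ N := hx.trans hνN
  have hy' : KS y 0 ≤ N := hy.trans hνN
  have hv' : KS v 0 ≤ N := hN ▸ a1.trans ((Nat.le_add_left _ _).trans (Nat.le_add_right _ _))
  have hxy' : KS (Nat.pair x y) 0 ≤ N := hN ▸ (hq ν x y hx hy).trans (Nat.le_add_left _ _)
  have k1 := ha x y z
  have k2 := hb x y z
  have l1 := hl ν x y v hx
  have l2 := hl ν y x v hy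
  have l3 := hs x y v
  have m1 := hb x y (Nat.pair x v)
  have m2 := ha x y (Nat.pair y v)
  obtain ⟨k, hk⟩ : ∃ k, k = min (KS (Nat.pair x y) v - KS (Nat.pair x y) z)
    (min (KS (Nat.pair x y) (Nat.pair x v)) (KS (Nat.pair x y) (Nat.pair y v))) := ⟨_, rfl⟩
  obtain ⟨w, w1, w2, w3, w4, w5, w6⟩ := h2 N (Nat.pair x y) v ![x, y] k hxy' hv'
    (by intro i; fin_cases i <;> simpa) (by omega)
    (by intro i; fin_cases i <;> simp <;> omega)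
  have w5x := w5 0
  have w5y := w5 1
  simp only [Matrix.cons_val_zero, Matrix.cons_val_one] at w5x w5y
  have w6x := w6 x
  have w6y := w6 y
  have w4' := w4 (Nat.pair x y)
  have hw0 : KS w 0 ≤ 2 ^ er (C2 * (1 + C1 + 1 + Cq + 1 + 2)) ν :=
    w2.trans (Nat.pow_le_pow_right (by norm_num) ((er_mono_right C2 hbd).trans (er_pow _ _ _)))
  have hEl := hCl ν _ le_rfl
  have n1 := hl _ w v (Nat.pair x y) hw0
  have n2 := (hd v w (Nat.pair x y)).1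
  exact ⟨Nat.pair w v, by omega, by omega, by omega, by omega, by omega, by omega, by omega⟩

end Pool.Agent.Lib.H52K
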