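import Pool.Agent.Lib.H52K.F3

/-!
`step3` with `ν = n + KS z 0` and `er_log`.
-/

namespace Pool.Agent.Lib.H52K

/-- The algorithmic Ahlswede-Koerner lemma with error `O(log (n + KS z 0))`. -/
theorem main : ∃ C : ℕ, ∀ n x y z : ℕ, KS x 0 ≤ n → KS y 0 ≤ n → ∃ z' : ℕ,
    |(KS x z : ℤ) - (KS x z' : ℤ)| ≤ ((C * Nat.log 2 (n + KS z 0) + C : ℕ) : ℤ) ∧
    |(KS y z : ℤ) - (KS y z' : ℤ)| ≤ ((C * Nat.log 2 (n + KS z 0) + C : ℕ) : ℤ) ∧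
    |(KS (Nat.pair x y) z : ℤ) - (KS (Nat.pair x y) z' : ℤ)|
      ≤ ((C * Nat.log 2 (n + KS z 0) + C : ℕ) : ℤ) ∧
    KS z' (Nat.pair x y) ≤ C * Nat.log 2 (n + KS z 0) + C := by
  obtain ⟨C, h⟩ := step3
  refine ⟨2 * C, fun n x y z hx hy => ?_⟩
  obtain ⟨v, a1, a2, a3, a4, a5, a6, a7⟩ := h (n + KS z 0) x y z (by omega) (by omega) (by omega)
  have e := er_log C (n + KS z 0)
  refine ⟨v, ?_, ?_, ?_, by omega⟩
  · rw [abs_le]; omega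
  · rw [abs_le]; omega
  · rw [abs_le]; omega

end Pool.Agent.Lib.H52K
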