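import Pool.Agent.Lib.H52K.Defs

/-!
Two lemmas on online strategies (recursion on reversed lists and choice).
-/

namespace Pool.Agent.Lib.H52K

/-- The list with labels produced by the online labelling `mk`. -/
def label {α : Type} (mk : List α → Bool) (B : List α) : List (α × Bool) :=
  (List.range B.length).filterMap fun r => B[r]?.map fun a => (a, mk (B.take (r + 1)))

theorem label_append {α : Type} (mk : List α → Bool) (B : List α) (a : α) :
    label mk (B ++ [a]) = label mk B ++ [(a, mk (B ++ [a]))] := by
  unfold label
  rw [List.length_append, List.length_singleton, List.range_succ, List.filterMap_append]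
  congr 1
  · apply List.filterMap_congr
    intro r hr
    have hr' : r < B.length := List.mem_range.1 hr
    rw [List.getElem?_append_left hr', List.take_append_of_le_length (by omega)]
  · simp only [List.filterMap_cons, List.filterMap_nil, List.getElem?_append_right le_rfl,
      Nat.sub_self, List.getElem?_cons_zero, Option.map_some]
    rw [List.take_of_length_le (by simp)]

/-- The labelled list of the reversed list. -/
noncomputable def g0_aux {α : Type} (Φ : List (α × Bool) → ℝ) : List α → List (α × Bool)
  | [] => []
  | a :: B => g0_aux Φ B ++ [(a, @decide (Φ (g0_aux Φ B ++ [(a, true)]) < 1) (Classical.dec _))]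

/-- Derandomisation: a potential that can always be kept below `1`. -/
theorem online_bool {α : Type} (Φ : List (α × Bool) → ℝ) (T : ℕ) (h0 : Φ [] < 1)
    (hstep : ∀ H : List (α × Bool), H.length < T → Φ H < 1 → ∀ a, ∃ b, Φ (H ++ [(a, b)]) < 1) :
    ∃ mk : List α → Bool, ∀ B : List α, B.length ≤ T → Φ (label mk B) < 1 := by
  classical
  refine ⟨fun B => match B.reverse with
    | [] => false
    | a :: B' => @decide (Φ (g0_aux Φ B' ++ [(a, true)]) < 1) (Classical.dec _), ?_⟩
  have key : ∀ B : List α, label (fun B => match B.reverse with
    | [] => false
    | a :: B' => @decide (Φ (g0_aux Φ B' ++ [(a, true)]) < 1) (Classical.dec _)) B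
      = g0_aux Φ B.reverse := by
    intro B
    induction B using List.reverseRecOn with
    | nil => simp [label, g0_aux]
    | append_singleton B a ih =>
      rw [label_append, ih]
      simp only [List.reverse_append, List.reverse_cons, List.reverse_nil, List.nil_append,
        List.singleton_append]
      rfl
  intro B hB
  rw [key]
  induction B using List.reverseRecOn with
  | nil => simpa [g0_aux] using h0
  | append_singleton B a ih =>
    have hlen : B.length < T := by
      rw [List.length_append, List.length_singleton] at hB
      omega
    have ih' := ih (by omega)
    have hl : (g0_aux Φ B.reverse).length = B.length := by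
      have : ∀ L : List α, (g0_aux Φ L).length = L.length := by
        intro L
        induction L with
        | nil => simp [g0_aux]
        | cons x L ihL => simp [g0_aux, ihL]
      rw [this, List.length_reverse]
    obtain ⟨b, hb⟩ := hstep (g0_aux Φ B.reverse) (by omega) ih' a
    rw [List.reverse_append]
    simp only [List.reverse_cons, List.reverse_nil, List.nil_append, List.singleton_append]
    show Φ (g0_aux Φ B.reverse ++ [(a, @decide (Φ (g0_aux Φ B.reverse ++ [(a, true)]) < 1)
      (Classical.dec _))]) < 1
    by_cases hc : Φ (g0_aux Φ B.reverse ++ [(a, true)]) < 1
    · rw [decide_eq_true hc]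
      exact hc
    · rw [decide_eq_false hc]
      cases b with
      | false => exact hb
      | true => exact absurd hb hc

/-- The online strategy on reversed lists. -/
noncomputable def g0_ext {α β : Type} (P : List α → List β → Prop) : List α → List β
  | [] => []
  | e :: H => g0_ext P H ++ @dite _ (∃ Z, P ((e :: H).reverse) (g0_ext P H ++ Z))
      (Classical.dec _) (fun h => h.choose) (fun _ => [])

/-- General online strategies: an invariant that can always be kept. -/
theorem online_ext {α β : Type} (legal : List α → Prop)
    (hleg : ∀ H e, legal (H ++ [e]) → legal H) (P : List α → List β → Prop) (h0 : P [] [])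
    (hstep : ∀ H e, legal (H ++ [e]) → ∀ A, P H A → ∃ Z, P (H ++ [e]) (A ++ Z)) :
    ∃ A : List α → List β, (∀ H e, A H <+: A (H ++ [e])) ∧ ∀ H, legal H → P H (A H) := by
  classical
  refine ⟨fun H => g0_ext P H.reverse, ?_, ?_⟩
  · intro H e
    simp only [List.reverse_append, List.reverse_cons, List.reverse_nil, List.nil_append,
      List.singleton_append]
    exact List.prefix_append _ _
  · intro H
    induction H using List.reverseRecOn with
    | nil => intro _; simpa [g0_ext] using h0
    | append_singleton H e ih =>
      intro hl
      have ih' := ih (hleg H e hl)
      have hex := hstep H e hl _ ih'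
      simp only [List.reverse_append, List.reverse_cons, List.reverse_nil, List.nil_append,
        List.singleton_append]
      have hex' : ∃ Z, P ((e :: H.reverse).reverse) (g0_ext P H.reverse ++ Z) := by
        simpa using hex
      have hc := hex'.choose_spec
      have hunf : g0_ext P (e :: H.reverse) = g0_ext P H.reverse ++ hex'.choose := by
        show g0_ext P H.reverse ++ @dite _ (∃ Z, P ((e :: H.reverse).reverse)
          (g0_ext P H.reverse ++ Z)) (Classical.dec _) (fun h => h.choose) (fun _ => []) = _
        rw [dif_pos hex']
      rw [hunf]
      simpa using hc

end Pool.Agent.Lib.H52K
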