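import Pool.Agent.Lib.H52K.G0

/-!
Let `m_j = 2 κ 2^j`, `u_j = 4 q m_j n`. For `Ξ : Fin m_j → Fin (2^n)` let `c(Ξ)` be the number of blocks
so far with `κ ≤ hits Ξ β`. Potential (for a list of blocks with marks of length `r ≤ T`, `T ≥ 1`):
`Φ = Σ_{j ≤ E+1} Σ_{Ξ without marked charged block} (1 - 1/q)^(u_j - c(Ξ)) + (q/(4T)) (number of marks +
(T - r)/q)`. The exponent is a difference of natural numbers (as long as `Φ < 1` we have `c(Ξ) < u_j` for
the `Ξ` in the sum, because `(1 - 1/q)^0 = 1`). Initially `Φ ≤ Σ_j 2^(n m_j) (1 - 1/q)^(4 q m_j n) + 1/4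
≤ Σ_j 2^(-3 n m_j) + 1/4 < 1` as `(1 - 1/q)^q ≤ 1/2`. The average of `Φ` after marking (with weight `1/q`) and
after not marking (with weight `1 - 1/q`) is at most `Φ`, so one of the two choices does not increase it. At the end
`(q/(4T)) (number of marks) < 1` and no `Ξ` with `c(Ξ) ≥ u_j` is in the sum.
-/

namespace Pool.Agent.Lib.H52K

theorem g1_label_map {α : Type} (mk : List α → Bool) (B : List α) :
    (label mk B).map Prod.fst = B := by
  induction B using List.reverseRecOn with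
  | nil => simp [label]
  | append_singleton B a ih => rw [label_append, List.map_append, ih]; simp

theorem g1_label_mem {α : Type} (mk : List α → Bool) (d : α) (B : List α) (p : α × Bool)
    (hp : p ∈ label mk B) : ∃ r < B.length, p = (B.getD r d, mk (B.take (r + 1))) := by
  unfold label at hp
  obtain ⟨r, hr, h⟩ := List.mem_filterMap.1 hp
  have hr' : r < B.length := List.mem_range.1 hr
  refine ⟨r, hr', ?_⟩
  rw [List.getElem?_eq_getElem hr', Option.map_some, Option.some_inj] at h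
  rw [← h, List.getD_eq_getElem?_getD, List.getElem?_eq_getElem hr', Option.getD_some]

theorem g1_label_count {α : Type} (mk : List α → Bool) (B : List α) :
    ((label mk B).filter fun p => p.2).length =
      ((List.range B.length).filter fun r => mk (B.take (r + 1))).length := by
  induction B using List.reverseRecOn with
  | nil => simp [label]
  | append_singleton B a ih =>
    rw [label_append, List.filter_append, List.length_append, ih, List.length_append,
      List.length_singleton, List.range_succ, List.filter_append, List.length_append]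
    congr 1
    · congr 1
      apply List.filter_congr
      intro r hr
      have hr' : r < B.length := List.mem_range.1 hr
      rw [List.take_append_of_le_length (by omega)]
    · rw [List.filter_cons, List.filter_nil, List.filter_cons, List.filter_nil,
        List.take_of_length_le (by simp)]
      cases mk (B ++ [a]) <;> simp

/-- The summand of the potential. -/
noncomputable def g1_t (q u κ : ℕ) {m : ℕ} (Ξ : Fin m → ℕ) (L : List (List ℕ × Bool)) : ℝ :=
  @ite ℝ (∃ p ∈ L, p.2 = true ∧ κ ≤ hits Ξ p.1) (Classical.dec _) 0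
    ((1 - 1 / (q : ℝ)) ^ (u - (L.filter fun p => κ ≤ hits Ξ p.1).length))

theorem g1_q (q : ℕ) (hq : 1 ≤ q) : 0 ≤ 1 - 1 / (q : ℝ) ∧ 1 - 1 / (q : ℝ) ≤ 1 := by
  have h1 : (1 : ℝ) ≤ q := by exact_mod_cast hq
  have h2 : 1 / (q : ℝ) ≤ 1 := by rw [div_le_one (by linarith)]; exact h1
  have h3 : 0 ≤ 1 / (q : ℝ) := by positivity
  constructor <;> linarith

theorem g1_t_nonneg (q u κ : ℕ) (hq : 1 ≤ q) {m : ℕ} (Ξ : Fin m → ℕ)
    (L : List (List ℕ × Bool)) : 0 ≤ g1_t q u κ Ξ L := by
  unfold g1_t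
  by_cases h : ∃ p ∈ L, p.2 = true ∧ κ ≤ hits Ξ p.1
  · rw [if_pos h]
  · rw [if_neg h]
    exact pow_nonneg (g1_q q hq).1 _

/-- If the summand is less than `1`, the sample hits a marked block or `c < u`. -/
theorem g1_t_lt (q u κ : ℕ) {m : ℕ} (Ξ : Fin m → ℕ) (L : List (List ℕ × Bool))
    (h : g1_t q u κ Ξ L < 1) : (∃ p ∈ L, p.2 = true ∧ κ ≤ hits Ξ p.1) ∨
      (L.filter fun p => κ ≤ hits Ξ p.1).length < u := by
  by_cases hm : ∃ p ∈ L, p.2 = true ∧ κ ≤ hits Ξ p.1
  · exact Or.inl hm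
  · right
    by_contra hc
    unfold g1_t at h
    rw [if_neg hm, Nat.sub_eq_zero_of_le (not_lt.1 hc), pow_zero] at h
    exact lt_irrefl _ h

theorem g1_t_avg (q u κ : ℕ) {m : ℕ} (Ξ : Fin m → ℕ) (L : List (List ℕ × Bool))
    (β : List ℕ) (h : g1_t q u κ Ξ L < 1) :
    (1 / (q : ℝ)) * g1_t q u κ Ξ (L ++ [(β, true)])
      + (1 - 1 / (q : ℝ)) * g1_t q u κ Ξ (L ++ [(β, false)]) = g1_t q u κ Ξ L := by
  have hlt := g1_t_lt q u κ Ξ L h
  by_cases hm : ∃ p ∈ L, p.2 = true ∧ κ ≤ hits Ξ p.1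
  · have h1 : ∀ b, ∃ p ∈ L ++ [(β, b)], p.2 = true ∧ κ ≤ hits Ξ p.1 := by
      intro b
      obtain ⟨p, hp, hp2⟩ := hm
      exact ⟨p, List.mem_append_left _ hp, hp2⟩
    unfold g1_t
    rw [if_pos hm, if_pos (h1 true), if_pos (h1 false)]
    ring
  · have hc : (L.filter fun p => κ ≤ hits Ξ p.1).length < u := by
      rcases hlt with h' | h'
      · exact absurd h' hm
      · exact h'
    have hmf : ¬ ∃ p ∈ L ++ [(β, false)], p.2 = true ∧ κ ≤ hits Ξ p.1 := by
      rintro ⟨p, hp, hp2, hp3⟩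
      rcases List.mem_append.1 hp with hp | hp
      · exact hm ⟨p, hp, hp2, hp3⟩
      · rw [List.mem_singleton.1 hp] at hp2
        exact Bool.false_ne_true hp2
    by_cases hβ : κ ≤ hits Ξ β
    · have hmt : ∃ p ∈ L ++ [(β, true)], p.2 = true ∧ κ ≤ hits Ξ p.1 :=
        ⟨(β, true), List.mem_append_right _ (List.mem_singleton.2 rfl), rfl, hβ⟩
      unfold g1_t
      rw [if_neg hm, if_pos hmt, if_neg hmf, List.filter_append, List.length_append]
      have e1 : (List.filter (fun p : List ℕ × Bool => decide (κ ≤ hits Ξ p.1)) [(β, false)]).length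
          = 1 := by
        rw [List.filter_cons, if_pos (decide_eq_true hβ)]
        rfl
      rw [e1]
      have e2 : u - (List.filter (fun p : List ℕ × Bool => decide (κ ≤ hits Ξ p.1)) L).length
          = (u - ((List.filter (fun p : List ℕ × Bool => decide (κ ≤ hits Ξ p.1)) L).length + 1))
            + 1 := by omega
      rw [e2, pow_succ]
      ring
    · have hmt : ¬ ∃ p ∈ L ++ [(β, true)], p.2 = true ∧ κ ≤ hits Ξ p.1 := by
        rintro ⟨p, hp, hp2, hp3⟩
        rcases List.mem_append.1 hp with hp | hp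
        · exact hm ⟨p, hp, hp2, hp3⟩
        · rw [List.mem_singleton.1 hp] at hp3
          exact hβ hp3
      unfold g1_t
      rw [if_neg hm, if_neg hmt, if_neg hmf, List.filter_append, List.filter_append,
        List.length_append, List.length_append]
      have e1 : ∀ b, (List.filter (fun p : List ℕ × Bool => decide (κ ≤ hits Ξ p.1))
          [(β, b)]).length = 0 := by
        intro b
        rw [List.filter_cons, if_neg (by simpa using hβ)]
        rfl
      rw [e1, e1, Nat.add_zero]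
      ring

/-- The potential. -/
noncomputable def g1_P (n κ q E T : ℕ) (L : List (List ℕ × Bool)) : ℝ :=
  (∑ j ∈ Finset.range (E + 2), ∑ Ξ : Fin (2 * κ * 2 ^ j) → Fin (2 ^ n),
    g1_t q (4 * q * (2 * κ * 2 ^ j) * n) κ (fun i => (Ξ i : ℕ)) L) +
  ((q : ℝ) / (4 * T)) * (((L.filter fun p => p.2).length : ℝ) + ((T : ℝ) - L.length) / q)

theorem g1_sum_nonneg (n κ q E : ℕ) (hq : 1 ≤ q) (L : List (List ℕ × Bool)) :
    0 ≤ ∑ j ∈ Finset.range (E + 2), ∑ Ξ : Fin (2 * κ * 2 ^ j) → Fin (2 ^ n),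
    g1_t q (4 * q * (2 * κ * 2 ^ j) * n) κ (fun i => (Ξ i : ℕ)) L :=
  Finset.sum_nonneg fun _ _ => Finset.sum_nonneg fun _ _ => g1_t_nonneg _ _ _ hq _ _

/-- If the potential is less than `1`, all summands are less than `1`, and so is the second part. -/
theorem g1_P_lt (n κ q E T : ℕ) (hq : 1 ≤ q) (L : List (List ℕ × Bool)) (hL : L.length ≤ T)
    (h : g1_P n κ q E T L < 1) :
    (∀ j ≤ E + 1, ∀ Ξ : Fin (2 * κ * 2 ^ j) → Fin (2 ^ n),
      g1_t q (4 * q * (2 * κ * 2 ^ j) * n) κ (fun i => (Ξ i : ℕ)) L < 1) ∧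
    ((q : ℝ) / (4 * T)) * ((L.filter fun p => p.2).length : ℝ) < 1 := by
  have hq' : (0 : ℝ) < q := by exact_mod_cast hq
  have hLT : (L.length : ℝ) ≤ T := by exact_mod_cast hL
  have h2 : 0 ≤ ((q : ℝ) / (4 * T)) * (((T : ℝ) - L.length) / q) :=
    mul_nonneg (by positivity) (div_nonneg (by linarith) hq'.le)
  have h3 : 0 ≤ ((q : ℝ) / (4 * T)) * ((L.filter fun p => p.2).length : ℝ) := by positivity
  have h4 := g1_sum_nonneg n κ q E hq L
  unfold g1_P at h
  rw [mul_add] at h
  constructor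
  · intro j hj Ξ
    have h5 : g1_t q (4 * q * (2 * κ * 2 ^ j) * n) κ (fun i => (Ξ i : ℕ)) L ≤
        ∑ Ξ : Fin (2 * κ * 2 ^ j) → Fin (2 ^ n),
          g1_t q (4 * q * (2 * κ * 2 ^ j) * n) κ (fun i => (Ξ i : ℕ)) L :=
      Finset.single_le_sum (f := fun Ξ : Fin (2 * κ * 2 ^ j) → Fin (2 ^ n) =>
        g1_t q (4 * q * (2 * κ * 2 ^ j) * n) κ (fun i => (Ξ i : ℕ)) L)
        (fun _ _ => g1_t_nonneg _ _ _ hq _ _) (Finset.mem_univ Ξ)
    have h6 := Finset.single_le_sum (f := fun j => ∑ Ξ : Fin (2 * κ * 2 ^ j) → Fin (2 ^ n),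
          g1_t q (4 * q * (2 * κ * 2 ^ j) * n) κ (fun i => (Ξ i : ℕ)) L)
        (s := Finset.range (E + 2))
        (fun _ _ => Finset.sum_nonneg fun _ _ => g1_t_nonneg _ _ _ hq _ _)
        (Finset.mem_range.2 (by omega : j < E + 2))
    linarith
  · linarith

theorem g1_step (n κ q E T : ℕ) (hq : 1 ≤ q) (L : List (List ℕ × Bool))
    (hL : L.length < T) (h : g1_P n κ q E T L < 1) (β : List ℕ) :
    ∃ b, g1_P n κ q E T (L ++ [(β, b)]) < 1 := by
  have hq' : (0 : ℝ) < q := by exact_mod_cast hq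
  have h1 := (g1_P_lt n κ q E T hq L hL.le h).1
  have hsum : (1 / (q : ℝ)) * g1_P n κ q E T (L ++ [(β, true)])
      + (1 - 1 / (q : ℝ)) * g1_P n κ q E T (L ++ [(β, false)]) = g1_P n κ q E T L := by
    unfold g1_P
    have e1 : ∑ j ∈ Finset.range (E + 2), ∑ Ξ : Fin (2 * κ * 2 ^ j) → Fin (2 ^ n),
        g1_t q (4 * q * (2 * κ * 2 ^ j) * n) κ (fun i => (Ξ i : ℕ)) L =
        (1 / (q : ℝ)) * (∑ j ∈ Finset.range (E + 2), ∑ Ξ : Fin (2 * κ * 2 ^ j) → Fin (2 ^ n),
          g1_t q (4 * q * (2 * κ * 2 ^ j) * n) κ (fun i => (Ξ i : ℕ)) (L ++ [(β, true)]))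
        + (1 - 1 / (q : ℝ)) * (∑ j ∈ Finset.range (E + 2),
          ∑ Ξ : Fin (2 * κ * 2 ^ j) → Fin (2 ^ n),
          g1_t q (4 * q * (2 * κ * 2 ^ j) * n) κ (fun i => (Ξ i : ℕ)) (L ++ [(β, false)])) := by
      rw [Finset.mul_sum, Finset.mul_sum, ← Finset.sum_add_distrib]
      refine Finset.sum_congr rfl fun j hj => ?_
      rw [Finset.mul_sum, Finset.mul_sum, ← Finset.sum_add_distrib]
      refine Finset.sum_congr rfl fun Ξ _ => ?_
      rw [g1_t_avg q _ κ _ L β (h1 j (by have := Finset.mem_range.1 hj; omega) Ξ)]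
    rw [e1]
    have e2 : (((L ++ [(β, true)]).filter fun p => p.2).length : ℝ)
        = ((L.filter fun p => p.2).length : ℝ) + 1 := by
      rw [List.filter_append, List.length_append]
      simp
    have e3 : (((L ++ [(β, false)]).filter fun p => p.2).length : ℝ)
        = ((L.filter fun p => p.2).length : ℝ) := by
      rw [List.filter_append, List.length_append]
      simp
    rw [e2, e3, List.length_append, List.length_append, List.length_singleton,
      List.length_singleton]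
    push_cast
    field_simp
    ring
  by_contra hcon
  push Not at hcon
  have ht := hcon true
  have hf := hcon false
  have h2 := (g1_q q hq).1
  have h3 : 0 ≤ 1 / (q : ℝ) := by positivity
  have h4 : 1 ≤ (1 / (q : ℝ)) * g1_P n κ q E T (L ++ [(β, true)])
      + (1 - 1 / (q : ℝ)) * g1_P n κ q E T (L ++ [(β, false)]) := by
    calc (1 : ℝ) = (1 / (q : ℝ)) * 1 + (1 - 1 / (q : ℝ)) * 1 := by ring
      _ ≤ _ := add_le_add (mul_le_mul_of_nonneg_left ht h3) (mul_le_mul_of_nonneg_left hf h2)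
  linarith

theorem g1_half (q : ℕ) (hq : 1 ≤ q) : (1 - 1 / (q : ℝ)) ^ q ≤ 1 / 2 := by
  have hq' : (0 : ℝ) < q := by exact_mod_cast hq
  have h1 : 1 - 1 / (q : ℝ) ≤ Real.exp (-(1 / (q : ℝ))) := by
    have := Real.add_one_le_exp (-(1 / (q : ℝ)))
    linarith
  calc (1 - 1 / (q : ℝ)) ^ q ≤ (Real.exp (-(1 / (q : ℝ)))) ^ q :=
        pow_le_pow_left₀ (g1_q q hq).1 h1 _
    _ = Real.exp (-1) := by
        rw [← Real.exp_nat_mul]
        congr 1
        field_simp
    _ ≤ 1 / 2 := by
        rw [Real.exp_neg, one_div]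
        apply inv_anti₀ (by norm_num)
        have := Real.add_one_le_exp (1 : ℝ)
        linarith

theorem g1_init (n κ q E T : ℕ) (hn : 1 ≤ n) (hκ : 1 ≤ κ) (hq : 1 ≤ q) :
    g1_P n κ q E T [] < 1 := by
  have hq' : (0 : ℝ) < q := by exact_mod_cast hq
  unfold g1_P
  have h1 : ∀ j ∈ Finset.range (E + 2), ∑ Ξ : Fin (2 * κ * 2 ^ j) → Fin (2 ^ n),
      g1_t q (4 * q * (2 * κ * 2 ^ j) * n) κ (fun i => (Ξ i : ℕ)) [] ≤ (1 / 4 : ℝ) * (1 / 2) ^ j := by
    intro j _
    set m := 2 * κ * 2 ^ j with hm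
    have hm1 : j + 2 ≤ m := by
      have h3 : j + 1 ≤ 2 ^ j := Nat.succ_le_of_lt Nat.lt_two_pow_self
      have : 2 * 1 * 2 ^ j ≤ 2 * κ * 2 ^ j := by gcongr
      omega
    have e1 : ∀ Ξ : Fin m → Fin (2 ^ n),
        g1_t q (4 * q * m * n) κ (fun i => (Ξ i : ℕ)) [] = (1 - 1 / (q : ℝ)) ^ (4 * q * m * n) := by
      intro Ξ
      unfold g1_t
      rw [if_neg (by simp)]
      simp
    rw [Finset.sum_congr rfl fun Ξ _ => e1 Ξ, Finset.sum_const, Finset.card_univ,
      Fintype.card_fun, Fintype.card_fin, Fintype.card_fin, nsmul_eq_mul]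
    have e2 : (1 - 1 / (q : ℝ)) ^ (4 * q * m * n) ≤ (1 / 2) ^ (4 * m * n) := by
      have : 4 * q * m * n = q * (4 * m * n) := by ring
      rw [this, pow_mul]
      exact pow_le_pow_left₀ (pow_nonneg (g1_q q hq).1 _) (g1_half q hq) _
    push_cast
    calc ((2 : ℝ) ^ n) ^ m * (1 - 1 / (q : ℝ)) ^ (4 * q * m * n)
        ≤ ((2 : ℝ) ^ n) ^ m * (1 / 2) ^ (4 * m * n) :=
          mul_le_mul_of_nonneg_left e2 (by positivity)
      _ = (1 / 2) ^ (3 * (m * n)) := by
          have e3 : ((2 : ℝ) ^ n) ^ m = 2 ^ (m * n) := by rw [← pow_mul, mul_comm]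
          have e4 : 4 * m * n = 3 * (m * n) + m * n := by ring
          rw [e3, e4, pow_add]
          have e5 : (2 : ℝ) ^ (m * n) * ((1 / 2) ^ (3 * (m * n)) * (1 / 2) ^ (m * n))
              = (1 / 2) ^ (3 * (m * n)) * ((2 : ℝ) * (1 / 2)) ^ (m * n) := by
            rw [mul_pow]; ring
          rw [e5]
          norm_num
      _ ≤ (1 / 2) ^ (2 + j) := by
          apply pow_le_pow_of_le_one (by norm_num) (by norm_num)
          have : m * 1 ≤ m * n := by gcongr
          omega
      _ = (1 / 4 : ℝ) * (1 / 2) ^ j := by rw [pow_add]; norm_num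
  have h2 : ∑ j ∈ Finset.range (E + 2), ∑ Ξ : Fin (2 * κ * 2 ^ j) → Fin (2 ^ n),
      g1_t q (4 * q * (2 * κ * 2 ^ j) * n) κ (fun i => (Ξ i : ℕ)) [] ≤ 1 / 2 := by
    refine (Finset.sum_le_sum h1).trans ?_
    rw [← Finset.mul_sum]
    have h3 : ∑ j ∈ Finset.range (E + 2), (1 / 2 : ℝ) ^ j ≤ 2 := by
      rw [geom_sum_eq (by norm_num)]
      have : (0 : ℝ) ≤ (1 / 2) ^ (E + 2) := by positivity
      have e : ((1 / 2 : ℝ) ^ (E + 2) - 1) / (1 / 2 - 1) = 2 - 2 * (1 / 2) ^ (E + 2) := by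
        ring
      rw [e]
      linarith
    linarith
  have h4 : ((q : ℝ) / (4 * T)) * ((((([] : List (List ℕ × Bool)).filter fun p => p.2).length : ℕ) : ℝ)
      + ((T : ℝ) - ([] : List (List ℕ × Bool)).length) / q) ≤ 1 / 4 := by
    simp only [List.filter_nil, List.length_nil, Nat.cast_zero, zero_add, sub_zero]
    rcases Nat.eq_zero_or_pos T with hT | hT
    · subst hT; norm_num
    · have hT' : (0 : ℝ) < T := by exact_mod_cast hT
      apply le_of_eq
      field_simp
  linarith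

/-- Online marking of blocks (deterministic, by a potential function). -/
theorem marks_exist (n κ q E T : ℕ) (hn : 1 ≤ n) (hκ : 1 ≤ κ) (hq : 1 ≤ q) :
    ∃ mk : List (List ℕ) → Bool, ∀ B : List (List ℕ), B.length ≤ T →
      q * ((List.range B.length).filter fun r => mk (B.take (r + 1))).length ≤ 4 * T ∧
      ∀ j ≤ E + 1, ∀ Ξ : Fin (2 * κ * 2 ^ j) → ℕ, (∀ i, Ξ i < 2 ^ n) →
        4 * q * (2 * κ * 2 ^ j) * n ≤ (B.filter fun β => κ ≤ hits Ξ β).length →
          ∃ r < B.length, mk (B.take (r + 1)) = true ∧ κ ≤ hits Ξ (B.getD r []) := by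
  obtain ⟨mk, hmk⟩ := online_bool (g1_P n κ q E T) T (g1_init n κ q E T hn hκ hq)
    (fun L hL h β => g1_step n κ q E T hq L hL h β)
  refine ⟨mk, fun B hB => ?_⟩
  have hlen : (label mk B).length = B.length := by
    rw [← List.length_map (f := Prod.fst), g1_label_map]
  obtain ⟨h1, h2⟩ := g1_P_lt n κ q E T hq (label mk B) (by omega) (hmk B hB)
  constructor
  · rw [g1_label_count] at h2
    rcases Nat.eq_zero_or_pos T with hT | hT
    · have : B.length = 0 := by omega
      rw [this]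
      simp
    · have hT' : (0 : ℝ) < T := by exact_mod_cast hT
      have h3 : (q : ℝ) * (((List.range B.length).filter fun r => mk (B.take (r + 1))).length : ℝ)
          < 4 * T := by
        have h4 : ((q : ℝ) / (4 * T)) *
            (((List.range B.length).filter fun r => mk (B.take (r + 1))).length : ℝ)
            = (q : ℝ) * (((List.range B.length).filter fun r => mk (B.take (r + 1))).length : ℝ)
              / (4 * T) := by ring
        rw [h4, div_lt_one (by positivity)] at h2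
        exact h2
      have h5 : q * ((List.range B.length).filter fun r => mk (B.take (r + 1))).length < 4 * T := by
        exact_mod_cast h3
      exact h5.le
  · intro j hj Ξ hΞ hc
    have h3 := h1 j hj (fun i => ⟨Ξ i, hΞ i⟩)
    simp only at h3
    rcases g1_t_lt _ _ _ _ _ h3 with hm | hm
    · obtain ⟨p, hp, hp2, hp3⟩ := hm
      obtain ⟨r, hr, rfl⟩ := g1_label_mem mk [] B p hp
      exact ⟨r, hr, hp2, hp3⟩
    · exfalso
      have e1 : ((label mk B).filter fun p => κ ≤ hits Ξ p.1).length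
          = (B.filter fun β => κ ≤ hits Ξ β).length := by
        have := List.filter_map (f := Prod.fst) (p := fun β : List ℕ => decide (κ ≤ hits Ξ β))
          (l := label mk B)
        rw [g1_label_map] at this
        rw [this, List.length_map]
        rfl
      rw [e1] at hm
      omega

end Pool.Agent.Lib.H52K
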