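import Pool.Agent.Lib.H52K.G1

/-!
`Mk H` is the set of the keys number `r` in `keys H` with `mk (contents.take (r + 1))`, where
`contents = (blks H).map Prod.snd`. The keys of a legal history have no repetitions.
-/

namespace Pool.Agent.Lib.H52K

theorem g1b_lookup {β : Type} (l : List (ℕ × β)) (hl : (l.map Prod.fst).Nodup) (p : ℕ × β)
    (hp : p ∈ l) : l.lookup p.1 = some p.2 := by
  induction l with
  | nil => simp at hp
  | cons a l ih =>
    rw [List.map_cons, List.nodup_cons] at hl
    rcases List.mem_cons.1 hp with rfl | hp'
    · rw [List.lookup_cons]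
      simp
    · have hne : p.1 ≠ a.1 := by
        intro h
        apply hl.1
        rw [← h]
        exact List.mem_map_of_mem hp'
      rw [List.lookup_cons]
      have : (p.1 == a.1) = false := by simpa using hne
      rw [this]
      exact ih hl.2 hp'

theorem g1b_blkOf (H : List REv) (hk : (keys H).Nodup) (p : ℕ × List ℕ) (hp : p ∈ blks H) :
    blkOf H p.1 = p.2 := by
  unfold blkOf
  rw [g1b_lookup (blks H) hk p hp]
  rfl

theorem g1b_blks_append (H : List REv) (e : REv) : ∃ Z, blks (H ++ [e]) = blks H ++ Z := by
  unfold blks
  rw [List.filterMap_append]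
  exact ⟨_, rfl⟩

theorem g1b_getD {α : Type} (l Z : List α) (r : ℕ) (hr : r < l.length) (d : α) :
    (l ++ Z).getD r d = l.getD r d := by
  rw [List.getD_eq_getElem?_getD, List.getD_eq_getElem?_getD, List.getElem?_append_left hr]

theorem marks_hist (n κ q E S T W : ℕ) (hn : 1 ≤ n) (hκ : 1 ≤ κ) (hq : 1 ≤ q) :
    ∃ Mk : List REv → Finset ℕ, (∀ H e, Mk H ⊆ Mk (H ++ [e])) ∧
      ∀ H, RLegal n S T W E H → q * (Mk H).card ≤ 4 * T ∧ Marked n q κ E H (Mk H) := by
  obtain ⟨mk, hmk⟩ := marks_exist n κ q E T hn hκ hq
  refine ⟨fun H => (((List.range (blks H).length).filter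
    fun r => mk (((blks H).map Prod.snd).take (r + 1))).map fun r => (keys H).getD r 0).toFinset,
    ?_, ?_⟩
  · intro H e k hk
    rw [List.mem_toFinset, List.mem_map] at hk ⊢
    obtain ⟨r, hr, rfl⟩ := hk
    rw [List.mem_filter, List.mem_range] at hr
    obtain ⟨Z, hZ⟩ := g1b_blks_append H e
    refine ⟨r, ?_, ?_⟩
    · rw [List.mem_filter, List.mem_range, hZ, List.length_append, List.map_append,
        List.take_append_of_le_length (by rw [List.length_map]; omega)]
      exact ⟨by omega, hr.2⟩
    · unfold keys
      rw [hZ, List.map_append, g1b_getD _ _ _ (by rw [List.length_map]; exact hr.1)]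
  · intro H hL
    have hB : ((blks H).map Prod.snd).length ≤ T := by
      rw [List.length_map]; exact hL.nblk
    obtain ⟨h1, h2⟩ := hmk ((blks H).map Prod.snd) hB
    rw [List.length_map] at h1
    constructor
    · refine le_trans (Nat.mul_le_mul_left q ?_) h1
      refine (List.toFinset_card_le _).trans ?_
      rw [List.length_map]
    · constructor
      · intro k hk
        rw [List.mem_toFinset, List.mem_map] at hk
        obtain ⟨r, hr, rfl⟩ := hk
        rw [List.mem_filter, List.mem_range] at hr
        have hr' : r < (keys H).length := by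
          unfold keys; rw [List.length_map]; exact hr.1
        rw [List.getD_eq_getElem?_getD, List.getElem?_eq_getElem hr', Option.getD_some]
        exact List.getElem_mem hr'
      · intro j hj Ξ hΞ hc
        have e1 : ((keys H).filter fun k => κ ≤ hits Ξ (blkOf H k)).length =
            (((blks H).map Prod.snd).filter fun β => κ ≤ hits Ξ β).length := by
          unfold keys
          rw [List.filter_map, List.length_map, List.filter_map, List.length_map]
          congr 1
          apply List.filter_congr
          intro p hp
          simp only [Function.comp]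
          rw [g1b_blkOf H hL.keys_nodup p hp]
        rw [e1] at hc
        obtain ⟨r, hr, hr2, hr3⟩ := h2 j hj Ξ hΞ hc
        rw [List.length_map] at hr
        have hgetk : (keys H).getD r 0 = ((blks H)[r]).1 := by
          unfold keys
          rw [List.getD_eq_getElem?_getD, List.getElem?_map, List.getElem?_eq_getElem hr]
          rfl
        have hgetb : ((blks H).map Prod.snd).getD r [] = ((blks H)[r]).2 := by
          rw [List.getD_eq_getElem?_getD, List.getElem?_map, List.getElem?_eq_getElem hr]
          rfl
        refine ⟨(keys H).getD r 0, ?_, ?_⟩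
        · rw [List.mem_toFinset, List.mem_map]
          exact ⟨r, List.mem_filter.2 ⟨List.mem_range.2 hr, hr2⟩, rfl⟩
        · rw [hgetk, g1b_blkOf H hL.keys_nodup _ (List.getElem_mem hr), ← hgetb]
          exact hr3

end Pool.Agent.Lib.H52K
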