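import Pool.Agent.Lib.H52K.Defs

/-!
First moment method over all functions `Ξ : Fin m → V`, `m = 2 κ 2^j`. With `p = |V ∩ B r| / |V|` the number
of hits is binomial. (1) If `p ≥ 2^(-j)`: `P(hits < κ) ≤ 2^κ E 2^(-hits) = 2^κ (1 - p/2)^m ≤ (2/e)^κ ≤ 1/8`
(`κ ≥ 8`). (2) If `16 * 2^j * p < 1`: `P(hits ≥ κ) ≤ 4^(-κ) E 4^hits = 4^(-κ) (1 + 3p)^m ≤ (e^(3/8)/4)^κ ≤ 2^(-κ)`.
So the expectation of `2 * #{r ∈ R : hits < κ} / |R| + #{r ∈ I : 16 * 2^j * p_r < 1, hits ≥ κ}` is at most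
`2/8 + 2^(κ-2) 2^(-κ) < 1`, and some `Ξ` has value `< 1`. (`E s^hits` is a product:
`Σ_Ξ Π_i s^[Ξ i ∈ B] = (Σ_{v ∈ V} s^[v ∈ B])^m`, `Finset.prod_univ_sum`/`Finset.sum_pow'`.)
-/

namespace Pool.Agent.Lib.H52K

open Finset

/-- The samples from `V`. -/
abbrev g2_Om (V : Finset ℕ) (m : ℕ) : Finset (Fin m → ℕ) := Fintype.piFinset fun _ : Fin m => V

theorem g2_hits_pow {m : ℕ} (Ξ : Fin m → ℕ) (Bl : List ℕ) (s : ℝ) :
    s ^ hits Ξ Bl = ∏ i, (if Ξ i ∈ Bl then s else 1) := by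
  unfold hits
  rw [Finset.prod_ite, Finset.prod_const, Finset.prod_const_one, mul_one]

theorem g2_sum (V : Finset ℕ) (Bl : List ℕ) (m : ℕ) (s : ℝ) :
    ∑ Ξ ∈ g2_Om V m, s ^ hits Ξ Bl
      = ((V.card : ℝ) + (s - 1) * (V.filter fun v => v ∈ Bl).card) ^ m := by
  have h1 : ∑ v ∈ V, (if v ∈ Bl then s else 1)
      = (V.card : ℝ) + (s - 1) * (V.filter fun v => v ∈ Bl).card := by
    have e : ∀ v ∈ V, (if v ∈ Bl then s else 1) = 1 + (if v ∈ Bl then (s - 1) else 0) := by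
      intro v _
      split_ifs <;> ring
    rw [Finset.sum_congr rfl e, Finset.sum_add_distrib, ← Finset.sum_filter, Finset.sum_const,
      Finset.sum_const, nsmul_eq_mul, nsmul_eq_mul]
    ring
  rw [Finset.sum_congr rfl fun Ξ _ => g2_hits_pow Ξ Bl s]
  have h2 := Finset.prod_univ_sum (t := fun _ : Fin m => V)
    (f := fun _ v => (if v ∈ Bl then s else 1 : ℝ))
  rw [← h2, Finset.prod_const, Finset.card_univ, Fintype.card_fin, h1]

theorem g2_few (V : Finset ℕ) (Bl : List ℕ) (m κ : ℕ) :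
    (((g2_Om V m).filter fun Ξ => hits Ξ Bl < κ).card : ℝ)
      ≤ 2 ^ κ * ((V.card : ℝ) - (V.filter fun v => v ∈ Bl).card / 2) ^ m := by
  have h0 : ∀ h : ℕ, (0 : ℝ) ≤ 2 ^ κ * (1 / 2) ^ h := fun h => by positivity
  calc (((g2_Om V m).filter fun Ξ => hits Ξ Bl < κ).card : ℝ)
      = ∑ Ξ ∈ (g2_Om V m).filter fun Ξ => hits Ξ Bl < κ, (1 : ℝ) := by
        rw [Finset.sum_const, nsmul_eq_mul, mul_one]
    _ ≤ ∑ Ξ ∈ (g2_Om V m).filter fun Ξ => hits Ξ Bl < κ, (2 ^ κ * (1 / 2) ^ hits Ξ Bl : ℝ) := by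
        apply Finset.sum_le_sum
        intro Ξ hΞ
        have h1 : hits Ξ Bl ≤ κ := (Finset.mem_filter.1 hΞ).2.le
        calc (1 : ℝ) = 2 ^ hits Ξ Bl * (1 / 2) ^ hits Ξ Bl := by
              rw [← mul_pow]; norm_num
          _ ≤ 2 ^ κ * (1 / 2) ^ hits Ξ Bl := by
              apply mul_le_mul_of_nonneg_right _ (by positivity)
              exact pow_le_pow_right₀ (by norm_num) h1
    _ ≤ ∑ Ξ ∈ g2_Om V m, (2 ^ κ * (1 / 2) ^ hits Ξ Bl : ℝ) :=
        Finset.sum_le_sum_of_subset_of_nonneg (Finset.filter_subset _ _) (fun _ _ _ => h0 _)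
    _ = 2 ^ κ * ((V.card : ℝ) - (V.filter fun v => v ∈ Bl).card / 2) ^ m := by
        rw [← Finset.mul_sum, g2_sum]
        congr 2
        ring

theorem g2_many (V : Finset ℕ) (Bl : List ℕ) (m κ : ℕ) :
    (((g2_Om V m).filter fun Ξ => κ ≤ hits Ξ Bl).card : ℝ)
      ≤ (1 / 4) ^ κ * ((V.card : ℝ) + 3 * (V.filter fun v => v ∈ Bl).card) ^ m := by
  have h0 : ∀ h : ℕ, (0 : ℝ) ≤ (1 / 4) ^ κ * 4 ^ h := fun h => by positivity
  calc (((g2_Om V m).filter fun Ξ => κ ≤ hits Ξ Bl).card : ℝ)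
      = ∑ Ξ ∈ (g2_Om V m).filter fun Ξ => κ ≤ hits Ξ Bl, (1 : ℝ) := by
        rw [Finset.sum_const, nsmul_eq_mul, mul_one]
    _ ≤ ∑ Ξ ∈ (g2_Om V m).filter fun Ξ => κ ≤ hits Ξ Bl, ((1 / 4) ^ κ * 4 ^ hits Ξ Bl : ℝ) := by
        apply Finset.sum_le_sum
        intro Ξ hΞ
        have h1 : κ ≤ hits Ξ Bl := (Finset.mem_filter.1 hΞ).2
        calc (1 : ℝ) = (1 / 4) ^ κ * 4 ^ κ := by
              rw [← mul_pow]; norm_num
          _ ≤ (1 / 4) ^ κ * 4 ^ hits Ξ Bl := by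
              apply mul_le_mul_of_nonneg_left _ (by positivity)
              exact pow_le_pow_right₀ (by norm_num) h1
    _ ≤ ∑ Ξ ∈ g2_Om V m, ((1 / 4) ^ κ * 4 ^ hits Ξ Bl : ℝ) :=
        Finset.sum_le_sum_of_subset_of_nonneg (Finset.filter_subset _ _) (fun _ _ _ => h0 _)
    _ = (1 / 4) ^ κ * ((V.card : ℝ) + 3 * (V.filter fun v => v ∈ Bl).card) ^ m := by
        rw [← Finset.mul_sum, g2_sum]
        congr 2
        ring

theorem g2_c1 (κ : ℕ) (hκ : 8 ≤ κ) : (2 * Real.exp (-1)) ^ κ ≤ 1 / 8 := by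
  have h1 : 2 * Real.exp (-1) ≤ 736 / 1000 := by
    have := Real.exp_one_gt_d9
    rw [Real.exp_neg]
    have h2 : (Real.exp 1)⁻¹ ≤ (2.7182818283 : ℝ)⁻¹ := inv_anti₀ (by norm_num) this.le
    have h3 : (2 : ℝ) * (2.7182818283 : ℝ)⁻¹ ≤ 736 / 1000 := by norm_num
    linarith
  calc (2 * Real.exp (-1)) ^ κ ≤ (736 / 1000 : ℝ) ^ κ :=
        pow_le_pow_left₀ (by positivity) h1 _
    _ ≤ (736 / 1000 : ℝ) ^ 8 := pow_le_pow_of_le_one (by norm_num) (by norm_num) hκ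
    _ ≤ 1 / 8 := by norm_num

theorem g2_c2 : Real.exp (3 / 8) ≤ 2 := by
  have h1 : (3 / 8 : ℝ) ≤ Real.log 2 := by
    have := Real.log_two_gt_d9
    linarith
  calc Real.exp (3 / 8) ≤ Real.exp (Real.log 2) := Real.exp_le_exp.2 h1
    _ = 2 := Real.exp_log (by norm_num)

theorem g2_A (V : Finset ℕ) (hV : V.Nonempty) (Bl : List ℕ) (κ j : ℕ) (hκ : 8 ≤ κ)
    (h : V.card ≤ 2 ^ j * (V.filter fun v => v ∈ Bl).card) :
    (((g2_Om V (2 * κ * 2 ^ j)).filter fun Ξ => hits Ξ Bl < κ).card : ℝ)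
      ≤ (1 / 8) * (V.card : ℝ) ^ (2 * κ * 2 ^ j) := by
  refine (g2_few V Bl _ κ).trans ?_
  set N : ℝ := (V.card : ℝ) with hN
  set b : ℝ := ((V.filter fun v => v ∈ Bl).card : ℝ) with hb
  have hN0 : 0 < N := by rw [hN]; exact_mod_cast hV.card_pos
  have hb0 : 0 ≤ b := by rw [hb]; positivity
  have hbN : b ≤ N := by
    rw [hb, hN]
    exact_mod_cast Finset.card_filter_le _ _
  have h' : N ≤ 2 ^ j * b := by
    rw [hN, hb]
    exact_mod_cast h
  have h1 : N - b / 2 ≤ N * Real.exp (-(b / (2 * N))) := by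
    have h2 := Real.add_one_le_exp (-(b / (2 * N)))
    calc N - b / 2 = N * (-(b / (2 * N)) + 1) := by field_simp; ring
      _ ≤ N * Real.exp (-(b / (2 * N))) := mul_le_mul_of_nonneg_left h2 hN0.le
  have h3 : (N - b / 2) ^ (2 * κ * 2 ^ j) ≤ N ^ (2 * κ * 2 ^ j) * Real.exp (-1) ^ κ := by
    calc (N - b / 2) ^ (2 * κ * 2 ^ j) ≤ (N * Real.exp (-(b / (2 * N)))) ^ (2 * κ * 2 ^ j) :=
          pow_le_pow_left₀ (by linarith) h1 _
      _ = N ^ (2 * κ * 2 ^ j) * Real.exp (-(b / (2 * N))) ^ (2 * κ * 2 ^ j) := mul_pow _ _ _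
      _ ≤ N ^ (2 * κ * 2 ^ j) * Real.exp (-1) ^ κ := by
          apply mul_le_mul_of_nonneg_left _ (by positivity)
          rw [← Real.exp_nat_mul, ← Real.exp_nat_mul]
          apply Real.exp_le_exp.2
          push_cast
          have h4 : (1 : ℝ) ≤ 2 ^ j * b / N := by
            rw [le_div_iff₀ hN0]; linarith
          have h5 : (κ : ℝ) * 1 ≤ κ * (2 ^ j * b / N) :=
            mul_le_mul_of_nonneg_left h4 (by positivity)
          have e : (2 : ℝ) * κ * 2 ^ j * -(b / (2 * N)) = -(κ * (2 ^ j * b / N)) := by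
            field_simp
          rw [e]
          linarith
  calc 2 ^ κ * (N - b / 2) ^ (2 * κ * 2 ^ j)
      ≤ 2 ^ κ * (N ^ (2 * κ * 2 ^ j) * Real.exp (-1) ^ κ) :=
        mul_le_mul_of_nonneg_left h3 (by positivity)
    _ = (2 * Real.exp (-1)) ^ κ * N ^ (2 * κ * 2 ^ j) := by rw [mul_pow]; ring
    _ ≤ (1 / 8) * N ^ (2 * κ * 2 ^ j) :=
        mul_le_mul_of_nonneg_right (g2_c1 κ hκ) (by positivity)

theorem g2_B (V : Finset ℕ) (hV : V.Nonempty) (Bl : List ℕ) (κ j : ℕ)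
    (h : 16 * 2 ^ j * (V.filter fun v => v ∈ Bl).card < V.card) :
    (((g2_Om V (2 * κ * 2 ^ j)).filter fun Ξ => κ ≤ hits Ξ Bl).card : ℝ)
      ≤ (1 / 2) ^ κ * (V.card : ℝ) ^ (2 * κ * 2 ^ j) := by
  refine (g2_many V Bl _ κ).trans ?_
  set N : ℝ := (V.card : ℝ) with hN
  set b : ℝ := ((V.filter fun v => v ∈ Bl).card : ℝ) with hb
  have hN0 : 0 < N := by rw [hN]; exact_mod_cast hV.card_pos
  have hb0 : 0 ≤ b := by rw [hb]; positivity
  have h' : 16 * 2 ^ j * b ≤ N := by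
    rw [hN, hb]
    exact_mod_cast h.le
  have h1 : N + 3 * b ≤ N * Real.exp (3 * b / N) := by
    have h2 := Real.add_one_le_exp (3 * b / N)
    calc N + 3 * b = N * (3 * b / N + 1) := by field_simp; ring
      _ ≤ N * Real.exp (3 * b / N) := mul_le_mul_of_nonneg_left h2 hN0.le
  have h3 : (N + 3 * b) ^ (2 * κ * 2 ^ j) ≤ N ^ (2 * κ * 2 ^ j) * Real.exp (3 / 8) ^ κ := by
    calc (N + 3 * b) ^ (2 * κ * 2 ^ j) ≤ (N * Real.exp (3 * b / N)) ^ (2 * κ * 2 ^ j) :=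
          pow_le_pow_left₀ (by linarith) h1 _
      _ = N ^ (2 * κ * 2 ^ j) * Real.exp (3 * b / N) ^ (2 * κ * 2 ^ j) := mul_pow _ _ _
      _ ≤ N ^ (2 * κ * 2 ^ j) * Real.exp (3 / 8) ^ κ := by
          apply mul_le_mul_of_nonneg_left _ (by positivity)
          rw [← Real.exp_nat_mul, ← Real.exp_nat_mul]
          apply Real.exp_le_exp.2
          push_cast
          have h4 : 16 * 2 ^ j * b / N ≤ 1 := by
            rw [div_le_one hN0]; exact h'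
          have h5 : (κ : ℝ) * (16 * 2 ^ j * b / N) ≤ κ * 1 :=
            mul_le_mul_of_nonneg_left h4 (by positivity)
          have e : (2 : ℝ) * κ * 2 ^ j * (3 * b / N) = (3 / 8) * (κ * (16 * 2 ^ j * b / N)) := by
            ring
          rw [e]
          linarith
  calc (1 / 4) ^ κ * (N + 3 * b) ^ (2 * κ * 2 ^ j)
      ≤ (1 / 4) ^ κ * (N ^ (2 * κ * 2 ^ j) * Real.exp (3 / 8) ^ κ) :=
        mul_le_mul_of_nonneg_left h3 (by positivity)
    _ = (1 / 4 * Real.exp (3 / 8)) ^ κ * N ^ (2 * κ * 2 ^ j) := by rw [mul_pow]; ring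
    _ ≤ (1 / 2) ^ κ * N ^ (2 * κ * 2 ^ j) := by
        apply mul_le_mul_of_nonneg_right _ (by positivity)
        apply pow_le_pow_left₀ (by positivity)
        have := g2_c2
        linarith

/-- Random sampling from `V`. -/
theorem sampling (B : ℕ → List ℕ) (I R : Finset ℕ) (V : Finset ℕ) (κ j : ℕ) (hκ : 8 ≤ κ)
    (hI : I.card ≤ 2 ^ (κ - 2)) (hV : V.Nonempty)
    (hR : ∀ r ∈ R, V.card ≤ 2 ^ j * (V.filter fun v => v ∈ B r).card) :
    ∃ Ξ : Fin (2 * κ * 2 ^ j) → ℕ, (∀ i, Ξ i ∈ V) ∧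
      R.card ≤ 2 * (R.filter fun r => κ ≤ hits Ξ (B r)).card ∧
      ∀ r ∈ I, κ ≤ hits Ξ (B r) → V.card ≤ 16 * 2 ^ j * (V.filter fun v => v ∈ B r).card := by
  classical
  set m := 2 * κ * 2 ^ j with hm
  set Om := g2_Om V m with hOm
  set I' := I.filter fun r => 16 * 2 ^ j * (V.filter fun v => v ∈ B r).card < V.card with hI'
  have hN0 : (0 : ℝ) < V.card := by exact_mod_cast hV.card_pos
  have hNm : (0 : ℝ) < (V.card : ℝ) ^ m := by positivity
  have hcard : (Om.card : ℝ) = (V.card : ℝ) ^ m := by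
    rw [hOm, Fintype.card_piFinset, Finset.prod_const, Finset.card_univ, Fintype.card_fin]
    push_cast
    rfl
  set cost : (Fin m → ℕ) → ℝ := fun Ξ =>
    2 * ((R.filter fun r => hits Ξ (B r) < κ).card : ℝ) / R.card
      + ((I'.filter fun r => κ ≤ hits Ξ (B r)).card : ℝ) with hcost
  have hs1 : ∑ Ξ ∈ Om, ((R.filter fun r => hits Ξ (B r) < κ).card : ℝ)
      ≤ R.card * ((1 / 8) * (V.card : ℝ) ^ m) := by
    have e : ∀ Ξ ∈ Om, ((R.filter fun r => hits Ξ (B r) < κ).card : ℝ)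
        = ∑ r ∈ R, (if hits Ξ (B r) < κ then (1 : ℝ) else 0) := by
      intro Ξ _
      rw [Finset.sum_boole]
    rw [Finset.sum_congr rfl e, Finset.sum_comm]
    calc ∑ r ∈ R, ∑ Ξ ∈ Om, (if hits Ξ (B r) < κ then (1 : ℝ) else 0)
        ≤ ∑ r ∈ R, (1 / 8) * (V.card : ℝ) ^ m := by
          apply Finset.sum_le_sum
          intro r hr
          rw [Finset.sum_boole]
          exact g2_A V hV (B r) κ j hκ (hR r hr)
      _ = R.card * ((1 / 8) * (V.card : ℝ) ^ m) := by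
          rw [Finset.sum_const, nsmul_eq_mul]
  have hs2 : ∑ Ξ ∈ Om, ((I'.filter fun r => κ ≤ hits Ξ (B r)).card : ℝ)
      ≤ I'.card * ((1 / 2) ^ κ * (V.card : ℝ) ^ m) := by
    have e : ∀ Ξ ∈ Om, ((I'.filter fun r => κ ≤ hits Ξ (B r)).card : ℝ)
        = ∑ r ∈ I', (if κ ≤ hits Ξ (B r) then (1 : ℝ) else 0) := by
      intro Ξ _
      rw [Finset.sum_boole]
    rw [Finset.sum_congr rfl e, Finset.sum_comm]
    calc ∑ r ∈ I', ∑ Ξ ∈ Om, (if κ ≤ hits Ξ (B r) then (1 : ℝ) else 0)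
        ≤ ∑ r ∈ I', (1 / 2) ^ κ * (V.card : ℝ) ^ m := by
          apply Finset.sum_le_sum
          intro r hr
          rw [Finset.sum_boole]
          exact g2_B V hV (B r) κ j (Finset.mem_filter.1 hr).2
      _ = I'.card * ((1 / 2) ^ κ * (V.card : ℝ) ^ m) := by
          rw [Finset.sum_const, nsmul_eq_mul]
  have hIc : (I'.card : ℝ) * (1 / 2) ^ κ ≤ 1 / 4 := by
    have h1 : (I'.card : ℝ) ≤ 2 ^ (κ - 2) := by
      have : I'.card ≤ 2 ^ (κ - 2) := (Finset.card_filter_le _ _).trans hI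
      exact_mod_cast this
    have h2 : (2 : ℝ) ^ (κ - 2) * (1 / 2) ^ κ = 1 / 4 := by
      have e : κ = (κ - 2) + 2 := by omega
      conv_lhs => rw [e]
      rw [Nat.add_sub_cancel, pow_add]
      have e2 : (2 : ℝ) ^ (κ - 2) * ((1 / 2) ^ (κ - 2) * (1 / 2) ^ 2)
          = ((2 : ℝ) * (1 / 2)) ^ (κ - 2) * (1 / 2) ^ 2 := by rw [mul_pow]; ring
      rw [e2]
      norm_num
    calc (I'.card : ℝ) * (1 / 2) ^ κ ≤ 2 ^ (κ - 2) * (1 / 2) ^ κ :=
          mul_le_mul_of_nonneg_right h1 (by positivity)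
      _ = 1 / 4 := h2
  have hsum : ∑ Ξ ∈ Om, cost Ξ < ∑ Ξ ∈ Om, (1 : ℝ) := by
    rw [Finset.sum_const, nsmul_eq_mul, mul_one, hcard]
    simp only [hcost]
    rw [Finset.sum_add_distrib]
    have h1 : ∑ Ξ ∈ Om, 2 * ((R.filter fun r => hits Ξ (B r) < κ).card : ℝ) / R.card
        ≤ (1 / 4) * (V.card : ℝ) ^ m := by
      rw [← Finset.sum_div, ← Finset.mul_sum]
      rcases Nat.eq_zero_or_pos R.card with hR0 | hR0
      · rw [hR0, Nat.cast_zero, div_zero]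
        positivity
      · have hR0' : (0 : ℝ) < R.card := by exact_mod_cast hR0
        rw [div_le_iff₀ hR0']
        calc 2 * ∑ Ξ ∈ Om, ((R.filter fun r => hits Ξ (B r) < κ).card : ℝ)
            ≤ 2 * (R.card * ((1 / 8) * (V.card : ℝ) ^ m)) :=
              mul_le_mul_of_nonneg_left hs1 (by norm_num)
          _ = 1 / 4 * (V.card : ℝ) ^ m * R.card := by ring
    have h2 : ∑ Ξ ∈ Om, ((I'.filter fun r => κ ≤ hits Ξ (B r)).card : ℝ)
        ≤ (1 / 4) * (V.card : ℝ) ^ m := by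
      refine hs2.trans ?_
      calc (I'.card : ℝ) * ((1 / 2) ^ κ * (V.card : ℝ) ^ m)
          = (I'.card : ℝ) * (1 / 2) ^ κ * (V.card : ℝ) ^ m := by ring
        _ ≤ 1 / 4 * (V.card : ℝ) ^ m := mul_le_mul_of_nonneg_right hIc hNm.le
    linarith
  obtain ⟨Ξ, hΞ, hlt⟩ := Finset.exists_lt_of_sum_lt hsum
  have hc1 : 0 ≤ 2 * ((R.filter fun r => hits Ξ (B r) < κ).card : ℝ) / R.card := by positivity
  have hc2 : (0 : ℝ) ≤ ((I'.filter fun r => κ ≤ hits Ξ (B r)).card : ℝ) := by positivity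
  simp only [hcost] at hlt
  refine ⟨Ξ, fun i => (Fintype.mem_piFinset.1 hΞ) i, ?_, ?_⟩
  · rcases Nat.eq_zero_or_pos R.card with hR0 | hR0
    · rw [hR0]; exact Nat.zero_le _
    · have hR0' : (0 : ℝ) < R.card := by exact_mod_cast hR0
      have h1 : 2 * ((R.filter fun r => hits Ξ (B r) < κ).card : ℝ) / R.card < 1 := by linarith
      rw [div_lt_one hR0'] at h1
      have h2 : 2 * (R.filter fun r => hits Ξ (B r) < κ).card < R.card := by exact_mod_cast h1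
      have h3 := Finset.card_filter_add_card_filter_not (s := R)
        (fun r => hits Ξ (B r) < κ)
      have h4 : (R.filter fun r => ¬ hits Ξ (B r) < κ) = R.filter fun r => κ ≤ hits Ξ (B r) := by
        apply Finset.filter_congr
        intro r _
        exact not_lt
      rw [h4] at h3
      omega
  · intro r hr hk
    by_contra hcon
    have hmem : r ∈ I'.filter fun r => κ ≤ hits Ξ (B r) :=
      Finset.mem_filter.2 ⟨Finset.mem_filter.2 ⟨hr, not_le.1 hcon⟩, hk⟩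
    have h5 : 1 ≤ (I'.filter fun r => κ ≤ hits Ξ (B r)).card := Finset.card_pos.2 ⟨r, hmem⟩
    have h6 : (1 : ℝ) ≤ ((I'.filter fun r => κ ≤ hits Ξ (B r)).card : ℝ) := by exact_mod_cast h5
    linarith

end Pool.Agent.Lib.H52K
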