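import Pool.Agent.Lib.H52K.G2

/-!
Double counting: `Σ_{k ∈ g} |V ∩ β_k| ≥ τ |V|`. Put `p_k = |V ∩ β_k| / |V|`. The `k ∈ g` with
`p_k < τ / (2|g|)` contribute less than `τ/2` to `Σ p_k ≥ τ`. Let `J` be minimal with `2^J ≥ 2|g|/τ`
(so `J ≤ E + 1`, `2^J < 4|g|/τ`; note `1 ≤ τ ≤ |g|`); the other `k` are in the classes `2^(-j) ≤ p_k < 2^(1-j)`,
`0 ≤ j ≤ J`, so one class `R` has `Σ_{k ∈ R} p_k ≥ τ / (2(E+3))`, hence `|R| ≥ τ 2^j / (4(E+3))`. By `sampling`
(`I` = all keys) there is a sample `Ξ` which charges at least `|R|/2 ≥ τ 2^j/(8(E+3)) ≥ 4 q (2 κ 2^j) n` keys.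
By `Marked` there is a marked key `k` charged by `Ξ`, so `|V| ≤ 16 * 2^j |V ∩ β_k| ≤ 16 * (4|g|/τ) |V ∩ β_k|`.
-/

namespace Pool.Agent.Lib.H52K

open Finset

theorem g3_filter_length (g : List ℕ) (hg : g.Nodup) (p : ℕ → Prop) [DecidablePred p] :
    (g.filter fun k => p k).length = (g.toFinset.filter p).card := by
  rw [← List.toFinset_card_of_nodup (hg.filter _)]
  congr 1
  ext k
  simp

/-- Pointwise bound: a number `b ≤ N` is at most the sum over the dyadic classes plus a small term. -/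
theorem g3_dyadic (N b : ℕ) (hb : b ≤ N) (J : ℕ) (δ : ℝ) (hδ : (N : ℝ) / 2 ^ J ≤ δ) (hδ0 : 0 ≤ δ) :
    (b : ℝ) ≤ (∑ j ∈ Finset.range (J + 1), if N ≤ 2 ^ j * b then 2 * (N : ℝ) / 2 ^ j else 0) + δ := by
  classical
  have hnn : ∀ j ∈ Finset.range (J + 1),
      (0 : ℝ) ≤ if N ≤ 2 ^ j * b then 2 * (N : ℝ) / 2 ^ j else 0 := by
    intro j _
    split_ifs
    · positivity
    · exact le_rfl
  by_cases h : N ≤ 2 ^ J * b
  · have hex : ∃ j, N ≤ 2 ^ j * b := ⟨J, h⟩
    set j := Nat.find hex with hj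
    have h1 : N ≤ 2 ^ j * b := Nat.find_spec hex
    have hjJ : j ≤ J := Nat.find_min' hex h
    have h2 : (b : ℝ) ≤ 2 * (N : ℝ) / 2 ^ j := by
      rw [le_div_iff₀ (by positivity)]
      rcases Nat.eq_zero_or_pos j with hj0 | hj0
      · rw [hj0]
        have : (b : ℝ) ≤ N := by exact_mod_cast hb
        have hN : (0 : ℝ) ≤ N := by positivity
        simp only [pow_zero, mul_one]
        linarith
      · have h3 := Nat.find_min hex (m := j - 1) (by omega)
        have h4 : 2 ^ (j - 1) * b < N := not_le.1 h3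
        have h5 : 2 ^ j = 2 * 2 ^ (j - 1) := by
          conv_lhs => rw [show j = (j - 1) + 1 by omega]
          rw [pow_succ]; ring
        have h6 : b * 2 ^ j ≤ 2 * N := by
          rw [h5]
          nlinarith
        exact_mod_cast h6
    have h3 : 2 * (N : ℝ) / 2 ^ j ≤
        ∑ j ∈ Finset.range (J + 1), if N ≤ 2 ^ j * b then 2 * (N : ℝ) / 2 ^ j else 0 := by
      have := Finset.single_le_sum hnn (Finset.mem_range.2 (by omega : j < J + 1))
      rw [if_pos h1] at this
      exact this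
    linarith
  · have h1 : 2 ^ J * b ≤ N := (not_le.1 h).le
    have h2 : (b : ℝ) ≤ (N : ℝ) / 2 ^ J := by
      rw [le_div_iff₀ (by positivity)]
      have : b * 2 ^ J ≤ N := by rw [mul_comm]; exact h1
      exact_mod_cast this
    have h3 := Finset.sum_nonneg hnn
    linarith

/-- Among the blocks of a group that covers `V` at least `τ` times, the marked blocks contain one that
covers a good part of `V`. -/
theorem star (n q κ E τ : ℕ) (H : List REv) (Mk : Finset ℕ) (hM : Marked n q κ E H Mk)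
    (hk : (keys H).Nodup) (hlen : (keys H).length ≤ 2 ^ (κ - 2)) (hκ : 8 ≤ κ) (hq : 1 ≤ q)
    (hn : 1 ≤ n) (hτ : 64 * (E + 3) * q * n * κ ≤ τ) (g : List ℕ) (hg : g.Nodup)
    (hgk : ∀ k ∈ g, k ∈ keys H) (hgl : g.length ≤ 2 ^ E) (V : Finset ℕ) (hV : V.Nonempty)
    (hVn : ∀ v ∈ V, v < 2 ^ n) (hVτ : ∀ v ∈ V, τ ≤ hv H g v) :
    ∃ k ∈ Mk, τ * V.card ≤ 64 * g.length * (V.filter fun v => v ∈ blkOf H k).card := by
  classical
  set G := g.toFinset with hG
  have hGc : G.card = g.length := List.toFinset_card_of_nodup hg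
  set b : ℕ → ℕ := fun k => (V.filter fun v => v ∈ blkOf H k).card with hb
  have hbN : ∀ k, b k ≤ V.card := fun k => Finset.card_filter_le _ _
  have hN0 : 0 < V.card := hV.card_pos
  have hA0 : 0 < q * n * κ := by positivity
  have hτ1 : 1 ≤ τ := by
    have : 1 ≤ 64 * (E + 3) * q * n * κ := by
      have : 0 < 64 * (E + 3) * q * n * κ := by positivity
      omega
    omega
  have hτL : τ ≤ g.length := by
    obtain ⟨v, hv'⟩ := hV
    refine (hVτ v hv').trans ?_
    unfold hv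
    exact List.length_filter_le _ _
  -- double counting
  have hdc : τ * V.card ≤ ∑ k ∈ G, b k := by
    have e1 : ∑ k ∈ G, b k = ∑ v ∈ V, hv H g v := by
      have e2 : ∀ v ∈ V, hv H g v = ∑ k ∈ G, if v ∈ blkOf H k then 1 else 0 := by
        intro v _
        unfold hv
        rw [g3_filter_length g hg (fun k => v ∈ blkOf H k), Finset.card_filter]
      have e3 : ∀ k ∈ G, b k = ∑ v ∈ V, if v ∈ blkOf H k then 1 else 0 := by
        intro k _
        simp only [hb]
        rw [Finset.card_filter]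
      rw [Finset.sum_congr rfl e2, Finset.sum_congr rfl e3, Finset.sum_comm]
    rw [e1]
    calc τ * V.card = ∑ v ∈ V, τ := by rw [Finset.sum_const, smul_eq_mul, mul_comm]
      _ ≤ ∑ v ∈ V, hv H g v := Finset.sum_le_sum hVτ
  -- the number J
  have hex : ∃ J, 2 * g.length ≤ 2 ^ J * τ := by
    refine ⟨E + 1, ?_⟩
    calc 2 * g.length ≤ 2 * 2 ^ E := by omega
      _ = 2 ^ (E + 1) * 1 := by rw [pow_succ]; ring
      _ ≤ 2 ^ (E + 1) * τ := Nat.mul_le_mul_left _ hτ1
  set J := Nat.find hex with hJ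
  have hJ1 : 2 * g.length ≤ 2 ^ J * τ := Nat.find_spec hex
  have hJE : J ≤ E + 1 := by
    apply Nat.find_min' hex
    calc 2 * g.length ≤ 2 * 2 ^ E := by omega
      _ = 2 ^ (E + 1) * 1 := by rw [pow_succ]; ring
      _ ≤ 2 ^ (E + 1) * τ := Nat.mul_le_mul_left _ hτ1
  have hJ0 : 1 ≤ J := by
    by_contra hcon
    have : J = 0 := by omega
    rw [this, pow_zero, one_mul] at hJ1
    omega
  have hJ2 : 2 ^ J * τ ≤ 4 * g.length := by
    have h1 := Nat.find_min hex (m := J - 1) (by omega)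
    have h2 : 2 ^ (J - 1) * τ < 2 * g.length := not_le.1 h1
    have h3 : 2 ^ J = 2 * 2 ^ (J - 1) := by
      conv_lhs => rw [show J = (J - 1) + 1 by omega]
      rw [pow_succ]; ring
    rw [h3]
    nlinarith
  -- pigeonhole
  have hpig : ∃ j ≤ J, 16 * q * n * κ * 2 ^ j ≤ (G.filter fun k => V.card ≤ 2 ^ j * b k).card := by
    by_contra hcon
    push Not at hcon
    have hL0 : (0 : ℝ) < g.length := by
      have : 0 < g.length := by omega
      exact_mod_cast this
    have hNr : (0 : ℝ) < V.card := by exact_mod_cast hN0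
    set δ : ℝ := (τ : ℝ) * V.card / (2 * g.length) with hδ
    have hδ1 : (V.card : ℝ) / 2 ^ J ≤ δ := by
      rw [hδ, div_le_div_iff₀ (by positivity) (by positivity)]
      have : (2 : ℝ) * g.length ≤ 2 ^ J * τ := by exact_mod_cast hJ1
      nlinarith
    have hδ0 : 0 ≤ δ := by positivity
    have h1 : ∑ k ∈ G, (b k : ℝ) ≤ ∑ k ∈ G, ((∑ j ∈ Finset.range (J + 1),
        if V.card ≤ 2 ^ j * b k then 2 * (V.card : ℝ) / 2 ^ j else 0) + δ) :=
      Finset.sum_le_sum fun k _ => g3_dyadic V.card (b k) (hbN k) J δ hδ1 hδ0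
    rw [Finset.sum_add_distrib, Finset.sum_comm, Finset.sum_const, nsmul_eq_mul, hGc] at h1
    have h2 : (g.length : ℝ) * δ = τ * V.card / 2 := by
      rw [hδ]
      field_simp
    have h3 : ∀ j ∈ Finset.range (J + 1), (∑ k ∈ G,
        if V.card ≤ 2 ^ j * b k then 2 * (V.card : ℝ) / 2 ^ j else 0)
        ≤ 32 * (q * n * κ) * V.card := by
      intro j hj
      have hjJ : j ≤ J := by have := Finset.mem_range.1 hj; omega
      rw [← Finset.sum_filter, Finset.sum_const, nsmul_eq_mul]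
      have h4 := (hcon j hjJ).le
      have h5 : ((G.filter fun k => V.card ≤ 2 ^ j * b k).card : ℝ) ≤ 16 * q * n * κ * 2 ^ j := by
        exact_mod_cast h4
      calc ((G.filter fun k => V.card ≤ 2 ^ j * b k).card : ℝ) * (2 * (V.card : ℝ) / 2 ^ j)
          ≤ (16 * q * n * κ * 2 ^ j) * (2 * (V.card : ℝ) / 2 ^ j) :=
            mul_le_mul_of_nonneg_right h5 (by positivity)
        _ = 32 * (q * n * κ) * V.card := by
            field_simp
            ring
    have h4 := Finset.sum_le_sum h3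
    rw [Finset.sum_const, Finset.card_range, nsmul_eq_mul] at h4
    have h5 : (τ : ℝ) * V.card ≤ ∑ k ∈ G, (b k : ℝ) := by exact_mod_cast hdc
    have h6 : (64 : ℝ) * (E + 3) * q * n * κ ≤ τ := by exact_mod_cast hτ
    have h7 : ((J + 1 : ℕ) : ℝ) ≤ E + 2 := by
      have : J + 1 ≤ E + 2 := by omega
      exact_mod_cast this
    have hA0' : (0 : ℝ) < q * n * κ := by exact_mod_cast hA0
    have h8 : ((J + 1 : ℕ) : ℝ) * (32 * (q * n * κ) * V.card) ≤
        (E + 2) * (32 * (q * n * κ) * V.card) :=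
      mul_le_mul_of_nonneg_right h7 (by positivity)
    have h9 : ((E : ℝ) + 2) * (32 * (q * n * κ) * V.card) < τ * V.card / 2 := by
      have h10 : ((E : ℝ) + 2) * (32 * (q * n * κ)) < τ / 2 := by
        nlinarith
      calc ((E : ℝ) + 2) * (32 * (q * n * κ) * V.card)
          = ((E : ℝ) + 2) * (32 * (q * n * κ)) * V.card := by ring
        _ < τ / 2 * V.card := mul_lt_mul_of_pos_right h10 hNr
        _ = τ * V.card / 2 := by ring
    linarith
  obtain ⟨j, hjJ, hj⟩ := hpig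
  set R := G.filter fun k => V.card ≤ 2 ^ j * b k with hR
  obtain ⟨Ξ, hΞV, hΞR, hΞI⟩ := sampling (blkOf H) (keys H).toFinset R V κ j hκ
    ((List.toFinset_card_le _).trans hlen) hV (fun r hr => (Finset.mem_filter.1 hr).2)
  have hcount : 4 * q * (2 * κ * 2 ^ j) * n ≤
      ((keys H).filter fun k => κ ≤ hits Ξ (blkOf H k)).length := by
    rw [g3_filter_length (keys H) hk (fun k => κ ≤ hits Ξ (blkOf H k))]
    have h1 : (R.filter fun r => κ ≤ hits Ξ (blkOf H r)).card ≤
        ((keys H).toFinset.filter fun k => κ ≤ hits Ξ (blkOf H k)).card := by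
      apply Finset.card_le_card
      intro r hr
      obtain ⟨hr1, hr2⟩ := Finset.mem_filter.1 hr
      refine Finset.mem_filter.2 ⟨?_, hr2⟩
      rw [List.mem_toFinset]
      exact hgk r (List.mem_toFinset.1 (Finset.mem_filter.1 hr1).1)
    have h2 : 2 * (4 * q * (2 * κ * 2 ^ j) * n) = 16 * q * n * κ * 2 ^ j := by ring
    omega
  obtain ⟨k, hkM, hkc⟩ := hM.2 j (by omega) Ξ (fun i => hVn _ (hΞV i)) hcount
  refine ⟨k, hkM, ?_⟩
  have h3 := hΞI k (List.mem_toFinset.2 (hM.1 k hkM)) hkc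
  have h4 : 2 ^ j * τ ≤ 4 * g.length := by
    refine le_trans ?_ hJ2
    exact Nat.mul_le_mul_right _ (Nat.pow_le_pow_right (by norm_num) hjJ)
  calc τ * V.card ≤ τ * (16 * 2 ^ j * (V.filter fun v => v ∈ blkOf H k).card) :=
        Nat.mul_le_mul_left _ h3
    _ = 16 * (2 ^ j * τ) * (V.filter fun v => v ∈ blkOf H k).card := by ring
    _ ≤ 16 * (4 * g.length) * (V.filter fun v => v ∈ blkOf H k).card :=
        Nat.mul_le_mul_right _ (Nat.mul_le_mul_left _ h4)
    _ = 64 * g.length * (V.filter fun v => v ∈ blkOf H k).card := by ring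

end Pool.Agent.Lib.H52K
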