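import Pool.Agent.Lib.H52K.Defs

/-!
Greedy: `V₀ = V`, `V_{i+1} = V_i \ B k_i` with `k_i` from `hstar` for `V_i`; `e_i = (k_i, V_i ∩ B k_i)`. Each
step multiplies `|V_i|` by at most `1 - τ/(64 g)`. If `V_{s-1}` is not empty, then
`1 ≤ 2^L (1 - τ/(64 g))^(s-1)`, so `τ (s - 1) ≤ 64 g L` (use `(1-t)^r ≤ e^(-tr)` and `log 2 ≤ 1`, or
a discrete version), so `τ s ≤ 64 g L + τ ≤ (64 L + 1) g`.
-/

namespace Pool.Agent.Lib.H52K

open Finset

theorem g4_main (B : ℕ → List ℕ) (Mk : Finset ℕ) (V : Finset ℕ) (g τ : ℕ)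
    (hτ : 1 ≤ τ) (hτg : τ ≤ g)
    (hstar : ∀ V' ⊆ V, V'.Nonempty → ∃ k ∈ Mk,
      τ * V'.card ≤ 64 * g * (V'.filter fun v => v ∈ B k).card) :
    ∀ s : ℕ, ∀ V' ⊆ V, V'.Nonempty → V'.card ≤ s → ∃ Z : List (ℕ × List ℕ),
      (∀ e ∈ Z, e.1 ∈ Mk ∧ e.2.Nodup ∧ ∀ x ∈ e.2, x ∈ V' ∧ x ∈ B e.1) ∧
      (∀ x, (Z.filter fun e => x ∈ e.2).length ≤ 1) ∧ (∀ x ∈ V', ∃ e ∈ Z, x ∈ e.2) ∧
      (τ : ℝ) * ((Z.length : ℝ) - 1) ≤ 64 * g * Real.log V'.card := by
  intro s
  induction s with
  | zero =>
    intro V' _ hne hc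
    exact absurd hc (by have := hne.card_pos; omega)
  | succ s ih =>
    intro V' hsub hne hc
    obtain ⟨k, hk, hkc⟩ := hstar V' hsub hne
    have hg0 : (0 : ℝ) < g := by
      have : 0 < g := by omega
      exact_mod_cast this
    have hτ0 : (0 : ℝ) < τ := by exact_mod_cast hτ
    have hN0 : 0 < V'.card := hne.card_pos
    have hN0' : (0 : ℝ) < V'.card := by exact_mod_cast hN0
    have hN1 : (1 : ℝ) ≤ V'.card := by exact_mod_cast hN0
    set C := V'.filter fun v => v ∈ B k with hC
    set V'' := V' \ C with hV''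
    have hCsub : C ⊆ V' := Finset.filter_subset _ _
    have hcard : V''.card + C.card = V'.card := Finset.card_sdiff_add_card_eq_card hCsub
    have hC0 : 0 < C.card := by
      by_contra hcon
      have : C.card = 0 := by omega
      rw [this, mul_zero] at hkc
      have : 0 < τ * V'.card := by positivity
      omega
    by_cases hemp : V''.Nonempty
    · obtain ⟨Z, hZ1, hZ2, hZ3, hZ4⟩ := ih V'' (Finset.sdiff_subset.trans hsub) hemp (by omega)
      refine ⟨(k, C.toList) :: Z, ?_, ?_, ?_, ?_⟩
      · intro e he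
        rcases List.mem_cons.1 he with rfl | he
        · refine ⟨hk, Finset.nodup_toList _, fun x hx => ?_⟩
          have hx' := Finset.mem_filter.1 (Finset.mem_toList.1 hx)
          exact hx'
        · obtain ⟨h1, h2, h3⟩ := hZ1 e he
          exact ⟨h1, h2, fun x hx => ⟨Finset.sdiff_subset (h3 x hx).1, (h3 x hx).2⟩⟩
      · intro x
        rw [List.filter_cons]
        by_cases hx : x ∈ C
        · have h0 : (Z.filter fun e => x ∈ e.2).length = 0 := by
            rw [List.length_eq_zero_iff, List.filter_eq_nil_iff]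
            intro e he hxe
            have hxe' : x ∈ e.2 := by simpa using hxe
            have := ((hZ1 e he).2.2 x hxe').1
            exact (Finset.mem_sdiff.1 this).2 hx
          rw [if_pos (by simpa using hx), List.length_cons, h0]
        · rw [if_neg (by simpa using hx)]
          exact hZ2 x
      · intro x hx
        by_cases hxC : x ∈ C
        · exact ⟨(k, C.toList), List.mem_cons_self, Finset.mem_toList.2 hxC⟩
        · obtain ⟨e, he, hxe⟩ := hZ3 x (Finset.mem_sdiff.2 ⟨hx, hxC⟩)
          exact ⟨e, List.mem_cons_of_mem _ he, hxe⟩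
      · rw [List.length_cons]
        push_cast
        have hV0 : (0 : ℝ) < V''.card := by exact_mod_cast hemp.card_pos
        have hkc' : (τ : ℝ) * V'.card ≤ 64 * g * C.card := by exact_mod_cast hkc
        have hcard' : (V''.card : ℝ) + C.card = V'.card := by exact_mod_cast hcard
        have h1 : (V''.card : ℝ) ≤ V'.card * Real.exp (-(τ / (64 * g))) := by
          have h2 := Real.add_one_le_exp (-((τ : ℝ) / (64 * g)))
          have h3 : (V'.card : ℝ) * (τ / (64 * g)) ≤ C.card := by
            rw [← mul_div_assoc, div_le_iff₀ (by positivity)]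
            linarith
          calc (V''.card : ℝ) = V'.card - C.card := by linarith
            _ ≤ V'.card - V'.card * (τ / (64 * g)) := by linarith
            _ = V'.card * (-(τ / (64 * g)) + 1) := by ring
            _ ≤ V'.card * Real.exp (-(τ / (64 * g))) := mul_le_mul_of_nonneg_left h2 hN0'.le
        have h4 : Real.log V''.card ≤ Real.log V'.card - τ / (64 * g) := by
          calc Real.log V''.card ≤ Real.log (V'.card * Real.exp (-(τ / (64 * g)))) :=
                Real.log_le_log hV0 h1
            _ = Real.log V'.card + Real.log (Real.exp (-(τ / (64 * g)))) :=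
                Real.log_mul hN0'.ne' (Real.exp_pos _).ne'
            _ = Real.log V'.card - τ / (64 * g) := by rw [Real.log_exp]; ring
        have h5 : 64 * (g : ℝ) * Real.log V''.card ≤ 64 * g * (Real.log V'.card - τ / (64 * g)) :=
          mul_le_mul_of_nonneg_left h4 (by positivity)
        have h6 : 64 * (g : ℝ) * (Real.log V'.card - τ / (64 * g))
            = 64 * g * Real.log V'.card - τ := by
          field_simp
        rw [h6] at h5
        linarith
    · have hVC : V' ⊆ C := by
        rw [Finset.not_nonempty_iff_eq_empty, hV'', Finset.sdiff_eq_empty_iff_subset] at hemp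
        exact hemp
      refine ⟨[(k, C.toList)], ?_, ?_, ?_, ?_⟩
      · intro e he
        rw [List.mem_singleton] at he
        subst he
        refine ⟨hk, Finset.nodup_toList _, fun x hx => ?_⟩
        exact Finset.mem_filter.1 (Finset.mem_toList.1 hx)
      · intro x
        exact (List.length_filter_le _ _).trans (by simp)
      · intro x hx
        exact ⟨(k, C.toList), List.mem_singleton.2 rfl, Finset.mem_toList.2 (hVC hx)⟩
      · simp only [List.length_singleton, Nat.cast_one, sub_self, mul_zero]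
        have := Real.log_nonneg hN1
        positivity

/-- Greedy covering. -/
theorem greedy (B : ℕ → List ℕ) (Mk : Finset ℕ) (V : Finset ℕ) (L g τ : ℕ) (hV : V.card ≤ 2 ^ L)
    (hτ : 1 ≤ τ) (hτg : V.Nonempty → τ ≤ g)
    (hstar : ∀ V' ⊆ V, V'.Nonempty → ∃ k ∈ Mk,
      τ * V'.card ≤ 64 * g * (V'.filter fun v => v ∈ B k).card) :
    ∃ Z : List (ℕ × List ℕ), (∀ e ∈ Z, e.1 ∈ Mk ∧ e.2.Nodup ∧ ∀ x ∈ e.2, x ∈ V ∧ x ∈ B e.1) ∧
      (∀ x, (Z.filter fun e => x ∈ e.2).length ≤ 1) ∧ (∀ x ∈ V, ∃ e ∈ Z, x ∈ e.2) ∧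
      τ * Z.length ≤ (64 * L + 1) * g := by
  by_cases hne : V.Nonempty
  · have hτg' := hτg hne
    obtain ⟨Z, h1, h2, h3, h4⟩ := g4_main B Mk V g τ hτ hτg' hstar V.card V (Finset.Subset.refl _)
      hne le_rfl
    refine ⟨Z, h1, h2, h3, ?_⟩
    have hg0 : (0 : ℝ) ≤ g := by positivity
    have hN0' : (0 : ℝ) < V.card := by exact_mod_cast hne.card_pos
    have h5 : Real.log V.card ≤ L := by
      calc Real.log V.card ≤ Real.log (2 ^ L) := by
            apply Real.log_le_log hN0'
            exact_mod_cast hV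
        _ = L * Real.log 2 := by rw [Real.log_pow]
        _ ≤ L * 1 := by
            apply mul_le_mul_of_nonneg_left _ (by positivity)
            have := Real.log_two_lt_d9
            linarith
        _ = L := mul_one _
    have h6 : 64 * (g : ℝ) * Real.log V.card ≤ 64 * g * L :=
      mul_le_mul_of_nonneg_left h5 (by positivity)
    have h7 : (τ : ℝ) ≤ g := by exact_mod_cast hτg'
    have h8 : (τ : ℝ) * Z.length ≤ (64 * L + 1) * g := by
      have e : (τ : ℝ) * ((Z.length : ℝ) - 1) = τ * Z.length - τ := by ring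
      rw [e] at h4
      nlinarith
    exact_mod_cast h8
  · rw [Finset.not_nonempty_iff_eq_empty] at hne
    subst hne
    exact ⟨[], by simp, by simp, by simp, by simp⟩

end Pool.Agent.Lib.H52K
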