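import Pool.Agent.Lib.H52K.G1b
import Pool.Agent.Lib.H52K.G3
import Pool.Agent.Lib.H52K.G4

/-!
`greedy` with `L = n`, `V = {x < 2^n : τ ≤ hv H g x}` and `star`. (`τ ≥ 1`, so `τ ≤ hv H g x` implies that `x`
is an element of some block, so `x < 2^n`.)
-/

namespace Pool.Agent.Lib.H52K

theorem g4b_lookup (l : List (ℕ × List ℕ)) (k : ℕ) (β : List ℕ) (h : l.lookup k = some β) :
    (k, β) ∈ l := by
  induction l with
  | nil => simp at h
  | cons a l ih =>
    rw [List.lookup_cons] at h
    by_cases hka : (k == a.1) = true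
    · rw [hka] at h
      have e1 : k = a.1 := by simpa using hka
      have e2 : a.2 = β := by simpa using h
      rw [List.mem_cons]
      left
      rw [e1, ← e2]
    · have hka' : (k == a.1) = false := by simpa using hka
      rw [hka'] at h
      exact List.mem_cons_of_mem _ (ih h)

theorem g4b_mem (H : List REv) (k x : ℕ) (hx : x ∈ blkOf H k) :
    ∃ p ∈ blks H, x ∈ p.2 := by
  unfold blkOf at hx
  cases h : (blks H).lookup k with
  | none => rw [h] at hx; simp at hx
  | some β =>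
    rw [h] at hx
    have hx' : x ∈ β := by simpa using hx
    exact ⟨_, g4b_lookup _ _ _ h, hx'⟩

/-- The cover for one group. -/
theorem group_cover (n q κ E S T W τ : ℕ) (H : List REv) (Mk : Finset ℕ)
    (hL : RLegal n S T W E H) (hT : T ≤ 2 ^ (κ - 2)) (hM : Marked n q κ E H Mk) (hκ : 8 ≤ κ)
    (hq : 1 ≤ q) (hn : 1 ≤ n) (hτ : 64 * (E + 3) * q * n * κ ≤ τ) (g : List ℕ) (hg : g.Nodup)
    (hgk : ∀ k ∈ g, k ∈ keys H) (hgl : g.length ≤ 2 ^ E) :
    ∃ Z : List (ℕ × List ℕ), (∀ e ∈ Z, e.1 ∈ Mk ∧ e.2.Nodup ∧ ∀ x ∈ e.2, x ∈ blkOf H e.1) ∧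
      (∀ x, (Z.filter fun e => x ∈ e.2).length ≤ 1) ∧ (∀ e ∈ Z, ∀ x ∈ e.2, τ ≤ hv H g x) ∧
      (∀ x, τ ≤ hv H g x → ∃ e ∈ Z, x ∈ e.2) ∧
      τ * Z.length ≤ (64 * n + 1) * g.length := by
  classical
  have hτ1 : 1 ≤ τ := by
    have : 0 < 64 * (E + 3) * q * n * κ := by positivity
    omega
  set V : Finset ℕ := (Finset.range (2 ^ n)).filter fun x => τ ≤ hv H g x with hVdef
  have hVc : V.card ≤ 2 ^ n := by
    calc V.card ≤ (Finset.range (2 ^ n)).card := Finset.card_filter_le _ _
      _ = 2 ^ n := Finset.card_range _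
  have hkn := hL.keys_nodup
  have hlen : (keys H).length ≤ 2 ^ (κ - 2) := by
    have : (keys H).length = (blks H).length := by unfold keys; exact List.length_map _
    rw [this]
    exact hL.nblk.trans hT
  have hxV : ∀ x, τ ≤ hv H g x → x ∈ V := by
    intro x hx
    rw [hVdef, Finset.mem_filter, Finset.mem_range]
    refine ⟨?_, hx⟩
    have h1 : 0 < (g.filter fun k => x ∈ blkOf H k).length := by
      have : hv H g x = (g.filter fun k => x ∈ blkOf H k).length := rfl
      omega
    obtain ⟨k, hk'⟩ := List.exists_mem_of_length_pos h1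
    rw [List.mem_filter] at hk'
    have hk'' : x ∈ blkOf H k := by simpa using hk'.2
    obtain ⟨p, hp, hxp⟩ := g4b_mem H k x hk''
    exact (hL.blk_ok p hp).2.2 x hxp
  have hτg : V.Nonempty → τ ≤ g.length := by
    rintro ⟨v, hv'⟩
    rw [hVdef, Finset.mem_filter] at hv'
    have : hv H g v = (g.filter fun k => v ∈ blkOf H k).length := rfl
    have h2 := List.length_filter_le (fun k => decide (v ∈ blkOf H k)) g
    omega
  have hstar : ∀ V' ⊆ V, V'.Nonempty → ∃ k ∈ Mk,
      τ * V'.card ≤ 64 * g.length * (V'.filter fun v => v ∈ blkOf H k).card := by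
    intro V' hV' hne
    refine star n q κ E τ H Mk hM hkn hlen hκ hq hn hτ g hg hgk hgl V' hne ?_ ?_
    · intro v hv'
      have := hV' hv'
      rw [hVdef, Finset.mem_filter, Finset.mem_range] at this
      exact this.1
    · intro v hv'
      have := hV' hv'
      rw [hVdef, Finset.mem_filter] at this
      exact this.2
  obtain ⟨Z, h1, h2, h3, h4⟩ := greedy (blkOf H) Mk V n g.length τ hVc hτ1 hτg hstar
  refine ⟨Z, fun e he => ⟨(h1 e he).1, (h1 e he).2.1, fun x hx => ((h1 e he).2.2 x hx).2⟩, h2,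
    ?_, fun x hx => h3 x (hxV x hx), h4⟩
  intro e he x hx
  have := ((h1 e he).2.2 x hx).1
  rw [hVdef, Finset.mem_filter] at this
  exact this.2

end Pool.Agent.Lib.H52K
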