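import Pool.Agent.Lib.H52K.Defs

/-!
Simple facts about histories of the game for one scale.
-/

namespace Pool.Agent.Lib.H52K

theorem G5s_blks_append (H H' : List REv) : blks (H ++ H') = blks H ++ blks H' :=
  List.filterMap_append

theorem G5s_itms_append (H H' : List REv) : itms (H ++ H') = itms H ++ itms H' :=
  List.filterMap_append

theorem keys_append (H H' : List REv) : keys (H ++ H') = keys H ++ keys H' := by
  unfold keys
  rw [G5s_blks_append, List.map_append]

theorem G5s_ylist_append (H H' : List REv) (y : ℕ) :
    ylist (H ++ H') y = ylist H y ++ ylist H' y := by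
  unfold ylist
  rw [G5s_itms_append, List.filter_append, List.map_append]

theorem RLegal.init {n S T W E : ℕ} {H : List REv} {e : REv} (h : RLegal n S T W E (H ++ [e])) :
    RLegal n S T W E H := by
  refine ⟨?_, ?_, ?_, ?_, ?_, ?_, ?_⟩
  · have := h.keys_nodup
    rw [keys_append] at this
    exact (List.nodup_append.1 this).1
  · have := h.nblk
    rw [G5s_blks_append, List.length_append] at this
    omega
  · intro p hp
    refine h.blk_ok p ?_
    rw [G5s_blks_append]
    exact List.mem_append_left _ hp
  · have := h.itms_nodup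
    rw [G5s_itms_append] at this
    exact (List.nodup_append.1 this).1
  · have := h.itms_len
    rw [G5s_itms_append, List.length_append] at this
    omega
  · intro y
    have := h.itms_y y
    rw [G5s_ylist_append, List.length_append] at this
    omega
  · intro H₁ H₂ k y hH
    refine h.order H₁ (H₂ ++ [e]) k y ?_
    rw [hH]
    simp

theorem ylist_blk (H : List REv) (k : ℕ) (β : List ℕ) (y : ℕ) :
    ylist (H ++ [REv.blk k β]) y = ylist H y := by
  rw [G5s_ylist_append]
  have : ylist [REv.blk k β] y = [] := rfl
  rw [this, List.append_nil]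

theorem ylist_item (H : List REv) (k y y' : ℕ) :
    ylist (H ++ [REv.item k y]) y' = if y' = y then ylist H y' ++ [k] else ylist H y' := by
  rw [G5s_ylist_append]
  have h1 : itms [REv.item k y] = [(k, y)] := rfl
  split_ifs with h
  · subst h
    congr 1
    unfold ylist
    rw [h1]
    simp
  · have : ylist [REv.item k y] y' = [] := by
      unfold ylist
      rw [h1]
      have h2 : ¬ y = y' := fun h3 => h h3.symm
      simp [h2]
    rw [this, List.append_nil]

theorem ylist_nodup {n S T W E : ℕ} {H : List REv} (h : RLegal n S T W E H) (y : ℕ) :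
    (ylist H y).Nodup := by
  unfold ylist
  refine List.Nodup.map_on ?_ (h.itms_nodup.filter _)
  intro p hp q hq hpq
  have h1 := (List.mem_filter.1 hp).2
  have h2 := (List.mem_filter.1 hq).2
  simp only [decide_eq_true_eq] at h1 h2
  exact Prod.ext hpq (h1.trans h2.symm)

theorem G5s_mem_ylist {H : List REv} {y k : ℕ} (hk : k ∈ ylist H y) : REv.item k y ∈ H := by
  unfold ylist itms at hk
  simp only [List.mem_map, List.mem_filter, List.mem_filterMap, decide_eq_true_eq] at hk
  obtain ⟨⟨k', y'⟩, ⟨⟨e, he, hee⟩, rfl⟩, rfl⟩ := hk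
  cases e with
  | blk k2 β => simp at hee
  | item k2 y2 =>
    simp only [Option.some.injEq, Prod.mk.injEq] at hee
    obtain ⟨rfl, rfl⟩ := hee
    exact he

theorem ylist_sub {n S T W E : ℕ} {H : List REv} (h : RLegal n S T W E H) {y k : ℕ}
    (hk : k ∈ ylist H y) : k ∈ keys H := by
  obtain ⟨H₁, H₂, hH⟩ := List.append_of_mem (G5s_mem_ylist hk)
  have h1 := h.order H₁ H₂ k y hH
  rw [hH, keys_append]
  exact List.mem_append_left _ h1

theorem blkOf_append {H : List REv} {k : ℕ} (hk : k ∈ keys H) (H' : List REv) :
    blkOf (H ++ H') k = blkOf H k := by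
  unfold blkOf
  rw [G5s_blks_append, List.lookup_append]
  have h1 : ((blks H).lookup k).isSome := by
    rw [Option.isSome_iff_ne_none]
    intro h0
    rw [List.lookup_eq_none_iff] at h0
    unfold keys at hk
    obtain ⟨p, hp, hpk⟩ := List.mem_map.1 hk
    have := h0 p hp
    rw [← hpk] at this
    simp at this
  obtain ⟨b, hb⟩ := Option.isSome_iff_exists.1 h1
  rw [hb]
  rfl

theorem hv_append {H : List REv} {g : List ℕ} (hg : ∀ k ∈ g, k ∈ keys H) (H' : List REv) (x : ℕ) :
    hv (H ++ H') g x = hv H g x := by
  unfold hv
  congr 1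
  apply List.filter_congr
  intro k hk
  rw [blkOf_append (hg k hk)]

end Pool.Agent.Lib.H52K
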