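import Pool.Agent.Lib.H52K.G0
import Pool.Agent.Lib.H52K.G4b
import Pool.Agent.Lib.H52K.G5s

/-!
If `e` is a block, take `Z = []`. If `e = item k y`, let `L = ylist (H ++ [e]) y = ylist H y ++ [k]`,
`r = L.length`; for each level `l ≤ E` with `2^l ∣ r` apply `group_cover` to the group consisting of the
last `2^l` elements of `L`, that is `grp L l (r / 2^l - 1)`, and let `Z` be the concatenation of the lists
`Z_l.map fun (k', V) => (blkOf (H ++ [e]) k', y, V)`. For the levels with `¬ 2^l ∣ r` nothing changes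
(`r / 2^l = (r - 1) / 2^l`), for the others `r / 2^l = (r - 1) / 2^l + 1`.
-/

namespace Pool.Agent.Lib.H52K

theorem G5a_blks_item (H : List REv) (k y : ℕ) : blks (H ++ [REv.item k y]) = blks H := by
  rw [G5s_blks_append]
  have : blks [REv.item k y] = [] := rfl
  rw [this, List.append_nil]

theorem G5a_blkOf_item (H : List REv) (k y k' : ℕ) :
    blkOf (H ++ [REv.item k y]) k' = blkOf H k' := by
  unfold blkOf
  rw [G5a_blks_item]

theorem G5a_hv_item (H : List REv) (k y : ℕ) (g : List ℕ) (x : ℕ) :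
    hv (H ++ [REv.item k y]) g x = hv H g x := by
  unfold hv
  simp only [G5a_blkOf_item]

theorem G5a_hv_app (H : List REv) (g g' : List ℕ) (x : ℕ) :
    hv H (g ++ g') x = hv H g x + hv H g' x := by
  unfold hv
  rw [List.filter_append, List.length_append]

theorem G5a_blk {n S T W τ E : ℕ} {H : List REv} {k : ℕ} {β : List ℕ} {Mk Mk' : Finset ℕ}
    {A : List (List ℕ × ℕ × List ℕ)} (hL : RLegal n S T W E H) (hsub : Mk ⊆ Mk')
    (hM : ∀ k ∈ Mk, k ∈ keys H) (hA : RInv n τ E H Mk A) :
    RInv n τ E (H ++ [REv.blk k β]) Mk' (A ++ []) := by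
  rw [List.append_nil]
  have hy : ∀ y, ylist (H ++ [REv.blk k β]) y = ylist H y := ylist_blk H k β
  have hyk : ∀ y, ∀ k' ∈ ylist H y, k' ∈ keys H := fun y k' h => ylist_sub hL h
  refine ⟨?_, hA.sub, ?_, ?_, ?_⟩
  · intro e he
    obtain ⟨k', hk', h⟩ := hA.mem e he
    exact ⟨k', hsub hk', by rw [h, blkOf_append (hM k' hk')]⟩
  · intro y
    rw [hy]
    exact hA.len y
  · intro x y
    rw [hy]
    refine (hA.cnt x y).trans_eq (Finset.sum_congr rfl fun l _ => ?_)
    rw [hv_append]
    intro k' hk'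
    exact hyk y k' (List.mem_of_mem_take hk')
  · intro x y l hl s hs h
    rw [hy] at hs h
    rw [hv_append] at h
    · exact hA.cov x y l hl s hs h
    · intro k' hk'
      exact hyk y k' (List.mem_of_mem_drop (List.mem_of_mem_take hk'))

theorem G5a_take (L : List ℕ) (k l : ℕ) (h : ¬ 2 ^ l ∣ L.length + 1) :
    (L ++ [k]).take (2 ^ l * ((L ++ [k]).length / 2 ^ l)) = L.take (2 ^ l * (L.length / 2 ^ l)) := by
  have h1 : (L ++ [k]).length = L.length + 1 := by simp
  rw [h1, Nat.succ_div_of_not_dvd h, List.take_append_of_le_length (Nat.mul_div_le _ _)]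

theorem G5a_take' (L : List ℕ) (k l : ℕ) (h : 2 ^ l ∣ L.length + 1) :
    (L ++ [k]).take (2 ^ l * ((L ++ [k]).length / 2 ^ l)) =
      L.take (2 ^ l * (L.length / 2 ^ l)) ++ grp (L ++ [k]) l (L.length / 2 ^ l) := by
  have h1 : (L ++ [k]).length = L.length + 1 := by simp
  rw [h1, Nat.succ_div_of_dvd h, mul_add, mul_one, List.take_add,
    List.take_append_of_le_length (Nat.mul_div_le _ _)]
  unfold grp
  rw [mul_comm (2 ^ l) (L.length / 2 ^ l)]

theorem G5a_sum {γ : Type} (τ m : ℕ) (F : ℕ → List γ) (P : γ → Bool) (c : ℕ → ℕ)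
    (h : ∀ l < m, τ * ((F l).filter P).length ≤ c l) :
    τ * (((List.range m).flatMap F).filter P).length ≤ ∑ l ∈ Finset.range m, c l := by
  induction m with
  | zero => simp
  | succ m ih =>
    rw [List.range_succ, List.flatMap_append, List.filter_append, List.length_append,
      Finset.sum_range_succ, mul_add]
    refine add_le_add (ih fun l hl => h l (by omega)) ?_
    simpa using h m (by omega)

/-- the properties of the cover of a group -/
structure G5aC (n τ : ℕ) (H : List REv) (Mk : Finset ℕ) (g : List ℕ) (Z : List (ℕ × List ℕ)) :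
    Prop where
  p1 : ∀ e ∈ Z, e.1 ∈ Mk ∧ e.2.Nodup ∧ ∀ x ∈ e.2, x ∈ blkOf H e.1
  p2 : ∀ x, (Z.filter fun e => x ∈ e.2).length ≤ 1
  p3 : ∀ e ∈ Z, ∀ x ∈ e.2, τ ≤ hv H g x
  p4 : ∀ x, τ ≤ hv H g x → ∃ e ∈ Z, x ∈ e.2
  p5 : τ * Z.length ≤ (64 * n + 1) * g.length

theorem G5a_grp_sub (L : List ℕ) (l s k : ℕ) (h : k ∈ grp L l s) : k ∈ L :=
  List.mem_of_mem_drop (List.mem_of_mem_take h)

theorem G5a_grp_len (L : List ℕ) (l s : ℕ) : (grp L l s).length ≤ 2 ^ l := by
  unfold grp
  rw [List.length_take]
  exact min_le_left _ _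

theorem G5a_grp_append (L : List ℕ) (k l s : ℕ) (h : (s + 1) * 2 ^ l ≤ L.length) :
    grp (L ++ [k]) l s = grp L l s := by
  unfold grp
  rw [add_mul, one_mul] at h
  have h1 : s * 2 ^ l ≤ L.length := (Nat.le_add_right _ _).trans h
  rw [List.drop_append_of_le_length h1, List.take_append_of_le_length]
  rw [List.length_drop]
  exact Nat.le_sub_of_add_le' h

theorem G5a_item {n S T W τ E : ℕ} {H : List REv} {k y : ℕ} {Mk Mk' : Finset ℕ}
    {A : List (List ℕ × ℕ × List ℕ)} (hL : RLegal n S T W E (H ++ [REv.item k y]))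
    (hsub : Mk ⊆ Mk') (hA : RInv n τ E H Mk A) (Zf : ℕ → List (ℕ × List ℕ))
    (hZ : ∀ l ≤ E, 2 ^ l ∣ (ylist H y).length + 1 →
      G5aC n τ (H ++ [REv.item k y]) Mk' (grp (ylist H y ++ [k]) l ((ylist H y).length / 2 ^ l)) (Zf l))
    (hZ0 : ∀ l, ¬ 2 ^ l ∣ (ylist H y).length + 1 → Zf l = []) :
    RInv n τ E (H ++ [REv.item k y]) Mk' (A ++ (List.range (E + 1)).flatMap fun l =>
      (Zf l).map fun p => (blkOf (H ++ [REv.item k y]) p.1, y, p.2)) := by
  set Z := (List.range (E + 1)).flatMap fun l =>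
      (Zf l).map fun p => (blkOf (H ++ [REv.item k y]) p.1, y, p.2) with hZdef
  have hmemZ : ∀ e ∈ Z, ∃ l ≤ E, 2 ^ l ∣ (ylist H y).length + 1 ∧ ∃ p ∈ Zf l,
      e = (blkOf (H ++ [REv.item k y]) p.1, y, p.2) := by
    intro e he
    obtain ⟨l, hl, hl2⟩ := List.mem_flatMap.1 he
    obtain ⟨p, hp, rfl⟩ := List.mem_map.1 hl2
    refine ⟨l, by have := List.mem_range.1 hl; omega, ?_, p, hp, rfl⟩
    by_contra hd
    rw [hZ0 l hd] at hp
    simp at hp
  have hyy : ylist (H ++ [REv.item k y]) y = ylist H y ++ [k] := by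
    rw [ylist_item, if_pos rfl]
  have hyn : ∀ y', y' ≠ y → ylist (H ++ [REv.item k y]) y' = ylist H y' := by
    intro y' h
    rw [ylist_item, if_neg h]
  have hfilt : ∀ (y' : ℕ), y' ≠ y → ∀ P : List ℕ → Prop, ∀ [DecidablePred P],
      (Z.filter fun e => e.2.1 = y' ∧ P e.2.2) = [] := by
    intro y' h P _
    rw [List.filter_eq_nil_iff]
    intro e he
    obtain ⟨l, -, -, p, -, rfl⟩ := hmemZ e he
    simp only [decide_eq_true_eq, not_and]
    intro h1
    exact absurd h1.symm h
  refine ⟨?_, ?_, ?_, ?_, ?_⟩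
  · intro e he
    rcases List.mem_append.1 he with he | he
    · obtain ⟨k', hk', h⟩ := hA.mem e he
      exact ⟨k', hsub hk', by rw [h, G5a_blkOf_item]⟩
    · obtain ⟨l, hl, hd, p, hp, rfl⟩ := hmemZ e he
      exact ⟨p.1, ((hZ l hl hd).p1 p hp).1, rfl⟩
  · intro e he
    rcases List.mem_append.1 he with he | he
    · exact hA.sub e he
    · obtain ⟨l, hl, hd, p, hp, rfl⟩ := hmemZ e he
      exact ⟨((hZ l hl hd).p1 p hp).2.1, ((hZ l hl hd).p1 p hp).2.2⟩
  · intro y'
    rw [List.filter_append, List.length_append, mul_add]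
    by_cases h : y' = y
    · subst h
      rw [hyy]
      refine (add_le_add (hA.len y') (G5a_sum τ (E + 1) _ _
        (fun l => if 2 ^ l ∣ (ylist H y').length + 1 then (64 * n + 1) * 2 ^ l else 0) ?_)).trans ?_
      · intro l hl
        split_ifs with hd
        · refine (Nat.mul_le_mul_left τ (List.length_filter_le _ _)).trans ?_
          rw [List.length_map]
          exact ((hZ l (by omega) hd).p5).trans
            (Nat.mul_le_mul_left _ (G5a_grp_len _ _ _))
        · rw [hZ0 l hd]
          simp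
      · rw [Finset.mul_sum, Finset.mul_sum, ← Finset.sum_add_distrib]
        apply Finset.sum_le_sum
        intro l _
        have h1 : (ylist H y' ++ [k]).length = (ylist H y').length + 1 := by simp
        rw [h1]
        split_ifs with hd
        · rw [Nat.succ_div_of_dvd hd, mul_add (2 ^ l), mul_one, mul_add (64 * n + 1)]
        · rw [Nat.succ_div_of_not_dvd hd, add_zero]
    · rw [hyn y' h]
      have h1 : (Z.filter fun e => e.2.1 = y') = [] := by
        have := hfilt y' h (fun _ => True)
        simpa using this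
      rw [h1, List.length_nil, mul_zero, add_zero]
      exact hA.len y'
  · intro x y'
    rw [List.filter_append, List.length_append, mul_add]
    simp only [G5a_hv_item]
    by_cases h : y' = y
    · subst h
      rw [hyy]
      refine (add_le_add (hA.cnt x y') (G5a_sum τ (E + 1) _ _
        (fun l => if 2 ^ l ∣ (ylist H y').length + 1 then
          hv H (grp (ylist H y' ++ [k]) l ((ylist H y').length / 2 ^ l)) x else 0) ?_)).trans ?_
      · intro l hl
        split_ifs with hd
        · have hC := hZ l (by omega) hd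
          rw [List.filter_map, List.length_map]
          have h2 : ((Zf l).filter ((fun e : List ℕ × ℕ × List ℕ => decide (e.2.1 = y' ∧ x ∈ e.2.2)) ∘
              fun p => (blkOf (H ++ [REv.item k y']) p.1, y', p.2))) =
              (Zf l).filter fun e => x ∈ e.2 := by
            apply List.filter_congr
            intro p _
            simp
          rw [h2]
          rcases Nat.eq_zero_or_pos ((Zf l).filter fun e => x ∈ e.2).length with h3 | h3
          · rw [h3]
            simp
          · obtain ⟨p, hp⟩ := List.exists_mem_of_length_pos h3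
            have h4 := hC.p3 p (List.mem_filter.1 hp).1 x (by simpa using (List.mem_filter.1 hp).2)
            rw [G5a_hv_item] at h4
            calc τ * ((Zf l).filter fun e => x ∈ e.2).length ≤ τ * 1 :=
                  Nat.mul_le_mul_left _ (hC.p2 x)
              _ = τ := mul_one _
              _ ≤ _ := h4
        · rw [hZ0 l hd]
          simp
      · rw [← Finset.sum_add_distrib]
        apply Finset.sum_le_sum
        intro l _
        split_ifs with hd
        · rw [G5a_take' _ _ _ hd, G5a_hv_app]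
        · rw [G5a_take _ _ _ hd, add_zero]
    · rw [hyn y' h]
      have h1 : (Z.filter fun e => e.2.1 = y' ∧ x ∈ e.2.2) = [] :=
        hfilt y' h (fun V => x ∈ V)
      rw [h1, List.length_nil, mul_zero, add_zero]
      exact hA.cnt x y'
  · intro x y' l hl s hs h
    rw [G5a_hv_item] at h
    by_cases hy : y' = y
    · subst hy
      rw [hyy] at hs h
      have h1 : (ylist H y' ++ [k]).length = (ylist H y').length + 1 := by simp
      rw [h1] at hs
      rcases Nat.lt_or_ge (ylist H y').length ((s + 1) * 2 ^ l) with h2 | h2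
      · have h3 : (s + 1) * 2 ^ l = (ylist H y').length + 1 := by omega
        have hd : 2 ^ l ∣ (ylist H y').length + 1 := ⟨s + 1, by rw [← h3, mul_comm]⟩
        have h4 : (ylist H y').length / 2 ^ l = s := by
          have h5 := Nat.succ_div_of_dvd hd
          rw [← h3, Nat.mul_div_cancel _ (by positivity)] at h5
          omega
        have hC := hZ l hl hd
        rw [h4] at hC
        obtain ⟨p, hp, hxp⟩ := hC.p4 x (by rw [G5a_hv_item]; exact h)
        refine ⟨(blkOf (H ++ [REv.item k y']) p.1, y', p.2), ?_, rfl, hxp⟩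
        apply List.mem_append_right
        rw [hZdef]
        exact List.mem_flatMap.2 ⟨l, List.mem_range.2 (by omega), List.mem_map.2 ⟨p, hp, rfl⟩⟩
      · rw [G5a_grp_append _ _ _ _ h2] at h
        obtain ⟨e, he, h5⟩ := hA.cov x y' l hl s h2 h
        exact ⟨e, List.mem_append_left _ he, h5⟩
    · rw [hyn y' hy] at hs h
      obtain ⟨e, he, h5⟩ := hA.cov x y' l hl s hs h
      exact ⟨e, List.mem_append_left _ he, h5⟩

theorem RInv_step (n q κ E S T W τ : ℕ) (H : List REv) (e : REv)
    (hL : RLegal n S T W E (H ++ [e])) (hT : T ≤ 2 ^ (κ - 2)) (hκ : 8 ≤ κ) (hq : 1 ≤ q) (hn : 1 ≤ n)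
    (hτ : 64 * (E + 3) * q * n * κ ≤ τ) (Mk Mk' : Finset ℕ) (hsub : Mk ⊆ Mk')
    (hM : ∀ k ∈ Mk, k ∈ keys H) (hM' : Marked n q κ E (H ++ [e]) Mk')
    (A : List (List ℕ × ℕ × List ℕ)) (hA : RInv n τ E H Mk A) :
    ∃ Z, RInv n τ E (H ++ [e]) Mk' (A ++ Z) := by
  classical
  cases e with
  | blk k β => exact ⟨[], G5a_blk hL.init hsub hM hA⟩
  | item k y =>
    have hyy : ylist (H ++ [REv.item k y]) y = ylist H y ++ [k] := by
      rw [ylist_item, if_pos rfl]
    have hex : ∀ l, ∃ Z : List (ℕ × List ℕ), (l ≤ E → 2 ^ l ∣ (ylist H y).length + 1 →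
        G5aC n τ (H ++ [REv.item k y]) Mk'
          (grp (ylist H y ++ [k]) l ((ylist H y).length / 2 ^ l)) Z) ∧
        (¬ 2 ^ l ∣ (ylist H y).length + 1 → Z = []) := by
      intro l
      by_cases hd : 2 ^ l ∣ (ylist H y).length + 1
      · by_cases hl : l ≤ E
        · obtain ⟨Z, h1, h2, h3, h4, h5⟩ := group_cover n q κ E S T W τ (H ++ [REv.item k y]) Mk' hL
            hT hM' hκ hq hn hτ (grp (ylist H y ++ [k]) l ((ylist H y).length / 2 ^ l)) (by
              have h6 := ylist_nodup hL y
              rw [hyy] at h6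
              unfold grp
              exact (h6.sublist (List.drop_sublist _ _)).sublist (List.take_sublist _ _)) (by
              intro k' hk'
              apply ylist_sub hL (y := y)
              rw [hyy]
              exact G5a_grp_sub _ _ _ _ hk')
            ((G5a_grp_len _ _ _).trans (Nat.pow_le_pow_right (by norm_num) hl))
          exact ⟨Z, fun _ _ => ⟨h1, h2, h3, h4, h5⟩, fun h => absurd hd h⟩
        · exact ⟨[], fun h => absurd h hl, fun _ => rfl⟩
      · exact ⟨[], fun _ h => absurd h hd, fun _ => rfl⟩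
    choose Zf hZ hZ0 using hex
    exact ⟨_, G5a_item hL hsub hA Zf hZ hZ0⟩

end Pool.Agent.Lib.H52K
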