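import Pool.Agent.Lib.H52K.Defs

/-!
For the assignment number `p`, `e_p = (β_p, y_p, V_p)`, let `c_p` be the number of `p' < p` with `β_{p'} = β_p`.
If `cap ∣ c_p`, a new name with the set `β_p` is created (appended to the list of names). The
assignment `p` gets the latest name with the set `β_p`, say number `k_p`; append `(k_p, y_p)` to the second
list and `(x, y_p, k_p)`, `x ∈ V_p`, to the third. The number of names for `β` is the number `A_β` of
assignments with the set `β` divided by `cap`, rounded up: `cap * ⌈A_β / cap⌉ ≤ cap * [A_β > 0] + A_β`.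
-/

namespace Pool.Agent.Lib.H52K

/-- State: latest name of every set, processed sets, output. -/
abbrev G5bSt := (List ℕ → ℕ) × List (List ℕ) × Out1

/-- One step of the conversion. -/
def G5bStep (cap : ℕ) (S : G5bSt) (e : List ℕ × ℕ × List ℕ) : G5bSt :=
  if cap ∣ S.2.1.count e.1 then
    (Function.update S.1 e.1 S.2.2.1.length, S.2.1 ++ [e.1],
      (S.2.2.1 ++ [e.1], S.2.2.2.1 ++ [(S.2.2.1.length, e.2.1)],
        S.2.2.2.2 ++ e.2.2.map fun x => (x, e.2.1, S.2.2.1.length)))
  else
    (S.1, S.2.1 ++ [e.1],
      (S.2.2.1, S.2.2.2.1 ++ [(S.1 e.1, e.2.1)],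
        S.2.2.2.2 ++ e.2.2.map fun x => (x, e.2.1, S.1 e.1)))

/-- The state after the assignments `A`. -/
def G5bRun (cap : ℕ) (A : List (List ℕ × ℕ × List ℕ)) : G5bSt :=
  A.foldl (G5bStep cap) (fun _ => 0, [], ([], [], []))

theorem G5b_run_snoc (cap : ℕ) (A : List (List ℕ × ℕ × List ℕ)) (e : List ℕ × ℕ × List ℕ) :
    G5bRun cap (A ++ [e]) = G5bStep cap (G5bRun cap A) e := by
  simp [G5bRun, List.foldl_append]

theorem G5b_step_ext (cap : ℕ) (S : G5bSt) (e : List ℕ × ℕ × List ℕ) :
    S.2.2.ext (G5bStep cap S e).2.2 := by
  unfold G5bStep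
  split_ifs
  · exact ⟨List.prefix_append _ _, List.prefix_append _ _, List.prefix_append _ _⟩
  · exact ⟨List.prefix_refl _, List.prefix_append _ _, List.prefix_append _ _⟩

theorem G5b_foldl_ext (cap : ℕ) (Z : List (List ℕ × ℕ × List ℕ)) (S : G5bSt) :
    S.2.2.ext (Z.foldl (G5bStep cap) S).2.2 := by
  induction Z generalizing S with
  | nil => exact ⟨List.prefix_refl _, List.prefix_refl _, List.prefix_refl _⟩
  | cons e Z ih =>
    have h1 := G5b_step_ext cap S e
    have h2 := ih (G5bStep cap S e)
    exact ⟨h1.1.trans h2.1, h1.2.1.trans h2.2.1, h1.2.2.trans h2.2.2⟩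

theorem G5b_map (cap : ℕ) (A : List (List ℕ × ℕ × List ℕ)) :
    (G5bRun cap A).2.1 = A.map Prod.fst := by
  induction A using List.reverseRecOn with
  | nil => simp [G5bRun]
  | append_singleton A e ih =>
    rw [G5b_run_snoc, G5bStep]
    split_ifs <;> simp [ih]

/-- The counting invariant. -/
theorem G5b_inv (cap : ℕ) (hcap : 1 ≤ cap) (A : List (List ℕ × ℕ × List ℕ)) (β : List ℕ) :
    cap * (G5bRun cap A).2.2.1.count β < (A.map Prod.fst).count β + cap ∧
      (A.map Prod.fst).count β ≤ cap * (G5bRun cap A).2.2.1.count β := by
  induction A using List.reverseRecOn with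
  | nil => simp [G5bRun]; omega
  | append_singleton A e ih =>
    rw [G5b_run_snoc, G5bStep, G5b_map]
    obtain ⟨h1, h2⟩ := ih
    by_cases hβ : e.1 = β
    · subst hβ
      split_ifs with hd
      · obtain ⟨c, hc⟩ := hd
        simp only [List.count_append, List.map_append, List.map_cons, List.map_nil,
          List.count_singleton_self]
        rw [hc] at h1 h2
        have h3 : c ≤ (G5bRun cap A).2.2.1.count e.1 := Nat.le_of_mul_le_mul_left h2 (by omega)
        have h4 : (G5bRun cap A).2.2.1.count e.1 < c + 1 := by
          have : cap * (G5bRun cap A).2.2.1.count e.1 < cap * (c + 1) := by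
            rw [Nat.mul_add, Nat.mul_one]; exact h1
          exact Nat.lt_of_mul_lt_mul_left this
        have h5 : (G5bRun cap A).2.2.1.count e.1 = c := by omega
        rw [h5, hc, Nat.mul_add, Nat.mul_one]
        constructor <;> omega
      · simp only [List.map_append, List.map_cons, List.map_nil, List.count_append,
          List.count_singleton_self]
        have h3 : (A.map Prod.fst).count e.1 ≠ cap * (G5bRun cap A).2.2.1.count e.1 := by
          intro h
          exact hd ⟨_, h⟩
        constructor <;> omega
    · have h0 : ([e.1] : List (List ℕ)).count β = 0 := by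
        rw [List.count_eq_zero]
        simp only [List.mem_singleton]
        exact fun h => hβ h.symm
      split_ifs with hd
      · simp only [List.count_append, List.map_append, List.map_cons, List.map_nil, h0,
          Nat.add_zero]
        exact ⟨h1, h2⟩
      · simp only [List.count_append, List.map_append, List.map_cons, List.map_nil, h0,
          Nat.add_zero]
        exact ⟨h1, h2⟩

/-- The number of items of the name `k`. -/
def G5bN (O : Out1) (k : ℕ) : ℕ := (O.2.1.filter fun p => p.1 = k).length

/-- The latest names. -/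
theorem G5b_lat (cap : ℕ) (hcap : 1 ≤ cap) (A : List (List ℕ × ℕ × List ℕ)) :
    (∀ β, 0 < (A.map Prod.fst).count β →
      (G5bRun cap A).1 β < (G5bRun cap A).2.2.1.length ∧
      (G5bRun cap A).2.2.1.getD ((G5bRun cap A).1 β) [] = β ∧
      G5bN (G5bRun cap A).2.2 ((G5bRun cap A).1 β) = ((A.map Prod.fst).count β - 1) % cap + 1) ∧
    (∀ k, G5bN (G5bRun cap A).2.2 k ≤ cap) ∧
    (∀ k, (G5bRun cap A).2.2.1.length ≤ k → G5bN (G5bRun cap A).2.2 k = 0) := by
  induction A using List.reverseRecOn with
  | nil => refine ⟨by simp, by simp [G5bRun, G5bN], by simp [G5bRun, G5bN]⟩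
  | append_singleton A e ih =>
    obtain ⟨i1, i2, i3⟩ := ih
    rw [G5b_run_snoc, G5bStep, G5b_map]
    set R := G5bRun cap A with hR
    split_ifs with hd
    · -- a new name
      have hN : ∀ k, G5bN (R.2.2.1 ++ [e.1], R.2.2.2.1 ++ [(R.2.2.1.length, e.2.1)],
          R.2.2.2.2 ++ e.2.2.map fun x => (x, e.2.1, R.2.2.1.length)) k =
          G5bN R.2.2 k + if R.2.2.1.length = k then 1 else 0 := by
        intro k
        simp only [G5bN, List.filter_append, List.length_append]
        congr 1
        by_cases hk : R.2.2.1.length = k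
        · simp [hk]
        · simp [hk]
      refine ⟨?_, ?_, ?_⟩
      · intro β hβ
        simp only
        by_cases hβe : β = e.1
        · subst hβe
          rw [Function.update_self]
          refine ⟨by simp, by simp, ?_⟩
          rw [hN, if_pos rfl, i3 _ le_rfl]
          simp only [List.map_append, List.map_cons, List.map_nil, List.count_append,
            List.count_singleton_self]
          rw [Nat.add_sub_cancel, Nat.mod_eq_zero_of_dvd hd]
        · rw [Function.update_of_ne hβe]
          have h0 : ([e.1] : List (List ℕ)).count β = 0 := by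
            rw [List.count_eq_zero]
            simp only [List.mem_singleton]
            exact hβe
          simp only [List.map_append, List.map_cons, List.map_nil, List.count_append, h0,
            Nat.add_zero] at hβ ⊢
          obtain ⟨j1, j2, j3⟩ := i1 β hβ
          refine ⟨by simp only [List.length_append, List.length_singleton]; omega, ?_, ?_⟩
          · rw [List.getD_append _ _ _ _ j1]; exact j2
          · rw [hN, if_neg (by omega), j3]
      · intro k
        rw [hN]
        split_ifs with hk
        · rw [← hk, i3 _ le_rfl]; omega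
        · exact i2 k
      · intro k hk
        simp only [List.length_append, List.length_singleton] at hk
        rw [hN, if_neg (by omega), i3 k (by omega)]
    · -- an old name
      have hpos : 0 < (A.map Prod.fst).count e.1 := by
        rcases Nat.eq_zero_or_pos ((A.map Prod.fst).count e.1) with h | h
        · exact absurd (h ▸ dvd_zero cap) hd
        · exact h
      have hN : ∀ k, G5bN (R.2.2.1, R.2.2.2.1 ++ [(R.1 e.1, e.2.1)],
          R.2.2.2.2 ++ e.2.2.map fun x => (x, e.2.1, R.1 e.1)) k =
          G5bN R.2.2 k + if R.1 e.1 = k then 1 else 0 := by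
        intro k
        simp only [G5bN, List.filter_append, List.length_append]
        congr 1
        by_cases hk : R.1 e.1 = k
        · simp [hk]
        · simp [hk]
      obtain ⟨e1, e2, e3⟩ := i1 e.1 hpos
      have hmod : ((A.map Prod.fst).count e.1 - 1) % cap + 1 = (A.map Prod.fst).count e.1 % cap := by
        have h1 : (A.map Prod.fst).count e.1 % cap ≠ 0 := fun h => hd (Nat.dvd_of_mod_eq_zero h)
        have h2 := Nat.mod_lt ((A.map Prod.fst).count e.1) (show cap > 0 by omega)
        have h3 := Nat.div_add_mod ((A.map Prod.fst).count e.1) cap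
        have h4 : (A.map Prod.fst).count e.1 - 1 =
            ((A.map Prod.fst).count e.1 % cap - 1) + cap * ((A.map Prod.fst).count e.1 / cap) := by
          omega
        rw [h4, Nat.add_mul_mod_self_left, Nat.mod_eq_of_lt (by omega)]
        omega
      refine ⟨?_, ?_, ?_⟩
      · intro β hβ
        simp only
        by_cases hβe : β = e.1
        · subst hβe
          refine ⟨e1, e2, ?_⟩
          rw [hN, if_pos rfl, e3, hmod]
          simp only [List.map_append, List.map_cons, List.map_nil, List.count_append,
            List.count_singleton_self]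
          rw [Nat.add_sub_cancel]
        · have h0 : ([e.1] : List (List ℕ)).count β = 0 := by
            rw [List.count_eq_zero]
            simp only [List.mem_singleton]
            exact hβe
          simp only [List.map_append, List.map_cons, List.map_nil, List.count_append, h0,
            Nat.add_zero] at hβ ⊢
          obtain ⟨j1, j2, j3⟩ := i1 β hβ
          refine ⟨j1, j2, ?_⟩
          have hne : R.1 e.1 ≠ R.1 β := by
            intro h
            rw [h] at e2
            exact hβe (j2.symm.trans e2)
          rw [hN, if_neg hne, j3]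
      · intro k
        rw [hN]
        split_ifs with hk
        · rw [← hk, e3, hmod]
          exact Nat.mod_lt _ (by omega)
        · exact i2 k
      · intro k hk
        simp only at hk
        rw [hN, if_neg (by omega), i3 k hk]

/-- The third list. -/
theorem G5b_third (cap : ℕ) (A : List (List ℕ × ℕ × List ℕ)) (hA : ∀ e ∈ A, e.2.2.Nodup)
    (x y : ℕ) : ((G5bRun cap A).2.2.2.2.filter fun p => p.1 = x ∧ p.2.1 = y).length ≤
      (A.filter fun e => e.2.1 = y ∧ x ∈ e.2.2).length := by
  induction A using List.reverseRecOn with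
  | nil => simp [G5bRun]
  | append_singleton A e ih =>
    have ih' := ih fun e' he' => hA e' (by simp [he'])
    have hnd : e.2.2.Nodup := hA e (by simp)
    have key : ∀ k : ℕ, ((e.2.2.map fun x' => (x', e.2.1, k)).filter
        fun p => p.1 = x ∧ p.2.1 = y).length ≤ ([e].filter fun e => e.2.1 = y ∧ x ∈ e.2.2).length := by
      intro k
      rw [List.filter_map, List.length_map]
      by_cases hy : e.2.1 = y
      · by_cases hx : x ∈ e.2.2
        · have h1 : ([e].filter fun e => e.2.1 = y ∧ x ∈ e.2.2).length = 1 := by simp [hy, hx]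
          rw [h1]
          have h2 : (e.2.2.filter ((fun p : ℕ × ℕ × ℕ => decide (p.1 = x ∧ p.2.1 = y)) ∘
              fun x' => (x', e.2.1, k))).length = e.2.2.count x := by
            rw [List.count_eq_length_filter]
            congr 1
            apply List.filter_congr
            intro a _
            by_cases hax : a = x <;> simp [hax, hy]
          rw [h2]
          exact List.nodup_iff_count_le_one.mp hnd x
        · have : (e.2.2.filter ((fun p : ℕ × ℕ × ℕ => decide (p.1 = x ∧ p.2.1 = y)) ∘
              fun x' => (x', e.2.1, k))) = [] := by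
            rw [List.filter_eq_nil_iff]
            intro a ha
            simp only [Function.comp, decide_eq_true_eq, not_and]
            intro hax
            exact absurd (hax ▸ ha) hx
          rw [this]; simp
      · have : (e.2.2.filter ((fun p : ℕ × ℕ × ℕ => decide (p.1 = x ∧ p.2.1 = y)) ∘
              fun x' => (x', e.2.1, k))) = [] := by
          rw [List.filter_eq_nil_iff]
          intro a ha
          simp [hy]
        rw [this]; simp
    rw [G5b_run_snoc, G5bStep, List.filter_append, List.length_append]
    split_ifs with hd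
    · simp only [List.filter_append, List.length_append]
      exact Nat.add_le_add ih' (key _)
    · simp only [List.filter_append, List.length_append]
      exact Nat.add_le_add ih' (key _)

theorem G5b_names (cap : ℕ) (A : List (List ℕ × ℕ × List ℕ)) :
    ∀ X ∈ (G5bRun cap A).2.2.1, ∃ e ∈ A, X = e.1 := by
  induction A using List.reverseRecOn with
  | nil => simp [G5bRun]
  | append_singleton A e ih =>
    rw [G5b_run_snoc, G5bStep]
    split_ifs with hd
    · intro X hX
      simp only [List.mem_append, List.mem_singleton] at hX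
      rcases hX with hX | hX
      · obtain ⟨e', he', h⟩ := ih X hX
        exact ⟨e', by simp [he'], h⟩
      · exact ⟨e, by simp, hX⟩
    · intro X hX
      obtain ⟨e', he', h⟩ := ih X hX
      exact ⟨e', by simp [he'], h⟩

theorem G5b_cover (cap : ℕ) (hcap : 1 ≤ cap) (A : List (List ℕ × ℕ × List ℕ)) :
    ∀ e ∈ A, ∀ x ∈ e.2.2, x ∈ e.1 → ∃ k < (G5bRun cap A).2.2.1.length,
        (x, e.2.1, k) ∈ (G5bRun cap A).2.2.2.2 ∧ x ∈ (G5bRun cap A).2.2.1.getD k [] ∧
          (k, e.2.1) ∈ (G5bRun cap A).2.2.2.1 := by
  induction A using List.reverseRecOn with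
  | nil => simp
  | append_singleton A e ih =>
    intro e' he' x hx hx1
    rw [List.mem_append, List.mem_singleton] at he'
    rcases he' with he' | he'
    · obtain ⟨k, hk, h1, h2, h3⟩ := ih e' he' x hx hx1
      have hext := G5b_step_ext cap (G5bRun cap A) e
      rw [G5b_run_snoc]
      obtain ⟨u1, u2, u3⟩ := hext
      refine ⟨k, lt_of_lt_of_le hk u1.length_le, u3.subset h1, ?_, u2.subset h3⟩
      obtain ⟨Z, hZ⟩ := u1
      rw [← hZ, List.getD_append _ _ _ _ hk]
      exact h2
    · subst he'
      rw [G5b_run_snoc, G5bStep, G5b_map]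
      split_ifs with hd
      · refine ⟨(G5bRun cap A).2.2.1.length, by simp, ?_, by simp [hx1], by simp⟩
        simp [hx]
      · have hpos : 0 < (A.map Prod.fst).count e'.1 := by
          rcases Nat.eq_zero_or_pos ((A.map Prod.fst).count e'.1) with h | h
          · exact absurd (h ▸ dvd_zero cap) hd
          · exact h
        obtain ⟨j1, j2, -⟩ := (G5b_lat cap hcap A).1 e'.1 hpos
        refine ⟨(G5bRun cap A).1 e'.1, j1, ?_, ?_, by simp⟩
        · simp [hx]
        · simp only
          rw [j2]; exact hx1

theorem G5b_sum_count (P : Finset (List ℕ)) (l : List (List ℕ)) (h : ∀ β ∈ l, β ∈ P) :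
    ∑ β ∈ P, l.count β = l.length := by
  induction l with
  | nil => simp
  | cons a l ih =>
    have ih' := ih fun β hβ => h β (List.mem_cons_of_mem a hβ)
    simp only [List.count_cons, Finset.sum_add_distrib, ih', List.length_cons, Nat.add_left_cancel_iff]
    have : ∀ β ∈ P, (if (a == β) = true then 1 else 0) = if a = β then 1 else 0 := by
      intro β _
      simp
    rw [Finset.sum_congr rfl this, Finset.sum_ite_eq, if_pos (h a List.mem_cons_self)]

theorem G5b_length (cap : ℕ) (hcap : 1 ≤ cap) (A : List (List ℕ × ℕ × List ℕ))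
    (D : Finset (List ℕ)) (hD : ∀ e ∈ A, e.1 ∈ D) :
    cap * (G5bRun cap A).2.2.1.length ≤ cap * min D.card A.length + A.length := by
  set L := A.map Prod.fst with hL
  have hLlen : L.length = A.length := by simp [hL]
  set P := L.toFinset with hP
  have hPD : P ⊆ D := by
    intro β hβ
    rw [hP, List.mem_toFinset, hL, List.mem_map] at hβ
    obtain ⟨e, he, h⟩ := hβ
    exact h ▸ hD e he
  have hPc : P.card ≤ min D.card A.length :=
    le_min (Finset.card_le_card hPD) (hLlen ▸ List.toFinset_card_le L)
  have hsub : (G5bRun cap A).2.2.1.toFinset ⊆ P := by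
    intro β hβ
    rw [List.mem_toFinset] at hβ
    obtain ⟨e, he, h⟩ := G5b_names cap A β hβ
    rw [hP, List.mem_toFinset, hL, h]
    exact List.mem_map_of_mem he
  have h1 : (G5bRun cap A).2.2.1.length = ∑ β ∈ P, (G5bRun cap A).2.2.1.count β :=
    (G5b_sum_count P _ fun β hβ => hsub (List.mem_toFinset.mpr hβ)).symm
  have h2 : L.length = ∑ β ∈ P, L.count β :=
    (G5b_sum_count P _ fun β hβ => List.mem_toFinset.mpr hβ).symm
  rw [h1, Finset.mul_sum]
  calc ∑ β ∈ P, cap * (G5bRun cap A).2.2.1.count β
      ≤ ∑ β ∈ P, (L.count β + cap) :=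
        Finset.sum_le_sum fun β _ => (G5b_inv cap hcap A β).1.le
    _ = A.length + P.card * cap := by
        rw [Finset.sum_add_distrib, ← h2, hLlen, Finset.sum_const, smul_eq_mul]
    _ ≤ cap * min D.card A.length + A.length := by
        rw [mul_comm P.card cap, add_comm]
        exact Nat.add_le_add_right (Nat.mul_le_mul_left _ hPc) _

/-- Converting the list of assignments into names with bounded capacity. -/
theorem conv_exists (cap : ℕ) (hcap : 1 ≤ cap) :
    ∃ conv : List (List ℕ × ℕ × List ℕ) → Out1, (∀ A Z, (conv A).ext (conv (A ++ Z))) ∧ ∀ A,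
      (∀ D : Finset (List ℕ), (∀ e ∈ A, e.1 ∈ D) →
        cap * (conv A).1.length ≤ cap * min D.card A.length + A.length) ∧
      (∀ X ∈ (conv A).1, ∃ e ∈ A, X = e.1) ∧
      (∀ k, ((conv A).2.1.filter fun p => p.1 = k).length ≤ cap) ∧
      ((∀ e ∈ A, e.2.2.Nodup) → ∀ x y, ((conv A).2.2.filter fun p => p.1 = x ∧ p.2.1 = y).length ≤
        (A.filter fun e => e.2.1 = y ∧ x ∈ e.2.2).length) ∧
      (∀ e ∈ A, ∀ x ∈ e.2.2, x ∈ e.1 → ∃ k < (conv A).1.length,
        (x, e.2.1, k) ∈ (conv A).2.2 ∧ x ∈ (conv A).1.getD k [] ∧ (k, e.2.1) ∈ (conv A).2.1) := by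
  refine ⟨fun A => (G5bRun cap A).2.2, ?_, ?_⟩
  · intro A Z
    simp only [G5bRun, List.foldl_append]
    exact G5b_foldl_ext cap Z _
  · intro A
    refine ⟨fun D hD => G5b_length cap hcap A D hD, G5b_names cap A,
      fun k => (G5b_lat cap hcap A).2.1 k, fun h x y => G5b_third cap A h x y,
      G5b_cover cap hcap A⟩

end Pool.Agent.Lib.H52K
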