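import Pool.Agent.Lib.H52K.G5s

/-!
Consequences of the invariant. (`RInv_len`) if `W`-many items are there, `Σ_y |ylist H y| ≤ W`, sum over the
`y` occurring; if `τ ≥ 1` only those `y` occur in `A` (for `τ = 0` trivial). (`RInv_cov`) the interval
`[0, r)`, `r = |ylist H y| ≤ 2^E`, is the disjoint union of the dyadic groups `grp L l (r / 2^l - 1)` for the
levels `l ≤ E` with `r / 2^l` odd; one of them contains at least `τ` keys of blocks containing `x`.
-/

namespace Pool.Agent.Lib.H52K

theorem G5c_sum {γ : Type} (L : List γ) (f : γ → ℕ) (Y : Finset ℕ) :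
    ∑ y ∈ Y, (L.filter fun e => f e = y).length = (L.filter fun e => f e ∈ Y).length := by
  induction L with
  | nil => simp
  | cons a L ih =>
    have h1 : ∀ y, ((a :: L).filter fun e => f e = y).length =
        (L.filter fun e => f e = y).length + if f a = y then 1 else 0 := by
      intro y
      by_cases h : f a = y
      · rw [List.filter_cons_of_pos (by simpa using h), if_pos h, List.length_cons]
      · rw [List.filter_cons_of_neg (by simpa using h), if_neg h, add_zero]
    simp only [h1]
    rw [Finset.sum_add_distrib, ih, Finset.sum_ite_eq]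
    by_cases h : f a ∈ Y
    · rw [List.filter_cons_of_pos (by simpa using h), if_pos h, List.length_cons]
    · rw [List.filter_cons_of_neg (by simpa using h), if_neg h, add_zero]

theorem RInv_len {n E S T W τ : ℕ} {H : List REv} {Mk : Finset ℕ}
    {A : List (List ℕ × ℕ × List ℕ)} (hL : RLegal n S T W E H) (hA : RInv n τ E H Mk A) :
    τ * A.length ≤ (E + 1) * (64 * n + 1) * W := by
  classical
  set Y : Finset ℕ := (A.map fun e => e.2.1).toFinset with hY
  have h1 : A.length = ∑ y ∈ Y, (A.filter fun e => e.2.1 = y).length := by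
    rw [G5c_sum A (fun e => e.2.1) Y]
    congr 1
    symm
    rw [List.filter_eq_self]
    intro e he
    rw [decide_eq_true_eq, hY, List.mem_toFinset]
    exact List.mem_map.2 ⟨e, he, rfl⟩
  have h2 : ∑ y ∈ Y, (ylist H y).length ≤ W := by
    have h3 : ∀ y, (ylist H y).length = ((itms H).filter fun p => p.2 = y).length := by
      intro y
      unfold ylist
      rw [List.length_map]
    simp only [h3]
    rw [G5c_sum (itms H) Prod.snd Y]
    exact (List.length_filter_le _ _).trans hL.itms_len
  rw [h1, Finset.mul_sum]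
  calc ∑ y ∈ Y, τ * (A.filter fun e => e.2.1 = y).length
      ≤ ∑ y ∈ Y, (E + 1) * (64 * n + 1) * (ylist H y).length := by
        apply Finset.sum_le_sum
        intro y _
        refine (hA.len y).trans ?_
        have h4 : ∑ l ∈ Finset.range (E + 1), 2 ^ l * ((ylist H y).length / 2 ^ l) ≤
            (E + 1) * (ylist H y).length := by
          refine (Finset.sum_le_card_nsmul _ _ (ylist H y).length
            (fun l _ => Nat.mul_div_le _ _)).trans_eq ?_
          rw [Finset.card_range, smul_eq_mul]
        calc (64 * n + 1) * ∑ l ∈ Finset.range (E + 1), 2 ^ l * ((ylist H y).length / 2 ^ l)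
            ≤ (64 * n + 1) * ((E + 1) * (ylist H y).length) := Nat.mul_le_mul_left _ h4
          _ = _ := by ring
    _ = (E + 1) * (64 * n + 1) * ∑ y ∈ Y, (ylist H y).length := by rw [Finset.mul_sum]
    _ ≤ _ := Nat.mul_le_mul_left _ h2

theorem G5c_hv_sub (H : List REv) {g g' : List ℕ} (h : List.Sublist g g') (x : ℕ) :
    hv H g x ≤ hv H g' x := by
  unfold hv
  exact (h.filter _).length_le

theorem RInv_cnt {n E S T W τ : ℕ} {H : List REv} {Mk : Finset ℕ}
    {A : List (List ℕ × ℕ × List ℕ)} (hL : RLegal n S T W E H) (hA : RInv n τ E H Mk A) (x y : ℕ) :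
    τ * (A.filter fun e => e.2.1 = y ∧ x ∈ e.2.2).length ≤ (E + 1) * rcnt H x y := by
  refine (hA.cnt x y).trans ?_
  refine (Finset.sum_le_card_nsmul _ _ (rcnt H x y)
    (fun l _ => G5c_hv_sub H (List.take_sublist _ _) x)).trans_eq ?_
  rw [Finset.card_range, smul_eq_mul]

theorem G5c_split (H : List REv) (L : List ℕ) (x m : ℕ) :
    hv H L x = hv H (L.take (2 ^ m * (L.length / 2 ^ m))) x +
      ∑ j ∈ Finset.range m, if L.length / 2 ^ j % 2 = 1 then
        hv H (grp L j (L.length / 2 ^ j - 1)) x else 0 := by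
  induction m with
  | zero => simp
  | succ m ih =>
    rw [Finset.sum_range_succ]
    have h1 : hv H (L.take (2 ^ m * (L.length / 2 ^ m))) x =
        hv H (L.take (2 ^ (m + 1) * (L.length / 2 ^ (m + 1)))) x +
        if L.length / 2 ^ m % 2 = 1 then hv H (grp L m (L.length / 2 ^ m - 1)) x else 0 := by
      set s := L.length / 2 ^ m with hs
      have h2 : L.length / 2 ^ (m + 1) = s / 2 := by
        rw [hs, Nat.div_div_eq_div_mul, pow_succ]
      rw [h2, pow_succ, mul_assoc]
      split_ifs with hd
      · have h3 : 2 * (s / 2) = s - 1 := by omega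
        have h4 : 1 ≤ s := by omega
        rw [h3]
        have h5 : 2 ^ m * s = 2 ^ m * (s - 1) + 2 ^ m := by
          conv_lhs => rw [show s = (s - 1) + 1 by omega]
          rw [mul_add, mul_one]
        rw [h5, List.take_add]
        unfold grp
        rw [mul_comm (s - 1)]
        unfold hv
        rw [List.filter_append, List.length_append]
      · have h3 : 2 * (s / 2) = s := by omega
        rw [h3, add_zero]
    omega

theorem RInv_cov {n E S T W τ : ℕ} {H : List REv} {Mk : Finset ℕ}
    {A : List (List ℕ × ℕ × List ℕ)} (hL : RLegal n S T W E H) (hA : RInv n τ E H Mk A)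
    (hτ : 1 ≤ τ) (x y : ℕ) (h : (E + 1) * τ ≤ rcnt H x y) :
    ∃ e ∈ A, e.2.1 = y ∧ x ∈ e.2.2 := by
  set L := ylist H y with hLdef
  have h1 := G5c_split H L x (E + 1)
  have h2 : L.length / 2 ^ (E + 1) = 0 := by
    apply Nat.div_eq_of_lt
    have h3 := hL.itms_y y
    rw [← hLdef] at h3
    refine h3.trans_lt (Nat.pow_lt_pow_right (by norm_num) (by omega))
  rw [h2, mul_zero, List.take_zero] at h1
  have h0 : hv H [] x = 0 := rfl
  rw [h0, zero_add] at h1
  have h3 : ∃ j ∈ Finset.range (E + 1), L.length / 2 ^ j % 2 = 1 ∧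
      τ ≤ hv H (grp L j (L.length / 2 ^ j - 1)) x := by
    by_contra hcon
    push Not at hcon
    have h4 : ∑ j ∈ Finset.range (E + 1), (if L.length / 2 ^ j % 2 = 1 then
        hv H (grp L j (L.length / 2 ^ j - 1)) x else 0) ≤ (E + 1) * (τ - 1) := by
      refine (Finset.sum_le_card_nsmul _ _ (τ - 1) (fun j hj => ?_)).trans_eq ?_
      · split_ifs with hd
        · have := hcon j hj hd
          omega
        · exact Nat.zero_le _
      · rw [Finset.card_range, smul_eq_mul]
    have h5 : (E + 1) * (τ - 1) < (E + 1) * τ :=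
      Nat.mul_lt_mul_of_pos_left (by omega) (by omega)
    have h6 : rcnt H x y = hv H L x := rfl
    omega
  obtain ⟨j, hj, hodd, hτj⟩ := h3
  have hj' : j ≤ E := by have := Finset.mem_range.1 hj; omega
  refine hA.cov x y j hj' (L.length / 2 ^ j - 1) ?_ hτj
  have h8 : L.length / 2 ^ j ≠ 0 := by
    intro h0
    rw [h0] at hodd
    simp at hodd
  have h7 : L.length / 2 ^ j - 1 + 1 = L.length / 2 ^ j :=
    Nat.sub_add_cancel (Nat.one_le_iff_ne_zero.2 h8)
  rw [h7]
  exact Nat.div_mul_le_self _ _

end Pool.Agent.Lib.H52K
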