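import Pool.Agent.Lib.H52K.G1b
import Pool.Agent.Lib.H52K.G5a
import Pool.Agent.Lib.H52K.G5b
import Pool.Agent.Lib.H52K.G5c

/-!
`marks_hist`, `online_ext` with the invariant `RInv n τ E H (Mk H) A` (and `RInv_step`), `conv_exists`, and
`RInv_len`, `RInv_cnt`, `RInv_cov`. For `c1` take `D = (Mk H).card` (the contents of the marked blocks are at
most that many) and the number of assignments.
-/

namespace Pool.Agent.Lib.H52K

theorem run_exists (n q κ τ E S T W cap : ℕ) (hn : 1 ≤ n) (hκ : 8 ≤ κ) (hq : 1 ≤ q)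
    (hcap : 1 ≤ cap) (hT : T ≤ 2 ^ (κ - 2)) (hτ : 64 * (E + 3) * q * n * κ ≤ τ) :
    ∃ O : List REv → Out1,
      (∀ H e, (O H).ext (O (H ++ [e]))) ∧
      ∀ H, RLegal n S T W E H → RWin n q τ E S T W cap H (O H) := by
  obtain ⟨Mk, hMk1, hMk2⟩ := marks_hist n κ q E S T W hn (by omega) hq
  obtain ⟨A, hA1, hA2⟩ := online_ext (RLegal n S T W E) (fun H e h => h.init)
    (fun H A => RInv n τ E H (Mk H) A)
    (by
      refine ⟨by simp, by simp, by simp, by simp, ?_⟩
      intro x y l _ s h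
      have h0 : (ylist [] y).length = 0 := rfl
      rw [h0] at h
      have h1 : 0 < (s + 1) * 2 ^ l := by positivity
      omega)
    (by
      intro H e hL A hA
      exact RInv_step n q κ E S T W τ H e hL hT hκ hq hn hτ (Mk H) (Mk (H ++ [e])) (hMk1 H e)
        (hMk2 H hL.init).2.1 (hMk2 _ hL).2 A hA)
  obtain ⟨conv, hc1, hc2⟩ := conv_exists cap hcap
  have hτ1 : 1 ≤ τ := by
    refine le_trans ?_ hτ
    have : 0 < 64 * (E + 3) * q * n * κ := by positivity
    exact this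
  refine ⟨fun H => conv (A H), ?_, ?_⟩
  · intro H e
    obtain ⟨Z, hZ⟩ := hA1 H e
    show (conv (A H)).ext (conv (A (H ++ [e])))
    rw [← hZ]
    exact hc1 _ _
  · intro H hL
    have hR : RInv n τ E H (Mk H) (A H) := hA2 H hL
    obtain ⟨d1, d2, d3, d4, d5⟩ := hc2 (A H)
    obtain ⟨m1, m2⟩ := hMk2 H hL
    refine ⟨⟨(Mk H).card, (A H).length, m1, RInv_len hL hR, ?_⟩, ?_, d3, ?_, ?_⟩
    · have hmem : ∀ e ∈ A H, e.1 ∈ (Mk H).image (blkOf H) := by
        intro e he
        obtain ⟨k, hk, h⟩ := hR.mem e he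
        exact Finset.mem_image.2 ⟨k, hk, h.symm⟩
      refine (d1 _ hmem).trans ?_
      have h1 : ((Mk H).image (blkOf H)).card ≤ (Mk H).card := Finset.card_image_le
      exact Nat.add_le_add_right (Nat.mul_le_mul_left _ (min_le_min_right _ h1)) _
    · intro X hX
      obtain ⟨e, he, h⟩ := d2 X hX
      obtain ⟨k, hk, h'⟩ := hR.mem e he
      have hkk : k ∈ keys H := m2.1 k hk
      unfold keys at hkk
      rw [List.mem_map] at hkk
      obtain ⟨p, hp, hpk⟩ := hkk
      rw [h, h', ← hpk, g1b_blkOf H hL.keys_nodup p hp]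
      exact (hL.blk_ok p hp).2.1
    · intro x y
      exact (Nat.mul_le_mul_left τ (d4 (fun e he => (hR.sub e he).1) x y)).trans
        (RInv_cnt hL hR x y)
    · intro x y h
      obtain ⟨e, he, hy, hx⟩ := RInv_cov hL hR hτ1 x y h
      obtain ⟨k, hk, k1, k2, k3⟩ := d5 e he x hx ((hR.sub e he).2 x hx)
      rw [hy] at k1 k3
      exact ⟨k, hk, k1, k2, k3⟩

end Pool.Agent.Lib.H52K
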