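import Pool.Agent.Lib.H52K.G5s

/-!
The blocks of `X_j` at scale `i` are its consecutive segments of length `2^i`; there are at most
`|X_j| / 2^i ≤ 2^(a-i)` of them. Each `y` joins `Y_j` at most once for every `j < 2^h`.
-/

namespace Pool.Agent.Lib.H52K

theorem runHist_append (i : ℕ) (M : List Ev) (e : Ev) :
    runHist i (M ++ [e]) = runHist i M ++ rstep i M e := by
  unfold runHist
  rw [List.length_append, List.length_singleton, List.range_succ, List.flatMap_append]
  congr 1
  · apply List.flatMap_congr
    intro t ht
    rw [List.mem_range] at ht
    rw [List.take_append_of_le_length ht.le, List.getD_append _ _ _ _ ht]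
  · simp

theorem G6a_Xl_append (s : Bool) (M : List Ev) (e : Ev) (j : ℕ) :
    Xl s (M ++ [e]) j = Xl s M j ++ (if e.1 = s ∧ e.2.1 = j then [e.2.2] else []) := by
  unfold Xl
  rw [List.filterMap_append]
  congr 1
  by_cases h : e.1 = s ∧ e.2.1 = j
  · simp [h]
  · simp [h]

theorem G6a_mem_Xl (s : Bool) (M : List Ev) (j v : ℕ) : v ∈ Xl s M j ↔ (s, j, v) ∈ M := by
  unfold Xl
  rw [List.mem_filterMap]
  constructor
  · rintro ⟨⟨s', j', v'⟩, h1, h2⟩
    split_ifs at h2 with h
    · obtain ⟨rfl, rfl⟩ := h
      simp only [Option.some.injEq] at h2
      subst h2
      exact h1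
  · intro h
    exact ⟨(s, j, v), h, by simp⟩

theorem G6a_Xl_nodup (s : Bool) {M : List Ev} (hM : M.Nodup) (j : ℕ) : (Xl s M j).Nodup := by
  induction M using List.reverseRecOn with
  | nil => exact List.nodup_nil
  | append_singleton M e ih =>
    rw [List.nodup_append] at hM
    obtain ⟨h1, -, h3⟩ := hM
    rw [G6a_Xl_append]
    split_ifs with h
    · rw [List.nodup_append]
      refine ⟨ih h1, List.nodup_singleton _, ?_⟩
      intro a ha b hb hab
      rw [List.mem_singleton] at hb
      subst hab
      subst hb
      rw [G6a_mem_Xl] at ha
      have h4 : (s, j, e.2.2) = e := by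
        obtain ⟨rfl, rfl⟩ := h
        rfl
      exact h3 _ ha e (List.mem_singleton_self e) h4
    · rw [List.append_nil]
      exact ih h1

theorem G6a_init {n h a b : ℕ} {M : List Ev} {e : Ev} (hM : Legal n h a b (M ++ [e])) :
    Legal n h a b M := by
  refine ⟨?_, ?_, ?_, ?_, ?_⟩
  · exact (List.nodup_append.1 hM.nodup).1
  · intro e' he'
    exact hM.j_lt e' (List.mem_append_left _ he')
  · intro e' he'
    exact hM.v_lt e' (List.mem_append_left _ he')
  · intro j
    have := hM.x_len j
    rw [G6a_Xl_append, List.length_append] at this
    omega
  · intro j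
    have := hM.y_len j
    rw [G6a_Xl_append, List.length_append] at this
    omega

/-- invariants of the history -/
structure G6aI (n i : ℕ) (M : List Ev) : Prop where
  key : ∀ k, k ∈ keys (runHist i M) ↔ ∃ j q, k = Nat.pair j q ∧ q < (Xl false M j).length / 2 ^ i
  nd : (keys (runHist i M)).Nodup
  ok : ∀ p ∈ blks (runHist i M), p.2.Nodup ∧ p.2.length ≤ 2 ^ i ∧ ∀ x ∈ p.2, x < 2 ^ n
  itm : ∀ p ∈ itms (runHist i M), (true, (Nat.unpair p.1).1, p.2) ∈ M
  ind : (itms (runHist i M)).Nodup
  len : (itms (runHist i M)).length ≤ (M.filter fun e => e.1 = true).length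
  yl : ∀ y, (ylist (runHist i M) y).length ≤ (M.filter fun e => e.1 = true ∧ e.2.2 = y).length
  ord : ∀ H₁ H₂ k y, runHist i M = H₁ ++ REv.item k y :: H₂ → k ∈ keys H₁

theorem G6a_div {m i : ℕ} (h : 2 ^ i ∣ m + 1) : m / 2 ^ i = (m + 1) / 2 ^ i - 1 ∧
    0 < (m + 1) / 2 ^ i := by
  obtain ⟨c, hc⟩ := h
  have hp : 0 < 2 ^ i := by positivity
  have hc0 : 0 < c := by
    rcases Nat.eq_zero_or_pos c with h0 | h0
    · rw [h0] at hc
      omega
    · exact h0
  rw [hc, Nat.mul_div_cancel_left _ hp]
  refine ⟨?_, hc0⟩
  obtain ⟨d, rfl⟩ : ∃ d, c = d + 1 := ⟨c - 1, by omega⟩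
  have hm : m = 2 ^ i * d + (2 ^ i - 1) := by
    have : 2 ^ i * (d + 1) = 2 ^ i * d + 2 ^ i := by ring
    omega
  rw [hm, Nat.mul_add_div hp, Nat.div_eq_of_lt (by omega)]
  omega

theorem G6a_div' {m i : ℕ} (h : ¬ 2 ^ i ∣ m + 1) : (m + 1) / 2 ^ i = m / 2 ^ i :=
  Nat.succ_div_of_not_dvd h

theorem G6a_inv {n h a b : ℕ} (i : ℕ) (M : List Ev) (hM : Legal n h a b M) : G6aI n i M := by
  induction M using List.reverseRecOn with
  | nil =>
    have h0 : runHist i [] = [] := rfl
    refine ⟨?_, ?_, ?_, ?_, ?_, ?_, ?_, ?_⟩
    · intro k
      constructor
      · intro hk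
        rw [h0] at hk
        exact absurd hk (List.not_mem_nil)
      · rintro ⟨j, q, -, hq⟩
        have : (Xl false [] j).length = 0 := rfl
        rw [this, Nat.zero_div] at hq
        omega
    · exact List.nodup_nil
    · intro p hp
      exact absurd hp (List.not_mem_nil)
    · intro p hp
      exact absurd hp (List.not_mem_nil)
    · exact List.nodup_nil
    · exact le_rfl
    · intro y
      exact le_rfl
    · intro H₁ H₂ k y hH
      rw [h0] at hH
      exact absurd hH (by simp)
  | append_singleton M e ih =>
    have hM' := G6a_init hM
    obtain ⟨i1, i2, i3, i4, i5, i6, i7, i8⟩ := ih hM'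
    obtain ⟨s, j, v⟩ := e
    rcases s with _ | _
    · -- an element joins `X_j`
      have hlen : ∀ j', (Xl false (M ++ [(false, j, v)]) j').length =
          (Xl false M j').length + (if j' = j then 1 else 0) := by
        intro j'
        rw [G6a_Xl_append, List.length_append]
        by_cases hj : j' = j
        · subst hj
          simp
        · have hj2 : ¬ (j = j') := fun h => hj h.symm
          simp [hj, hj2]
      have hfil : (M ++ [(false, j, v)]).filter (fun e : Ev => e.1 = true) =
          M.filter (fun e : Ev => e.1 = true) := by
        simp [List.filter_append]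
      have hfil2 : ∀ y, (M ++ [(false, j, v)]).filter (fun e : Ev => e.1 = true ∧ e.2.2 = y) =
          M.filter (fun e : Ev => e.1 = true ∧ e.2.2 = y) := by
        intro y
        simp [List.filter_append]
      by_cases hdv : 2 ^ i ∣ (Xl false (M ++ [(false, j, v)]) j).length
      · set β := (Xl false (M ++ [(false, j, v)]) j).drop
          ((Xl false (M ++ [(false, j, v)]) j).length - 2 ^ i) with hβ
        set k₀ := Nat.pair j ((Xl false (M ++ [(false, j, v)]) j).length / 2 ^ i - 1) with hk₀
        have hst : rstep i M (false, j, v) = [REv.blk k₀ β] := by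
          unfold rstep
          rw [if_pos rfl, if_pos hdv]
        have hrun : runHist i (M ++ [(false, j, v)]) = runHist i M ++ [REv.blk k₀ β] := by
          rw [runHist_append, hst]
        have hk1 : keys [REv.blk k₀ β] = [k₀] := rfl
        have hb1 : blks [REv.blk k₀ β] = [(k₀, β)] := rfl
        have hi1 : itms [REv.blk k₀ β] = [] := rfl
        have hL : (Xl false (M ++ [(false, j, v)]) j).length = (Xl false M j).length + 1 := by
          rw [hlen j, if_pos rfl]
        rw [hL] at hdv
        obtain ⟨hd1, hd2⟩ := G6a_div hdv
        have hk₀' : k₀ = Nat.pair j ((Xl false M j).length / 2 ^ i) := by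
          rw [hk₀, hL, hd1]
        refine ⟨?_, ?_, ?_, ?_, ?_, ?_, ?_, ?_⟩
        · intro k
          rw [hrun, keys_append, List.mem_append, hk1, List.mem_singleton, i1 k]
          constructor
          · rintro (⟨j', q, rfl, hq⟩ | rfl)
            · refine ⟨j', q, rfl, lt_of_lt_of_le hq ?_⟩
              rw [hlen j']
              exact Nat.div_le_div_right (Nat.le_add_right _ _)
            · refine ⟨j, (Xl false M j).length / 2 ^ i, hk₀', ?_⟩
              rw [hL, hd1]
              omega
          · rintro ⟨j', q, rfl, hq⟩
            by_cases hj : j' = j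
            · subst hj
              by_cases hq2 : q < (Xl false M j').length / 2 ^ i
              · exact Or.inl ⟨j', q, rfl, hq2⟩
              · right
                rw [hL] at hq
                rw [hk₀']
                congr 1
                omega
            · left
              rw [hlen j', if_neg hj, add_zero] at hq
              exact ⟨j', q, rfl, hq⟩
        · rw [hrun, keys_append, hk1, List.nodup_append]
          refine ⟨i2, List.nodup_singleton _, ?_⟩
          intro x hx y hy hxy
          rw [List.mem_singleton] at hy
          subst hxy
          subst hy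
          rw [i1] at hx
          obtain ⟨j', q, hkk, hq⟩ := hx
          rw [hk₀', Nat.pair_eq_pair] at hkk
          obtain ⟨rfl, rfl⟩ := hkk
          exact lt_irrefl _ hq
        · intro p hp
          rw [hrun, G5s_blks_append, List.mem_append, hb1, List.mem_singleton] at hp
          rcases hp with hp | rfl
          · exact i3 p hp
          · refine ⟨?_, ?_, ?_⟩
            · exact (G6a_Xl_nodup false hM.nodup j).sublist (List.drop_sublist _ _)
            · show β.length ≤ 2 ^ i
              rw [hβ, List.length_drop]
              omega
            · intro x hx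
              have hx2 := List.mem_of_mem_drop hx
              rw [G6a_mem_Xl] at hx2
              exact hM.v_lt _ hx2
        · intro p hp
          rw [hrun, G5s_itms_append, hi1, List.append_nil] at hp
          exact List.mem_append_left _ (i4 p hp)
        · rw [hrun, G5s_itms_append, hi1, List.append_nil]
          exact i5
        · rw [hrun, G5s_itms_append, hi1, List.append_nil, hfil]
          exact i6
        · intro y
          rw [hrun, ylist_blk, hfil2]
          exact i7 y
        · intro H₁ H₂ k y hH
          rw [hrun] at hH
          rcases List.eq_nil_or_concat H₂ with rfl | ⟨H₃, z, rfl⟩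
          · have := (List.append_inj' hH rfl).2
            simp at this
          · rw [List.concat_eq_append, ← List.cons_append, ← List.append_assoc] at hH
            exact i8 H₁ H₃ k y (List.append_inj' hH rfl).1
      · have hst : rstep i M (false, j, v) = [] := by
          unfold rstep
          rw [if_pos rfl, if_neg hdv]
        have hrun : runHist i (M ++ [(false, j, v)]) = runHist i M := by
          rw [runHist_append, hst, List.append_nil]
        have hL : (Xl false (M ++ [(false, j, v)]) j).length = (Xl false M j).length + 1 := by
          rw [hlen j, if_pos rfl]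
        rw [hL] at hdv
        have hd := G6a_div' hdv
        refine ⟨?_, ?_, ?_, ?_, ?_, ?_, ?_, ?_⟩
        · intro k
          rw [hrun, i1 k]
          have hq : ∀ j', (Xl false (M ++ [(false, j, v)]) j').length / 2 ^ i =
              (Xl false M j').length / 2 ^ i := by
            intro j'
            rw [hlen j']
            split_ifs with hj
            · rw [hj, hd]
            · rfl
          simp only [hq]
        · rw [hrun]; exact i2
        · rw [hrun]; exact i3
        · intro p hp
          rw [hrun] at hp
          exact List.mem_append_left _ (i4 p hp)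
        · rw [hrun]; exact i5
        · rw [hrun, hfil]; exact i6
        · intro y
          rw [hrun, hfil2]; exact i7 y
        · rw [hrun]; exact i8
    · -- an element joins `Y_j`
      have hX : ∀ j', Xl false (M ++ [(true, j, v)]) j' = Xl false M j' := by
        intro j'
        rw [G6a_Xl_append]
        simp
      have hnew : (true, j, v) ∉ M := by
        have h3 := (List.nodup_append.1 hM.nodup).2.2
        intro hmem
        exact h3 _ hmem _ (List.mem_singleton_self _) rfl
      have hfil : ((M ++ [(true, j, v)]).filter (fun e : Ev => e.1 = true)).length =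
          (M.filter (fun e : Ev => e.1 = true)).length + 1 := by
        simp [List.filter_append]
      have hfil2 : ∀ y, ((M ++ [(true, j, v)]).filter (fun e : Ev => e.1 = true ∧ e.2.2 = y)).length =
          (M.filter (fun e : Ev => e.1 = true ∧ e.2.2 = y)).length + (if v = y then 1 else 0) := by
        intro y
        by_cases hvy : v = y
        · simp [List.filter_append, hvy]
        · simp [List.filter_append, hvy]
      by_cases hod : (Xl false M j).length / 2 ^ i % 2 = 1
      · set k₀ := Nat.pair j ((Xl false M j).length / 2 ^ i - 1) with hk₀
        have hst : rstep i M (true, j, v) = [REv.item k₀ v] := by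
          unfold rstep
          rw [if_neg (by simp), if_pos hod]
        have hrun : runHist i (M ++ [(true, j, v)]) = runHist i M ++ [REv.item k₀ v] := by
          rw [runHist_append, hst]
        have hk1 : keys [REv.item k₀ v] = [] := rfl
        have hb1 : blks [REv.item k₀ v] = [] := rfl
        have hi1 : itms [REv.item k₀ v] = [(k₀, v)] := rfl
        have hk₀mem : k₀ ∈ keys (runHist i M) := by
          have hpos : 0 < (Xl false M j).length / 2 ^ i :=
            Nat.pos_of_ne_zero (fun h0 => by rw [h0] at hod; omega)
          rw [i1]
          exact ⟨j, (Xl false M j).length / 2 ^ i - 1, hk₀, Nat.sub_lt hpos one_pos⟩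
        refine ⟨?_, ?_, ?_, ?_, ?_, ?_, ?_, ?_⟩
        · intro k
          rw [hrun, keys_append, hk1, List.append_nil, i1 k]
          simp only [hX]
        · rw [hrun, keys_append, hk1, List.append_nil]
          exact i2
        · intro p hp
          rw [hrun, G5s_blks_append, hb1, List.append_nil] at hp
          exact i3 p hp
        · intro p hp
          rw [hrun, G5s_itms_append, hi1, List.mem_append, List.mem_singleton] at hp
          rcases hp with hp | rfl
          · exact List.mem_append_left _ (i4 p hp)
          · apply List.mem_append_right
            rw [hk₀, Nat.unpair_pair]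
            exact List.mem_singleton_self _
        · rw [hrun, G5s_itms_append, hi1, List.nodup_append]
          refine ⟨i5, List.nodup_singleton _, ?_⟩
          intro x hx y hy hxy
          rw [List.mem_singleton] at hy
          subst hxy
          subst hy
          have := i4 _ hx
          rw [hk₀, Nat.unpair_pair] at this
          exact hnew this
        · rw [hrun, G5s_itms_append, hi1, List.length_append, hfil]
          simpa using i6
        · intro y
          rw [hrun, ylist_item, hfil2]
          by_cases hvy : v = y
          · rw [if_pos hvy.symm, if_pos hvy, List.length_append]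
            have := i7 y
            simp only [List.length_singleton]
            omega
          · rw [if_neg (fun h => hvy h.symm), if_neg hvy]
            exact i7 y
        · intro H₁ H₂ k y hH
          rw [hrun] at hH
          rcases List.eq_nil_or_concat H₂ with rfl | ⟨H₃, z, rfl⟩
          · have h5 := List.append_inj' hH rfl
            have h6 : k₀ = k := by
              have := h5.2
              simp only [List.cons.injEq, REv.item.injEq, and_true] at this
              exact this.1
            rw [← h5.1, ← h6]
            exact hk₀mem
          · rw [List.concat_eq_append, ← List.cons_append, ← List.append_assoc] at hH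
            exact i8 H₁ H₃ k y (List.append_inj' hH rfl).1
      · have hst : rstep i M (true, j, v) = [] := by
          unfold rstep
          rw [if_neg (by simp), if_neg hod]
        have hrun : runHist i (M ++ [(true, j, v)]) = runHist i M := by
          rw [runHist_append, hst, List.append_nil]
        refine ⟨?_, ?_, ?_, ?_, ?_, ?_, ?_, ?_⟩
        · intro k
          rw [hrun, i1 k]
          simp only [hX]
        · rw [hrun]; exact i2
        · rw [hrun]; exact i3
        · intro p hp
          rw [hrun] at hp
          exact List.mem_append_left _ (i4 p hp)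
        · rw [hrun]; exact i5
        · rw [hrun, hfil]; omega
        · intro y
          rw [hrun, hfil2]
          exact (i7 y).trans (Nat.le_add_right _ _)
        · rw [hrun]; exact i8

theorem G6a_count (h : ℕ) (M : List Ev) (hM : ∀ e ∈ M, e.2.1 < 2 ^ h) :
    (M.filter fun e => e.1 = true).length = ∑ j ∈ Finset.range (2 ^ h), (Xl true M j).length := by
  induction M using List.reverseRecOn with
  | nil =>
    symm
    apply Finset.sum_eq_zero
    intro j _
    rfl
  | append_singleton M e ih =>
    have ih' := ih fun e' he' => hM e' (List.mem_append_left _ he')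
    simp only [G6a_Xl_append, List.length_append, Finset.sum_add_distrib]
    rw [← ih', List.filter_append, List.length_append]
    congr 1
    have hj := hM e (List.mem_append_right _ (List.mem_singleton_self e))
    by_cases he : e.1 = true
    · have h1 : ∑ j ∈ Finset.range (2 ^ h),
          (if e.1 = true ∧ e.2.1 = j then [e.2.2] else []).length = 1 := by
        rw [Finset.sum_eq_single e.2.1]
        · simp [he]
        · intro j _ hj'
          rw [if_neg (fun h => hj' h.2.symm)]
          rfl
        · intro h
          exact absurd (Finset.mem_range.mpr hj) h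
      rw [h1]
      simp [he]
    · have h1 : ∑ j ∈ Finset.range (2 ^ h),
          (if e.1 = true ∧ e.2.1 = j then [e.2.2] else []).length = 0 := by
        apply Finset.sum_eq_zero
        intro j _
        rw [if_neg (fun h => he h.1)]
        rfl
      rw [h1]
      simp [he]

theorem runHist_legal {n h a b : ℕ} {M : List Ev} (hM : Legal n h a b M) {i : ℕ} (hi : i ≤ a) :
    RLegal n (2 ^ i) (2 ^ (h + a - i)) (2 ^ (h + b)) h (runHist i M) := by
  obtain ⟨i1, i2, i3, i4, i5, i6, i7, i8⟩ := G6a_inv i M hM
  refine ⟨i2, ?_, i3, i5, ?_, ?_, i8⟩
  · have h1 : (blks (runHist i M)).length = (keys (runHist i M)).length := by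
      unfold keys
      rw [List.length_map]
    rw [h1, ← List.toFinset_card_of_nodup i2]
    have hsub : (keys (runHist i M)).toFinset ⊆
        (Finset.range (2 ^ h) ×ˢ Finset.range (2 ^ (a - i))).image
          (fun p => Nat.pair p.1 p.2) := by
      intro k hk
      rw [List.mem_toFinset, i1] at hk
      obtain ⟨j, q, rfl, hq⟩ := hk
      rw [Finset.mem_image]
      refine ⟨(j, q), ?_, rfl⟩
      rw [Finset.mem_product, Finset.mem_range, Finset.mem_range]
      constructor
      · by_contra hj
        have : Xl false M j = [] := by
          rw [List.eq_nil_iff_forall_not_mem]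
          intro v hv
          rw [G6a_mem_Xl] at hv
          exact hj (hM.j_lt _ hv)
        rw [this] at hq
        simp at hq
      · refine lt_of_lt_of_le hq ?_
        have h2 := hM.x_len j
        calc (Xl false M j).length / 2 ^ i ≤ 2 ^ a / 2 ^ i := Nat.div_le_div_right h2
          _ = 2 ^ (a - i) := Nat.pow_div hi (by norm_num)
    refine (Finset.card_le_card hsub).trans ((Finset.card_image_le).trans ?_)
    rw [Finset.card_product, Finset.card_range, Finset.card_range, ← pow_add]
    exact Nat.pow_le_pow_right (by norm_num) (by omega)
  · refine i6.trans ?_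
    rw [G6a_count h M hM.j_lt]
    calc ∑ j ∈ Finset.range (2 ^ h), (Xl true M j).length
        ≤ ∑ _j ∈ Finset.range (2 ^ h), 2 ^ b := Finset.sum_le_sum fun j _ => hM.y_len j
      _ = 2 ^ (h + b) := by
        rw [Finset.sum_const, Finset.card_range, smul_eq_mul, pow_add]
  · intro y
    refine (i7 y).trans ?_
    have h1 : ((M.filter fun e => e.1 = true ∧ e.2.2 = y).map fun e => e.2.1).Nodup := by
      apply List.Nodup.map_on
      · intro e he e' he' hee
        rw [List.mem_filter] at he he'
        have h2 := he.2
        have h3 := he'.2
        simp only [decide_eq_true_eq] at h2 h3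
        exact Prod.ext (h2.1.trans h3.1.symm) (Prod.ext hee (h2.2.trans h3.2.symm))
      · exact hM.nodup.filter _
    have h2 := List.toFinset_card_of_nodup h1
    rw [List.length_map] at h2
    rw [← h2, ← Finset.card_range (2 ^ h)]
    apply Finset.card_le_card
    intro j hj
    rw [List.mem_toFinset, List.mem_map] at hj
    obtain ⟨e, he, rfl⟩ := hj
    rw [Finset.mem_range]
    exact hM.j_lt e (List.mem_filter.mp he).1

end Pool.Agent.Lib.H52K
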