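import Pool.Agent.Lib.H52K.G6a

/-!
By induction on `M` (append one event). When `y` joins `Y_j`, and `m = |X_j| ≤ 2^a`, the block with key
`(j, m/2^i - 1)` consists of the elements of `X_j` with the indices in `[2^i (m/2^i - 1), 2^i (m/2^i))`; for
the `i ≤ a` with `m / 2^i` odd these intervals form a partition of `[0, m)`. So exactly one of the new items
counts for `x` if `x ∈ X_j`, and none otherwise.
-/

namespace Pool.Agent.Lib.H52K

theorem G6b_Xl_append (s : Bool) (M : List Ev) (e : Ev) (j : ℕ) :
    Xl s (M ++ [e]) j = Xl s M j ++ (if e.1 = s ∧ e.2.1 = j then [e.2.2] else []) := by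
  unfold Xl
  rw [List.filterMap_append]
  congr 1
  by_cases h : e.1 = s ∧ e.2.1 = j
  · simp [h]
  · simp [h]

theorem G6b_dy (a : ℕ) : ∀ m t : ℕ, t < m → m ≤ 2 ^ a →
    ∑ i ∈ Finset.range (a + 1),
      (if m / 2 ^ i % 2 = 1 ∧ t / 2 ^ i = m / 2 ^ i - 1 then 1 else 0) = 1 := by
  induction a with
  | zero =>
    intro m t h1 h2
    have hm : m = 1 := by
      simp only [pow_zero] at h2
      omega
    subst hm
    have ht : t = 0 := by omega
    subst ht
    rw [zero_add, Finset.sum_range_one]
    simp only [pow_zero, Nat.div_one]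
    norm_num
  | succ a ih =>
    intro m t h1 h2
    rw [Finset.sum_range_succ']
    have hs : ∀ k i : ℕ, k / 2 ^ (i + 1) = k / 2 / 2 ^ i := fun k i => by
      rw [pow_succ', Nat.div_div_eq_div_mul]
    simp only [hs]
    by_cases hc : t / 2 < m / 2
    · have hm2 : m / 2 ≤ 2 ^ a := by
        have : 2 ^ (a + 1) = 2 * 2 ^ a := pow_succ' 2 a
        omega
      rw [ih (m / 2) (t / 2) hc hm2]
      have h0 : ¬ (m / 2 ^ 0 % 2 = 1 ∧ t / 2 ^ 0 = m / 2 ^ 0 - 1) := by
        simp only [pow_zero, Nat.div_one]
        omega
      rw [if_neg h0]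
    · have he : t / 2 = m / 2 := by omega
      rw [he]
      have h0 : (m / 2 ^ 0 % 2 = 1 ∧ t / 2 ^ 0 = m / 2 ^ 0 - 1) := by
        simp only [pow_zero, Nat.div_one]
        omega
      rw [if_pos h0]
      have hz : ∑ i ∈ Finset.range (a + 1),
          (if m / 2 / 2 ^ i % 2 = 1 ∧ m / 2 / 2 ^ i = m / 2 / 2 ^ i - 1 then 1 else 0) = 0 := by
        refine Finset.sum_eq_zero fun i _ => ?_
        rw [if_neg]
        omega
      rw [hz]

theorem G6b_mem_seg {L : List ℕ} (hL : L.Nodup) {x : ℕ} (hx : x ∈ L) (i s : ℕ) :
    x ∈ (L.drop (s * 2 ^ i)).take (2 ^ i) ↔ L.idxOf x / 2 ^ i = s := by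
  have hpos : 0 < 2 ^ i := by positivity
  rw [Nat.div_eq_iff hpos]
  rw [List.mem_take_iff_getElem]
  constructor
  · rintro ⟨t, ht, hxt⟩
    rw [List.getElem_drop] at hxt
    have hlt : s * 2 ^ i + t < L.length := by
      have := (lt_min_iff.1 ht).2
      rw [List.length_drop] at this
      omega
    have : L.idxOf x = s * 2 ^ i + t := by
      rw [← hxt]
      exact hL.idxOf_getElem _ hlt
    have ht2 := (lt_min_iff.1 ht).1
    omega
  · rintro ⟨h1, h2⟩
    have hidx : L.idxOf x < L.length := List.idxOf_lt_length_iff.2 hx
    refine ⟨L.idxOf x - s * 2 ^ i, ?_, ?_⟩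
    · rw [lt_min_iff, List.length_drop]
      omega
    · rw [List.getElem_drop]
      have : s * 2 ^ i + (L.idxOf x - s * 2 ^ i) = L.idxOf x := by omega
      simp only [this]
      exact List.getElem_idxOf hidx

theorem G6b_blks_true (i : ℕ) (M : List Ev) (e : Ev) (he : e.1 = true) :
    blks (rstep i M e) = [] := by
  unfold rstep
  rw [if_neg (by simp [he])]
  split_ifs <;> rfl

theorem G6b_itms_false (i : ℕ) (M : List Ev) (e : Ev) (he : e.1 = false) :
    itms (rstep i M e) = [] := by
  unfold rstep
  rw [if_pos he]
  split_ifs <;> rfl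

theorem G6b_lookup_none {H : List REv} {k : ℕ} (hk : k ∉ keys H) : (blks H).lookup k = none := by
  rw [List.lookup_eq_none_iff]
  intro p hp
  rw [bne_iff_ne] 
  intro h
  exact hk (List.mem_map.2 ⟨p, hp, h.symm⟩)

theorem G6b_blocks (i : ℕ) (M : List Ev) : ∀ j s,
    (Nat.pair j s ∈ keys (runHist i M) ↔ s < (Xl false M j).length / 2 ^ i) ∧
    (s < (Xl false M j).length / 2 ^ i → blkOf (runHist i M) (Nat.pair j s) =
      ((Xl false M j).drop (s * 2 ^ i)).take (2 ^ i)) := by
  have hpos : 0 < 2 ^ i := by positivity
  induction M using List.reverseRecOn with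
  | nil =>
    intro j s
    have h1 : runHist i [] = [] := rfl
    have h2 : Xl false [] j = [] := rfl
    rw [h1, h2]
    simp [keys, blks]
  | append_singleton M e ih =>
    intro j s
    rw [runHist_append]
    rw [keys_append]
    by_cases he : e.1 = true
    · have hk : keys (rstep i M e) = [] := by
        unfold keys
        rw [G6b_blks_true i M e he]
        rfl
      have hX : Xl false (M ++ [e]) j = Xl false M j := by
        rw [G6b_Xl_append, if_neg (by simp [he]), List.append_nil]
      rw [hk, hX, List.append_nil]
      refine ⟨(ih j s).1, fun hs => ?_⟩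
      rw [blkOf_append ((ih j s).1.2 hs)]
      exact (ih j s).2 hs
    · have he' : e.1 = false := by simpa using he
      set m := (Xl false M e.2.1).length with hm
      have hX0 : Xl false (M ++ [e]) e.2.1 = Xl false M e.2.1 ++ [e.2.2] := by
        rw [G6b_Xl_append, if_pos ⟨he', rfl⟩]
      have hlen : (Xl false (M ++ [e]) e.2.1).length = m + 1 := by
        rw [hX0, List.length_append, List.length_singleton]
      by_cases hd : 2 ^ i ∣ m + 1
      · -- a new block
        have hq : (m + 1) / 2 ^ i = m / 2 ^ i + 1 := Nat.succ_div_of_dvd hd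
        have hst : rstep i M e = [REv.blk (Nat.pair e.2.1 (m / 2 ^ i))
            ((Xl false (M ++ [e]) e.2.1).drop (m + 1 - 2 ^ i))] := by
          unfold rstep
          rw [if_pos he', hlen, if_pos hd, hq, Nat.add_sub_cancel]
        have hk : keys (rstep i M e) = [Nat.pair e.2.1 (m / 2 ^ i)] := by
          rw [hst]
          rfl
        rw [hk]
        by_cases hj : j = e.2.1
        · subst hj
          rw [hlen, hq]
          refine ⟨?_, fun hs => ?_⟩
          · rw [List.mem_append, (ih _ s).1, List.mem_singleton, Nat.pair_eq_pair, ← hm]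
            omega
          · rcases Nat.lt_or_ge s (m / 2 ^ i) with hs1 | hs1
            · rw [blkOf_append ((ih _ s).1.2 hs1), (ih _ s).2 hs1, hX0]
              have hle : (s + 1) * 2 ^ i ≤ m :=
                le_trans (Nat.mul_le_mul_right _ hs1) (Nat.div_mul_le_self m (2 ^ i))
              have h1 : s * 2 ^ i ≤ (Xl false M e.2.1).length := by
                rw [← hm]
                nlinarith
              rw [List.drop_append_of_le_length h1, List.take_append_of_le_length]
              rw [List.length_drop, ← hm]
              have : (s + 1) * 2 ^ i = s * 2 ^ i + 2 ^ i := by ring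
              omega
            · have hs2 : s = m / 2 ^ i := by omega
              have hnk : Nat.pair e.2.1 s ∉ keys (runHist i M) := by
                rw [(ih _ s).1, ← hm]
                omega
              unfold blkOf
              rw [G5s_blks_append, List.lookup_append, G6b_lookup_none hnk, hst, hs2]
              have hb : blks [REv.blk (Nat.pair e.2.1 (m / 2 ^ i))
                  ((Xl false (M ++ [e]) e.2.1).drop (m + 1 - 2 ^ i))] =
                  [(Nat.pair e.2.1 (m / 2 ^ i),
                    (Xl false (M ++ [e]) e.2.1).drop (m + 1 - 2 ^ i))] := rfl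
              rw [hb]
              have hmm : m / 2 ^ i * 2 ^ i = m + 1 - 2 ^ i := by
                have h3 : (m + 1) / 2 ^ i * 2 ^ i = m + 1 := Nat.div_mul_cancel hd
                rw [hq] at h3
                have : (m / 2 ^ i + 1) * 2 ^ i = m / 2 ^ i * 2 ^ i + 2 ^ i := by ring
                omega
              rw [hmm]
              simp only [List.lookup_cons, beq_self_eq_true, Option.none_or, Option.getD_some]
              rw [List.take_of_length_le]
              rw [List.length_drop, hlen]
              omega
        · have hX : Xl false (M ++ [e]) j = Xl false M j := by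
            rw [G6b_Xl_append, if_neg (fun h => hj h.2.symm), List.append_nil]
          rw [hX]
          refine ⟨?_, fun hs => ?_⟩
          · rw [List.mem_append, (ih _ s).1, List.mem_singleton, Nat.pair_eq_pair]
            constructor
            · rintro (h | h)
              · exact h
              · exact absurd h.1 hj
            · exact Or.inl
          · rw [blkOf_append ((ih _ s).1.2 hs), (ih _ s).2 hs]
      · have hq : (m + 1) / 2 ^ i = m / 2 ^ i := Nat.succ_div_of_not_dvd hd
        have hst : rstep i M e = [] := by
          unfold rstep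
          rw [if_pos he', hlen, if_neg hd]
        have hk : keys (rstep i M e) = [] := by
          rw [hst]
          rfl
        rw [hk, List.append_nil]
        by_cases hj : j = e.2.1
        · subst hj
          rw [hlen, hq]
          refine ⟨(ih _ s).1, fun hs1 => ?_⟩
          rw [blkOf_append ((ih _ s).1.2 hs1), (ih _ s).2 hs1, hX0]
          have hle : (s + 1) * 2 ^ i ≤ m :=
            le_trans (Nat.mul_le_mul_right _ hs1) (Nat.div_mul_le_self m (2 ^ i))
          have h1 : s * 2 ^ i ≤ (Xl false M e.2.1).length := by
            rw [← hm]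
            nlinarith
          rw [List.drop_append_of_le_length h1, List.take_append_of_le_length]
          rw [List.length_drop, ← hm]
          have : (s + 1) * 2 ^ i = s * 2 ^ i + 2 ^ i := by ring
          omega
        · have hX : Xl false (M ++ [e]) j = Xl false M j := by
            rw [G6b_Xl_append, if_neg (fun h => hj h.2.symm), List.append_nil]
          rw [hX]
          refine ⟨(ih _ s).1, fun hs => ?_⟩
          rw [blkOf_append ((ih _ s).1.2 hs), (ih _ s).2 hs]

theorem G6b_mem_Xl (s : Bool) (M : List Ev) (j v : ℕ) : v ∈ Xl s M j ↔ (s, j, v) ∈ M := by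
  unfold Xl
  rw [List.mem_filterMap]
  constructor
  · rintro ⟨⟨s', j', v'⟩, he, h⟩
    dsimp only at h
    split_ifs at h with hc
    obtain ⟨rfl, rfl⟩ := hc
    simp only [Option.some.injEq] at h
    subst h
    exact he
  · intro h
    exact ⟨_, h, by simp⟩

theorem G6b_Xl_nodup {M : List Ev} (hM : M.Nodup) (s : Bool) (j : ℕ) : (Xl s M j).Nodup := by
  unfold Xl
  refine hM.filterMap ?_
  rintro ⟨s1, j1, v1⟩ ⟨s2, j2, v2⟩ b h1 h2
  dsimp only at h1 h2
  split_ifs at h1 with hc1
  · split_ifs at h2 with hc2
    · simp only [Option.mem_def, Option.some.injEq] at h1 h2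
      obtain ⟨rfl, rfl⟩ := hc1
      obtain ⟨rfl, rfl⟩ := hc2
      subst h1
      subst h2
      rfl
    · simp at h2
  · simp at h1

theorem G6b_cntX_append {M : List Ev} {e : Ev} (hnd : (M ++ [e]).Nodup) (x y : ℕ) :
    cntX (M ++ [e]) x y = cntX M x y +
      (if e.1 = true ∧ e.2.2 = y ∧ (false, e.2.1, x) ∈ M then 1 else 0) := by
  have heM : e ∉ M := by
    intro h
    have := (List.nodup_append.1 hnd).2.2 e h e (List.mem_singleton_self e)
    exact this rfl
  unfold cntX
  rw [List.filter_append, List.length_append]
  congr 1
  · congr 1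
    apply List.filter_congr
    intro e' he'
    have h1 : (M ++ [e]).idxOf e' = M.idxOf e' := List.idxOf_append_of_mem he'
    have h2 : M.idxOf e' < M.length := List.idxOf_lt_length_iff.2 he'
    rw [h1, List.take_append_of_le_length (le_of_lt h2)]
  · have h1 : (M ++ [e]).idxOf e = M.length := by
      rw [List.idxOf_append_of_notMem heM]
      simp
    have h2 : (M ++ [e]).take M.length = M := by
      rw [List.take_append_of_le_length le_rfl, List.take_length]
    rw [List.filter_cons, List.filter_nil, h1, h2]
    by_cases hc : e.1 = true ∧ e.2.2 = y ∧ (false, e.2.1, x) ∈ M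
    · rw [if_pos hc]
      simp [hc]
    · rw [if_neg hc]
      have : decide (e.1 = true ∧ e.2.2 = y ∧ (false, e.2.1, x) ∈ M) = false := decide_eq_false hc
      rw [this]
      rfl

theorem G6b_legal_init {n h a b : ℕ} {M : List Ev} {e : Ev} (hM : Legal n h a b (M ++ [e])) :
    Legal n h a b M := by
  refine ⟨(List.nodup_append.1 hM.nodup).1, fun e' he' => hM.j_lt e' (List.mem_append_left _ he'),
    fun e' he' => hM.v_lt e' (List.mem_append_left _ he'), fun j => ?_, fun j => ?_⟩
  · have := hM.x_len j
    rw [G6b_Xl_append, List.length_append] at this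
    omega
  · have := hM.y_len j
    rw [G6b_Xl_append, List.length_append] at this
    omega

theorem G6b_rcnt_append {n h a b : ℕ} {M : List Ev} {e : Ev} (hM : Legal n h a b (M ++ [e]))
    {i : ℕ} (hi : i ≤ a) (x y : ℕ) :
    rcnt (runHist i (M ++ [e])) x y = rcnt (runHist i M) x y +
      (if e.1 = true ∧ e.2.2 = y ∧ (Xl false M e.2.1).length / 2 ^ i % 2 = 1 ∧
        x ∈ ((Xl false M e.2.1).drop (((Xl false M e.2.1).length / 2 ^ i - 1) * 2 ^ i)).take (2 ^ i)
        then 1 else 0) := by
  have hM0 : Legal n h a b M := G6b_legal_init hM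
  have hR := runHist_legal hM0 hi
  have hg : ∀ k ∈ ylist (runHist i M) y, k ∈ keys (runHist i M) := fun k hk => ylist_sub hR hk
  rw [runHist_append]
  unfold rcnt
  rw [G5s_ylist_append]
  by_cases he : e.1 = true
  · by_cases hodd : (Xl false M e.2.1).length / 2 ^ i % 2 = 1
    · have hst : rstep i M e =
          [REv.item (Nat.pair e.2.1 ((Xl false M e.2.1).length / 2 ^ i - 1)) e.2.2] := by
        unfold rstep
        rw [if_neg (by simp [he]), if_pos hodd]
      have hin : (Xl false M e.2.1).length / 2 ^ i - 1 < (Xl false M e.2.1).length / 2 ^ i := by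
        refine Nat.sub_lt (Nat.pos_of_ne_zero fun h0 => ?_) one_pos
        rw [h0] at hodd
        simp at hodd
      by_cases hy : e.2.2 = y
      · have hyl : ylist (rstep i M e) y =
            [Nat.pair e.2.1 ((Xl false M e.2.1).length / 2 ^ i - 1)] := by
          rw [hst]
          unfold ylist itms
          simp [hy]
        rw [hyl, hv_append (H := runHist i M)]
        · unfold hv
          rw [List.filter_append, List.length_append]
          congr 1
          rw [List.filter_cons, List.filter_nil, (G6b_blocks i M _ _).2 hin]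
          by_cases hx : x ∈ ((Xl false M e.2.1).drop
              (((Xl false M e.2.1).length / 2 ^ i - 1) * 2 ^ i)).take (2 ^ i)
          · have h3 : decide (x ∈ ((Xl false M e.2.1).drop
                (((Xl false M e.2.1).length / 2 ^ i - 1) * 2 ^ i)).take (2 ^ i)) = true :=
              decide_eq_true hx
            have h4 : (e.1 = true ∧ e.2.2 = y ∧ (Xl false M e.2.1).length / 2 ^ i % 2 = 1 ∧
                x ∈ ((Xl false M e.2.1).drop
                (((Xl false M e.2.1).length / 2 ^ i - 1) * 2 ^ i)).take (2 ^ i)) :=
              ⟨he, hy, hodd, hx⟩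
            rw [h3, if_pos rfl, if_pos h4]
            rfl
          · have h3 : decide (x ∈ ((Xl false M e.2.1).drop
                (((Xl false M e.2.1).length / 2 ^ i - 1) * 2 ^ i)).take (2 ^ i)) = false :=
              decide_eq_false hx
            have h4 : ¬ (e.1 = true ∧ e.2.2 = y ∧ (Xl false M e.2.1).length / 2 ^ i % 2 = 1 ∧
                x ∈ ((Xl false M e.2.1).drop
                (((Xl false M e.2.1).length / 2 ^ i - 1) * 2 ^ i)).take (2 ^ i)) :=
              fun h => hx h.2.2.2
            rw [h3, if_neg Bool.false_ne_true, if_neg h4]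
            rfl
        · intro k hk
          rcases List.mem_append.1 hk with h1 | h1
          · exact hg k h1
          · rw [List.mem_singleton] at h1
            subst h1
            exact (G6b_blocks i M _ _).1.2 hin
      · have hyl : ylist (rstep i M e) y = [] := by
          rw [hst]
          unfold ylist itms
          simp [hy]
        rw [hyl, List.append_nil, hv_append hg, if_neg (fun h => hy h.2.1), Nat.add_zero]
    · have hst : rstep i M e = [] := by
        unfold rstep
        rw [if_neg (by simp [he]), if_neg hodd]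
      have hyl : ylist (rstep i M e) y = [] := by
        rw [hst]
        rfl
      rw [hyl, List.append_nil, hv_append hg, if_neg (fun h => hodd h.2.2.1), Nat.add_zero]
  · have hyl : ylist (rstep i M e) y = [] := by
      unfold ylist
      rw [G6b_itms_false i M e (by simpa using he)]
      rfl
    rw [hyl, List.append_nil, hv_append hg, if_neg (fun h => he h.1), Nat.add_zero]

/-- The canonical dyadic decomposition of `[0, |X_j|)` at the moment when `y` joins `Y_j`. -/
theorem cntX_eq_sum {n h a b : ℕ} {M : List Ev} (hM : Legal n h a b M) (x y : ℕ) :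
    cntX M x y = ∑ i ∈ Finset.range (a + 1), rcnt (runHist i M) x y := by
  induction M using List.reverseRecOn with
  | nil =>
    symm
    have h0 : ∀ i, rcnt (runHist i []) x y = 0 := fun i => rfl
    simp only [h0, Finset.sum_const_zero]
    rfl
  | append_singleton M e ih =>
    have hM0 : Legal n h a b M := G6b_legal_init hM
    rw [G6b_cntX_append hM.nodup, ih hM0]
    rw [Finset.sum_congr rfl (fun i hi => G6b_rcnt_append hM
      (Nat.lt_succ_iff.1 (Finset.mem_range.1 hi)) x y), Finset.sum_add_distrib]
    congr 1
    by_cases h1 : e.1 = true ∧ e.2.2 = y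
    · by_cases hx : x ∈ Xl false M e.2.1
      · rw [if_pos ⟨h1.1, h1.2, (G6b_mem_Xl _ _ _ _).1 hx⟩]
        have hnd : (Xl false M e.2.1).Nodup := G6b_Xl_nodup hM0.nodup _ _
        have hlt : (Xl false M e.2.1).idxOf x < (Xl false M e.2.1).length :=
          List.idxOf_lt_length_iff.2 hx
        refine (G6b_dy a _ _ hlt (hM0.x_len _)).symm.trans ?_
        refine Finset.sum_congr rfl fun i _ => ?_
        have := G6b_mem_seg hnd hx i ((Xl false M e.2.1).length / 2 ^ i - 1)
        simp only [this, h1.1, h1.2, true_and]
      · rw [if_neg (fun h => hx ((G6b_mem_Xl _ _ _ _).2 h.2.2))]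
        symm
        refine Finset.sum_eq_zero fun i _ => ?_
        rw [if_neg]
        intro h
        exact hx (List.mem_of_mem_drop (List.mem_of_mem_take h.2.2.2))
    · rw [if_neg (fun h => h1 ⟨h.1, h.2.1⟩)]
      symm
      refine Finset.sum_eq_zero fun i _ => ?_
      rw [if_neg (fun h => h1 ⟨h.1, h.2.1⟩)]

end Pool.Agent.Lib.H52K
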