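import Pool.Agent.Lib.H52K.G5
import Pool.Agent.Lib.H52K.G6b

/-!
For every scale `i ≤ a` use `run_exists` with `E = h`, `κ = h + a + 10`, `τ = 2^d / (h + 1)`,
`q = τ / (64 (h + 3) n κ)`, `cap = 2^(b - u)`, `u = uu a b i`, `S = 2^i`, `T = 2^(h + a - i)`, `W = 2^(h + b)`, on the
history `runHist i M`, and `O M = (List.range (a + 1)).map fun i => O_i (runHist i M)`. With
`s = n + h + a + b + 10`: `2^d ≤ 2 (h+1) τ`, `q ≥ 1`, `τ ≤ 2 q * 64 (h+3) n κ`, so `2^d ≤ 256 q s^4`.
(`w1`) `u = a - i`: `names * cap * 2^d ≤ cap * D * 2^d + A * 2^d`, `D * 2^d ≤ 256 s^4 * 4 T = 1024 s^4 2^(h+u)`,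
`A * 2^d ≤ 2 (h+1) τ A ≤ 2 (h+1)^2 (64 n + 1) W ≤ 130 s^3 2^(h+u) cap`; `u = b < a - i`: `cap = 1`,
`names ≤ 2 A`. (`w4`) `#assigned * 2^d ≤ 2 (h+1) τ #assigned ≤ 2 (h+1)^2 rcnt`. (cover) if
`(a+1) 2^d ≤ cntX = Σ rcnt_i`, then `rcnt_i ≥ 2^d ≥ (h+1) τ` for some `i`.
-/

namespace Pool.Agent.Lib.H52K

private lemma G7_div {x k : ℕ} (hk : 1 ≤ k) (h : k ≤ x) : x ≤ 2 * (k * (x / k)) := by
  have h1 := Nat.div_add_mod x k
  have h2 := Nat.mod_lt x (show 0 < k by omega)
  have h3 : 1 ≤ x / k := (Nat.one_le_div_iff (by omega)).2 h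
  have h4 : k * 1 ≤ k * (x / k) := Nat.mul_le_mul_left k h3
  omega

private lemma G7_ext_refl (O : Out1) : O.ext O :=
  ⟨List.prefix_refl _, List.prefix_refl _, List.prefix_refl _⟩

private lemma G7_ext_trans {O O' O'' : Out1} (h : O.ext O') (h' : O'.ext O'') : O.ext O'' :=
  ⟨h.1.trans h'.1, h.2.1.trans h'.2.1, h.2.2.trans h'.2.2⟩

private lemma G7_ext_list {O : List REv → Out1} (hO : ∀ H e, (O H).ext (O (H ++ [e])))
    (L : List REv) : ∀ H, (O H).ext (O (H ++ L)) := by
  induction L with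
  | nil => intro H; rw [List.append_nil]; exact G7_ext_refl _
  | cons e L ih =>
    intro H
    have h1 := ih (H ++ [e])
    rw [List.append_assoc, List.singleton_append] at h1
    exact G7_ext_trans (hO H e) h1

/-- The arithmetic of the constants. -/
private lemma G7_arith {n h a b : ℕ} :
    (h + 1) * (64 * (h + 3) * n * (h + a + 10)) ≤ pol n h a b := by
  unfold pol
  set s := n + h + a + b + 10 with hs
  have h1 : h + 1 ≤ s := by omega
  have h2 : h + 3 ≤ s := by omega
  have h3 : n ≤ s := by omega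
  have h4 : h + a + 10 ≤ s := by omega
  calc (h + 1) * (64 * (h + 3) * n * (h + a + 10)) ≤ s * (64 * s * s * s) := by gcongr
    _ = 64 * s ^ 4 := by ring
    _ ≤ 2 ^ 12 * s ^ 4 := by gcongr; norm_num

private lemma G7_scale (n h a b d i : ℕ) (hn : 1 ≤ n) (hd : pol n h a b ≤ 2 ^ d) (hi : i ≤ a) :
    ∃ O : List REv → Out1, (∀ H e, (O H).ext (O (H ++ [e]))) ∧
      ∀ M, Legal n h a b M → Win1 n h a b d i M (O (runHist i M)) ∧
        ∀ x y, 2 ^ d ≤ rcnt (runHist i M) x y → ∃ k < (O (runHist i M)).1.length,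
          (x, y, k) ∈ (O (runHist i M)).2.2 ∧ x ∈ (O (runHist i M)).1.getD k [] ∧
            (k, y) ∈ (O (runHist i M)).2.1 := by
  set s := n + h + a + b + 10 with hs
  set κ := h + a + 10 with hκ
  set τ := 2 ^ d / (h + 1) with hτ
  set K := 64 * (h + 3) * n * κ with hK
  set q := τ / K with hq
  set u := uu a b i with hu
  set cap := 2 ^ (b - u) with hcap
  have hub : u ≤ b := min_le_right _ _
  have hK1 : 1 ≤ K := by
    have h1 : 0 < κ := by omega
    have h2 : 0 < h + 3 := by omega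
    have : 0 < K := by rw [hK]; positivity
    omega
  have hKd : (h + 1) * K ≤ 2 ^ d := le_trans G7_arith hd
  have hKτ : K ≤ τ := by
    rw [hτ, Nat.le_div_iff_mul_le (by omega), mul_comm]
    exact hKd
  have hq1 : 1 ≤ q := (Nat.one_le_div_iff (by omega)).2 hKτ
  have hτ1 : 1 ≤ τ := le_trans hK1 hKτ
  have hdτ : 2 ^ d ≤ 2 * ((h + 1) * τ) := by
    refine G7_div (by omega) ?_
    calc h + 1 = (h + 1) * 1 := (mul_one _).symm
      _ ≤ (h + 1) * K := Nat.mul_le_mul_left _ hK1
      _ ≤ 2 ^ d := hKd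
  have hτq : τ ≤ 2 * (K * q) := G7_div hK1 hKτ
  have hKs : (h + 1) * K ≤ 64 * s ^ 4 := by
    have h1 : h + 1 ≤ s := by omega
    have h2 : h + 3 ≤ s := by omega
    have h3 : n ≤ s := by omega
    have h4 : κ ≤ s := by omega
    calc (h + 1) * K ≤ s * (64 * s * s * s) := by rw [hK]; gcongr
      _ = 64 * s ^ 4 := by ring
  have hdq : 2 ^ d ≤ 256 * s ^ 4 * q := by
    calc 2 ^ d ≤ 2 * ((h + 1) * τ) := hdτ
      _ ≤ 2 * ((h + 1) * (2 * (K * q))) := by gcongr
      _ = 4 * ((h + 1) * K) * q := by ring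
      _ ≤ 4 * (64 * s ^ 4) * q := by gcongr
      _ = 256 * s ^ 4 * q := by ring
  obtain ⟨O, hO, hrun⟩ := run_exists n q κ τ h (2 ^ i) (2 ^ (h + a - i)) (2 ^ (h + b)) cap hn
    (by omega) hq1 Nat.one_le_two_pow (Nat.pow_le_pow_right (by norm_num) (by omega))
    (by
      calc 64 * (h + 3) * q * n * κ = K * q := by rw [hK]; ring
        _ ≤ τ := Nat.mul_div_le τ K)
  refine ⟨O, hO, fun M hM => ?_⟩
  have hR := hrun (runHist i M) (runHist_legal hM hi)
  have hrle : ∀ x y, rcnt (runHist i M) x y ≤ cntX M x y := by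
    intro x y
    rw [cntX_eq_sum hM]
    exact Finset.single_le_sum (f := fun i => rcnt (runHist i M) x y) (fun _ _ => Nat.zero_le _)
      (Finset.mem_range.2 (by omega))
  constructor
  · refine ⟨?_, hR.c2, hR.c3, ?_⟩
    · obtain ⟨D, A, hD, hA, hc⟩ := hR.c1
      set N := (O (runHist i M)).1.length with hN
      have hAd : A * 2 ^ d ≤ 130 * s ^ 3 * 2 ^ (h + b) := by
        have h1 : h + 1 ≤ s := by omega
        have h2 : 64 * n + 1 ≤ 65 * s := by omega
        calc A * 2 ^ d ≤ A * (2 * ((h + 1) * τ)) := by gcongr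
          _ = 2 * (h + 1) * (τ * A) := by ring
          _ ≤ 2 * (h + 1) * ((h + 1) * (64 * n + 1) * 2 ^ (h + b)) := by gcongr
          _ ≤ 2 * s * (s * (65 * s) * 2 ^ (h + b)) := by gcongr
          _ = 130 * s ^ 3 * 2 ^ (h + b) := by ring
      have hDd : D * 2 ^ d ≤ 1024 * s ^ 4 * 2 ^ (h + a - i) := by
        calc D * 2 ^ d ≤ D * (256 * s ^ 4 * q) := by gcongr
          _ = 256 * s ^ 4 * (q * D) := by ring
          _ ≤ 256 * s ^ 4 * (4 * 2 ^ (h + a - i)) := by gcongr
          _ = 1024 * s ^ 4 * 2 ^ (h + a - i) := by ring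
      have hs1 : 1 ≤ s := by omega
      have hs3 : s ^ 3 ≤ s ^ 4 := Nat.pow_le_pow_right hs1 (by norm_num)
      have hpol : pol n h a b = 4096 * s ^ 4 := by
        rw [pol, ← hs]
        norm_num
      rw [hpol]
      rcases le_or_gt (a - i) b with hab | hab
      · -- `u = a - i`
        have hua : u = a - i := by rw [hu, uu]; exact min_eq_left hab
        have hbu : 2 ^ (h + b) = 2 ^ (h + u) * cap := by
          rw [hcap, ← pow_add]
          congr 1
          omega
        have hT : 2 ^ (h + a - i) = 2 ^ (h + u) := by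
          congr 1
          omega
        have hcap0 : 0 < cap := by rw [hcap]; positivity
        refine Nat.le_of_mul_le_mul_left ?_ hcap0
        calc cap * (N * 2 ^ d) = (cap * N) * 2 ^ d := by ring
          _ ≤ (cap * min D A + A) * 2 ^ d := by gcongr
          _ ≤ (cap * D + A) * 2 ^ d := by
            gcongr
            exact min_le_left _ _
          _ = cap * (D * 2 ^ d) + A * 2 ^ d := by ring
          _ ≤ cap * (1024 * s ^ 4 * 2 ^ (h + a - i)) + 130 * s ^ 3 * 2 ^ (h + b) := by gcongr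
          _ = cap * (2 ^ (h + u) * (1024 * s ^ 4 + 130 * s ^ 3)) := by rw [hT, hbu]; ring
          _ ≤ cap * (2 ^ (h + u) * (1024 * s ^ 4 + 130 * s ^ 4)) := by gcongr
          _ ≤ cap * (2 ^ (h + u) * (4096 * s ^ 4)) := by
            refine Nat.mul_le_mul_left _ (Nat.mul_le_mul_left _ ?_)
            omega
      · -- `u = b`
        have hua : u = b := by rw [hu, uu]; exact min_eq_right hab.le
        have hcap1 : cap = 1 := by rw [hcap, hua, Nat.sub_self, pow_zero]
        rw [hcap1, one_mul, one_mul] at hc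
        have h1 : N ≤ 2 * A := by
          have := min_le_right D A
          omega
        calc N * 2 ^ d ≤ (2 * A) * 2 ^ d := by gcongr
          _ = 2 * (A * 2 ^ d) := by ring
          _ ≤ 2 * (130 * s ^ 3 * 2 ^ (h + b)) := by gcongr
          _ ≤ 2 * (130 * s ^ 4 * 2 ^ (h + b)) := by gcongr
          _ = 2 ^ (h + u) * (260 * s ^ 4) := by rw [hua]; ring
          _ ≤ 2 ^ (h + u) * (4096 * s ^ 4) := by
            refine Nat.mul_le_mul_left _ ?_
            omega
    · intro x y
      have h1 := hR.c4 x y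
      set c := ((O (runHist i M)).2.2.filter fun e => e.1 = x ∧ e.2.1 = y).length with hc
      have hpol : 2 * (h + 1) * (h + 1) ≤ pol n h a b := by
        rw [pol, ← hs]
        have h2 : h + 1 ≤ s := by omega
        have hs1 : 1 ≤ s := by omega
        calc 2 * (h + 1) * (h + 1) ≤ 2 * s * s := by gcongr
          _ = 2 * s ^ 2 := by ring
          _ ≤ 2 * s ^ 4 := by
            have := Nat.pow_le_pow_right hs1 (show 2 ≤ 4 by norm_num)
            omega
          _ ≤ 2 ^ 12 * s ^ 4 := by gcongr; norm_num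
      calc c * 2 ^ d ≤ c * (2 * ((h + 1) * τ)) := by gcongr
        _ = 2 * (h + 1) * (τ * c) := by ring
        _ ≤ 2 * (h + 1) * ((h + 1) * rcnt (runHist i M) x y) := by gcongr
        _ = 2 * (h + 1) * (h + 1) * rcnt (runHist i M) x y := by ring
        _ ≤ pol n h a b * cntX M x y := Nat.mul_le_mul hpol (hrle x y)
  · intro x y hxy
    refine hR.c5 x y (le_trans ?_ hxy)
    exact Nat.mul_div_le _ _

/-- The game is won by the player who gives the names. -/
theorem game (n h a b d : ℕ) (hn : 1 ≤ n) (hd : pol n h a b ≤ 2 ^ d) :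
    ∃ O, Winning n h a b d O := by
  have h1 : ∀ i, ∃ O : List REv → Out1, i ≤ a → ((∀ H e, (O H).ext (O (H ++ [e]))) ∧
      ∀ M, Legal n h a b M → Win1 n h a b d i M (O (runHist i M)) ∧
        ∀ x y, 2 ^ d ≤ rcnt (runHist i M) x y → ∃ k < (O (runHist i M)).1.length,
          (x, y, k) ∈ (O (runHist i M)).2.2 ∧ x ∈ (O (runHist i M)).1.getD k [] ∧
            (k, y) ∈ (O (runHist i M)).2.1) := by
    intro i
    by_cases hi : i ≤ a
    · obtain ⟨O, hO⟩ := G7_scale n h a b d i hn hd hi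
      exact ⟨O, fun _ => hO⟩
    · exact ⟨fun _ => ([], [], []), fun h => absurd h hi⟩
  choose O hO using h1
  have hnth : ∀ M, ∀ i ≤ a, Out.nth ((List.range (a + 1)).map fun i => O i (runHist i M)) i =
      O i (runHist i M) := by
    intro M i hi
    rw [Out.nth, List.getD_eq_getElem?_getD, List.getElem?_map,
      List.getElem?_range (show i < a + 1 by omega)]
    rfl
  refine ⟨fun M => (List.range (a + 1)).map fun i => O i (runHist i M), fun M hM => ?_,
    fun M e _ i hi => ?_⟩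
  · refine ⟨by simp, fun i hi => ?_, fun x y hxy => ?_⟩
    · rw [hnth M i hi]
      exact (((hO i hi).2) M hM).1
    · rw [cntX_eq_sum hM] at hxy
      have h2 : ∃ i ∈ Finset.range (a + 1), 2 ^ d ≤ rcnt (runHist i M) x y := by
        by_contra hcon
        push Not at hcon
        have h3 := Finset.sum_lt_sum_of_nonempty (s := Finset.range (a + 1))
          (by simp) hcon
        rw [Finset.sum_const, Finset.card_range, smul_eq_mul] at h3
        omega
      obtain ⟨i, hi, h3⟩ := h2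
      have hi' : i ≤ a := by
        rw [Finset.mem_range] at hi
        omega
      refine ⟨i, hi', ?_⟩
      rw [hnth M i hi']
      exact (((hO i hi').2) M hM).2 x y h3
  · rw [hnth M i hi, hnth (M ++ [e]) i hi, runHist_append]
    exact G7_ext_list (hO i hi).1 _ _

end Pool.Agent.Lib.H52K
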