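import Pool.Agent.Lib.H52K.Defs

/-!
Arithmetic of the error term `er C ν = C * (size ν + 1)`. In `pair_le_pow` use
`Nat.pair a b < (max a b + 1) ^ 2`; the constants are not sharp.
-/

namespace Pool.Agent.Lib.H52K

theorem er_mono_left {C C' : ℕ} (ν : ℕ) (h : C ≤ C') : er C ν ≤ er C' ν := by
  unfold er; gcongr

theorem er_mono_right (C : ℕ) {ν ν' : ℕ} (h : ν ≤ ν') : er C ν ≤ er C ν' := by
  unfold er
  have := Nat.size_le_size h
  gcongr

theorem er_mono {C C' ν ν' : ℕ} (h : C ≤ C') (h' : ν ≤ ν') : er C ν ≤ er C' ν' :=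
  (er_mono_left ν h).trans (er_mono_right C' h')

theorem er_add (C C' ν : ℕ) : er C ν + er C' ν = er (C + C') ν := by
  unfold er; ring

theorem er_mul (C k ν : ℕ) : k * er C ν = er (k * C) ν := by
  unfold er; ring

theorem le_er (k ν : ℕ) : k ≤ er k ν := by
  unfold er; nlinarith [Nat.zero_le (k * Nat.size ν)]

theorem size_le_er (ν : ℕ) : Nat.size ν ≤ er 1 ν := by
  unfold er; omega

/-- Replacing `ν` by `2 ^ er C ν` (this is a polynomial in `ν`) changes only the constant. -/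
theorem er_pow (C C' ν : ℕ) : er C' (2 ^ er C ν) ≤ er (C' * (C + 2)) ν := by
  unfold er
  rw [Nat.size_pow]
  have h1 : C * (Nat.size ν + 1) + 1 + 1 ≤ (C + 2) * (Nat.size ν + 1) := by nlinarith
  calc C' * (C * (Nat.size ν + 1) + 1 + 1) ≤ C' * ((C + 2) * (Nat.size ν + 1)) := by gcongr
    _ = _ := by ring

theorem le_pow_er (ν : ℕ) : ν ≤ 2 ^ er 1 ν :=
  (Nat.lt_size_self ν).le.trans (Nat.pow_le_pow_right (by norm_num) (size_le_er ν))

theorem pow_er_mono {C C' : ℕ} (ν : ℕ) (h : C ≤ C') : 2 ^ er C ν ≤ 2 ^ er C' ν :=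
  Nat.pow_le_pow_right (by norm_num) (er_mono_left ν h)

/-- Polynomially bounded numbers are closed under addition, multiplication, pairing. -/
theorem add_le_pow {a b C C' ν : ℕ} (ha : a ≤ 2 ^ er C ν) (hb : b ≤ 2 ^ er C' ν) :
    a + b ≤ 2 ^ er (C + C' + 1) ν := by
  rw [← er_add, ← er_add, pow_add, pow_add]
  have h1 : 1 ≤ 2 ^ er C ν := Nat.one_le_two_pow
  have h2 : 1 ≤ 2 ^ er C' ν := Nat.one_le_two_pow
  have h3 : 2 ≤ 2 ^ er 1 ν := by
    calc 2 = 2 ^ 1 := rfl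
      _ ≤ 2 ^ er 1 ν := Nat.pow_le_pow_right (by norm_num) (le_er 1 ν)
  have h4 : a + b ≤ 2 ^ er C ν * 2 ^ er C' ν * 2 := by nlinarith
  exact h4.trans (by gcongr)

theorem mul_le_pow {a b C C' ν : ℕ} (ha : a ≤ 2 ^ er C ν) (hb : b ≤ 2 ^ er C' ν) :
    a * b ≤ 2 ^ er (C + C') ν := by
  rw [← er_add, pow_add]; gcongr

theorem const_le_pow (k ν : ℕ) : k ≤ 2 ^ er k ν :=
  (Nat.lt_two_pow_self (n := k)).le.trans (Nat.pow_le_pow_right (by norm_num) (le_er k ν))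

theorem pair_le_pow {a b C C' ν : ℕ} (ha : a ≤ 2 ^ er C ν) (hb : b ≤ 2 ^ er C' ν) :
    Nat.pair a b ≤ 2 ^ er (2 * (C + C') + 4) ν := by
  have h0 : Nat.pair a b < (max a b + 1) ^ 2 := Nat.pair_lt_max_add_one_sq a b
  have h1 : max a b + 1 ≤ 2 ^ er (C + C' + 1) ν + 1 := by
    have := add_le_pow ha hb
    have h2 : max a b ≤ a + b := max_le (by omega) (by omega)
    omega
  have h2 : 2 ^ er (C + C' + 1) ν + 1 ≤ 2 ^ er (C + C' + 2) ν := by
    have h3 : er (C + C' + 1) ν + 1 ≤ er (C + C' + 2) ν := by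
      have := er_add (C + C' + 1) 1 ν
      have := le_er 1 ν
      have e : C + C' + 1 + 1 = C + C' + 2 := rfl
      rw [e] at *
      omega
    calc 2 ^ er (C + C' + 1) ν + 1 ≤ 2 ^ er (C + C' + 1) ν + 2 ^ er (C + C' + 1) ν :=
          Nat.add_le_add_left Nat.one_le_two_pow _
      _ = 2 ^ (er (C + C' + 1) ν + 1) := by rw [pow_succ]; ring
      _ ≤ _ := Nat.pow_le_pow_right (by norm_num) h3
  calc Nat.pair a b ≤ (max a b + 1) ^ 2 := h0.le
    _ ≤ (2 ^ er (C + C' + 2) ν) ^ 2 := Nat.pow_le_pow_left (h1.trans h2) 2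
    _ = 2 ^ (2 * er (C + C' + 2) ν) := by rw [← pow_mul, mul_comm]
    _ = 2 ^ er (2 * (C + C') + 4) ν := by rw [er_mul]; congr 2

theorem size_le_of_le_pow {a C ν : ℕ} (ha : a ≤ 2 ^ er C ν) : Nat.size a ≤ er (C + 1) ν := by
  have h := Nat.size_le_size ha
  rw [Nat.size_pow] at h
  have := er_add C 1 ν
  have := le_er 1 ν
  omega

theorem er_le_pow (C ν : ℕ) : er C ν ≤ 2 ^ er (C + 1) ν :=
  (Nat.lt_two_pow_self (n := er C ν)).le.trans (pow_er_mono ν (Nat.le_succ C))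

theorem er_log (C ν : ℕ) : er C ν ≤ 2 * C * Nat.log 2 ν + 2 * C := by
  have h : Nat.size ν ≤ Nat.log 2 ν + 1 := by
    rw [Nat.size_le]
    exact Nat.lt_pow_succ_log_self (by norm_num) ν
  unfold er
  nlinarith [Nat.zero_le (C * Nat.log 2 ν), Nat.mul_le_mul_left C h]

end Pool.Agent.Lib.H52K
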