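import Pool.Agent.Lib.H52K.Defs

/-!
Basic facts about `KS`.
-/

namespace Pool.Agent.Lib.H52K

theorem KS_le_of_code (c : Nat.Partrec.Code) (w x z : ℕ) (h : c.eval (Nat.pair w z) = Part.some x) :
    KS x z ≤ 2 * Nat.size (Encodable.encode c) + Nat.size w + 1 :=
  Nat.sInf_le ⟨c, w, h, le_rfl⟩

theorem KS_spec (x z : ℕ) : ∃ (c : Nat.Partrec.Code) (w : ℕ), c.eval (Nat.pair w z) = Part.some x ∧
    2 * Nat.size (Encodable.encode c) + Nat.size w + 1 ≤ KS x z :=
  Nat.sInf_mem (s := {k : ℕ | ∃ (c : Nat.Partrec.Code) (w : ℕ),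
      c.eval (Nat.pair w z) = Part.some x ∧
      2 * Nat.size (Encodable.encode c) + Nat.size w + 1 ≤ k})
    ⟨_, Nat.Partrec.Code.const x, 0, by simp, le_rfl⟩

theorem KS_le_partrec (f : ℕ × ℕ →. ℕ) (hf : Partrec f) :
    ∃ C, ∀ w z x, x ∈ f (w, z) → KS x z ≤ Nat.size w + C := by
  have h : Nat.Partrec fun m => f (Nat.unpair m) := by
    rw [← Partrec.nat_iff]
    exact hf.comp Computable.unpair
  obtain ⟨c, hc⟩ := Nat.Partrec.Code.exists_code.1 h
  refine ⟨2 * Nat.size (Encodable.encode c) + 1, fun w z x hx => ?_⟩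
  have := KS_le_of_code c w x z (by rw [hc]; simp only [Nat.unpair_pair]; exact Part.eq_some_iff.2 hx)
  omega

end Pool.Agent.Lib.H52K
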