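import Pool.Agent.Lib.H52K.K1

/-!
There are at most `2^k` numbers `x` with `KS x z ≤ k`: every such `x` is determined by a pair `(e, w)`
with `2 * size e + size w + 1 ≤ k`. For fixed `e` there are at most `2^(k - 1 - 2 size e)` numbers `w`,
there are at most `2^s` numbers `e` of size `s`, and the sum over `s` of `2^s * 2^(k-1-2s)` is at most `2^k`.
-/

namespace Pool.Agent.Lib.H52K

theorem K2_enc_lt (e w : ℕ) : enc e w < 2 ^ (2 * Nat.size e + Nat.size w + 1) := by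
  unfold enc
  have h1 : e < 2 ^ Nat.size e := Nat.lt_size_self e
  have h2 : w < 2 ^ Nat.size w := Nat.lt_size_self w
  generalize Nat.size e = s at *
  generalize Nat.size w = t at *
  have hs : 0 < 2 ^ s := by positivity
  have h3 : e + 2 ^ s * w < 2 ^ s * 2 ^ t := by nlinarith
  have h4 : 2 * (e + 2 ^ s * w) + 1 < 2 * (2 ^ s * 2 ^ t) := by omega
  calc 2 ^ s * (2 * (e + 2 ^ s * w) + 1) < 2 ^ s * (2 * (2 ^ s * 2 ^ t)) :=
        Nat.mul_lt_mul_of_pos_left h4 hs
    _ = 2 ^ (2 * s + t + 1) := by ring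

theorem K2_two_pow_odd {a b m n : ℕ} (h : 2 ^ a * (2 * m + 1) = 2 ^ b * (2 * n + 1)) : a ≤ b := by
  by_contra hab
  push Not at hab
  obtain ⟨d, rfl⟩ := Nat.exists_eq_add_of_lt hab
  rw [show 2 ^ (b + d + 1) * (2 * m + 1) = 2 ^ b * (2 * (2 ^ d * (2 * m + 1))) by ring] at h
  have := Nat.eq_of_mul_eq_mul_left (by positivity) h
  omega

theorem K2_enc_inj {e w e' w' : ℕ} (h : enc e w = enc e' w') : e = e' ∧ w = w' := by
  unfold enc at h
  have hs : Nat.size e = Nat.size e' :=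
    le_antisymm (K2_two_pow_odd h) (K2_two_pow_odd h.symm)
  have h1 : e < 2 ^ Nat.size e := Nat.lt_size_self e
  have h2 : e' < 2 ^ Nat.size e' := Nat.lt_size_self e'
  rw [hs] at h h1
  generalize Nat.size e' = s at *
  have h3 := Nat.eq_of_mul_eq_mul_left (show 0 < 2 ^ s by positivity) h
  have h4 : e + 2 ^ s * w = e' + 2 ^ s * w' := by omega
  have h5 := congrArg (· % 2 ^ s) h4
  simp only [Nat.add_mul_mod_self_left, Nat.mod_eq_of_lt h1, Nat.mod_eq_of_lt h2] at h5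
  subst h5
  have h6 : 2 ^ s * w = 2 ^ s * w' := by omega
  exact ⟨rfl, Nat.eq_of_mul_eq_mul_left (by positivity) h6⟩

theorem K2_inj (k z : ℕ) : ∃ φ : ℕ → ℕ, Set.MapsTo φ {x | KS x z ≤ k} (Set.Iio (2 ^ k)) ∧
    Set.InjOn φ {x | KS x z ≤ k} := by
  choose c w h1 h2 using fun x => KS_spec x z
  refine ⟨fun x => enc (Encodable.encode (c x)) (w x), fun x hx => ?_, fun x hx x' hx' he => ?_⟩
  · simp only [Set.mem_Iio]
    exact (K2_enc_lt _ _).trans_le (Nat.pow_le_pow_right (by norm_num) ((h2 x).trans hx))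
  · obtain ⟨e1, e2⟩ := K2_enc_inj he
    have e3 := Encodable.encode_injective e1
    have := h1 x
    rw [e3, e2, h1 x'] at this
    exact (Part.some_injective this).symm

theorem KS_finite (k z : ℕ) : {x | KS x z ≤ k}.Finite := by
  obtain ⟨φ, h1, h2⟩ := K2_inj k z
  exact Set.Finite.of_injOn h1 h2 (Set.finite_Iio _)

theorem KS_ncard (k z : ℕ) : {x | KS x z ≤ k}.ncard ≤ 2 ^ k := by
  obtain ⟨φ, h1, h2⟩ := K2_inj k z
  have h := Set.ncard_le_ncard_of_injOn φ (fun x hx => h1 hx) h2 (Set.finite_Iio (2 ^ k))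
  have h3 : (Set.Iio (2 ^ k)).ncard = 2 ^ k := by
    rw [show (Set.Iio (2 ^ k) : Set ℕ) = ((Finset.range (2 ^ k) : Finset ℕ) : Set ℕ) by
      ext x; simp]
    rw [Set.ncard_coe_finset, Finset.card_range]
  omega

theorem KS_card_le (k z : ℕ) (S : Finset ℕ) (h : ∀ x ∈ S, KS x z ≤ k) : S.card ≤ 2 ^ k := by
  have h1 : (S : Set ℕ) ⊆ {x | KS x z ≤ k} := fun x hx => h x hx
  have h2 := Set.ncard_le_ncard h1 (KS_finite k z)
  rw [Set.ncard_coe_finset] at h2
  exact h2.trans (KS_ncard k z)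

end Pool.Agent.Lib.H52K
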