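import Pool.Agent.Lib.H52K.K1
import Pool.Agent.Lib.H52K.K4

/-!
A universal program: it gets `enc e w` and `z`, runs the code number `e` on `pair w (g z)` and applies
`f`; `size (enc e w) ≤ size w + 2 * size e + 1` is exactly the size of the description `(e, w)`. Use
`Nat.Partrec.Code.eval_part` and `KS_le_partrec`.
-/

namespace Pool.Agent.Lib.H52K

/-- From a description of `u` given `g z` one gets a description of `f (u, z)` given `z`. -/
theorem KS_fg (f : ℕ × ℕ → ℕ) (hf : Computable f) (g : ℕ → ℕ) (hg : Computable g) :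
    ∃ C, ∀ u z, KS (f (u, z)) z ≤ KS u (g z) + C := by
  obtain ⟨dec, hdec, hdec2⟩ := exists_dec
  have hP : Partrec (fun p : ℕ × ℕ =>
      (Nat.Partrec.Code.eval (Denumerable.ofNat Nat.Partrec.Code (dec p.1).1)
        (Nat.pair (dec p.1).2 (g p.2))).map (fun u => f (u, p.2))) := by
    refine Partrec.map (Nat.Partrec.Code.eval_part.comp ?_ ?_) ?_
    · exact (Computable.ofNat Nat.Partrec.Code).comp
        (Computable.fst.comp (hdec.comp Computable.fst))
    · exact Primrec₂.natPair.to_comp.comp (Computable.snd.comp (hdec.comp Computable.fst))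
        (hg.comp Computable.snd)
    · exact (hf.comp (Computable.pair Computable.snd (Computable.snd.comp Computable.fst))).to₂
  obtain ⟨C, hC⟩ := KS_le_partrec _ hP
  refine ⟨C, fun u z => ?_⟩
  obtain ⟨c, w, hc, hs⟩ := KS_spec u (g z)
  have h1 := hC (enc (Encodable.encode c) w) z (f (u, z)) (by
    simp only [hdec2, Denumerable.ofNat_encode, hc]
    simp)
  have h2 := enc_size (Encodable.encode c) w
  omega

theorem KS_map (f : ℕ → ℕ) (hf : Computable f) : ∃ C, ∀ x z, KS (f x) z ≤ KS x z + C := by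
  obtain ⟨C, h⟩ := KS_fg (fun p => f p.1) (hf.comp Computable.fst) (fun z => z) Computable.id
  exact ⟨C, fun x z => h x z⟩

theorem KS_cond (g : ℕ → ℕ) (hg : Computable g) : ∃ C, ∀ x z, KS x z ≤ KS x (g z) + C := by
  obtain ⟨C, h⟩ := KS_fg (fun p => p.1) Computable.fst g hg
  exact ⟨C, fun x z => h x z⟩

theorem KS_of_cond (g : ℕ → ℕ) (hg : Computable g) : ∃ C, ∀ z, KS (g z) z ≤ C := by
  obtain ⟨C, h⟩ := KS_le_partrec (fun p => Part.some (g p.2)) (hg.comp Computable.snd).partrec
  exact ⟨C, fun z => by simpa using h 0 z (g z) (Part.mem_some _)⟩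

end Pool.Agent.Lib.H52K
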