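import Pool.Agent.Lib.H52K.K0
import Pool.Agent.Lib.H52K.K1
import Pool.Agent.Lib.H52K.K4

/-!
Composition of descriptions: let `q₁ = enc e₁ w₁` and `q₂ = enc e₂ w₂` be the descriptions of `v`
given `z` and of `x` given `(v, z)`; `x` is described by `enc (size q₁) (q₁ + 2 ^ size q₁ * q₂)`, whose size
is at most `size q₁ + size q₂ + 2 * size (size q₁) + 1`, and `size q₁ ≤ KS v z`.
-/

namespace Pool.Agent.Lib.H52K

theorem K7_size (q₁ q₂ : ℕ) :
    Nat.size (q₁ + 2 ^ Nat.size q₁ * q₂) ≤ Nat.size q₁ + Nat.size q₂ := by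
  rw [Nat.size_le, pow_add]
  have h1 : q₁ < 2 ^ Nat.size q₁ := Nat.lt_size_self q₁
  have h2 : q₂ + 1 ≤ 2 ^ Nat.size q₂ := Nat.lt_size_self q₂
  calc q₁ + 2 ^ Nat.size q₁ * q₂ < 2 ^ Nat.size q₁ + 2 ^ Nat.size q₁ * q₂ := by omega
    _ = 2 ^ Nat.size q₁ * (q₂ + 1) := by ring
    _ ≤ _ := Nat.mul_le_mul_left _ h2

theorem K7_pow_computable {α : Type*} [Primcodable α] {f : α → ℕ} (hf : Computable f) :
    Computable fun a => 2 ^ f a :=
  pow_primrec.to_comp.comp (Computable.const 2) hf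

theorem KS_comp : ∃ C, ∀ ν x v z, KS v z ≤ ν →
    KS x z ≤ KS x (Nat.pair v z) + KS v z + er C ν := by
  obtain ⟨dec, hdec, hdec2⟩ := exists_dec
  have hP : Partrec (fun p : ℕ × ℕ =>
      (Nat.Partrec.Code.eval (Denumerable.ofNat Nat.Partrec.Code
          (dec ((dec p.1).2 % 2 ^ (dec p.1).1)).1)
        (Nat.pair (dec ((dec p.1).2 % 2 ^ (dec p.1).1)).2 p.2)).bind (fun v =>
      Nat.Partrec.Code.eval (Denumerable.ofNat Nat.Partrec.Code
          (dec ((dec p.1).2 / 2 ^ (dec p.1).1)).1)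
        (Nat.pair (dec ((dec p.1).2 / 2 ^ (dec p.1).1)).2 (Nat.pair v p.2)))) := by
    have hd1 : Computable fun p : ℕ × ℕ => dec p.1 := hdec.comp Computable.fst
    have hm : Computable fun p : ℕ × ℕ => dec ((dec p.1).2 % 2 ^ (dec p.1).1) :=
      hdec.comp (Primrec.nat_mod.to_comp.comp (Computable.snd.comp hd1)
        (K7_pow_computable (Computable.fst.comp hd1)))
    have hq : Computable fun p : ℕ × ℕ => dec ((dec p.1).2 / 2 ^ (dec p.1).1) :=
      hdec.comp (Primrec.nat_div.to_comp.comp (Computable.snd.comp hd1)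
        (K7_pow_computable (Computable.fst.comp hd1)))
    have h2 : Partrec (fun q : (ℕ × ℕ) × ℕ =>
        Nat.Partrec.Code.eval (Denumerable.ofNat Nat.Partrec.Code
          (dec ((dec q.1.1).2 / 2 ^ (dec q.1.1).1)).1)
        (Nat.pair (dec ((dec q.1.1).2 / 2 ^ (dec q.1.1).1)).2 (Nat.pair q.2 q.1.2))) := by
      refine Nat.Partrec.Code.eval_part.comp ?_ ?_
      · exact (Computable.ofNat Nat.Partrec.Code).comp
          (Computable.fst.comp (hq.comp Computable.fst))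
      · exact Primrec₂.natPair.to_comp.comp (Computable.snd.comp (hq.comp Computable.fst))
          (Primrec₂.natPair.to_comp.comp Computable.snd (Computable.snd.comp Computable.fst))
    refine Partrec.bind (Nat.Partrec.Code.eval_part.comp ?_ ?_) h2.to₂
    · exact (Computable.ofNat Nat.Partrec.Code).comp (Computable.fst.comp hm)
    · exact Primrec₂.natPair.to_comp.comp (Computable.snd.comp hm) Computable.snd
  obtain ⟨C, hC⟩ := KS_le_partrec _ hP
  refine ⟨C + 3, fun ν x v z hν => ?_⟩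
  obtain ⟨c₁, w₁, hc₁, hs₁⟩ := KS_spec v z
  obtain ⟨c₂, w₂, hc₂, hs₂⟩ := KS_spec x (Nat.pair v z)
  set q₁ := enc (Encodable.encode c₁) w₁ with hq₁
  set q₂ := enc (Encodable.encode c₂) w₂ with hq₂
  have hm : (q₁ + 2 ^ Nat.size q₁ * q₂) % 2 ^ Nat.size q₁ = q₁ := by
    rw [Nat.add_mul_mod_self_left, Nat.mod_eq_of_lt (Nat.lt_size_self q₁)]
  have hd : (q₁ + 2 ^ Nat.size q₁ * q₂) / 2 ^ Nat.size q₁ = q₂ := by
    rw [Nat.add_mul_div_left _ _ (by positivity), Nat.div_eq_of_lt (Nat.lt_size_self q₁),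
      zero_add]
  have h1 := hC (enc (Nat.size q₁) (q₁ + 2 ^ Nat.size q₁ * q₂)) z x (by
    simp only [hdec2, hm, hd]
    rw [hq₁, hq₂, hdec2, hdec2]
    simp only [Denumerable.ofNat_encode, hc₁, Part.bind_some, hc₂]
    exact Part.mem_some _)
  have h2 := enc_size (Nat.size q₁) (q₁ + 2 ^ Nat.size q₁ * q₂)
  have h3 := K7_size q₁ q₂
  have h4 := enc_size (Encodable.encode c₁) w₁
  have h5 := enc_size (Encodable.encode c₂) w₂
  rw [← hq₁] at h4
  rw [← hq₂] at h5
  have h6 : Nat.size (Nat.size q₁) ≤ Nat.size ν := Nat.size_le_size (by omega)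
  have h7 : er (C + 3) ν = (C + 3) * Nat.size ν + (C + 3) := by
    unfold er
    ring
  have h8 : 2 * Nat.size ν ≤ (C + 3) * Nat.size ν := Nat.mul_le_mul_right _ (by omega)
  omega

end Pool.Agent.Lib.H52K
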