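import Pool.Agent.Lib.H52K.K0
import Pool.Agent.Lib.H52K.K3c
import Pool.Agent.Lib.H52K.K5

/-!
Let `k = KS (pair x y) z`, `A = {(x', y') : KS (pair x' y') z ≤ k}` (at most `2^k` elements) and let
`2^m ≤ #{y' : (x, y') ∈ A} < 2^(m+1)`. Then `KS y (pair x z) ≤ m + 1 + 2 size k + C` (`KS_ce` with
`θ = pair k m`, condition `pair x z`) and `x` is one of at most `2^(k-m)` elements `x'` for which
`#{y' : (x', y') ∈ A} ≥ 2^m`, so `KS x z ≤ k - m + 2 size (pair k m) + C`.
-/

namespace Pool.Agent.Lib.H52K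

theorem K8_En {α : Type*} [Primcodable α] {f g h : α → ℕ} (hf : Computable f)
    (hg : Computable g) (hh : Computable h) : Computable fun a => En (f a) (g a) (h a) :=
  En_computable.comp ((hf.pair hg).pair hh)

theorem K8_R1 : Computable fun p : (ℕ × ℕ) × (ℕ × ℕ) =>
    decide (Nat.pair p.1.2.unpair.1 p.2.1 ∈ En p.1.1 p.1.2.unpair.2 p.2.2) := by
  have h : Computable₂ fun (a : ℕ) (l : List ℕ) => decide (a ∈ l) :=
    (mem_primrec (α := ℕ)).decide.to_comp
  exact h.comp (g := fun p : (ℕ × ℕ) × (ℕ × ℕ) => Nat.pair p.1.2.unpair.1 p.2.1)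
    (h := fun p : (ℕ × ℕ) × (ℕ × ℕ) => En p.1.1 p.1.2.unpair.2 p.2.2)
    (Primrec₂.natPair.to_comp.comp (Computable.fst.comp (Computable.unpair.comp
      (Computable.snd.comp Computable.fst))) (Computable.fst.comp Computable.snd))
    (K8_En (f := fun p : (ℕ × ℕ) × (ℕ × ℕ) => p.1.1)
      (g := fun p : (ℕ × ℕ) × (ℕ × ℕ) => p.1.2.unpair.2)
      (h := fun p : (ℕ × ℕ) × (ℕ × ℕ) => p.2.2)
      (Computable.fst.comp Computable.fst) (Computable.snd.comp (Computable.unpair.comp
      (Computable.snd.comp Computable.fst))) (Computable.snd.comp Computable.snd))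

theorem K8_R2b {α : Type*} [Primcodable α] {f g h e x : α → ℕ} (hf : Computable f)
    (hg : Computable g) (hh : Computable h) (he : Computable e) (hx : Computable x) :
    Computable fun a => decide (2 ^ e a ≤ ((En (f a) (g a) (h a)).filter
      (fun u => decide (u.unpair.1 = x a))).length) := by
  have hle : Computable₂ fun (a b : ℕ) => decide (a ≤ b) := Primrec.nat_le.decide.to_comp
  have heq : Computable₂ fun (a b : ℕ) => decide (a = b) := Primrec.eq.decide.to_comp
  have h2 : Computable₂ fun (p : α) (u : ℕ) => decide (u.unpair.1 = x p) :=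
    (heq.comp (Computable.fst.comp (Computable.unpair.comp Computable.snd))
        (hx.comp Computable.fst)).to₂
  have h3 := filter_computable (K8_En hf hg hh) h2
  have h4 := Computable.list_length.comp h3
  have h1 : Computable fun a => 2 ^ e a := pow_primrec.to_comp.comp (Computable.const 2) he
  exact hle.comp h1 h4

theorem K8_R2 : Computable fun p : (ℕ × ℕ) × (ℕ × ℕ) =>
    decide (2 ^ p.1.1.unpair.2 ≤ ((En p.1.1.unpair.1 p.1.2 p.2.2).filter
      (fun u => decide (u.unpair.1 = p.2.1))).length) := by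
  have h1 : Computable fun p : (ℕ × ℕ) × (ℕ × ℕ) => p.1.1.unpair.1 :=
    Computable.fst.comp (Computable.unpair.comp (Computable.fst.comp Computable.fst))
  have h2 : Computable fun p : (ℕ × ℕ) × (ℕ × ℕ) => p.1.2 := Computable.snd.comp Computable.fst
  have h3 : Computable fun p : (ℕ × ℕ) × (ℕ × ℕ) => p.2.2 := Computable.snd.comp Computable.snd
  have h4 : Computable fun p : (ℕ × ℕ) × (ℕ × ℕ) => p.1.1.unpair.2 :=
    Computable.snd.comp (Computable.unpair.comp (Computable.fst.comp Computable.fst))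
  have h5 : Computable fun p : (ℕ × ℕ) × (ℕ × ℕ) => p.2.1 := Computable.fst.comp Computable.snd
  exact K8_R2b h1 h2 h3 h4 h5
/-- The fibre over `x` of the set of all pairs of complexity at most `k`. -/
noncomputable def K8_fib (k z x : ℕ) : Finset ℕ :=
  (KS_finite k z).toFinset.filter fun u => u.unpair.1 = x

theorem K8_filter_le (k z t x : ℕ) :
    ((En k z t).filter (fun u => decide (u.unpair.1 = x))).length ≤ (K8_fib k z x).card := by
  have hnd : ((En k z t).filter (fun u => decide (u.unpair.1 = x))).Nodup :=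
    (En_nodup k z t).filter _
  rw [← List.toFinset_card_of_nodup hnd]
  refine Finset.card_le_card fun u hu => ?_
  rw [List.mem_toFinset, List.mem_filter, decide_eq_true_eq] at hu
  rw [K8_fib, Finset.mem_filter, Set.Finite.mem_toFinset]
  exact ⟨KS_le_of_mem_En hu.1, hu.2⟩

theorem K8_exists_stage (k z : ℕ) (S : Finset ℕ) (h : ∀ u ∈ S, KS u z ≤ k) :
    ∃ t, ∀ u ∈ S, u ∈ En k z t := by
  classical
  induction S using Finset.induction_on with
  | empty => exact ⟨0, by simp⟩
  | insert a S _ ih =>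
    obtain ⟨t, ht⟩ := ih fun u hu => h u (Finset.mem_insert_of_mem hu)
    obtain ⟨t', ht'⟩ := exists_mem_En (h a (Finset.mem_insert_self _ _))
    refine ⟨max t t', fun u hu => ?_⟩
    rcases Finset.mem_insert.mp hu with rfl | hu
    · exact (En_prefix k z (le_max_right t t')).subset ht'
    · exact (En_prefix k z (le_max_left t t')).subset (ht u hu)

theorem K8_le_filter (k z x : ℕ) : ∃ t, (K8_fib k z x).card ≤
    ((En k z t).filter (fun u => decide (u.unpair.1 = x))).length := by
  obtain ⟨t, ht⟩ := K8_exists_stage k z (K8_fib k z x) (fun u hu => by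
    rw [K8_fib, Finset.mem_filter, Set.Finite.mem_toFinset] at hu
    exact hu.1)
  refine ⟨t, ?_⟩
  have hnd : ((En k z t).filter (fun u => decide (u.unpair.1 = x))).Nodup :=
    (En_nodup k z t).filter _
  rw [← List.toFinset_card_of_nodup hnd]
  refine Finset.card_le_card fun u hu => ?_
  rw [List.mem_toFinset, List.mem_filter, decide_eq_true_eq]
  refine ⟨ht u hu, ?_⟩
  rw [K8_fib, Finset.mem_filter] at hu
  exact hu.2

theorem K8_sum_le (k z : ℕ) (S : Finset ℕ) : ∑ x ∈ S, (K8_fib k z x).card ≤ 2 ^ k := by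
  classical
  have h1 : ∑ x ∈ S, (K8_fib k z x).card =
      ((KS_finite k z).toFinset.filter fun u => u.unpair.1 ∈ S).card := by
    rw [Finset.card_eq_sum_card_fiberwise (f := fun u : ℕ => u.unpair.1) (t := S)]
    · refine Finset.sum_congr rfl fun x hx => ?_
      rw [K8_fib, Finset.filter_filter]
      congr 1
      refine Finset.filter_congr fun u _ => ?_
      constructor
      · intro h
        exact ⟨by rw [h]; exact hx, h⟩
      · exact fun h => h.2
    · intro u hu
      simpa using (Finset.mem_filter.mp (Finset.mem_coe.mp hu)).2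
  rw [h1]
  refine KS_card_le k z _ fun u hu => ?_
  rw [Finset.mem_filter, Set.Finite.mem_toFinset] at hu
  exact hu.1

/-- Symmetry of information. -/
theorem KS_symm : ∃ C, ∀ ν x y z, KS (Nat.pair x y) z ≤ ν →
    KS x z + KS y (Nat.pair x z) ≤ KS (Nat.pair x y) z + er C ν := by
  classical
  obtain ⟨C₁, h₁⟩ := KS_ce _ K8_R1
  obtain ⟨C₂, h₂⟩ := KS_ce _ K8_R2
  refine ⟨C₁ + C₂ + 21, fun ν x y z hν => ?_⟩
  set k := KS (Nat.pair x y) z with hk
  have hmem : Nat.pair x y ∈ K8_fib k z x := by
    rw [K8_fib, Finset.mem_filter, Set.Finite.mem_toFinset]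
    exact ⟨(le_refl k : KS (Nat.pair x y) z ≤ k), by rw [Nat.unpair_pair]⟩
  have hne : (K8_fib k z x).card ≠ 0 := Finset.card_ne_zero_of_mem hmem
  set m := Nat.log 2 (K8_fib k z x).card with hm
  have hm1 : 2 ^ m ≤ (K8_fib k z x).card := Nat.pow_log_le_self 2 hne
  have hm2 : (K8_fib k z x).card < 2 ^ (m + 1) := Nat.lt_pow_succ_log_self (by norm_num) _
  have hcard : (K8_fib k z x).card ≤ 2 ^ k := by
    have := K8_sum_le k z {x}
    rwa [Finset.sum_singleton] at this
  have hmk : m ≤ k := (Nat.pow_le_pow_iff_right (by norm_num)).mp (hm1.trans hcard)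
  -- `y` given `x` and `z`
  obtain ⟨t₁, ht₁⟩ := exists_mem_En (le_refl (KS (Nat.pair x y) z))
  have hy : KS y (Nat.pair x z) ≤ m + 1 + 2 * Nat.size k + C₁ := by
    refine h₁ k (Nat.pair x z) (m + 1) ?_ y t₁ ?_
    · intro S hS
      refine le_trans ?_ hm2.le
      rw [← Finset.card_image_of_injective S (f := fun y' => Nat.pair x y')
        (fun a b hab => (Nat.pair_eq_pair.mp hab).2)]
      refine Finset.card_le_card fun u hu => ?_
      obtain ⟨y', hy', rfl⟩ := Finset.mem_image.mp hu
      obtain ⟨t, ht⟩ := hS y' hy'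
      simp only [Nat.unpair_pair, decide_eq_true_eq] at ht
      rw [K8_fib, Finset.mem_filter, Set.Finite.mem_toFinset]
      exact ⟨KS_le_of_mem_En ht, by rw [Nat.unpair_pair]⟩
    · simp only [Nat.unpair_pair, decide_eq_true_eq]
      exact ht₁
  -- `x` given `z`
  obtain ⟨t₂, ht₂⟩ := K8_le_filter k z x
  have hx : KS x z ≤ (k - m) + 2 * Nat.size (Nat.pair k m) + C₂ := by
    refine h₂ (Nat.pair k m) z (k - m) ?_ x t₂ ?_
    · intro S hS
      have hS' : ∀ x' ∈ S, 2 ^ m ≤ (K8_fib k z x').card := by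
        intro x' hx'
        obtain ⟨t, ht⟩ := hS x' hx'
        simp only [Nat.unpair_pair, decide_eq_true_eq] at ht
        exact ht.trans (K8_filter_le k z t x')
      have h3 : S.card * 2 ^ m ≤ 2 ^ (k - m) * 2 ^ m := by
        rw [← pow_add, Nat.sub_add_cancel hmk]
        refine le_trans ?_ (K8_sum_le k z S)
        rw [← smul_eq_mul]
        exact Finset.card_nsmul_le_sum _ _ _ hS'
      exact Nat.le_of_mul_le_mul_right h3 (by positivity)
    · simp only [Nat.unpair_pair, decide_eq_true_eq]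
      exact hm1.trans ht₂
  have hp : Nat.pair k m ≤ 2 ^ er (2 * (1 + 1) + 4) ν :=
    pair_le_pow (hν.trans (le_pow_er ν)) ((hmk.trans hν).trans (le_pow_er ν))
  have hp2 := size_le_of_le_pow hp
  have hk2 : Nat.size k ≤ Nat.size ν := Nat.size_le_size hν
  unfold er at hp2 ⊢
  have e1 : (C₁ + C₂ + 21) * (Nat.size ν + 1) =
    C₁ * Nat.size ν + C₂ * Nat.size ν + C₁ + C₂ + 21 * Nat.size ν + 21 := by ring
  have e2 : (2 * (1 + 1) + 4 + 1) * (Nat.size ν + 1) = 9 * Nat.size ν + 9 := by ring
  rw [e2] at hp2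
  rw [e1]
  omega

end Pool.Agent.Lib.H52K
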