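import Pool.Agent.Lib.H52K.T

/-!
`D = enc e w` for a shortest description `(e, w)` of `v` (condition `0`): `size D ≤ KS v 0`, and `v` is a
computable (partial) function of `D`. `p r` is computed from `p r'` and `r`; `p r'` is computed from `p r`,
`r` and the number `(D / 2^r) % 2^(r'-r)`, given as `enc r` of it. `KS D v` is small by symmetry of
information: `KS v 0 + KS D (pair v 0) ≤ KS (pair v D) 0 + er ≤ KS D 0 + er ≤ KS v 0 + er`.
-/

namespace Pool.Agent.Lib.H52K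

theorem K9_pow_computable {α : Type*} [Primcodable α] {f : α → ℕ} (hf : Computable f) :
    Computable fun a => 2 ^ f a :=
  pow_primrec.to_comp.comp (Computable.const 2) hf

theorem K9_size_mod (D r : ℕ) : Nat.size (D % 2 ^ r) ≤ r :=
  Nat.size_le.mpr (Nat.mod_lt _ (by positivity))

/-- `z % 2 ^ r` is simple given `z`. -/
theorem K9_mod : ∃ C, ∀ r z, KS (z % 2 ^ r) z ≤ Nat.size r + C := by
  obtain ⟨C, h⟩ := KS_le_partrec (fun p => Part.some (p.2 % 2 ^ p.1))
    (Primrec.nat_mod.to_comp.comp Computable.snd (K9_pow_computable Computable.fst)).partrec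
  exact ⟨C, fun r z => h r z _ (Part.mem_some _)⟩

/-- `z + 2 ^ r * i` is described by `enc r i` given `z`. -/
theorem K9_add : ∃ C, ∀ r i z, KS (z + 2 ^ r * i) z ≤ Nat.size i + 2 * Nat.size r + C := by
  obtain ⟨dec, hdec, hdec2⟩ := exists_dec
  have hd : Computable fun p : ℕ × ℕ => dec p.1 := hdec.comp Computable.fst
  obtain ⟨C, h⟩ := KS_le_partrec (fun p => Part.some (p.2 + 2 ^ (dec p.1).1 * (dec p.1).2))
    (Primrec.nat_add.to_comp.comp Computable.snd (Primrec.nat_mul.to_comp.comp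
      (K9_pow_computable (Computable.fst.comp hd)) (Computable.snd.comp hd))).partrec
  refine ⟨C + 1, fun r i z => ?_⟩
  have h1 := h (enc r i) z (z + 2 ^ r * i) (by
    simp only [hdec2]
    exact Part.mem_some _)
  have h2 := enc_size r i
  omega

/-- A shortest description `D` of `v`, as a number. -/
theorem K9_desc : ∃ C, ∀ v, ∃ D, Nat.size D ≤ KS v 0 ∧ KS v D ≤ C ∧
    KS (Nat.pair v D) 0 ≤ KS v 0 + C := by
  obtain ⟨dec, hdec, hdec2⟩ := exists_dec
  have h1 : Partrec (fun p : ℕ × ℕ =>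
      Nat.Partrec.Code.eval (Denumerable.ofNat Nat.Partrec.Code (dec p.2).1)
        (Nat.pair (dec p.2).2 0)) := by
    refine Nat.Partrec.Code.eval_part.comp ?_ ?_
    · exact (Computable.ofNat Nat.Partrec.Code).comp
        (Computable.fst.comp (hdec.comp Computable.snd))
    · exact Primrec₂.natPair.to_comp.comp (Computable.snd.comp (hdec.comp Computable.snd))
        (Computable.const 0)
  have h2 : Partrec (fun p : ℕ × ℕ =>
      (Nat.Partrec.Code.eval (Denumerable.ofNat Nat.Partrec.Code (dec p.1).1)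
        (Nat.pair (dec p.1).2 0)).map (fun v => Nat.pair v p.1)) := by
    refine Partrec.map (Nat.Partrec.Code.eval_part.comp ?_ ?_) ?_
    · exact (Computable.ofNat Nat.Partrec.Code).comp
        (Computable.fst.comp (hdec.comp Computable.fst))
    · exact Primrec₂.natPair.to_comp.comp (Computable.snd.comp (hdec.comp Computable.fst))
        (Computable.const 0)
    · exact (Primrec₂.natPair.to_comp.comp Computable.snd
        (Computable.fst.comp Computable.fst)).to₂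
  obtain ⟨C₁, hC₁⟩ := KS_le_partrec _ h1
  obtain ⟨C₂, hC₂⟩ := KS_le_partrec _ h2
  refine ⟨C₁ + C₂, fun v => ?_⟩
  obtain ⟨c, w, hc, hs⟩ := KS_spec v 0
  have hsz := enc_size (Encodable.encode c) w
  refine ⟨enc (Encodable.encode c) w, by omega, ?_, ?_⟩
  · have h3 := hC₁ 0 (enc (Encodable.encode c) w) v (by
      simp only [hdec2, Denumerable.ofNat_encode, hc]
      exact Part.mem_some _)
    rw [Nat.size_zero] at h3
    omega
  · have h4 := hC₂ (enc (Encodable.encode c) w) 0 (Nat.pair v (enc (Encodable.encode c) w)) (by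
      simp only [hdec2, Denumerable.ofNat_encode, hc]
      simp)
    omega

/-- A path from `0` to `v`: `p r` consists of the last `r` binary digits of a shortest description
`D = enc e w` of `v`, so `p r = D % 2 ^ r`. -/
theorem KS_path : ∃ C, ∀ ν v, KS v 0 ≤ ν → ∃ p : ℕ → ℕ, p 0 = 0 ∧
    (∀ r ≤ KS v 0, KS (p r) 0 ≤ r + er C ν) ∧
    (∀ r r', r ≤ r' → r' ≤ KS v 0 →
      KS (p r) (p r') ≤ er C ν ∧ KS (p r') (p r) ≤ (r' - r) + er C ν) ∧
    KS v (p (KS v 0)) ≤ er C ν ∧ KS (p (KS v 0)) v ≤ er C ν := by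
  obtain ⟨C₀, h₀⟩ := KS_num
  obtain ⟨C₁, h₁⟩ := K9_mod
  obtain ⟨C₂, h₂⟩ := K9_add
  obtain ⟨C₃, h₃⟩ := K9_desc
  obtain ⟨C₄, h₄⟩ := KS_symm
  obtain ⟨C₅, h₅⟩ := KS_pair0
  obtain ⟨C₆, h₆⟩ := T_er C₄ (1 + C₃ + 1)
  refine ⟨C₀ + C₁ + C₂ + C₃ + C₅ + C₆ + 3, fun ν v hν => ?_⟩
  obtain ⟨D, hD1, hD2, hD3⟩ := h₃ v
  set K := KS v 0 with hK
  have hDK : D % 2 ^ K = D := Nat.mod_eq_of_lt (Nat.size_le.mp hD1)
  have hE : ∀ ν, er (C₀ + C₁ + C₂ + C₃ + C₅ + C₆ + 3) ν =
      er C₆ ν + (C₀ + C₁ + C₂ + C₃ + C₅) * Nat.size ν + 3 * Nat.size ν +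
        (C₀ + C₁ + C₂ + C₃ + C₅) + 3 := by
    intro ν
    unfold er
    ring
  have hEν := hE ν
  have hsz : ∀ r ≤ K, Nat.size r ≤ Nat.size ν := fun r hr => Nat.size_le_size (hr.trans hν)
  have hpos : 0 ≤ (C₀ + C₁ + C₂ + C₃ + C₅) * Nat.size ν := Nat.zero_le _
  generalize (C₀ + C₁ + C₂ + C₃ + C₅) * Nat.size ν = Z at hEν hpos
  refine ⟨fun r => D % 2 ^ r, by simp [Nat.mod_one], ?_, ?_, ?_, ?_⟩
  · intro r _
    have h1 := h₀ (D % 2 ^ r) 0
    have h2 := K9_size_mod D r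
    show KS (D % 2 ^ r) 0 ≤ _
    omega
  · intro r r' hr hr'
    constructor
    · have h1 := h₁ r (D % 2 ^ r')
      rw [Nat.mod_mod_of_dvd D (pow_dvd_pow 2 hr)] at h1
      have h2 := hsz r (hr.trans hr')
      show KS (D % 2 ^ r) (D % 2 ^ r') ≤ _
      omega
    · have h1 := h₂ r (D / 2 ^ r % 2 ^ (r' - r)) (D % 2 ^ r)
      have h2 : D % 2 ^ r + 2 ^ r * (D / 2 ^ r % 2 ^ (r' - r)) = D % 2 ^ r' := by
        have h3 : 2 ^ r' = 2 ^ r * 2 ^ (r' - r) := by
          rw [← pow_add]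
          congr 1
          omega
        rw [h3, Nat.mod_mul]
      rw [h2] at h1
      have h3 := K9_size_mod (D / 2 ^ r) (r' - r)
      have h4 := hsz r (hr.trans hr')
      show KS (D % 2 ^ r') (D % 2 ^ r) ≤ _
      omega
  · show KS v (D % 2 ^ K) ≤ _
    rw [hDK]
    omega
  · show KS (D % 2 ^ K) v ≤ _
    rw [hDK]
    have h1 := h₄ (ν + C₃) v D 0 (by omega)
    have h2 := (h₅ D v).1
    have h3 := h₆ ν (ν + C₃) (add_le_pow (le_pow_er ν) (const_le_pow C₃ ν))
    omega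

end Pool.Agent.Lib.H52K
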