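import Pool.Agent.Lib.H52K.M1

/-!
All strings `z` (no bound on their complexity) with `I(x : y | z) ≥ I(x : y) - s`.
-/

namespace Pool.Agent.Lib.H52K

theorem M2_first : ∃ C, ∀ ν ε x y a b c, KS x 0 ≤ ν → KS y 0 ≤ ν →
    b ≤ KS y 0 + ε → a ≤ KS x 0 + ε → a ≤ c + ε → b ≤ c + ε →
    KS x 0 + KS y 0 + c ≤ a + b + KS (Nat.pair x y) 0 + ε →
    ∃ v, KS v 0 ≤ 2 ^ er C ν ∧ KS v (Nat.pair x y) ≤ er C ν ∧
      a ≤ KS x v + 4 * ε + er C ν ∧ KS y v ≤ b + 4 * ε + er C ν ∧ b ≤ KS y v + 4 * ε + er C ν ∧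
      KS x v + c ≤ KS (Nat.pair x y) v + a + 4 * ε + er C ν ∧
      c ≤ KS (Nat.pair x y) v + 4 * ε + er C ν := by
  obtain ⟨C1, h1⟩ := hash_step
  obtain ⟨Cl, hl⟩ := KS_pair_le
  obtain ⟨Cb, hb⟩ := KS_cond (fun z => z.unpair.2) T_snd
  obtain ⟨Cn, hn⟩ := KS_num
  obtain ⟨C1', h1'⟩ := T_er C1 (1 + Cn + 1)
  obtain ⟨Cl', hl'⟩ := T_er Cl (C1 * (1 + Cn + 1 + 2))
  obtain ⟨K, hK⟩ : ∃ K, K = 2 * C1' + Cl + Cl' + (Cb + Cn + C1) +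
    (C1 * (1 + Cn + 1 + 2) + (Cn + (Cl' + 1) + 1) + 1) := ⟨_, rfl⟩
  refine ⟨K, fun ν ε x y a b c hx hy hby hax hac hbc hI => ?_⟩
  have e1 := er_mul C1' 2 ν
  have e2 := er_add (2 * C1') Cl ν
  have e3 := er_add (2 * C1' + Cl) Cl' ν
  have e4 := er_add (2 * C1' + Cl + Cl') (Cb + Cn + C1) ν
  have e5 := le_er (Cb + Cn + C1) ν
  have e6 : er (2 * C1' + Cl + Cl' + (Cb + Cn + C1)) ν ≤ er K ν := er_mono_left ν (by omega)
  have hν' : ν + Cn ≤ 2 ^ er (1 + Cn + 1) ν := add_le_pow (le_pow_er ν) (const_le_pow Cn ν)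
  have hE := h1' ν _ hν'
  have hR := hl ν x y 0 hx
  obtain ⟨k, hk⟩ : ∃ k, k = min (KS y 0 - b) (KS y (Nat.pair x 0)) := ⟨_, rfl⟩
  have hsz : Nat.size 0 = 0 := rfl
  have h00 : KS 0 0 ≤ Cn := by
    have := hn 0 0
    omega
  obtain ⟨w, hwy, hw0, hwv, hwU, hwY, hwd⟩ := h1 (ν + Cn) y 0 (fun _ => x) k (by omega) (by omega)
    (fun _ => by omega) (by omega) (fun _ => by omega)
  have hwx := hwY 0
  have hwy' := hwU y
  have hwxy := hwU (Nat.pair x y)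
  have hdx := hwd x
  have hdy := hwd y
  have hw0' : KS w 0 ≤ 2 ^ er (C1 * (1 + Cn + 1 + 2)) ν :=
    hw0.trans (Nat.pow_le_pow_right (by norm_num) ((er_mono_right C1 hν').trans (er_pow _ _ _)))
  have hEl := hl' ν _ le_rfl
  have n1 := hl _ w 0 (Nat.pair x y) hw0'
  have n2 := hn 0 (Nat.pair w (Nat.pair x y))
  have n3 := hb w (Nat.pair x y)
  simp only [Nat.unpair_pair] at n3
  refine ⟨Nat.pair w 0, ?_, ?_, by omega, by omega, by omega, by omega, by omega⟩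
  · have h2 := hl _ w 0 0 hw0'
    have h3 := hn 0 (Nat.pair w 0)
    have h4 : KS (Nat.pair w 0) 0 ≤ 2 ^ er (C1 * (1 + Cn + 1 + 2)) ν + (Cn + er Cl' ν) := by omega
    refine h4.trans ((add_le_pow le_rfl (add_le_pow (const_le_pow Cn ν)
      (er_le_pow Cl' ν))).trans (pow_er_mono ν ?_))
    omega
  · omega

/-- All strings `z` with `I(x : y | z) ≥ I(x : y) - s`. -/
theorem mutual_general : ∃ C, ∀ ν s x y z, KS x 0 ≤ ν → KS y 0 ≤ ν →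
    KS x 0 + KS y 0 + KS (Nat.pair x y) z ≤ KS x z + KS y z + KS (Nat.pair x y) 0 + s →
    ∃ v, KS v (Nat.pair x y) ≤ C * s + er C ν ∧
      KS x v ≤ KS x z + C * s + er C ν ∧ KS x z ≤ KS x v + C * s + er C ν ∧
      KS y v ≤ KS y z + C * s + er C ν ∧ KS y z ≤ KS y v + C * s + er C ν ∧
      KS (Nat.pair x y) v ≤ KS (Nat.pair x y) z + C * s + er C ν ∧
      KS (Nat.pair x y) z ≤ KS (Nat.pair x y) v + C * s + er C ν := by
  obtain ⟨C0, h0⟩ := KS_zero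
  obtain ⟨Ca, ha⟩ := KS_fst
  obtain ⟨Cb, hb⟩ := KS_snd
  obtain ⟨C1, h1⟩ := M2_first
  obtain ⟨C2, h2⟩ := step2_hash
  obtain ⟨C3, h3⟩ := M1_pair
  obtain ⟨C2', h2'⟩ := T_er C2 (1 + C1 + 1)
  obtain ⟨C3', h3'⟩ := T_er C3 (1 + C1 + 1 + C2 * (1 + C1 + 1 + 2) + 1)
  obtain ⟨K, hK⟩ : ∃ K, K = 200 + 200 * (C0 + Ca + Cb) + 200 * C1 + 200 * C2' + 200 * C3' := ⟨_, rfl⟩
  refine ⟨K, fun ν s x y z hx hy hI => ?_⟩
  have a1 := h0 x z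
  have a2 := h0 y z
  have a3 := ha x y z
  have a4 := hb x y z
  obtain ⟨v, b1, b2, b3, b4, b5, b6, b7⟩ := h1 ν (s + (C0 + Ca + Cb)) x y (KS x z) (KS y z)
    (KS (Nat.pair x y) z) hx hy (by omega) (by omega) (by omega) (by omega) (by omega)
  have hνν : ν + 2 ^ er C1 ν ≤ 2 ^ er (1 + C1 + 1) ν := add_le_pow (le_pow_er ν) le_rfl
  have hE2 := h2' ν _ hνν
  obtain ⟨ε₁, hε₁⟩ : ∃ ε₁, ε₁ = 4 * (s + (C0 + Ca + Cb)) + er C1 ν := ⟨_, rfl⟩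
  obtain ⟨v', c1, c2, c3, c4, c5, c6, c7⟩ := h2 (ν + 2 ^ er C1 ν) (ε₁ + C0) x y v (KS x z) (KS y z)
    (KS (Nat.pair x y) z) (by omega) (by omega) (by omega) (by omega) (by omega) (by omega)
    (by omega) (by omega) (by omega) (by omega)
  obtain ⟨ε₂, hε₂⟩ : ∃ ε₂, ε₂ = 8 * (ε₁ + C0) + er C2' ν := ⟨_, rfl⟩
  have c1' : KS v' 0 ≤ 2 ^ er (C2 * (1 + C1 + 1 + 2)) ν :=
    c1.trans (Nat.pow_le_pow_right (by norm_num) ((er_mono_right C2 hνν).trans (er_pow _ _ _)))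
  have hν3 : (ν + 2 ^ er C1 ν) + 2 ^ er (C2 * (1 + C1 + 1 + 2)) ν ≤
      2 ^ er (1 + C1 + 1 + C2 * (1 + C1 + 1 + 2) + 1) ν := add_le_pow hνν le_rfl
  have hE3 := h3' ν _ hν3
  obtain ⟨v'', d1, d2, d3, d4, d5, d6, d7⟩ := h3 _ ε₂ x y v' (KS x z) (KS y z)
    (KS (Nat.pair x y) z) (show KS x 0 ≤ (ν + 2 ^ er C1 ν) + 2 ^ er (C2 * (1 + C1 + 1 + 2)) ν by omega)
    (by omega) (by omega) (by omega) (by omega) (by omega) (by omega) (by omega) (by omega)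
    (by omega) (by omega)
  have f1 := er_mul C1 200 ν
  have f2 := er_mul C2' 200 ν
  have f3 := er_mul C3' 200 ν
  have f4 := le_er (200 + 200 * (C0 + Ca + Cb)) ν
  have f5 := er_add (200 + 200 * (C0 + Ca + Cb)) (200 * C1) ν
  have f6 := er_add (200 + 200 * (C0 + Ca + Cb) + 200 * C1) (200 * C2') ν
  have f7 := er_add (200 + 200 * (C0 + Ca + Cb) + 200 * C1 + 200 * C2') (200 * C3') ν
  rw [← hK] at f7
  have f8 : 200 * s ≤ K * s := Nat.mul_le_mul_right s (by omega)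
  exact ⟨v'', by omega, by omega, by omega, by omega, by omega, by omega, by omega⟩

end Pool.Agent.Lib.H52K
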