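import Pool.Agent.Lib.H52K.S4b
import Pool.Agent.Lib.H52K.M2

/-!
All strings `z` (no bound on their complexity) with `I(x : y | z) ≥ I(x : y) - s`, or `KS(y | x, z) ≤ s`, or
`KS(x | y, z) ≤ s`.
-/

set_option autoImplicit false

namespace Pool.Agent.Lib.H52K

/-- Two hashing steps (of `x` and of the pair). -/
theorem M3_finish : ∃ C, ∀ ν ε x y z v, KS x 0 ≤ ν → KS y 0 ≤ ν → KS v 0 ≤ ν →
    KS v (Nat.pair x y) ≤ ε → KS x z ≤ KS x v + ε → KS y v ≤ KS y z + ε → KS y z ≤ KS y v + ε →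
    KS x v + KS (Nat.pair x y) z ≤ KS (Nat.pair x y) v + KS x z + ε →
    KS (Nat.pair x y) z ≤ KS (Nat.pair x y) v + ε → ∃ w,
    KS w (Nat.pair x y) ≤ C * ε + er C ν ∧
    KS x w ≤ KS x z + C * ε + er C ν ∧ KS x z ≤ KS x w + C * ε + er C ν ∧
    KS y w ≤ KS y z + C * ε + er C ν ∧ KS y z ≤ KS y w + C * ε + er C ν ∧
    KS (Nat.pair x y) w ≤ KS (Nat.pair x y) z + C * ε + er C ν ∧
    KS (Nat.pair x y) z ≤ KS (Nat.pair x y) w + C * ε + er C ν := by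
  obtain ⟨C2, h2⟩ := step2_hash
  obtain ⟨C3, h3⟩ := M1_pair
  obtain ⟨Ca, ha⟩ := KS_fst
  obtain ⟨Cb, hb⟩ := KS_snd
  obtain ⟨C3', h3'⟩ := T_er C3 (1 + C2 + 1)
  obtain ⟨k, hk⟩ : ∃ k, k = Ca + Cb := ⟨_, rfl⟩
  obtain ⟨K, hK⟩ : ∃ K, K = 200 + 200 * k + 200 * C2 + 200 * C3' := ⟨_, rfl⟩
  refine ⟨K, fun ν ε x y z v hx hy hv b1 b2 b3 b4 b5 b6 => ?_⟩
  have k1 := hb x y z
  have k2 := ha x y z
  obtain ⟨ε₁, hε₁⟩ : ∃ ε₁, ε₁ = ε + k := ⟨_, rfl⟩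
  obtain ⟨ε₂, hε₂⟩ : ∃ ε₂, ε₂ = 8 * ε₁ + er C2 ν + k := ⟨_, rfl⟩
  obtain ⟨w', c1, c2, c3, c4, c5, c6, c7⟩ := h2 ν ε₁ x y v (KS x z) (KS y z)
    (KS (Nat.pair x y) z) hx hy hv (by omega) (by omega) (by omega) (by omega) (by omega)
    (by omega) (by omega)
  have hν3 : ν + 2 ^ er C2 ν ≤ 2 ^ er (1 + C2 + 1) ν := add_le_pow (le_pow_er ν) le_rfl
  have hE3 := h3' ν _ hν3
  obtain ⟨w'', d1, d2, d3, d4, d5, d6, d7⟩ := h3 _ ε₂ x y w' (KS x z) (KS y z)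
    (KS (Nat.pair x y) z) (show KS x 0 ≤ ν + 2 ^ er C2 ν by omega)
    (by omega) (by omega) (by omega) (by omega) (by omega) (by omega) (by omega) (by omega)
    (by omega) (by omega)
  have f2 := er_mul C2 200 ν
  have f3 := er_mul C3' 200 ν
  have f4 := le_er (200 + 200 * k) ν
  have f6 := er_add (200 + 200 * k) (200 * C2) ν
  have f7 := er_add (200 + 200 * k + 200 * C2) (200 * C3') ν
  rw [← hK] at f7
  have f8 : 200 * ε ≤ K * ε := Nat.mul_le_mul_right ε (by omega)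
  exact ⟨w'', by omega, by omega, by omega, by omega, by omega, by omega, by omega⟩

/-- `KS(y | x, z) ≤ s` and `KS y z ≤ I(x : y) + s`: two hashing steps of `y`. -/
theorem M3_first : ∃ C, ∀ ν s x y z, KS x 0 ≤ ν → KS y 0 ≤ ν →
    KS (Nat.pair x y) z ≤ KS x z + s → KS y z + KS (Nat.pair x y) 0 ≤ KS x 0 + KS y 0 + s →
    ∃ v, KS v 0 ≤ 2 ^ er C ν ∧ KS v (Nat.pair x y) ≤ s + er C ν ∧
      KS x z ≤ KS x v + s + er C ν ∧ KS y v ≤ KS y z + s + er C ν ∧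
      KS y z ≤ KS y v + s + er C ν ∧
      KS x v + KS (Nat.pair x y) z ≤ KS (Nat.pair x y) v + KS x z + s + er C ν ∧
      KS (Nat.pair x y) z ≤ KS (Nat.pair x y) v + s + er C ν := by
  obtain ⟨C1, h1⟩ := hash_step
  obtain ⟨Cl, hl⟩ := KS_pair_le
  obtain ⟨Cg, hg⟩ := KS_pair_ge
  obtain ⟨Cs, hs⟩ := KS_swap
  obtain ⟨Cd, hd⟩ := KS_drop
  obtain ⟨Ca, ha⟩ := KS_fst
  obtain ⟨Cn, hn⟩ := KS_num
  obtain ⟨Cc, hc⟩ := KS_cond (fun z => z.unpair.2) T_snd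
  obtain ⟨Cw, hw⟩ := KS_cond (fun z => Nat.pair z.unpair.1 0)
    (T_pair T_fst (Computable.const 0))
  obtain ⟨Cp, hp⟩ := KS_cond (fun z => Nat.pair 0 z) (T_pair (Computable.const 0) Computable.id)
  obtain ⟨Cq, hq⟩ := KS_cond (fun z => Nat.pair z.unpair.1 z.unpair.2.unpair.2)
    (T_pair T_fst (T_snd.comp T_snd))
  -- the bounds for the complexities
  obtain ⟨B0, hB0⟩ : ∃ B0, B0 = 1 + Cn + 1 := ⟨_, rfl⟩
  obtain ⟨P1, hP1⟩ : ∃ P1, P1 = C1 * (B0 + 2) := ⟨_, rfl⟩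
  obtain ⟨B1, hB1⟩ : ∃ B1, B1 = B0 + P1 + 1 := ⟨_, rfl⟩
  obtain ⟨D1, hD1⟩ := T_er C1 B0
  obtain ⟨D2, hD2⟩ := T_er Cl B1
  obtain ⟨B2, hB2⟩ : ∃ B2, B2 = B1 + (D2 + 1) + 1 + Cn + 1 := ⟨_, rfl⟩
  obtain ⟨P2, hP2⟩ : ∃ P2, P2 = C1 * (B2 + 2) := ⟨_, rfl⟩
  obtain ⟨B3, hB3⟩ : ∃ B3, B3 = B2 + P2 + 1 := ⟨_, rfl⟩
  obtain ⟨D3, hD3⟩ := T_er C1 B2
  obtain ⟨D4, hD4⟩ := T_er Cl B3
  obtain ⟨K, hK⟩ : ∃ K, K = D1 + D2 + D3 + D4 + Cl + Cg +
    (C1 + Cs + Cd + Ca + Cn + Cc + Cw + Cp + Cq) := ⟨_, rfl⟩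
  refine ⟨40 * K + (B3 + D4 + Cd + 10), fun ν s x y z hx hy hcs hI => ?_⟩
  -- all errors are at most e
  obtain ⟨e, he⟩ : ∃ e, e = er K ν := ⟨_, rfl⟩
  have m1 : er D1 ν ≤ e := he ▸ er_mono_left ν (by omega)
  have m2 : er D2 ν ≤ e := he ▸ er_mono_left ν (by omega)
  have m3 : er D3 ν ≤ e := he ▸ er_mono_left ν (by omega)
  have m4 : er D4 ν ≤ e := he ▸ er_mono_left ν (by omega)
  have m5 : er Cl ν ≤ e := he ▸ er_mono_left ν (by omega)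
  have m6 : er Cg ν ≤ e := he ▸ er_mono_left ν (by omega)
  have m7 : C1 + Cs + Cd + Ca + Cn + Cc + Cw + Cp + Cq ≤ e :=
    (le_er _ ν).trans (he ▸ er_mono_left ν (by omega))
  -- the first hashing step
  obtain ⟨N0, hN0⟩ : ∃ N0, N0 = ν + Cn := ⟨_, rfl⟩
  have hN0' : N0 ≤ 2 ^ er B0 ν := by
    rw [hN0, hB0]; exact add_le_pow (le_pow_er ν) (const_le_pow Cn ν)
  have hsz : Nat.size 0 = 0 := rfl
  have h00 : KS 0 0 ≤ Cn := by
    have := hn 0 0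
    omega
  obtain ⟨k1, hk1⟩ : ∃ k1, k1 = min (KS y 0) (KS y (Nat.pair x 0)) := ⟨_, rfl⟩
  obtain ⟨w1, o1, o2, o3, o4, o5, o6⟩ := h1 N0 y 0 (fun _ => x) k1 (by omega) (by omega)
    (fun _ => by omega) (by omega) (fun _ => by omega)
  have o5' := o5 0
  have t1 := (hD1 ν N0 hN0').trans m1
  -- the complexity of `v1`
  obtain ⟨N1, hN1⟩ : ∃ N1, N1 = N0 + 2 ^ er C1 N0 := ⟨_, rfl⟩
  have hpw1 : 2 ^ er C1 N0 ≤ 2 ^ er P1 ν := by
    rw [hP1]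
    exact Nat.pow_le_pow_right (by norm_num) ((er_mono_right C1 hN0').trans (er_pow _ _ _))
  have hN1' : N1 ≤ 2 ^ er B1 ν := by
    rw [hN1, hB1]; exact add_le_pow hN0' hpw1
  obtain ⟨v1, hv1⟩ : ∃ v1, v1 = Nat.pair w1 0 := ⟨_, rfl⟩
  have t2 := (hD2 ν N1 hN1').trans m2
  have g1 := hl N1 w1 0 0 (by omega)
  have g2 := hn 0 (Nat.pair w1 0)
  have g3 := hl N1 w1 0 (Nat.pair x y) (by omega)
  have g4 := hn 0 (Nat.pair w1 (Nat.pair x y))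
  have g5 := hc w1 (Nat.pair x y)
  simp only [Nat.unpair_pair] at g5
  rw [← hv1] at g1 g2 g3 o3 o5'
  have o4' : ∀ U, KS U 0 ≤ KS U v1 + k1 + e := fun U => by
    have := o4 U
    rw [← hv1] at this
    omega
  have o6' : ∀ U, KS U v1 ≤ KS U 0 + e := fun U => by
    have := o6 U
    rw [← hv1] at this
    omega
  -- the second hashing step
  obtain ⟨N2, hN2⟩ : ∃ N2, N2 = N1 + er Cl N1 + Cn := ⟨_, rfl⟩
  have hN2' : N2 ≤ 2 ^ er B2 ν := by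
    rw [hN2, hB2]
    exact add_le_pow (add_le_pow hN1' ((hD2 ν N1 hN1').trans (er_le_pow D2 ν)))
      (const_le_pow Cn ν)
  have hv1N : KS v1 0 ≤ N2 := by omega
  obtain ⟨k2, hk2⟩ : ∃ k2, k2 = min (KS y v1 - KS y z) (KS y (Nat.pair 0 v1)) := ⟨_, rfl⟩
  obtain ⟨w2, q1, q2, q3, q4, _, q6⟩ := h1 N2 y v1 (fun _ => 0) k2 (by omega) hv1N
    (fun _ => by omega) (by omega) (fun _ => by omega)
  have t3 := (hD3 ν N2 hN2').trans m3
  obtain ⟨v2, hv2⟩ : ∃ v2, v2 = Nat.pair w2 v1 := ⟨_, rfl⟩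
  obtain ⟨N3, hN3⟩ : ∃ N3, N3 = N2 + 2 ^ er C1 N2 := ⟨_, rfl⟩
  have hpw2 : 2 ^ er C1 N2 ≤ 2 ^ er P2 ν := by
    rw [hP2]
    exact Nat.pow_le_pow_right (by norm_num) ((er_mono_right C1 hN2').trans (er_pow _ _ _))
  have hN3' : N3 ≤ 2 ^ er B3 ν := by
    rw [hN3, hB3]; exact add_le_pow hN2' hpw2
  have t4 := (hD4 ν N3 hN3').trans m4
  have l1 := hl N3 w2 v1 0 (by omega)
  have l2 := (hd v1 w2 0).1
  have l3 := hl N3 w2 v1 (Nat.pair x y) (by omega)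
  have l4 := (hd v1 w2 (Nat.pair x y)).1
  have l5 := hc w2 (Nat.pair x y)
  simp only [Nat.unpair_pair] at l5
  rw [← hv2] at l1 l3 q3
  have q4' : ∀ U, KS U v1 ≤ KS U v2 + k2 + e := fun U => by
    have := q4 U
    rw [← hv2] at this
    omega
  have q6' : ∀ U, KS U v2 ≤ KS U v1 + e := fun U => by
    have := q6 U
    rw [← hv2] at this
    omega
  -- the chain rule for `x, y`
  have f1 := hl ν x y 0 hx
  have f2 := hg ν x y 0 hx hy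
  have f3 := (hd y x 0).1
  have f4 := hg ν y x 0 hy hx
  have f5 := hs y x 0
  -- given `v1`
  have p1 := hl ν y x v1 hy
  have p2 := hw x (Nat.pair y v1)
  have p3 := hs x y v1
  have p4 := hg ν x y v1 hx hy
  simp only [Nat.unpair_pair] at p2
  have p5 := hp y v1
  -- given `z`
  have z1 := hs x y z
  have z2 := hl ν y x z hy
  have z3 := hw x (Nat.pair y z)
  simp only [Nat.unpair_pair] at z3
  have z4 := ha x y z
  -- given `v2`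
  have r1 := hl ν x y v2 hx
  have r2 := hq y (Nat.pair x v2)
  rw [hv2] at r2
  simp only [Nat.unpair_pair] at r2
  rw [← hv2] at r2
  have r3 := ha x y v2
  have u1 := o4' y
  have u2 := o4' (Nat.pair x y)
  have u3 := q4' y
  have u4 := q4' (Nat.pair x y)
  have w1' := o6' y
  have w2' := q6' y
  have s1 : KS (Nat.pair x y) v1 + k1 ≤ KS (Nat.pair x y) 0 + 6 * e := by omega
  have s2 : KS y (Nat.pair x v1) ≤ 12 * e := by omega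
  have s3 : KS y z ≤ KS y v2 + s + 8 * e := by omega
  have s4 : KS (Nat.pair x y) z ≤ KS (Nat.pair x y) v2 + s + 20 * e := by omega
  have s5 : KS y v2 ≤ KS y z + s + 8 * e := by omega
  have s6 : KS x z ≤ KS x v2 + s + 36 * e := by omega
  have s7 : KS x v2 + KS (Nat.pair x y) z ≤ KS (Nat.pair x y) v2 + KS x z + s + e := by omega
  have s8 : KS v2 (Nat.pair x y) ≤ 12 * e := by omega
  have x1 := er_mul K 40 ν
  have x2 := er_mono_left ν (Nat.le_add_right (40 * K) (B3 + D4 + Cd + 10))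
  refine ⟨v2, ?_, by omega, by omega, by omega, by omega, by omega, by omega⟩
  have y1 : KS v2 0 ≤ N3 + er Cl N3 + Cd := by omega
  have y2 : N3 + er Cl N3 + Cd ≤ 2 ^ er (B3 + (D4 + 1) + 1 + Cd + 1) ν :=
    add_le_pow (add_le_pow hN3' ((hD4 ν N3 hN3').trans (er_le_pow D4 ν))) (const_le_pow Cd ν)
  refine y1.trans (y2.trans (pow_er_mono ν ?_))
  omega

end Pool.Agent.Lib.H52K
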