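import Pool.Agent.Lib.H52K.M3

/-!
The three easy cases in one theorem.
-/

set_option autoImplicit false

namespace Pool.Agent.Lib.H52K

/-- `KS(y | x, z) ≤ s`. -/
theorem M4_det : ∃ C, ∀ ν s x y z, KS x 0 ≤ ν → KS y 0 ≤ ν → KS y (Nat.pair x z) ≤ s →
    ∃ v, KS v (Nat.pair x y) ≤ C * s + er C ν ∧
      KS x v ≤ KS x z + C * s + er C ν ∧ KS x z ≤ KS x v + C * s + er C ν ∧
      KS y v ≤ KS y z + C * s + er C ν ∧ KS y z ≤ KS y v + C * s + er C ν ∧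
      KS (Nat.pair x y) v ≤ KS (Nat.pair x y) z + C * s + er C ν ∧
      KS (Nat.pair x y) z ≤ KS (Nat.pair x y) v + C * s + er C ν := by
  obtain ⟨Cl, hl⟩ := KS_pair_le
  obtain ⟨C1, h1⟩ := mutual_general
  obtain ⟨C2, h2⟩ := M3_first
  obtain ⟨C3, h3⟩ := M3_finish
  obtain ⟨C3', h3'⟩ := T_er C3 (1 + C2 + 1)
  obtain ⟨K, hK⟩ : ∃ K, K = C1 + C3 + (C3 * (C2 + Cl) + C3') := ⟨_, rfl⟩
  refine ⟨K, fun ν s x y z hx hy hs => ?_⟩
  have a1 := hl ν x y z hx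
  by_cases hI : KS x 0 + KS y 0 + KS (Nat.pair x y) z ≤ KS x z + KS y z + KS (Nat.pair x y) 0 + s
  · obtain ⟨v, b1, b2, b3, b4, b5, b6, b7⟩ := h1 ν s x y z hx hy hI
    have c1 : C1 * s ≤ K * s := Nat.mul_le_mul_right s (by omega)
    have c2 : er C1 ν ≤ er K ν := er_mono_left ν (by omega)
    exact ⟨v, by omega, by omega, by omega, by omega, by omega, by omega, by omega⟩
  · push Not at hI
    obtain ⟨v, b1, b2, b3, b4, b5, b6, b7⟩ := h2 ν (s + er Cl ν) x y z hx hy (by omega) (by omega)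
    have hN : ν + 2 ^ er C2 ν ≤ 2 ^ er (1 + C2 + 1) ν := add_le_pow (le_pow_er ν) le_rfl
    have hE := h3' ν _ hN
    obtain ⟨w, d1, d2, d3, d4, d5, d6, d7⟩ := h3 (ν + 2 ^ er C2 ν) (s + er Cl ν + er C2 ν) x y z v
      (by omega) (by omega) (by omega) (by omega) (by omega) (by omega) (by omega) (by omega)
      (by omega)
    have e1 : C3 * (s + er Cl ν + er C2 ν) = C3 * s + er (C3 * (C2 + Cl)) ν := by
      rw [← er_mul, ← er_add]
      ring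
    have e2 := er_add (C3 * (C2 + Cl)) C3' ν
    have e3 : C3 * s ≤ K * s := Nat.mul_le_mul_right s (by omega)
    have e4 : er (C3 * (C2 + Cl) + C3') ν ≤ er K ν := er_mono_left ν (by omega)
    rw [e1] at d1 d2 d3 d4 d5 d6 d7
    exact ⟨w, by omega, by omega, by omega, by omega, by omega, by omega, by omega⟩

/-- All strings `z` with `I(x : y | z) ≥ I(x : y) - s` or `KS(y | x, z) ≤ s` or `KS(x | y, z) ≤ s`. -/
theorem mutual_min : ∃ C, ∀ ν s x y z, KS x 0 ≤ ν → KS y 0 ≤ ν →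
    (KS x 0 + KS y 0 + KS (Nat.pair x y) z ≤ KS x z + KS y z + KS (Nat.pair x y) 0 + s ∨
      KS y (Nat.pair x z) ≤ s ∨ KS x (Nat.pair y z) ≤ s) →
    ∃ v, KS v (Nat.pair x y) ≤ C * s + er C ν ∧
      KS x v ≤ KS x z + C * s + er C ν ∧ KS x z ≤ KS x v + C * s + er C ν ∧
      KS y v ≤ KS y z + C * s + er C ν ∧ KS y z ≤ KS y v + C * s + er C ν ∧
      KS (Nat.pair x y) v ≤ KS (Nat.pair x y) z + C * s + er C ν ∧
      KS (Nat.pair x y) z ≤ KS (Nat.pair x y) v + C * s + er C ν := by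
  obtain ⟨C1, h1⟩ := mutual_general
  obtain ⟨C2, h2⟩ := M4_det
  obtain ⟨Cs, hs⟩ := KS_swap
  obtain ⟨Cw, hw⟩ := KS_cswap
  refine ⟨C1 + C2 + 2 * (Cs + Cw), fun ν s x y z hx hy h => ?_⟩
  have e1 := er_add C1 C2 ν
  have e2 := er_add (C1 + C2) (2 * (Cs + Cw)) ν
  have e3 := le_er (2 * (Cs + Cw)) ν
  have e4 : C1 * s ≤ (C1 + C2 + 2 * (Cs + Cw)) * s := Nat.mul_le_mul_right s (by omega)
  have e5 : C2 * s ≤ (C1 + C2 + 2 * (Cs + Cw)) * s := Nat.mul_le_mul_right s (by omega)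
  rcases h with h | h | h
  · obtain ⟨v, b1, b2, b3, b4, b5, b6, b7⟩ := h1 ν s x y z hx hy h
    exact ⟨v, by omega, by omega, by omega, by omega, by omega, by omega, by omega⟩
  · obtain ⟨v, b1, b2, b3, b4, b5, b6, b7⟩ := h2 ν s x y z hx hy h
    exact ⟨v, by omega, by omega, by omega, by omega, by omega, by omega, by omega⟩
  · obtain ⟨v, b1, b2, b3, b4, b5, b6, b7⟩ := h2 ν s y x z hy hx h
    have c1 := hw v x y
    have c2 := hs x y v
    have c3 := hs y x v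
    have c4 := hs x y z
    have c5 := hs y x z
    exact ⟨v, by omega, by omega, by omega, by omega, by omega, by omega, by omega⟩

theorem main_easy : ∃ C, ∀ n s x y z : ℕ, KS x 0 ≤ n → KS y 0 ≤ n →
    (KS x 0 + KS y 0 + KS (Nat.pair x y) z ≤ KS x z + KS y z + KS (Nat.pair x y) 0 + s ∨
      KS y (Nat.pair x z) ≤ s ∨ KS x (Nat.pair y z) ≤ s) → ∃ z' : ℕ,
      |(KS x z : ℤ) - (KS x z' : ℤ)| ≤ ((C * Nat.log 2 n + C * s + C : ℕ) : ℤ) ∧
      |(KS y z : ℤ) - (KS y z' : ℤ)| ≤ ((C * Nat.log 2 n + C * s + C : ℕ) : ℤ) ∧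
      |(KS (Nat.pair x y) z : ℤ) - (KS (Nat.pair x y) z' : ℤ)|
        ≤ ((C * Nat.log 2 n + C * s + C : ℕ) : ℤ) ∧
      KS z' (Nat.pair x y) ≤ C * Nat.log 2 n + C * s + C := by
  obtain ⟨C, h⟩ := mutual_min
  refine ⟨2 * C, fun n s x y z hx hy hI => ?_⟩
  obtain ⟨v, a1, a2, a3, a4, a5, a6, a7⟩ := h n s x y z hx hy hI
  have e := er_log C n
  have e2 : C * s ≤ 2 * C * s := Nat.mul_le_mul_right s (by omega)
  refine ⟨v, ?_, ?_, ?_, by omega⟩
  · rw [abs_le]; omega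
  · rw [abs_le]; omega
  · rw [abs_le]; omega

end Pool.Agent.Lib.H52K
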