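import Pool.Agent.Lib.H52K.Defs

/-!
Closure properties of `Primrec` and `Computable` that are used by the chunks about computability.
Look at `Mathlib/Computability/Primrec/List.lean` (`Primrec.listFilter`, `PrimrecRel.listFilter`,
`PrimrecRel.forall_mem_list`, `PrimrecPred.exists_mem_list`, `Primrec.list_foldl`, ...). The `Computable`
versions: fold over the list with `Computable.nat_rec` and `List.getD`/`getElem?`; `Nat.size n` is the
number of `s < n + 1` with `2 ^ s ≤ n`. Search: `Partrec.rfind`.
-/

namespace Pool.Agent.Lib.H52K

theorem pow_primrec : Primrec₂ (fun a b : ℕ => a ^ b) :=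
  Primrec₂.unpaired'.1 Nat.Primrec.pow

theorem size_primrec : Primrec Nat.size := by
  have h : Primrec fun n : ℕ => Nat.findGreatest (fun m => 2 ^ (m - 1) ≤ n) (n + 1) := by
    refine Primrec.nat_findGreatest (f := fun n : ℕ => n + 1)
      (p := fun n m : ℕ => 2 ^ (m - 1) ≤ n) Primrec.succ ?_
    exact Primrec.nat_le.comp₂
      (pow_primrec.comp (Primrec.const 2) (Primrec.pred.comp Primrec.snd)).to₂ Primrec.fst.to₂
  refine h.of_eq fun n => ?_
  rw [Nat.findGreatest_eq_iff]
  refine ⟨?_, ?_, ?_⟩
  · rw [Nat.size_le]
    exact lt_of_lt_of_le Nat.lt_two_pow_self (Nat.pow_le_pow_right (by norm_num) (by omega))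
  · intro h0
    rw [← Nat.lt_size]
    omega
  · intro m hm _ hle
    rw [← Nat.lt_size] at hle
    omega

theorem sum_primrec : Primrec (List.sum : List ℕ → ℕ) :=
  (Primrec.list_foldr (f := fun l : List ℕ => l) (g := fun _ : List ℕ => 0)
    (h := fun _ (p : ℕ × ℕ) => p.1 + p.2) Primrec.id (Primrec.const 0)
    (Primrec.nat_add.comp (Primrec.fst.comp Primrec.snd) (Primrec.snd.comp Primrec.snd)).to₂).of_eq
    fun l => by induction l <;> simp_all

/-- Two-variable version of `Primrec.listFilter`. -/
theorem filter_primrec {α β : Type*} [Primcodable α] [Primcodable β] {f : α → List β}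
    {p : α → β → Prop} [∀ a b, Decidable (p a b)] (hf : Primrec f) (hp : PrimrecRel p) :
    Primrec fun a => (f a).filter (fun b => p a b) := by
  simp only [← List.filterMap_eq_filter]
  refine Primrec.listFilterMap hf ?_
  have h : Primrec fun q : α × β => if p q.1 q.2 then some q.2 else none := by
    refine Primrec.ite ?_ (Primrec.option_some.comp Primrec.snd) (Primrec.const none)
    exact hp.comp Primrec.fst Primrec.snd
  have h' : Primrec fun q : α × β => Option.guard (fun b => decide (p q.1 b)) q.2 := by
    refine h.of_eq fun q => ?_
    by_cases hq : p q.1 q.2 <;> simp [Option.guard, hq]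
  exact h'.to₂

theorem forall_mem_primrec {α β : Type*} [Primcodable α] [Primcodable β] {f : α → List β}
    {p : α → β → Prop} (hf : Primrec f) (hp : PrimrecRel p) :
    PrimrecPred fun a => ∀ b ∈ f a, p a b := by
  classical
  have h : PrimrecPred fun a => ((f a).filter (fun b => decide (p a b))).length = (f a).length :=
    Primrec.eq.comp (Primrec.list_length.comp (filter_primrec hf hp)) (Primrec.list_length.comp hf)
  exact h.of_eq fun a => by simp

theorem exists_mem_primrec {α β : Type*} [Primcodable α] [Primcodable β] {f : α → List β}
    {p : α → β → Prop} (hf : Primrec f) (hp : PrimrecRel p) :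
    PrimrecPred fun a => ∃ b ∈ f a, p a b := by
  have h := (forall_mem_primrec hf hp.not).not
  exact h.of_eq fun a => by push Not; rfl

theorem forall_lt_primrec {α : Type*} [Primcodable α] {f : α → ℕ}
    {p : α → ℕ → Prop} (hf : Primrec f) (hp : PrimrecRel p) :
    PrimrecPred fun a => ∀ b < f a, p a b :=
  (forall_mem_primrec (Primrec.list_range.comp hf) hp).of_eq fun a => by simp

theorem mem_primrec {α : Type*} [Primcodable α] [DecidableEq α] :
    PrimrecRel fun (a : α) (l : List α) => a ∈ l := by
  have h : PrimrecPred fun q : α × List α => ∃ b ∈ q.2, b = q.1 :=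
    exists_mem_primrec (p := fun (q : α × List α) (b : α) => b = q.1) Primrec.snd
      (Primrec.eq.comp₂ Primrec.snd.to₂ (Primrec.fst.comp Primrec.fst).to₂)
  have h' : PrimrecPred fun q : α × List α => q.1 ∈ q.2 := h.of_eq fun q => by simp
  exact h'.primrecRel

theorem nodup_primrec {α : Type*} [Primcodable α] [DecidableEq α] :
    PrimrecPred fun l : List α => l.Nodup := by
  have h : PrimrecPred fun l : List α => ∀ j < l.length, ∀ i < j, l[i]? ≠ l[j]? := by
    refine forall_lt_primrec (p := fun (l : List α) (j : ℕ) => ∀ i < j, l[i]? ≠ l[j]?)
      Primrec.list_length ?_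
    refine PrimrecPred.primrecRel (p := fun q : List α × ℕ => ∀ i < q.2, q.1[i]? ≠ q.1[q.2]?) ?_
    refine forall_lt_primrec (p := fun (q : List α × ℕ) (i : ℕ) => q.1[i]? ≠ q.1[q.2]?)
      Primrec.snd ?_
    refine PrimrecRel.not ?_
    refine Primrec.eq.comp₂ ?_ ?_
    · exact (Primrec.list_getElem?.comp (Primrec.fst.comp Primrec.fst) Primrec.snd).to₂
    · exact (Primrec.list_getElem?.comp (Primrec.fst.comp Primrec.fst)
        (Primrec.snd.comp Primrec.fst)).to₂
  refine h.of_eq fun l => ?_
  rw [List.nodup_iff_getElem?_ne_getElem?]
  exact ⟨fun H i j hij hj => H j hj i hij, fun H j hj i hij => H i j hij hj⟩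

theorem prefix_primrec {α : Type*} [Primcodable α] [DecidableEq α] :
    PrimrecRel fun l l' : List α => l <+: l' := by
  have h : PrimrecPred fun q : List α × List α => q.1 = q.2.take q.1.length :=
    Primrec.eq.comp Primrec.fst
      (Primrec.list_take.comp (Primrec.list_length.comp Primrec.fst) Primrec.snd)
  have h' : PrimrecPred fun q : List α × List α => q.1 <+: q.2 :=
    h.of_eq fun q => List.prefix_iff_eq_take.symm
  exact h'.primrecRel

/-- The fold as a recursion over the index. -/
theorem P0_rec_eq {β σ : Type*} (l : List β) (F : σ → β → σ) (s : σ) :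
    (Nat.rec s (fun n t => (l[n]?).elim t (F t)) l.length : σ) = l.foldl F s := by
  have key : ∀ n, (Nat.rec s (fun n t => (l[n]?).elim t (F t)) n : σ) = (l.take n).foldl F s := by
    intro n
    induction n with
    | zero => simp
    | succ n ih =>
      rw [List.take_add_one, List.foldl_append, ← ih]
      change (l[n]?).elim _ (F _) = _
      cases l[n]? <;> rfl
  rw [key, List.take_length]

/-- Folding over a list is computable. -/
theorem P0_foldl_computable {α β σ : Type*} [Primcodable α] [Primcodable β] [Primcodable σ]
    {f : α → List β} {g : α → σ} {h : α → σ × β → σ} (hf : Computable f) (hg : Computable g)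
    (hh : Computable₂ h) : Computable fun a => (f a).foldl (fun s b => h a (s, b)) (g a) := by
  have h1 : Computable₂ fun (a : α) (p : ℕ × σ) =>
      (((f a)[p.1]?).elim p.2 (fun b => h a (p.2, b)) : σ) := by
    have h2 : Computable fun q : α × (ℕ × σ) =>
        (Option.casesOn ((f q.1)[q.2.1]?) q.2.2 (fun b => h q.1 (q.2.2, b)) : σ) :=
      Computable.option_casesOn
        (Computable.list_getElem?.comp (hf.comp Computable.fst)
          (Computable.fst.comp Computable.snd))
        (Computable.snd.comp Computable.snd)
        (hh.comp (Computable.fst.comp Computable.fst)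
          ((Computable.snd.comp (Computable.snd.comp Computable.fst)).pair Computable.snd)).to₂
    have h3 : Computable fun q : α × (ℕ × σ) =>
        (((f q.1)[q.2.1]?).elim q.2.2 (fun b => h q.1 (q.2.2, b)) : σ) := by
      refine h2.of_eq fun q => ?_
      cases (f q.1)[q.2.1]? <;> rfl
    exact h3.to₂
  refine (Computable.nat_rec (Computable.list_length.comp hf) hg h1).of_eq fun a => ?_
  exact P0_rec_eq (f a) (fun s b => h a (s, b)) (g a)

theorem P0_foldl_append {β γ : Type*} (l : List β) (g : β → List γ) (s : List γ) :
    l.foldl (fun s b => s ++ g b) s = s ++ l.flatMap g := by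
  induction l generalizing s with
  | nil => simp
  | cons b l ih => simp [ih]

theorem flatMap_computable {α β γ : Type*} [Primcodable α] [Primcodable β] [Primcodable γ]
    {f : α → List β} {g : α → β → List γ} (hf : Computable f) (hg : Computable₂ g) :
    Computable fun a => (f a).flatMap (g a) := by
  refine (P0_foldl_computable (g := fun _ => []) (h := fun a (p : List γ × β) => p.1 ++ g a p.2) hf
    (Computable.const []) ?_).of_eq fun a => ?_
  · exact (Computable.list_append.comp (Computable.fst.comp Computable.snd)
      (hg.comp Computable.fst (Computable.snd.comp Computable.snd))).to₂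
  · simpa using P0_foldl_append (f a) (g a) []

/-- The same closure properties for `Computable`. -/
theorem filter_computable {α β : Type*} [Primcodable α] [Primcodable β] {f : α → List β}
    {p : α → β → Bool} (hf : Computable f) (hp : Computable₂ p) :
    Computable fun a => (f a).filter (p a) := by
  refine (flatMap_computable (g := fun a b => cond (p a b) [b] []) hf ?_).of_eq fun a => ?_
  · exact (Computable.cond (hp.comp Computable.fst Computable.snd)
      (Computable.list_cons.comp Computable.snd (Computable.const []))
      (Computable.const [])).to₂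
  · induction f a with
    | nil => rfl
    | cons b l ih =>
      rw [List.flatMap_cons, ih]
      cases h : p a b <;> simp [h]

theorem map_computable {α β γ : Type*} [Primcodable α] [Primcodable β] [Primcodable γ]
    {f : α → List β} {g : α → β → γ} (hf : Computable f) (hg : Computable₂ g) :
    Computable fun a => (f a).map (g a) := by
  refine (flatMap_computable (g := fun a b => [g a b]) hf ?_).of_eq fun a => ?_
  · exact (Computable.list_cons.comp (hg.comp Computable.fst Computable.snd)
      (Computable.const [])).to₂
  · induction f a with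
    | nil => rfl
    | cons b l ih => rw [List.flatMap_cons, ih]; rfl

/-- Unbounded search for a witness: if `p` is computable and for every `a` some `w` satisfies `p a w`,
then a witness is a computable function of `a`. -/
theorem search_computable {α : Type*} [Primcodable α] (p : α → ℕ → Bool) (hp : Computable₂ p)
    (h : ∀ a, ∃ w, p a w = true) : ∃ f : α → ℕ, Computable f ∧ ∀ a, p a (f a) = true := by
  classical
  refine ⟨fun a => Nat.find (h a), ?_, fun a => Nat.find_spec (h a)⟩
  have hr : Partrec fun a => Nat.rfind (fun n => (Part.some (p a n) : Part Bool)) :=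
    Partrec.rfind hp.partrec₂
  refine hr.of_eq_tot fun a => ?_
  rw [Nat.mem_rfind]
  refine ⟨?_, ?_⟩
  · rw [Part.mem_some_iff]
    exact (Nat.find_spec (h a)).symm
  · intro m hm
    rw [Part.mem_some_iff]
    have := Nat.find_min (h a) hm
    simpa using this

end Pool.Agent.Lib.H52K
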