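import Pool.Agent.Lib.H52K.K5
import Pool.Agent.Lib.H52K.K3c

/-!
A finite list `L` of (codes of) pairs is covered greedily by rectangles `X × Y` with `|X| ≤ 2^a`,
`|Y| ≤ 2^b`; the cover is found by search.
-/

set_option autoImplicit false

namespace Pool.Agent.Lib.H52K

/-- the pair `u` is covered by the rectangles in `T` -/
def Cvd (T : List (List ℕ × List ℕ)) (u : ℕ) : Prop := ∃ p ∈ T, u.unpair.1 ∈ p.1 ∧ u.unpair.2 ∈ p.2

instance (T : List (List ℕ × List ℕ)) (u : ℕ) : Decidable (Cvd T u) := by unfold Cvd; infer_instance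

/-- the elements of `L` whose position is a binary digit `1` of `e` -/
def sel (L : List ℕ) (e : ℕ) : List ℕ :=
  ((List.range L.length).filter fun i => e / 2 ^ i % 2 = 1).map fun i => L.getD i 0

/-- bad set `e` of uncovered pairs -/
def BadS (L : List ℕ) (a b c : ℕ) (T : List (List ℕ × List ℕ)) (e : ℕ) : Prop :=
  (∀ u ∈ sel L e, ¬ Cvd T u) ∧ ((sel L e).map fun u => u.unpair.1).dedup.length ≤ 2 ^ a ∧
    ((sel L e).map fun u => u.unpair.2).dedup.length ≤ 2 ^ b ∧ 2 ^ c ≤ (sel L e).dedup.length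

instance (L : List ℕ) (a b c : ℕ) (T : List (List ℕ × List ℕ)) (e : ℕ) :
    Decidable (BadS L a b c T e) := by unfold BadS; infer_instance

/-- good table -/
def GoodT (L : List ℕ) (a b c : ℕ) (T : List (List ℕ × List ℕ)) : Prop :=
  T.length * 2 ^ c ≤ L.length ∧ (∀ p ∈ T, p.1.length ≤ 2 ^ a ∧ p.2.length ≤ 2 ^ b) ∧
    ∀ e < 2 ^ L.length, ¬ BadS L a b c T e

instance (L : List ℕ) (a b c : ℕ) (T : List (List ℕ × List ℕ)) :
    Decidable (GoodT L a b c T) := by unfold GoodT; infer_instance

theorem mem_sel {L : List ℕ} {e u : ℕ} : u ∈ sel L e ↔ ∃ i, L[i]? = some u ∧ e / 2 ^ i % 2 = 1 := by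
  unfold sel
  rw [List.mem_map]
  constructor
  · rintro ⟨i, hi, rfl⟩
    rw [List.mem_filter, List.mem_range] at hi
    refine ⟨i, ?_, by simpa using hi.2⟩
    rw [List.getElem?_eq_getElem hi.1, List.getD_eq_getElem _ _ hi.1]
  · rintro ⟨i, hi, h2⟩
    obtain ⟨hi', rfl⟩ := List.getElem?_eq_some_iff.1 hi
    refine ⟨i, ?_, List.getD_eq_getElem _ _ hi'⟩
    rw [List.mem_filter, List.mem_range]
    exact ⟨hi', by simpa using h2⟩

/-- every subset of `L` is selected by some `e` -/
theorem exists_sel (L : List ℕ) (S : Finset ℕ) (hS : ∀ u ∈ S, u ∈ L) :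
    ∃ e < 2 ^ L.length, ∀ u, u ∈ sel L e ↔ u ∈ S := by
  classical
  let f : Fin L.length → Bool := fun i => decide (L[i] ∈ S)
  refine ⟨Nat.ofBits f, Nat.ofBits_lt_two_pow f, ?_⟩
  intro u
  rw [mem_sel]
  have key : ∀ i (hi : i < L.length), Nat.ofBits f / 2 ^ i % 2 = 1 ↔ L[i] ∈ S := by
    intro i hi
    have h1 := Nat.testBit_ofBits_lt f i hi
    rw [Nat.testBit_eq_decide_div_mod_eq] at h1
    have h2 : decide (Nat.ofBits f / 2 ^ i % 2 = 1) = decide (L[i] ∈ S) := h1
    simpa using h2
  constructor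
  · rintro ⟨i, hi, h2⟩
    obtain ⟨hi', rfl⟩ := List.getElem?_eq_some_iff.1 hi
    exact (key i hi').1 h2
  · intro hu
    obtain ⟨i, hi, rfl⟩ := List.getElem_of_mem (hS u hu)
    exact ⟨i, List.getElem?_eq_getElem hi, (key i hi).2 hu⟩

/-- a rectangle contains few uncovered pairs -/
theorem GoodT.unc {L : List ℕ} {a b c : ℕ} {T : List (List ℕ × List ℕ)} (h : GoodT L a b c T)
    (S : Finset ℕ) (hS : ∀ u ∈ S, u ∈ L ∧ ¬ Cvd T u)
    (ha : (S.image fun u => u.unpair.1).card ≤ 2 ^ a)
    (hb : (S.image fun u => u.unpair.2).card ≤ 2 ^ b) : S.card < 2 ^ c := by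
  classical
  obtain ⟨e, he, hsel⟩ := exists_sel L S (fun u hu => (hS u hu).1)
  by_contra hcon
  push Not at hcon
  apply h.2.2 e he
  have hfs : (sel L e).toFinset = S := by
    ext u
    rw [List.mem_toFinset]
    exact hsel u
  refine ⟨fun u hu => (hS u ((hsel u).1 hu)).2, ?_, ?_, ?_⟩
  · refine le_trans (le_of_eq ?_) ha
    rw [← List.card_toFinset]
    congr 1
    ext w
    simp only [List.mem_toFinset, List.mem_map, Finset.mem_image, hsel]
  · refine le_trans (le_of_eq ?_) hb
    rw [← List.card_toFinset]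
    congr 1
    ext w
    simp only [List.mem_toFinset, List.mem_map, Finset.mem_image, hsel]
  · rw [← List.card_toFinset, hfs]
    exact hcon

theorem exists_good (L : List ℕ) (a b c : ℕ) : ∃ T, GoodT L a b c T := by
  classical
  -- tables which cover enough
  let P : ℕ → Prop := fun k => ∃ T : List (List ℕ × List ℕ), T.length = k ∧
    (∀ p ∈ T, p.1.length ≤ 2 ^ a ∧ p.2.length ≤ 2 ^ b) ∧
    T.length * 2 ^ c ≤ (L.toFinset.filter fun u => Cvd T u).card
  have hbound : ∀ k, P k → k ≤ L.length := by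
    rintro k ⟨T, rfl, _, h⟩
    have h1 : (L.toFinset.filter fun u => Cvd T u).card ≤ L.length :=
      (Finset.card_filter_le _ _).trans (List.toFinset_card_le L)
    have h2 : 1 ≤ 2 ^ c := Nat.one_le_two_pow
    nlinarith
  have h0 : P 0 := ⟨[], rfl, by simp, by simp⟩
  obtain ⟨k, hk⟩ : ∃ k, k = Nat.findGreatest P L.length := ⟨_, rfl⟩
  have hPk : P k := hk ▸ Nat.findGreatest_spec (Nat.zero_le _) h0
  have hnot : ¬ P (k + 1) := by
    intro h
    have := Nat.le_findGreatest (hbound _ h) h
    omega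
  obtain ⟨T, hTk, hT1, hT2⟩ := hPk
  refine ⟨T, ?_, hT1, ?_⟩
  · exact hT2.trans ((Finset.card_filter_le _ _).trans (List.toFinset_card_le L))
  · intro e _ hbad
    obtain ⟨b1, b2, b3, b4⟩ := hbad
    apply hnot
    refine ⟨(((sel L e).map fun u => u.unpair.1).dedup, ((sel L e).map fun u => u.unpair.2).dedup) :: T,
      by rw [List.length_cons, hTk], ?_, ?_⟩
    · intro p hp
      rw [List.mem_cons] at hp
      rcases hp with rfl | hp
      · exact ⟨b2, b3⟩
      · exact hT1 p hp
    · rw [List.length_cons, Nat.succ_mul]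
      have hsub : ∀ u ∈ sel L e, u ∈ L := by
        intro u hu
        obtain ⟨i, hi, _⟩ := mem_sel.1 hu
        exact List.mem_of_getElem? hi
      have hdisj : Disjoint (L.toFinset.filter fun u => Cvd T u) (sel L e).toFinset := by
        rw [Finset.disjoint_left]
        intro u hu hu'
        exact b1 u (List.mem_toFinset.1 hu') (Finset.mem_filter.1 hu).2
      have h3 : (L.toFinset.filter fun u => Cvd T u) ∪ (sel L e).toFinset ⊆
          L.toFinset.filter fun u => Cvd ((((sel L e).map fun u => u.unpair.1).dedup,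
            ((sel L e).map fun u => u.unpair.2).dedup) :: T) u := by
        intro u hu
        rw [Finset.mem_union] at hu
        rw [Finset.mem_filter]
        rcases hu with hu | hu
        · obtain ⟨h1, p, hp, h2⟩ := Finset.mem_filter.1 hu
          exact ⟨h1, p, List.mem_cons_of_mem _ hp, h2⟩
        · rw [List.mem_toFinset] at hu
          refine ⟨List.mem_toFinset.2 (hsub u hu), _, List.mem_cons_self, ?_, ?_⟩
          · rw [List.mem_dedup, List.mem_map]
            exact ⟨u, hu, rfl⟩
          · rw [List.mem_dedup, List.mem_map]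
            exact ⟨u, hu, rfl⟩
      calc T.length * 2 ^ c + 2 ^ c
          ≤ (L.toFinset.filter fun u => Cvd T u).card + (sel L e).toFinset.card := by
            rw [List.card_toFinset (sel L e)]
            exact Nat.add_le_add hT2 b4
        _ = ((L.toFinset.filter fun u => Cvd T u) ∪ (sel L e).toFinset).card :=
            (Finset.card_union_of_disjoint hdisj).symm
        _ ≤ _ := Finset.card_le_card h3

end Pool.Agent.Lib.H52K
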