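import Pool.Agent.Lib.H52K.K0
import Pool.Agent.Lib.H52K.K6
import Pool.Agent.Lib.H52K.K7
import Pool.Agent.Lib.H52K.K8

/-!
The toolkit for the information-theoretic part: simple consequences of `KS_fg`, `KS_comp`, `KS_symm`.
-/

namespace Pool.Agent.Lib.H52K

/-- `KS z z = O(1)`. -/
theorem KS_self : ∃ C, ∀ z, KS z z ≤ C := KS_of_cond (fun z => z) Computable.id

/-- The condition `0` is useless. -/
theorem KS_zero : ∃ C, ∀ x z, KS x z ≤ KS x 0 + C := KS_cond (fun _ => 0) (Computable.const 0)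

theorem T_fst : Computable fun z : ℕ => z.unpair.1 := Computable.fst.comp Computable.unpair

theorem T_snd : Computable fun z : ℕ => z.unpair.2 := Computable.snd.comp Computable.unpair

theorem T_pair {α : Type*} [Primcodable α] {f g : α → ℕ} (hf : Computable f) (hg : Computable g) :
    Computable fun a => Nat.pair (f a) (g a) :=
  Primrec₂.natPair.to_comp.comp hf hg

/-- Adding a condition. -/
theorem KS_drop : ∃ C, ∀ x v z, KS x (Nat.pair v z) ≤ KS x z + C ∧ KS x (Nat.pair v z) ≤ KS x v + C := by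
  obtain ⟨C₁, h₁⟩ := KS_cond (fun z => z.unpair.2) T_snd
  obtain ⟨C₂, h₂⟩ := KS_cond (fun z => z.unpair.1) T_fst
  refine ⟨C₁ + C₂, fun x v z => ⟨?_, ?_⟩⟩
  · have := h₁ x (Nat.pair v z); simp only [Nat.unpair_pair] at this; omega
  · have := h₂ x (Nat.pair v z); simp only [Nat.unpair_pair] at this; omega

/-- `pair v 0` and `v` are equivalent conditions. -/
theorem KS_pair0 : ∃ C, ∀ x v, KS x v ≤ KS x (Nat.pair v 0) + C ∧ KS x (Nat.pair v 0) ≤ KS x v + C := by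
  obtain ⟨C₁, h₁⟩ := KS_cond (fun z => Nat.pair z 0) (T_pair Computable.id (Computable.const 0))
  obtain ⟨C₂, h₂⟩ := KS_cond (fun z => z.unpair.1) T_fst
  refine ⟨C₁ + C₂, fun x v => ⟨?_, ?_⟩⟩
  · have := h₁ x v; omega
  · have := h₂ x (Nat.pair v 0); simp only [Nat.unpair_pair] at this; omega

/-- `pair v z` and `pair z v` are equivalent conditions. -/
theorem KS_cswap : ∃ C, ∀ x v z, KS x (Nat.pair v z) ≤ KS x (Nat.pair z v) + C := by
  obtain ⟨C, h⟩ := KS_cond (fun z => Nat.pair z.unpair.2 z.unpair.1) (T_pair T_snd T_fst)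
  exact ⟨C, fun x v z => by have := h x (Nat.pair v z); simpa only [Nat.unpair_pair] using this⟩

theorem KS_swap : ∃ C, ∀ x y z, KS (Nat.pair x y) z ≤ KS (Nat.pair y x) z + C := by
  obtain ⟨C, h⟩ := KS_map (fun z => Nat.pair z.unpair.2 z.unpair.1) (T_pair T_snd T_fst)
  exact ⟨C, fun x y z => by have := h (Nat.pair y x) z; simpa only [Nat.unpair_pair] using this⟩

theorem KS_fst : ∃ C, ∀ x y z, KS x z ≤ KS (Nat.pair x y) z + C := by
  obtain ⟨C, h⟩ := KS_map (fun z => z.unpair.1) T_fst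
  exact ⟨C, fun x y z => by have := h (Nat.pair x y) z; simpa only [Nat.unpair_pair] using this⟩

theorem KS_snd : ∃ C, ∀ x y z, KS y z ≤ KS (Nat.pair x y) z + C := by
  obtain ⟨C, h⟩ := KS_map (fun z => z.unpair.2) T_snd
  exact ⟨C, fun x y z => by have := h (Nat.pair x y) z; simpa only [Nat.unpair_pair] using this⟩

theorem KS_num : ∃ C, ∀ w z, KS w z ≤ Nat.size w + C := by
  obtain ⟨C, h⟩ := KS_le_partrec (fun p => Part.some p.1) (Computable.fst (β := ℕ)).partrec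
  exact ⟨C, fun w z => h w z w (Part.mem_some _)⟩

/-- Changing the size parameter. -/
theorem T_er (C K : ℕ) : ∃ C', ∀ ν ν', ν' ≤ 2 ^ er K ν → er C ν' ≤ er C' ν :=
  ⟨C * (K + 2), fun ν _ h => (er_mono_right C h).trans (er_pow K C ν)⟩

/-- Chain rule, upper bound. -/
theorem KS_upper : ∃ C, ∀ ν x v z, KS v 0 ≤ ν →
    KS x z ≤ KS x (Nat.pair v z) + KS v z + er C ν := by
  obtain ⟨C₀, h₀⟩ := KS_zero
  obtain ⟨C₁, h₁⟩ := KS_comp
  obtain ⟨C', h'⟩ := T_er C₁ (1 + C₀ + 1)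
  refine ⟨C', fun ν x v z hv => ?_⟩
  have h2 := h₁ (ν + C₀) x v z ((h₀ v z).trans (by omega))
  have h3 := h' ν (ν + C₀) (add_le_pow (le_pow_er ν) (const_le_pow C₀ ν))
  omega

/-- Chain rule for a pair, upper bound. -/
theorem KS_pair_le : ∃ C, ∀ ν x y z, KS x 0 ≤ ν →
    KS (Nat.pair x y) z ≤ KS x z + KS y (Nat.pair x z) + er C ν := by
  obtain ⟨C₁, h₁⟩ := KS_upper
  obtain ⟨C₂, h₂⟩ := KS_fg (fun p => Nat.pair p.2.unpair.1 p.1)
    (T_pair (T_fst.comp Computable.snd) Computable.fst) (fun z => z) Computable.id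
  refine ⟨C₁ + C₂, fun ν x y z hx => ?_⟩
  have h3 := h₁ ν (Nat.pair x y) x z hx
  have h4 := h₂ y (Nat.pair x z)
  simp only [Nat.unpair_pair] at h4
  have h5 := er_add C₁ C₂ ν
  have h6 := le_er C₂ ν
  omega

/-- Chain rule for a pair, lower bound (symmetry of information). -/
theorem KS_pair_ge : ∃ C, ∀ ν x y z, KS x 0 ≤ ν → KS y 0 ≤ ν →
    KS x z + KS y (Nat.pair x z) ≤ KS (Nat.pair x y) z + er C ν := by
  obtain ⟨C₀, h₀⟩ := KS_zero
  obtain ⟨C₁, h₁⟩ := KS_pair_le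
  obtain ⟨C₂, h₂⟩ := KS_symm
  obtain ⟨C', h'⟩ := T_er C₂ (1 + C₀ + 1 + (1 + C₀ + 1) + 1 + (C₁ + 1) + 1)
  refine ⟨C', fun ν x y z hx hy => ?_⟩
  have hb : ν + C₀ + (ν + C₀) + er C₁ ν ≤ 2 ^ er (1 + C₀ + 1 + (1 + C₀ + 1) + 1 + (C₁ + 1) + 1) ν :=
    add_le_pow (add_le_pow (add_le_pow (le_pow_er ν) (const_le_pow C₀ ν))
      (add_le_pow (le_pow_er ν) (const_le_pow C₀ ν))) (er_le_pow C₁ ν)
  have h3 := h₁ ν x y z hx
  have h4 := h₀ x z
  have h5 := h₀ y (Nat.pair x z)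
  have h6 := h₂ (ν + C₀ + (ν + C₀) + er C₁ ν) x y z (by omega)
  have h7 := h' ν _ hb
  omega

/-- Triangle inequality. -/
theorem KS_trans : ∃ C, ∀ ν x v z, KS v 0 ≤ ν → KS x z ≤ KS x v + KS v z + er C ν := by
  obtain ⟨C₁, h₁⟩ := KS_upper
  obtain ⟨C₂, h₂⟩ := KS_drop
  refine ⟨C₁ + C₂, fun ν x v z hv => ?_⟩
  have h3 := h₁ ν x v z hv
  have h4 := (h₂ x v z).2
  have h5 := er_add C₁ C₂ ν
  have h6 := le_er C₂ ν
  omega

/-- The complexity of a pair is polynomially bounded. -/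
theorem KS_pair_bound : ∃ C, ∀ ν x y, KS x 0 ≤ ν → KS y 0 ≤ ν → KS (Nat.pair x y) 0 ≤ 2 ^ er C ν := by
  obtain ⟨C₀, h₀⟩ := KS_zero
  obtain ⟨C₁, h₁⟩ := KS_pair_le
  refine ⟨1 + (1 + C₀ + 1) + 1 + (C₁ + 1) + 1, fun ν x y hx hy => ?_⟩
  have h2 := h₁ ν x y 0 hx
  have h3 := h₀ y (Nat.pair x 0)
  exact le_trans (by omega) (add_le_pow (add_le_pow (le_pow_er ν)
    (add_le_pow (le_pow_er ν) (const_le_pow C₀ ν))) (er_le_pow C₁ ν))

/-- Symmetry of information for two strings. -/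
theorem KS_info : ∃ C, ∀ ν v U, KS v 0 ≤ ν → KS U 0 ≤ ν →
    KS v 0 + KS U v ≤ KS U 0 + KS v U + er C ν := by
  obtain ⟨Cg, hg⟩ := KS_pair_ge
  obtain ⟨Cl, hl⟩ := KS_pair_le
  obtain ⟨Cs, hs⟩ := KS_swap
  obtain ⟨Cp, hp⟩ := KS_pair0
  refine ⟨Cg + Cl + (Cs + 2 * Cp), fun ν v U hv hU => ?_⟩
  have h1 := hg ν v U 0 hv hU
  have h2 := hs v U 0
  have h3 := hl ν U v 0 hU
  have h4 := (hp v U).2
  have h5 := (hp U v).1
  have e1 := er_add Cg Cl ν
  have e2 := er_add (Cg + Cl) (Cs + 2 * Cp) ν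
  have e3 := le_er (Cs + 2 * Cp) ν
  omega

end Pool.Agent.Lib.H52K
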