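import Pool.Agent.Lib.H52K.S1
import Pool.Agent.Lib.H52K.T

/-!
The greedy cover is computable.
-/

set_option autoImplicit false

namespace Pool.Agent.Lib.H52K

theorem S2_cvd : PrimrecRel fun (T : List (List ℕ × List ℕ)) (u : ℕ) => Cvd T u := by
  have hf : Primrec fun u : ℕ => u.unpair.1 := Primrec.fst.comp Primrec.unpair
  have hs : Primrec fun u : ℕ => u.unpair.2 := Primrec.snd.comp Primrec.unpair
  have h1 : PrimrecRel fun (a : List (List ℕ × List ℕ) × ℕ) (p : List ℕ × List ℕ) =>
      a.2.unpair.1 ∈ p.1 ∧ a.2.unpair.2 ∈ p.2 := by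
    have m : PrimrecRel fun (a : ℕ) (l : List ℕ) => a ∈ l := mem_primrec (α := ℕ)
    have e1 : Primrec fun q : (List (List ℕ × List ℕ) × ℕ) × (List ℕ × List ℕ) =>
        q.1.2.unpair.1 := hf.comp (Primrec.snd.comp Primrec.fst)
    have e2 : Primrec fun q : (List (List ℕ × List ℕ) × ℕ) × (List ℕ × List ℕ) => q.2.1 :=
      Primrec.fst.comp Primrec.snd
    have e3 : Primrec fun q : (List (List ℕ × List ℕ) × ℕ) × (List ℕ × List ℕ) =>
        q.1.2.unpair.2 := hs.comp (Primrec.snd.comp Primrec.fst)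
    have e4 : Primrec fun q : (List (List ℕ × List ℕ) × ℕ) × (List ℕ × List ℕ) => q.2.2 :=
      Primrec.snd.comp Primrec.snd
    exact PrimrecPred.and (m.comp e1 e2) (m.comp e3 e4)
  have h2 := exists_mem_primrec (f := fun a : List (List ℕ × List ℕ) × ℕ => a.1) Primrec.fst h1
  exact h2.of_eq fun a => Iff.rfl

theorem S2_sel : Primrec₂ fun (L : List ℕ) (e : ℕ) => sel L e := by
  unfold sel
  have h1 : Primrec fun p : List ℕ × ℕ => List.range p.1.length :=
    Primrec.list_range.comp (Primrec.list_length.comp Primrec.fst)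
  have h2 : PrimrecRel fun (p : List ℕ × ℕ) (i : ℕ) => p.2 / 2 ^ i % 2 = 1 := by
    refine Primrec.eq.comp ?_ (Primrec.const 1)
    refine Primrec.nat_mod.comp (Primrec.nat_div.comp (Primrec.snd.comp Primrec.fst) ?_)
      (Primrec.const 2)
    exact pow_primrec.comp (Primrec.const 2) Primrec.snd
  have h3 := filter_primrec h1 h2
  have h4 : Primrec₂ fun (p : List ℕ × ℕ) (i : ℕ) => p.1.getD i 0 :=
    (Primrec.list_getD 0).comp (Primrec.fst.comp Primrec.fst) Primrec.snd
  exact Primrec.list_map h3 h4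

theorem S2_good : PrimrecPred fun q : (List ℕ × ℕ × ℕ × ℕ) × List (List ℕ × List ℕ) =>
    GoodT q.1.1 q.1.2.1 q.1.2.2.1 q.1.2.2.2 q.2 := by
  unfold GoodT
  have hL : Primrec fun q : (List ℕ × ℕ × ℕ × ℕ) × List (List ℕ × List ℕ) => q.1.1 :=
    Primrec.fst.comp Primrec.fst
  have ha : Primrec fun q : (List ℕ × ℕ × ℕ × ℕ) × List (List ℕ × List ℕ) => 2 ^ q.1.2.1 :=
    pow_primrec.comp (Primrec.const 2) (Primrec.fst.comp (Primrec.snd.comp Primrec.fst))
  have hb : Primrec fun q : (List ℕ × ℕ × ℕ × ℕ) × List (List ℕ × List ℕ) => 2 ^ q.1.2.2.1 :=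
    pow_primrec.comp (Primrec.const 2)
      (Primrec.fst.comp (Primrec.snd.comp (Primrec.snd.comp Primrec.fst)))
  have hc : Primrec fun q : (List ℕ × ℕ × ℕ × ℕ) × List (List ℕ × List ℕ) => 2 ^ q.1.2.2.2 :=
    pow_primrec.comp (Primrec.const 2)
      (Primrec.snd.comp (Primrec.snd.comp (Primrec.snd.comp Primrec.fst)))
  have hT : Primrec fun q : (List ℕ × ℕ × ℕ × ℕ) × List (List ℕ × List ℕ) => q.2 := Primrec.snd
  refine PrimrecPred.and ?_ (PrimrecPred.and ?_ ?_)
  · exact PrimrecRel.comp Primrec.nat_le (Primrec.nat_mul.comp (Primrec.list_length.comp hT) hc)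
      (Primrec.list_length.comp hL)
  · refine forall_mem_primrec hT ?_
    refine PrimrecPred.and ?_ ?_
    · exact PrimrecRel.comp Primrec.nat_le
        (Primrec.list_length.comp (Primrec.fst.comp Primrec.snd)) (ha.comp Primrec.fst)
    · exact PrimrecRel.comp Primrec.nat_le
        (Primrec.list_length.comp (Primrec.snd.comp Primrec.snd)) (hb.comp Primrec.fst)
  · refine forall_lt_primrec (pow_primrec.comp (Primrec.const 2) (Primrec.list_length.comp hL)) ?_
    unfold BadS
    refine PrimrecPred.not ?_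
    have hsel : Primrec fun r : ((List ℕ × ℕ × ℕ × ℕ) × List (List ℕ × List ℕ)) × ℕ =>
        sel r.1.1.1 r.2 := S2_sel.comp (hL.comp Primrec.fst) Primrec.snd
    have hf : Primrec fun u : ℕ => u.unpair.1 := Primrec.fst.comp Primrec.unpair
    have hs : Primrec fun u : ℕ => u.unpair.2 := Primrec.snd.comp Primrec.unpair
    refine PrimrecPred.and ?_ (PrimrecPred.and ?_ (PrimrecPred.and ?_ ?_))
    · refine forall_mem_primrec hsel ?_
      refine PrimrecPred.not ?_
      exact PrimrecRel.comp S2_cvd (Primrec.snd.comp (Primrec.fst.comp Primrec.fst)) Primrec.snd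
    · exact PrimrecRel.comp Primrec.nat_le (Primrec.list_length.comp (K3c_dedup.comp
        (Primrec.list_map hsel (hf.comp Primrec.snd).to₂))) (ha.comp Primrec.fst)
    · exact PrimrecRel.comp Primrec.nat_le (Primrec.list_length.comp (K3c_dedup.comp
        (Primrec.list_map hsel (hs.comp Primrec.snd).to₂))) (hb.comp Primrec.fst)
    · exact PrimrecRel.comp Primrec.nat_le (hc.comp Primrec.fst)
        (Primrec.list_length.comp (K3c_dedup.comp hsel))

/-- the parameters -/
def pr3 (a b c : ℕ) : ℕ := Nat.pair a (Nat.pair b c)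

/-- the table as a computable function of the list and the parameters -/
theorem table_comp : ∃ F : ℕ × ℕ → List (List ℕ × List ℕ), Computable F ∧
    ∀ (L : List ℕ) (a b c : ℕ), GoodT L a b c (F (Encodable.encode L, pr3 a b c)) := by
  have hf : Primrec fun u : ℕ => u.unpair.1 := Primrec.fst.comp Primrec.unpair
  have hs : Primrec fun u : ℕ => u.unpair.2 := Primrec.snd.comp Primrec.unpair
  -- the test
  let lst : ℕ → List ℕ := fun A => ((Encodable.decode A : Option (List ℕ))).getD []
  have hlst : Primrec lst := Primrec.option_getD.comp Primrec.decode (Primrec.const [])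
  let tb : ℕ → List (List ℕ × List ℕ) := fun w =>
    ((Encodable.decode w : Option (List (List ℕ × List ℕ)))).getD []
  have htb : Primrec tb := Primrec.option_getD.comp Primrec.decode (Primrec.const [])
  let p : ℕ × ℕ → ℕ → Bool := fun q w =>
    decide (GoodT (lst q.1) q.2.unpair.1 q.2.unpair.2.unpair.1 q.2.unpair.2.unpair.2 (tb w))
  have hp : Primrec₂ p := by
    have h1 : Primrec fun r : (ℕ × ℕ) × ℕ => ((lst r.1.1, r.1.2.unpair.1,
        r.1.2.unpair.2.unpair.1, r.1.2.unpair.2.unpair.2), tb r.2) := by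
      have h2 : Primrec fun r : (ℕ × ℕ) × ℕ => r.1.2 := Primrec.snd.comp Primrec.fst
      exact ((hlst.comp (Primrec.fst.comp Primrec.fst)).pair ((hf.comp h2).pair
        ((hf.comp (hs.comp h2)).pair (hs.comp (hs.comp h2))))).pair (htb.comp Primrec.snd)
    have h3 := (PrimrecPred.comp S2_good h1).decide
    exact h3.of_eq fun r => by simp only [p]
  obtain ⟨f, hfc, hf2⟩ := search_computable p hp.to_comp (by
    intro q
    obtain ⟨T, hT⟩ := exists_good (lst q.1) q.2.unpair.1 q.2.unpair.2.unpair.1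
      q.2.unpair.2.unpair.2
    refine ⟨Encodable.encode T, ?_⟩
    simp only [p, tb, Encodable.encodek, Option.getD_some, decide_eq_true_eq]
    exact hT)
  refine ⟨fun q => tb (f q), htb.to_comp.comp hfc, ?_⟩
  intro L a b c
  have h := hf2 (Encodable.encode L, pr3 a b c)
  simp only [p, pr3, Nat.unpair_pair, lst, Encodable.encodek, Option.getD_some,
    decide_eq_true_eq] at h
  exact h

end Pool.Agent.Lib.H52K
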