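import Pool.Agent.Lib.H52K.S2
import Pool.Agent.Lib.H52K.K8

/-!
The greedy cover contains every pair which is complex relative to the list.
-/

set_option autoImplicit false

namespace Pool.Agent.Lib.H52K

/-- the list with the code `A` -/
def lst (A : ℕ) : List ℕ := ((Encodable.decode A : Option (List ℕ))).getD []

theorem lst_encode (L : List ℕ) : lst (Encodable.encode L) = L := by
  unfold lst
  rw [Encodable.encodek]
  rfl

theorem lst_computable : Computable lst :=
  Computable.option_getD Computable.decode (Computable.const [])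

/-- the relation which is enumerated -/
def S3_R (F : ℕ × ℕ → List (List ℕ × List ℕ)) (p : (ℕ × ℕ) × (ℕ × ℕ)) : Bool :=
  decide (p.2.1 ∈ lst p.1.2.unpair.1) && (!(decide (Cvd (F (p.1.2.unpair.1, p.1.1)) p.2.1)) &&
    (decide (p.2.1.unpair.1 ∈ En p.1.1.unpair.1 p.1.2 p.2.2) &&
      decide (p.2.1.unpair.2 ∈ En p.1.1.unpair.2.unpair.1 p.1.2 p.2.2)))

theorem S3_R_comp (F : ℕ × ℕ → List (List ℕ × List ℕ)) (hF : Computable F) :
    Computable (S3_R F) := by
  have hmem : Computable₂ fun (a : ℕ) (l : List ℕ) => decide (a ∈ l) :=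
    (mem_primrec (α := ℕ)).decide.to_comp
  have hcvd : Computable₂ fun (T : List (List ℕ × List ℕ)) (u : ℕ) => decide (Cvd T u) :=
    S2_cvd.decide.to_comp
  have hand : Computable₂ and := Primrec.and.to_comp
  have hnot : Computable not := Primrec.not.to_comp
  have fs : Computable fun z : ℕ => z.unpair.1 := Computable.fst.comp Computable.unpair
  have sn : Computable fun z : ℕ => z.unpair.2 := Computable.snd.comp Computable.unpair
  have c1 : Computable fun p : (ℕ × ℕ) × (ℕ × ℕ) => p.1.1 := Computable.fst.comp Computable.fst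
  have c2 : Computable fun p : (ℕ × ℕ) × (ℕ × ℕ) => p.1.2 := Computable.snd.comp Computable.fst
  have c3 : Computable fun p : (ℕ × ℕ) × (ℕ × ℕ) => p.2.1 := Computable.fst.comp Computable.snd
  have c4 : Computable fun p : (ℕ × ℕ) × (ℕ × ℕ) => p.2.2 := Computable.snd.comp Computable.snd
  have d1 : Computable fun p : (ℕ × ℕ) × (ℕ × ℕ) => p.1.2.unpair.1 := fs.comp c2
  have d2 : Computable fun p : (ℕ × ℕ) × (ℕ × ℕ) => lst p.1.2.unpair.1 := lst_computable.comp d1
  have d3 : Computable fun p : (ℕ × ℕ) × (ℕ × ℕ) => F (p.1.2.unpair.1, p.1.1) :=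
    hF.comp (d1.pair c1)
  have d4 : Computable fun p : (ℕ × ℕ) × (ℕ × ℕ) => p.2.1.unpair.1 := fs.comp c3
  have d5 : Computable fun p : (ℕ × ℕ) × (ℕ × ℕ) => p.2.1.unpair.2 := sn.comp c3
  have d6 : Computable fun p : (ℕ × ℕ) × (ℕ × ℕ) => p.1.1.unpair.1 := fs.comp c1
  have d7 : Computable fun p : (ℕ × ℕ) × (ℕ × ℕ) => p.1.1.unpair.2.unpair.1 := fs.comp (sn.comp c1)
  have e1 := K8_En d6 c2 c4
  have e2 := K8_En d7 c2 c4
  have f1 := hmem.comp c3 d2
  have f2 := hnot.comp (hcvd.comp d3 c3)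
  have f3 := hmem.comp d4 e1
  have f4 := hmem.comp d5 e2
  exact hand.comp f1 (hand.comp f2 (hand.comp f3 f4))

theorem S3_cover (F : ℕ × ℕ → List (List ℕ × List ℕ)) (hF : Computable F)
    (hgood : ∀ (L : List ℕ) (a b c : ℕ), GoodT L a b c (F (Encodable.encode L, pr3 a b c))) :
    ∃ C, ∀ (L : List ℕ) (x y z a b c : ℕ), Nat.pair x y ∈ L →
      KS x (Nat.pair (Encodable.encode L) z) ≤ a → KS y (Nat.pair (Encodable.encode L) z) ≤ b →
      c + 2 * Nat.size (pr3 a b c) + C < KS (Nat.pair x y) (Nat.pair (Encodable.encode L) z) ∨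
        c = 0 →
      Cvd (F (Encodable.encode L, pr3 a b c)) (Nat.pair x y) := by
  classical
  obtain ⟨C, hC⟩ := KS_ce _ (S3_R_comp F hF)
  refine ⟨C, fun L x y z a b c hL hx hy hc => ?_⟩
  by_contra hcv
  obtain ⟨t1, ht1⟩ := exists_mem_En hx
  obtain ⟨t2, ht2⟩ := exists_mem_En hy
  have hR : S3_R F ((pr3 a b c, Nat.pair (Encodable.encode L) z), (Nat.pair x y, max t1 t2)) =
      true := by
    unfold S3_R
    simp only [pr3, Nat.unpair_pair, lst_encode, Bool.and_eq_true, decide_eq_true_eq,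
      Bool.not_eq_true', decide_eq_false_iff_not]
    refine ⟨hL, hcv, ?_, ?_⟩
    · exact (En_prefix _ _ (le_max_left t1 t2)).subset ht1
    · exact (En_prefix _ _ (le_max_right t1 t2)).subset ht2
  have hcard : ∀ S : Finset ℕ, (∀ u ∈ S, ∃ t, S3_R F ((pr3 a b c,
      Nat.pair (Encodable.encode L) z), (u, t)) = true) → S.card < 2 ^ c := by
    intro S hS
    have h1 : ∀ u ∈ S, u ∈ L ∧ ¬ Cvd (F (Encodable.encode L, pr3 a b c)) u ∧
        KS u.unpair.1 (Nat.pair (Encodable.encode L) z) ≤ a ∧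
        KS u.unpair.2 (Nat.pair (Encodable.encode L) z) ≤ b := by
      intro u hu
      obtain ⟨t, ht⟩ := hS u hu
      unfold S3_R at ht
      simp only [pr3, Nat.unpair_pair, lst_encode, Bool.and_eq_true, decide_eq_true_eq,
        Bool.not_eq_true', decide_eq_false_iff_not] at ht
      exact ⟨ht.1, ht.2.1, KS_le_of_mem_En ht.2.2.1, KS_le_of_mem_En ht.2.2.2⟩
    refine (hgood L a b c).unc S (fun u hu => ⟨(h1 u hu).1, (h1 u hu).2.1⟩) ?_ ?_
    · refine KS_card_le a (Nat.pair (Encodable.encode L) z) _ ?_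
      intro w hw
      obtain ⟨u, hu, rfl⟩ := Finset.mem_image.1 hw
      exact (h1 u hu).2.2.1
    · refine KS_card_le b (Nat.pair (Encodable.encode L) z) _ ?_
      intro w hw
      obtain ⟨u, hu, rfl⟩ := Finset.mem_image.1 hw
      exact (h1 u hu).2.2.2
  rcases hc with hc | hc
  · have h2 := hC (pr3 a b c) (Nat.pair (Encodable.encode L) z) c
      (fun S hS => (hcard S hS).le) (Nat.pair x y) _ hR
    omega
  · have h3 := hcard {Nat.pair x y} (by
      intro u hu
      rw [Finset.mem_singleton] at hu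
      exact ⟨_, hu ▸ hR⟩)
    rw [hc] at h3
    simp at h3

end Pool.Agent.Lib.H52K
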