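import Pool.Agent.Lib.H52K.S3a
import Pool.Agent.Lib.H52K.T

/-!
The name of the rectangle which covers the pair.
-/

set_option autoImplicit false

namespace Pool.Agent.Lib.H52K

/-- the first rectangle containing `(x, y)` -/
def idx (T : List (List ℕ × List ℕ)) (x y : ℕ) : ℕ :=
  T.findIdx fun p => decide (x ∈ p.1) && decide (y ∈ p.2)

theorem idx_primrec : Primrec fun q : List (List ℕ × List ℕ) × (ℕ × ℕ) => idx q.1 q.2.1 q.2.2 := by
  unfold idx
  have hmem : Primrec₂ fun (a : ℕ) (l : List ℕ) => decide (a ∈ l) := (mem_primrec (α := ℕ)).decide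
  have e1 : Primrec fun r : (List (List ℕ × List ℕ) × (ℕ × ℕ)) × (List ℕ × List ℕ) =>
      decide (r.1.2.1 ∈ r.2.1) := hmem.comp (Primrec.fst.comp (Primrec.snd.comp Primrec.fst))
        (Primrec.fst.comp Primrec.snd)
  have e2 : Primrec fun r : (List (List ℕ × List ℕ) × (ℕ × ℕ)) × (List ℕ × List ℕ) =>
      decide (r.1.2.2 ∈ r.2.2) := hmem.comp (Primrec.snd.comp (Primrec.snd.comp Primrec.fst))
        (Primrec.snd.comp Primrec.snd)
  exact Primrec.list_findIdx Primrec.fst (Primrec.and.comp e1 e2).to₂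

theorem idx_spec {T : List (List ℕ × List ℕ)} {x y : ℕ} (h : Cvd T (Nat.pair x y)) :
    idx T x y < T.length ∧ x ∈ (T.getD (idx T x y) ([], [])).1 ∧
      y ∈ (T.getD (idx T x y) ([], [])).2 ∧ T.getD (idx T x y) ([], []) ∈ T := by
  obtain ⟨p, hp, h1, h2⟩ := h
  rw [Nat.unpair_pair] at h1 h2
  have h3 : T.findIdx (fun p => decide (x ∈ p.1) && decide (y ∈ p.2)) < T.length := by
    rw [List.findIdx_lt_length]
    exact ⟨p, hp, by simp only [Bool.and_eq_true, decide_eq_true_eq]; exact ⟨h1, h2⟩⟩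
  have h4 := List.findIdx_getElem (w := h3)
  simp only [Bool.and_eq_true, decide_eq_true_eq] at h4
  unfold idx
  refine ⟨h3, ?_, ?_, ?_⟩
  · rw [List.getD_eq_getElem _ _ h3]; exact h4.1
  · rw [List.getD_eq_getElem _ _ h3]; exact h4.2
  · rw [List.getD_eq_getElem _ _ h3]; exact List.getElem_mem _

theorem S3_g1 (F : ℕ × ℕ → List (List ℕ × List ℕ)) (hF : Computable F) :
    Computable fun q : ℕ × ℕ =>
      ((F (q.2.unpair.1.unpair.1, q.2.unpair.1.unpair.2)).getD q.2.unpair.2 ([], [])).1.getD q.1 0 := by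
  have fs : Computable fun z : ℕ => z.unpair.1 := T_fst
  have sn : Computable fun z : ℕ => z.unpair.2 := T_snd
  have hv : Computable fun q : ℕ × ℕ => q.2 := Computable.snd
  have hT : Computable fun q : ℕ × ℕ => F (q.2.unpair.1.unpair.1, q.2.unpair.1.unpair.2) :=
    hF.comp ((fs.comp (fs.comp hv)).pair (sn.comp (fs.comp hv)))
  have hk : Computable fun q : ℕ × ℕ => q.2.unpair.2 := sn.comp hv
  have hgT := (Primrec.list_getD (α := List ℕ × List ℕ) ([], [])).to_comp.comp hT hk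
  have hg1 := Computable.fst.comp hgT
  exact (Primrec.list_getD (α := ℕ) 0).to_comp.comp hg1 Computable.fst

theorem S3_g2 (F : ℕ × ℕ → List (List ℕ × List ℕ)) (hF : Computable F) :
    Computable fun q : ℕ × ℕ =>
      ((F (q.2.unpair.1.unpair.1, q.2.unpair.1.unpair.2)).getD q.2.unpair.2 ([], [])).2.getD q.1 0 := by
  have fs : Computable fun z : ℕ => z.unpair.1 := T_fst
  have sn : Computable fun z : ℕ => z.unpair.2 := T_snd
  have hv : Computable fun q : ℕ × ℕ => q.2 := Computable.snd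
  have hT : Computable fun q : ℕ × ℕ => F (q.2.unpair.1.unpair.1, q.2.unpair.1.unpair.2) :=
    hF.comp ((fs.comp (fs.comp hv)).pair (sn.comp (fs.comp hv)))
  have hk : Computable fun q : ℕ × ℕ => q.2.unpair.2 := sn.comp hv
  have hgT := (Primrec.list_getD (α := List ℕ × List ℕ) ([], [])).to_comp.comp hT hk
  have hg1 := Computable.snd.comp hgT
  exact (Primrec.list_getD (α := ℕ) 0).to_comp.comp hg1 Computable.fst

theorem S3_g30 (F : ℕ × ℕ → List (List ℕ × List ℕ)) (hF : Computable F) :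
    Computable fun q : ℕ × ℕ => F (q.2.unpair.1, q.1) := by
  have fs : Computable fun z : ℕ => z.unpair.1 := T_fst
  have hv : Computable fun q : ℕ × ℕ => q.2 := Computable.snd
  exact hF.comp ((fs.comp hv).pair Computable.fst)

theorem S3_g31 (F : ℕ × ℕ → List (List ℕ × List ℕ)) (hF : Computable F) :
    Computable fun q : ℕ × ℕ => (F (q.2.unpair.1, q.1),
      (q.2.unpair.2.unpair.1, q.2.unpair.2.unpair.2)) := by
  have fs : Computable fun z : ℕ => z.unpair.1 := T_fst
  have sn : Computable fun z : ℕ => z.unpair.2 := T_snd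
  have hv : Computable fun q : ℕ × ℕ => q.2 := Computable.snd
  have h1 : Computable fun q : ℕ × ℕ => q.2.unpair.2 := sn.comp hv
  have h2 : Computable fun q : ℕ × ℕ => q.2.unpair.2.unpair.1 := fs.comp h1
  have h3 : Computable fun q : ℕ × ℕ => q.2.unpair.2.unpair.2 := sn.comp h1
  exact (S3_g30 F hF).pair (h2.pair h3)

theorem S3_g32 (F : ℕ × ℕ → List (List ℕ × List ℕ)) (hF : Computable F) :
    Computable fun q : ℕ × ℕ =>
      idx (F (q.2.unpair.1, q.1)) q.2.unpair.2.unpair.1 q.2.unpair.2.unpair.2 := by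
  have h := idx_primrec.to_comp.comp (S3_g31 F hF)
  exact h

theorem S3_g3 (F : ℕ × ℕ → List (List ℕ × List ℕ)) (hF : Computable F) :
    Computable fun q : ℕ × ℕ => Nat.pair (Nat.pair q.2.unpair.1 q.1)
      (idx (F (q.2.unpair.1, q.1)) q.2.unpair.2.unpair.1 q.2.unpair.2.unpair.2) := by
  have fs : Computable fun z : ℕ => z.unpair.1 := T_fst
  have hv : Computable fun q : ℕ × ℕ => q.2 := Computable.snd
  have h1 : Computable fun q : ℕ × ℕ => q.2.unpair.1 := fs.comp hv
  have h2 : Computable fun q : ℕ × ℕ => Nat.pair q.2.unpair.1 q.1 := T_pair h1 Computable.fst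
  exact T_pair h2 (S3_g32 F hF)
/-- description by a computable function -/
theorem S3_le (g : ℕ × ℕ → ℕ) (hg : Computable g) : ∃ C, ∀ w z x, g (w, z) = x →
    KS x z ≤ Nat.size w + C := by
  obtain ⟨C, h⟩ := KS_le_partrec (fun p => Part.some (g p)) hg.partrec
  refine ⟨C, fun w z x hx => ?_⟩
  subst hx
  exact h w z _ (Part.mem_some _)

theorem S3_names (F : ℕ × ℕ → List (List ℕ × List ℕ)) (hF : Computable F) :
    ∃ C, ∀ (A θ x y a b : ℕ), (∀ p ∈ F (A, θ), p.1.length ≤ 2 ^ a ∧ p.2.length ≤ 2 ^ b) →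
      Cvd (F (A, θ)) (Nat.pair x y) → ∃ k < (F (A, θ)).length,
        KS x (Nat.pair (Nat.pair A θ) k) ≤ a + C ∧ KS y (Nat.pair (Nat.pair A θ) k) ≤ b + C ∧
        KS (Nat.pair (Nat.pair A θ) k) (Nat.pair A (Nat.pair x y)) ≤ Nat.size θ + C := by
  obtain ⟨C1, h1⟩ := S3_le _ (S3_g1 F hF)
  obtain ⟨C2, h2⟩ := S3_le _ (S3_g2 F hF)
  obtain ⟨C3, h3⟩ := S3_le _ (S3_g3 F hF)
  refine ⟨C1 + C2 + C3, fun A θ x y a b hlen hcv => ?_⟩
  obtain ⟨i1, i2, i3, i4⟩ := idx_spec hcv
  obtain ⟨l1, l2⟩ := hlen _ i4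
  obtain ⟨k, hk⟩ : ∃ k, k = idx (F (A, θ)) x y := ⟨_, rfl⟩
  rw [← hk] at i1 i2 i3 i4 l1 l2
  refine ⟨k, i1, ?_, ?_, ?_⟩
  · obtain ⟨i, hi, hix⟩ := List.getElem_of_mem i2
    have s1 : Nat.size i ≤ a := Nat.size_le.2 (lt_of_lt_of_le hi l1)
    have s2 := h1 i (Nat.pair (Nat.pair A θ) k) x (by
      simp only [Nat.unpair_pair]
      rw [List.getD_eq_getElem _ _ hi]
      exact hix)
    omega
  · obtain ⟨i, hi, hix⟩ := List.getElem_of_mem i3
    have s1 : Nat.size i ≤ b := Nat.size_le.2 (lt_of_lt_of_le hi l2)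
    have s2 := h2 i (Nat.pair (Nat.pair A θ) k) y (by
      simp only [Nat.unpair_pair]
      rw [List.getD_eq_getElem _ _ hi]
      exact hix)
    omega
  · have s2 := h3 θ (Nat.pair A (Nat.pair x y)) (Nat.pair (Nat.pair A θ) k) (by
      simp only [Nat.unpair_pair]
      rw [hk])
    omega

/-- the index of a pair in a list -/
theorem S3_index : ∃ C, ∀ (L : List ℕ) (u : ℕ), u ∈ L →
    KS u (Encodable.encode L) ≤ Nat.size L.length + C := by
  have g1 : Computable fun q : ℕ × ℕ => (lst q.2).getD q.1 0 :=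
    (Primrec.list_getD (α := ℕ) 0).to_comp.comp (lst_computable.comp Computable.snd) Computable.fst
  obtain ⟨C1, h1⟩ := S3_le _ g1
  refine ⟨C1, fun L u hu => ?_⟩
  obtain ⟨i, hi, hiu⟩ := List.getElem_of_mem hu
  have s1 : Nat.size i ≤ Nat.size L.length := Nat.size_le_size hi.le
  have s2 := h1 i (Encodable.encode L) u (by
    simp only [lst_encode]
    rw [List.getD_eq_getElem _ _ hi]
    exact hiu)
  omega

/-- the size of the number of a rectangle -/
theorem S3_size {m k c l : ℕ} (hk : k < m) (h : m * 2 ^ c ≤ l) : Nat.size k + c ≤ Nat.size l := by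
  have h1 : (k + 1) * 2 ^ c ≤ l := (Nat.mul_le_mul_right _ hk).trans h
  rcases Nat.eq_zero_or_pos k with rfl | hk0
  · have h2 : c < Nat.size l := Nat.lt_size.2 (by omega)
    rw [Nat.size_zero]
    omega
  · have h3 : 2 ^ (Nat.size k - 1) ≤ k := by
      have := Nat.lt_size_self k
      have h4 : Nat.size k - 1 < Nat.size k := by
        have : 0 < Nat.size k := Nat.size_pos.2 hk0
        omega
      exact Nat.lt_size.1 h4
    have h5 : 0 < Nat.size k := Nat.size_pos.2 hk0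
    have h6 : 2 ^ (Nat.size k - 1 + c) ≤ l := by
      rw [pow_add]
      calc 2 ^ (Nat.size k - 1) * 2 ^ c ≤ k * 2 ^ c := Nat.mul_le_mul_right _ h3
        _ ≤ (k + 1) * 2 ^ c := Nat.mul_le_mul_right _ (Nat.le_succ k)
        _ ≤ l := h1
    have h7 := Nat.lt_size.2 h6
    omega

end Pool.Agent.Lib.H52K
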