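import Pool.Agent.Lib.H52K.S3b

/-!
The complexities relative to the name of the rectangle.
-/

set_option autoImplicit false

namespace Pool.Agent.Lib.H52K

/-- adding the list to the condition costs `KS A z` -/
theorem S3_gain : ∃ C, ∀ N s A x z, KS A 0 ≤ N → KS x 0 ≤ N → KS A (Nat.pair x z) ≤ s →
    KS x (Nat.pair A z) + KS A z ≤ KS x z + s + er C N := by
  obtain ⟨Cg, hg⟩ := KS_pair_ge
  obtain ⟨Cl, hl⟩ := KS_pair_le
  obtain ⟨Cs, hs⟩ := KS_swap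
  refine ⟨Cg + Cl + Cs, fun N s A x z hA hx h => ?_⟩
  have h1 := hg N A x z hA hx
  have h2 := hl N x A z hx
  have h3 := hs A x z
  have e1 := er_add Cg Cl N
  have e2 := er_add (Cg + Cl) Cs N
  have e3 := le_er Cs N
  omega

/-- the list is simple given the pair -/
theorem S3_simple : ∃ C, ∀ N s x y (L : List ℕ), KS x 0 ≤ N → KS y 0 ≤ N →
    KS (Encodable.encode L) 0 ≤ N → Nat.pair x y ∈ L →
    KS (Encodable.encode L) 0 + Nat.size L.length ≤ KS (Nat.pair x y) 0 + s →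
    KS (Encodable.encode L) (Nat.pair x y) ≤ s + er C N := by
  obtain ⟨Ci, hi⟩ := KS_info
  obtain ⟨Cx, hx⟩ := S3_index
  obtain ⟨Cb, hb⟩ := KS_pair_bound
  obtain ⟨Ci', hi'⟩ := T_er Ci (1 + Cb + 1)
  refine ⟨Ci' + Cx, fun N s x y L hxN hyN hA hL hs => ?_⟩
  have hM : N + 2 ^ er Cb N ≤ 2 ^ er (1 + Cb + 1) N := add_le_pow (le_pow_er N) le_rfl
  have h0 := hb N x y hxN hyN
  have h1 := hi (N + 2 ^ er Cb N) (Nat.pair x y) (Encodable.encode L) (by omega) (by omega)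
  have h2 := hx L (Nat.pair x y) hL
  have h3 := hi' N _ hM
  have e1 := er_add Ci' Cx N
  have e2 := le_er Cx N
  omega

theorem S3_main : ∃ C, ∀ N s x y z (L : List ℕ), KS x 0 ≤ N → KS y 0 ≤ N →
    KS (Encodable.encode L) 0 ≤ N → Nat.size L.length ≤ N → Nat.pair x y ∈ L →
    KS (Encodable.encode L) 0 + Nat.size L.length ≤ KS (Nat.pair x y) 0 + s →
    KS (Encodable.encode L) (Nat.pair x z) ≤ s → KS (Encodable.encode L) (Nat.pair y z) ≤ s →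
    ∃ v, KS v 0 ≤ 2 ^ er C N ∧ KS v (Nat.pair x y) ≤ s + er C N ∧
      KS x v + KS (Encodable.encode L) z ≤ KS x z + s + er C N ∧
      KS y v + KS (Encodable.encode L) z ≤ KS y z + s + er C N ∧
      KS (Nat.pair x y) z + KS v 0 ≤
        KS (Nat.pair x y) 0 + KS (Encodable.encode L) z + s + er C N := by
  obtain ⟨F, hF, hgood⟩ := table_comp
  obtain ⟨Cc, hc⟩ := S3_cover F hF hgood
  obtain ⟨Cn, hn⟩ := S3_names F hF
  obtain ⟨C0, h0⟩ := KS_zero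
  obtain ⟨Cb, hb⟩ := KS_pair_bound
  obtain ⟨Cg, hgain⟩ := S3_gain
  obtain ⟨Csi, hsi⟩ := S3_simple
  obtain ⟨Cu, hu⟩ := KS_upper
  obtain ⟨Cl, hl⟩ := KS_pair_le
  obtain ⟨Cm, hm⟩ := KS_num
  -- the size of the parameters
  obtain ⟨C1, hC1⟩ : ∃ C1, C1 = Cb + C0 + 1 + (1 + C0 + 1) + 1 := ⟨_, rfl⟩
  obtain ⟨C2, hC2⟩ : ∃ C2, C2 = 2 * (C1 + (2 * (C1 + C1) + 4)) + 4 := ⟨_, rfl⟩
  obtain ⟨C3, hC3⟩ : ∃ C3, C3 = 1 + (C2 + 1 + 1) + 1 + (Cm + (Cl + 1) + 1) + 1 := ⟨_, rfl⟩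
  obtain ⟨Cl', hl'⟩ := T_er Cl C3
  obtain ⟨K, hK⟩ : ∃ K, K = 10 * (C2 + 1) + 10 * Cc + 10 * Cn + 10 * C0 + 10 * Cg + 10 * Csi +
    10 * Cu + 10 * Cl + 10 * Cm + 10 * Cl' + 10 := ⟨_, rfl⟩
  refine ⟨K + (K + 3), fun N s x y z L hx hy hA hLN hL hs hxz hyz => ?_⟩
  obtain ⟨A, hAdef⟩ : ∃ A, A = Encodable.encode L := ⟨_, rfl⟩
  have hsim := hsi N s x y L hx hy hA hL hs
  rw [← hAdef] at hA hs hxz hyz hsim
  obtain ⟨a, ha⟩ : ∃ a, a = KS x (Nat.pair A z) := ⟨_, rfl⟩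
  obtain ⟨b, hb'⟩ : ∃ b, b = KS y (Nat.pair A z) := ⟨_, rfl⟩
  obtain ⟨c0, hc0⟩ : ∃ c0, c0 = KS (Nat.pair x y) (Nat.pair A z) := ⟨_, rfl⟩
  obtain ⟨c, hcdef⟩ : ∃ c, c = c0 - (2 * er (C2 + 1) N + Cc + 1) := ⟨_, rfl⟩
  obtain ⟨θ, hθ⟩ : ∃ θ, θ = pr3 a b c := ⟨_, rfl⟩
  have b1 := h0 x (Nat.pair A z)
  have b2 := h0 y (Nat.pair A z)
  have b3 := h0 (Nat.pair x y) (Nat.pair A z)
  have b4 := hb N x y hx hy
  have hN1 : N + C0 ≤ 2 ^ er (1 + C0 + 1) N := add_le_pow (le_pow_er N) (const_le_pow C0 N)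
  have hN2 : 2 ^ er Cb N + C0 ≤ 2 ^ er (Cb + C0 + 1) N := add_le_pow le_rfl (const_le_pow C0 N)
  have p1 : a ≤ 2 ^ er C1 N := by
    have := pow_er_mono N (show 1 + C0 + 1 ≤ C1 by omega)
    omega
  have p2 : b ≤ 2 ^ er C1 N := by
    have := pow_er_mono N (show 1 + C0 + 1 ≤ C1 by omega)
    omega
  have p3 : c ≤ 2 ^ er C1 N := by
    have := pow_er_mono N (show Cb + C0 + 1 ≤ C1 by omega)
    omega
  have hθ1 : θ ≤ 2 ^ er C2 N := by
    rw [hθ, hC2, pr3]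
    exact pair_le_pow p1 (pair_le_pow p2 p3)
  have hθ2 : Nat.size θ ≤ er (C2 + 1) N := size_le_of_le_pow hθ1
  have hcov : Cvd (F (A, θ)) (Nat.pair x y) := by
    rw [hθ, hAdef]
    refine hc L x y z a b c hL ?_ ?_ ?_
    · rw [ha, hAdef]
    · rw [hb', hAdef]
    · rw [← hAdef, ← hθ, ← hc0]
      omega
  obtain ⟨g1, g2, g3⟩ := hgood L a b c
  rw [← hAdef, ← hθ] at g1 g2
  obtain ⟨k, hk, n1, n2, n3⟩ := hn A θ x y a b g2 hcov
  have hks := S3_size hk g1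
  obtain ⟨v, hv⟩ : ∃ v, v = Nat.pair (Nat.pair A θ) k := ⟨_, rfl⟩
  rw [← hv] at n1 n2 n3
  -- the complexity of v
  have v1 := hl N A θ 0 hA
  have v2 := hm θ (Nat.pair A 0)
  have hN3 : N + (er (C2 + 1) N) + (Cm + er Cl N) ≤ 2 ^ er C3 N := by
    rw [hC3]
    exact add_le_pow (add_le_pow (le_pow_er N) (er_le_pow (C2 + 1) N))
      (add_le_pow (const_le_pow Cm N) (er_le_pow Cl N))
  have v3 : KS (Nat.pair A θ) 0 ≤ N + (er (C2 + 1) N) + (Cm + er Cl N) := by omega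
  have v4 := hl _ (Nat.pair A θ) k 0 v3
  have v5 := hl' N _ hN3
  have v6 := hm k (Nat.pair (Nat.pair A θ) 0)
  rw [← hv] at v4
  -- the other complexities
  have u1 := hu N (Nat.pair x y) A z hA
  have u2 := hu N v A (Nat.pair x y) hA
  have u3 := hgain N s A x z hA hx hxz
  have u4 := hgain N s A y z hA hy hyz
  -- the errors
  have f1 := er_mul (C2 + 1) 10 N
  have f2 := le_er (10 * Cc) N
  have f3 := le_er (10 * Cn) N
  have f4 := le_er (10 * C0) N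
  have f5 := er_mul Cg 10 N
  have f6 := er_mul Csi 10 N
  have f7 := er_mul Cu 10 N
  have f8 := er_mul Cl 10 N
  have f9 := le_er (10 * Cm) N
  have f10 := er_mul Cl' 10 N
  have f11 := le_er 10 N
  have f12 : er K N = er (10 * (C2 + 1)) N + er (10 * Cc) N + er (10 * Cn) N + er (10 * C0) N +
      er (10 * Cg) N + er (10 * Csi) N + er (10 * Cu) N + er (10 * Cl) N + er (10 * Cm) N +
      er (10 * Cl') N + er 10 N := by
    simp only [er_add]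
    rw [hK]
  have f13 := er_mono_left N (Nat.le_add_right K (K + 3))
  rw [← hAdef]
  refine ⟨v, ?_, by omega, by omega, by omega, by omega⟩
  have w1 : KS v 0 ≤ N + N + er K N := by omega
  have w2 : N + N + er K N ≤ 2 ^ er (1 + 1 + 1 + (K + 1) + 1) N :=
    add_le_pow (add_le_pow (le_pow_er N) (le_pow_er N)) (er_le_pow K N)
  refine w1.trans (w2.trans (pow_er_mono N ?_))
  omega

end Pool.Agent.Lib.H52K
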