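import Pool.Agent.Lib.H52K.S3c
import Pool.Agent.Lib.H52K.F1

/-!
Walking back along the path of the name by `KS A z` steps.
-/

set_option autoImplicit false

namespace Pool.Agent.Lib.H52K

theorem S4_walk : ∃ C, ∀ N s β x y z v, KS x 0 ≤ N → KS y 0 ≤ N → KS v 0 ≤ N →
    KS v (Nat.pair x y) ≤ s → KS x v + β ≤ KS x z + s → KS y v + β ≤ KS y z + s →
    KS (Nat.pair x y) z + KS v 0 ≤ KS (Nat.pair x y) 0 + β + s →
    ∃ w, KS w 0 ≤ 2 ^ er C N ∧ KS w (Nat.pair x y) ≤ s + er C N ∧ KS x w ≤ KS x z + s + er C N ∧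
      KS y w ≤ KS y z + s + er C N ∧ KS (Nat.pair x y) z ≤ KS (Nat.pair x y) w + s + er C N := by
  obtain ⟨Cp, hp⟩ := F1_path
  obtain ⟨C0, h0⟩ := KS_zero
  obtain ⟨Ct, ht⟩ := KS_trans
  obtain ⟨Ct', ht'⟩ := T_er Ct (1 + (Cp + 1) + 1)
  refine ⟨(Cp + Cp + Ct + Ct' + C0) + (1 + (Cp + 1) + 1),
    fun N s β x y z v hx hy hv h1 h2 h3 h4 => ?_⟩
  obtain ⟨p, p0, p1, p2⟩ := hp N v hv
  have hN : N + er Cp N ≤ 2 ^ er (1 + (Cp + 1) + 1) N := add_le_pow (le_pow_er N) (er_le_pow Cp N)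
  have hτ := ht' N _ hN
  have e1 := er_add Cp Cp N
  have e2 := er_add (Cp + Cp) Ct N
  have e3 := er_add (Cp + Cp + Ct) Ct' N
  have e4 := er_add (Cp + Cp + Ct + Ct') C0 N
  have e5 := le_er C0 N
  have e6 := er_mono_left N (Nat.le_add_right (Cp + Cp + Ct + Ct' + C0) (1 + (Cp + 1) + 1))
  obtain ⟨q1, q1', q2, q3, q4⟩ := p1 (KS v 0 - β) (Nat.sub_le _ _)
  have c1 : KS (p (KS v 0 - β)) 0 ≤ N + er Cp N := by omega
  have c2 := ht N (p (KS v 0 - β)) v (Nat.pair x y) hv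
  have c3 := q3 x
  have c4 := q3 y
  refine ⟨p (KS v 0 - β), ?_, by omega, by omega, by omega, ?_⟩
  · refine c1.trans (hN.trans (pow_er_mono N ?_))
    omega
  · rcases le_or_gt β (KS v 0) with hβ | hβ
    · have d2 := ht (N + er Cp N) (Nat.pair x y) (p (KS v 0 - β)) 0 c1
      omega
    · have d3 : KS v 0 - β = 0 := by omega
      rw [d3, p0]
      have := h0 (Nat.pair x y) z
      omega

end Pool.Agent.Lib.H52K
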