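import Pool.Agent.Lib.H52K.F2b
import Pool.Agent.Lib.H52K.M1

/-!
`step2_path`, `step2` and `step3` with an arbitrary starting point `v`.
-/

set_option autoImplicit false

namespace Pool.Agent.Lib.H52K

/-- Moving along the path from `v` to `0` until both complexities are large enough. -/
theorem S4_path : ∃ C, ∀ ν ε x y z v, KS x 0 ≤ ν → KS y 0 ≤ ν → KS v 0 ≤ ν →
    KS v (Nat.pair x y) ≤ ε → KS x v ≤ KS x z + ε → KS y v ≤ KS y z + ε →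
    KS (Nat.pair x y) z ≤ KS (Nat.pair x y) v + ε → ∃ w,
    KS w 0 ≤ 2 ^ er C ν ∧ KS w (Nat.pair x y) ≤ ε + er C ν ∧
    KS x z ≤ KS x w + er C ν ∧ KS y z ≤ KS y w + er C ν ∧
    KS x w + KS (Nat.pair x y) z ≤ KS (Nat.pair x y) w + KS x z + 2 * ε + er C ν ∧
    KS y w + KS (Nat.pair x y) z ≤ KS (Nat.pair x y) w + KS y z + 2 * ε + er C ν ∧
    KS (Nat.pair x y) z ≤ KS (Nat.pair x y) w + ε + er C ν ∧
    (KS x w ≤ KS x z + ε + er C ν ∨ KS y w ≤ KS y z + ε + er C ν) := by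
  classical
  obtain ⟨Cp, hp⟩ := F1_path
  obtain ⟨C0, h0⟩ := KS_zero
  obtain ⟨Ct, ht⟩ := KS_trans
  obtain ⟨Cx, hX⟩ := F2b_aux
  obtain ⟨Cs, hs⟩ := KS_swap
  obtain ⟨Cx', hX'⟩ := T_er Cx (1 + (1 + (Cp + 1) + 1) + 1)
  refine ⟨(2 * Cp + Ct + Cx' + (C0 + 2 * Cs + 1)) + (1 + (Cp + 1) + 1),
    fun ν ε x y z v hx hy hv a2 a3 a4 a5 => ?_⟩
  obtain ⟨p, p0, p1, p2⟩ := hp ν v hv
  have e2 := er_mul Cp 2 ν
  have e4 := er_add (2 * Cp) Ct ν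
  have e5 := er_add (2 * Cp + Ct) Cx' ν
  have e6 := er_add (2 * Cp + Ct + Cx') (C0 + 2 * Cs + 1) ν
  have e7 := le_er (C0 + 2 * Cs + 1) ν
  have e8 := er_mono_left ν (Nat.le_add_right (2 * Cp + Ct + Cx' + (C0 + 2 * Cs + 1))
    (1 + (Cp + 1) + 1))
  have hbd : ν + er Cp ν ≤ 2 ^ er (1 + (Cp + 1) + 1) ν :=
    add_le_pow (le_pow_er ν) (er_le_pow Cp ν)
  have hbx : ν + (ν + er Cp ν) ≤ 2 ^ er (1 + (1 + (Cp + 1) + 1) + 1) ν :=
    add_le_pow (le_pow_er ν) hbd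
  have hξ := hX' ν _ hbx
  set P : ℕ → Prop := fun r => KS x z ≤ KS x (p r) + C0 ∧ KS y z ≤ KS y (p r) + C0 with hP
  have hP0 : P 0 := ⟨by rw [p0]; exact h0 x z, by rw [p0]; exact h0 y z⟩
  obtain ⟨r, hr⟩ : ∃ r, r = Nat.findGreatest P (KS v 0) := ⟨_, rfl⟩
  have hrs : r ≤ KS v 0 := hr ▸ Nat.findGreatest_le _
  have hPr : P r := hr ▸ Nat.findGreatest_spec (Nat.zero_le _) hP0
  have hnP : r < KS v 0 → ¬ P (r + 1) := fun h =>
    Nat.findGreatest_is_greatest (P := P) (n := KS v 0) (by omega) (by omega)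
  obtain ⟨q1, q1', q2, q3, q4⟩ := p1 r hrs
  have c1 : KS (p r) 0 ≤ ν + er Cp ν := by omega
  have c2 := ht ν (p r) v (Nat.pair x y) hv
  have c3 := hX (ν + (ν + er Cp ν)) x y v (p r) (hx.trans (Nat.le_add_right _ _))
    (hy.trans (Nat.le_add_right _ _)) (c1.trans (Nat.le_add_left _ _))
  have c4 := hX (ν + (ν + er Cp ν)) y x v (p r) (hy.trans (Nat.le_add_right _ _))
    (hx.trans (Nat.le_add_right _ _)) (c1.trans (Nat.le_add_left _ _))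
  have c5 := hs x y v
  have c6 := hs y x (p r)
  have c7 := q4 (Nat.pair x y)
  obtain ⟨g1, g2⟩ := hPr
  refine ⟨p r, ?_, by omega, by omega, by omega, by omega, by omega, by omega, ?_⟩
  · refine c1.trans (hbd.trans (pow_er_mono ν ?_))
    omega
  · rcases hrs.lt_or_eq with hlt | heq
    · have g3 := hnP hlt
      have g4 := p2 r hlt x
      have g5 := p2 r hlt y
      simp only [hP, not_and_or, not_le] at g3
      rcases g3 with g3 | g3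
      · left; omega
      · right; omega
    · left
      have g6 := q3 x
      omega

/-- From the inequalities to the exact triple. -/
theorem exact_of_ineq : ∃ C, ∀ ν ε x y z v, KS x 0 ≤ ν → KS y 0 ≤ ν → KS v 0 ≤ ν →
    KS v (Nat.pair x y) ≤ ε → KS x v ≤ KS x z + ε → KS y v ≤ KS y z + ε →
    KS (Nat.pair x y) z ≤ KS (Nat.pair x y) v + ε → ∃ w,
    KS w (Nat.pair x y) ≤ C * ε + er C ν ∧
    KS x w ≤ KS x z + C * ε + er C ν ∧ KS x z ≤ KS x w + C * ε + er C ν ∧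
    KS y w ≤ KS y z + C * ε + er C ν ∧ KS y z ≤ KS y w + C * ε + er C ν ∧
    KS (Nat.pair x y) w ≤ KS (Nat.pair x y) z + C * ε + er C ν ∧
    KS (Nat.pair x y) z ≤ KS (Nat.pair x y) w + C * ε + er C ν := by
  obtain ⟨C1, h1⟩ := S4_path
  obtain ⟨C2, h2⟩ := step2_hash
  obtain ⟨C3, h3⟩ := M1_pair
  obtain ⟨Ca, ha⟩ := KS_fst
  obtain ⟨Cb, hb⟩ := KS_snd
  obtain ⟨Cs, hs⟩ := KS_swap
  obtain ⟨Cw, hw⟩ := KS_cswap
  obtain ⟨C2', h2'⟩ := T_er C2 (1 + C1 + 1)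
  obtain ⟨C3', h3'⟩ := T_er C3 (1 + C1 + 1 + C2 * (1 + C1 + 1 + 2) + 1)
  obtain ⟨k, hk⟩ : ∃ k, k = Ca + Cb + Cs + Cw := ⟨_, rfl⟩
  obtain ⟨K, hK⟩ : ∃ K, K = 200 + 200 * k + 200 * C1 + 200 * C2' + 200 * C3' := ⟨_, rfl⟩
  refine ⟨K, fun ν ε x y z v hx hy hv a2 a3 a4 a5 => ?_⟩
  obtain ⟨w, b1, b2, b3, b4, b5, b6, b7, b8⟩ := h1 ν ε x y z v hx hy hv a2 a3 a4 a5
  have hbd : ν + 2 ^ er C1 ν ≤ 2 ^ er (1 + C1 + 1) ν := add_le_pow (le_pow_er ν) le_rfl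
  have hE2 := h2' ν _ hbd
  have hx' : KS x 0 ≤ ν + 2 ^ er C1 ν := hx.trans (Nat.le_add_right _ _)
  have hy' : KS y 0 ≤ ν + 2 ^ er C1 ν := hy.trans (Nat.le_add_right _ _)
  have hw' : KS w 0 ≤ ν + 2 ^ er C1 ν := b1.trans (Nat.le_add_left _ _)
  have k1 := hb x y z
  have k2 := ha x y z
  obtain ⟨ε₁, hε₁⟩ : ∃ ε₁, ε₁ = 2 * ε + er C1 ν + k := ⟨_, rfl⟩
  obtain ⟨ε₂, hε₂⟩ : ∃ ε₂, ε₂ = 8 * ε₁ + er C2' ν + k := ⟨_, rfl⟩
  -- after one hashing step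
  have key : ∃ w', KS w' 0 ≤ 2 ^ er C2 (ν + 2 ^ er C1 ν) ∧ KS w' (Nat.pair x y) ≤ ε₂ ∧
      KS x w' ≤ KS x z + ε₂ ∧ KS x z ≤ KS x w' + ε₂ ∧ KS y w' ≤ KS y z + ε₂ ∧
      KS y z ≤ KS y w' + ε₂ ∧ KS (Nat.pair x y) z ≤ KS (Nat.pair x y) w' + ε₂ := by
    rcases b8 with b8 | b8
    · obtain ⟨w', c1, c2, c3, c4, c5, c6, c7⟩ := h2 (ν + 2 ^ er C1 ν) ε₁ y x w (KS y z)
        (KS x z) (KS (Nat.pair x y) z) hy' hx' hw' (by have := hw w y x; omega) (by omega)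
        (by omega) (by omega) (by have := hs x y w; omega) (by have := hs x y w; omega) (by omega)
      refine ⟨w', c1, ?_, by omega, by omega, by omega, by omega, ?_⟩
      · have := hw w' x y; omega
      · have := hs y x w'; omega
    · obtain ⟨w', c1, c2, c3, c4, c5, c6, c7⟩ := h2 (ν + 2 ^ er C1 ν) ε₁ x y w (KS x z)
        (KS y z) (KS (Nat.pair x y) z) hx' hy' hw' (by omega) (by omega) (by omega)
        (by omega) (by omega) (by omega) (by omega)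
      exact ⟨w', c1, by omega, by omega, by omega, by omega, by omega, by omega⟩
  obtain ⟨w', c1, c2, c3, c4, c5, c6, c7⟩ := key
  have c1' : KS w' 0 ≤ 2 ^ er (C2 * (1 + C1 + 1 + 2)) ν :=
    c1.trans (Nat.pow_le_pow_right (by norm_num) ((er_mono_right C2 hbd).trans (er_pow _ _ _)))
  have hν3 : (ν + 2 ^ er C1 ν) + 2 ^ er (C2 * (1 + C1 + 1 + 2)) ν ≤
      2 ^ er (1 + C1 + 1 + C2 * (1 + C1 + 1 + 2) + 1) ν := add_le_pow hbd le_rfl
  have hE3 := h3' ν _ hν3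
  obtain ⟨w'', d1, d2, d3, d4, d5, d6, d7⟩ := h3 _ ε₂ x y w' (KS x z) (KS y z)
    (KS (Nat.pair x y) z) (show KS x 0 ≤ (ν + 2 ^ er C1 ν) + 2 ^ er (C2 * (1 + C1 + 1 + 2)) ν by omega)
    (by omega) (by omega) (by omega) (by omega) (by omega) (by omega) (by omega) (by omega)
    (by omega) (by omega)
  have f1 := er_mul C1 200 ν
  have f2 := er_mul C2' 200 ν
  have f3 := er_mul C3' 200 ν
  have f4 := le_er (200 + 200 * k) ν
  have f5 := er_add (200 + 200 * k) (200 * C1) ν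
  have f6 := er_add (200 + 200 * k + 200 * C1) (200 * C2') ν
  have f7 := er_add (200 + 200 * k + 200 * C1 + 200 * C2') (200 * C3') ν
  rw [← hK] at f7
  have f8 : 200 * ε ≤ K * ε := Nat.mul_le_mul_right ε (by omega)
  exact ⟨w'', by omega, by omega, by omega, by omega, by omega, by omega, by omega⟩

end Pool.Agent.Lib.H52K
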