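import Pool.Agent.Lib.H52K.S4a
import Pool.Agent.Lib.H52K.S4b

/-!
All strings `z` for which a sufficient statistic of `(x, y)` is simple given `(x, z)` and given `(y, z)`.
-/

set_option autoImplicit false

namespace Pool.Agent.Lib.H52K

theorem S5_log (n s : ℕ) : Nat.log 2 (n + s) ≤ Nat.log 2 n + s := by
  rcases Nat.eq_zero_or_pos (n + s) with h0 | h0
  · rw [h0]; simp
  · have h1 : n < 2 ^ (Nat.log 2 n + 1) := Nat.lt_pow_succ_log_self (by norm_num) n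
    have h2 : s < 2 ^ s := Nat.lt_two_pow_self
    have h3 : n + s < 2 ^ (Nat.log 2 n + 1 + s) := by
      rw [pow_add (2 : ℕ) (Nat.log 2 n + 1) s]
      nlinarith
    have h4 := (Nat.log_lt_iff_lt_pow (b := 2) (by norm_num) (by omega)).2 h3
    omega

theorem main3 : ∃ C, ∀ n s x y z (L : List ℕ), KS x 0 ≤ n → KS y 0 ≤ n → Nat.pair x y ∈ L →
    KS (Encodable.encode L) 0 + Nat.log 2 L.length ≤ KS (Nat.pair x y) 0 + s →
    KS (Encodable.encode L) (Nat.pair x z) ≤ s → KS (Encodable.encode L) (Nat.pair y z) ≤ s →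
    ∃ z' : ℕ,
      |(KS x z : ℤ) - (KS x z' : ℤ)| ≤ ((C * Nat.log 2 n + C * s + C : ℕ) : ℤ) ∧
      |(KS y z : ℤ) - (KS y z' : ℤ)| ≤ ((C * Nat.log 2 n + C * s + C : ℕ) : ℤ) ∧
      |(KS (Nat.pair x y) z : ℤ) - (KS (Nat.pair x y) z' : ℤ)|
        ≤ ((C * Nat.log 2 n + C * s + C : ℕ) : ℤ) ∧
      KS z' (Nat.pair x y) ≤ C * Nat.log 2 n + C * s + C := by
  obtain ⟨Cb, hb⟩ := KS_pair_bound
  obtain ⟨C1, h1⟩ := S3_main
  obtain ⟨C2, h2⟩ := S4_walk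
  obtain ⟨C3, h3⟩ := exact_of_ineq
  -- the bounds: N, N', N''
  obtain ⟨B, hB⟩ : ∃ B, B = Cb + 1 + 1 + 1 + 1 := ⟨_, rfl⟩
  obtain ⟨B', hB'⟩ : ∃ B', B' = B + C1 * (B + 2) + 1 := ⟨_, rfl⟩
  obtain ⟨B'', hB''⟩ : ∃ B'', B'' = B' + C2 * (B' + 2) + 1 := ⟨_, rfl⟩
  obtain ⟨D1, hD1⟩ := T_er C1 B
  obtain ⟨D2, hD2⟩ := T_er C2 B'
  obtain ⟨D3, hD3⟩ := T_er C3 B''
  obtain ⟨E, hE⟩ : ∃ E, E = C3 * (D1 + D2 + 1) + D3 := ⟨_, rfl⟩
  obtain ⟨K, hK⟩ : ∃ K, K = 2 * E + (2 * E + C3) := ⟨_, rfl⟩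
  refine ⟨K, fun n s x y z L hx hy hL hs hxz hyz => ?_⟩
  have hlen : 0 < L.length := List.length_pos_of_mem hL
  have hsz : Nat.size L.length ≤ Nat.log 2 L.length + 1 := by
    rw [Nat.size_le]
    exact Nat.lt_pow_succ_log_self (by norm_num) _
  have hp := hb (n + s) x y (by omega) (by omega)
  obtain ⟨N, hN⟩ : ∃ N, N = 2 ^ er Cb (n + s) + (n + s) + 1 := ⟨_, rfl⟩
  have hN1 : N ≤ 2 ^ er B (n + s) := by
    rw [hN, hB]
    exact add_le_pow (C := Cb + 1 + 1) (C' := 1)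
      (add_le_pow (C := Cb) (C' := 1) le_rfl (le_pow_er (n + s))) (const_le_pow 1 (n + s))
  obtain ⟨v, v1, v2, v3, v4, v5⟩ := h1 N (s + 1) x y z L (by omega) (by omega) (by omega)
    (by omega) hL (by omega) (by omega) (by omega)
  obtain ⟨N', hN'⟩ : ∃ N', N' = N + 2 ^ er C1 N := ⟨_, rfl⟩
  have hpw : 2 ^ er C1 N ≤ 2 ^ er (C1 * (B + 2)) (n + s) :=
    Nat.pow_le_pow_right (by norm_num) ((er_mono_right C1 hN1).trans (er_pow _ _ _))
  have hN1' : N' ≤ 2 ^ er B' (n + s) := by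
    rw [hN', hB']
    exact add_le_pow hN1 hpw
  have q1 := hD1 (n + s) N hN1
  obtain ⟨s', hs'⟩ : ∃ s', s' = s + 1 + er C1 N := ⟨_, rfl⟩
  obtain ⟨w, w1, w2, w3, w4, w5⟩ := h2 N' s' (KS (Encodable.encode L) z) x y z v (by omega)
    (by omega) (by omega) (by omega) (by omega) (by omega) (by omega)
  obtain ⟨N'', hN''⟩ : ∃ N'', N'' = N' + 2 ^ er C2 N' := ⟨_, rfl⟩
  have hpw' : 2 ^ er C2 N' ≤ 2 ^ er (C2 * (B' + 2)) (n + s) :=
    Nat.pow_le_pow_right (by norm_num) ((er_mono_right C2 hN1').trans (er_pow _ _ _))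
  have hN1'' : N'' ≤ 2 ^ er B'' (n + s) := by
    rw [hN'', hB'']
    exact add_le_pow hN1' hpw'
  have q2 := hD2 (n + s) N' hN1'
  obtain ⟨w', u1, u2, u3, u4, u5, u6, u7⟩ := h3 N'' (s' + er C2 N') x y z w (by omega) (by omega)
    (by omega) (by omega) (by omega) (by omega) (by omega)
  have q3 := hD3 (n + s) N'' hN1''
  -- the total error
  have t1 : s' + er C2 N' ≤ s + er (D1 + D2 + 1) (n + s) := by
    have := er_add D1 D2 (n + s)
    have := er_add (D1 + D2) 1 (n + s)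
    have := le_er 1 (n + s)
    omega
  have t2 : C3 * (s' + er C2 N') + er C3 N'' ≤ C3 * s + er E (n + s) := by
    have a1 : C3 * (s' + er C2 N') ≤ C3 * s + er (C3 * (D1 + D2 + 1)) (n + s) := by
      rw [← er_mul, ← Nat.mul_add]
      exact Nat.mul_le_mul_left C3 t1
    have a2 := er_add (C3 * (D1 + D2 + 1)) D3 (n + s)
    rw [← hE] at a2
    omega
  have t3 := er_log E (n + s)
  have t4 : 2 * E * Nat.log 2 (n + s) ≤ 2 * E * Nat.log 2 n + 2 * E * s := by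
    rw [← Nat.mul_add]
    exact Nat.mul_le_mul_left _ (S5_log n s)
  have t5 : 2 * E * Nat.log 2 n ≤ K * Nat.log 2 n := Nat.mul_le_mul_right _ (by omega)
  have t6 : C3 * s + 2 * E * s ≤ K * s := by
    rw [← Nat.add_mul]
    exact Nat.mul_le_mul_right _ (by omega)
  have t7 : C3 * (s' + er C2 N') + er C3 N'' ≤ K * Nat.log 2 n + K * s + K := by omega
  refine ⟨w', ?_, ?_, ?_, by omega⟩
  · rw [abs_le]; omega
  · rw [abs_le]; omega
  · rw [abs_le]; omega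

end Pool.Agent.Lib.H52K
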